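import Pool.Agent.H77.STB.Clg
import Pool.Agent.H77.Z3.Nod

/-!
# Balls and a static node on one event

`BlS`: chains at balls of radii `A 0, …, A N` and at the static node `(A N, A 0)`, with the
comparisons of neighbours and the own lines. `bls_fam`: it exists on a large event if there is no
relation at the balls.
-/

set_option autoImplicit false

namespace Pool.STB77

open Finset Real MvPolynomial
open Pool.Agent.H49.Ent Pool.Agent.H32.Dense Pool.STK Pool.KA Pool.KSAT Pool.K2S Pool.PB Pool.S6C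
open Pool.GEN Pool.CHT Pool.NVX
open Pool.FLF (Fam.sub)
open Pool.PB.Trl (rt rt_mem t_rt)

variable {m J : ℕ}

/-! ### Events -/

/-- **Finitely many properties of events**, one after the other. -/
theorem fin_ev {Ω : Type} [Fintype Ω] {p : Ω → ℝ} (B : Ω → Prop) (n : ℕ) {K : ℝ} (hK : 1 ≤ K)
    (hp : ∀ A : Ω → Prop, 0 ≤ Pe p A) (Φ : ℕ → (Ω → Prop) → Prop)
    (hmono : ∀ i B₁ B₂, Sub B₂ B₁ → Φ i B₁ → Φ i B₂)
    (hst : ∀ i < n, ∀ B', Sub B' B → Pe p B ≤ K ^ n * Pe p B' →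
      ∃ B'', Sub B'' B' ∧ Pe p B' ≤ K * Pe p B'' ∧ Φ i B'') :
    ∃ B', Sub B' B ∧ Pe p B ≤ K ^ n * Pe p B' ∧ ∀ i < n, Φ i B' := by
  have key : ∀ j ≤ n, ∃ B', Sub B' B ∧ Pe p B ≤ K ^ j * Pe p B' ∧ ∀ i < j, Φ i B' := by
    intro j
    induction j with
    | zero => exact fun _ => ⟨B, fun _ h => h, by rw [pow_zero, one_mul],
        fun i hi => absurd hi (Nat.not_lt_zero i)⟩
    | succ j ih =>
      intro hj
      obtain ⟨B', h1, h2, h3⟩ := ih (by omega)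
      obtain ⟨B'', k1, k2, k3⟩ := hst j (by omega) B' h1
        (h2.trans (mul_le_mul_of_nonneg_right (pow_le_pow_right₀ hK (by omega)) (hp B')))
      refine ⟨B'', fun ω hω => h1 ω (k1 ω hω), ?_, fun i hi => ?_⟩
      · calc Pe p B ≤ K ^ j * Pe p B' := h2
          _ ≤ K ^ j * (K * Pe p B'') :=
              mul_le_mul_of_nonneg_left k2 (pow_nonneg (by linarith) _)
          _ = _ := by ring
      · rcases Nat.lt_succ_iff_lt_or_eq.1 hi with h | h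
        · exact hmono i B' B'' k1 (h3 i h)
        · rw [h]
          exact k3
  exact key n le_rfl

/-! ### Windows -/

/-- A chain at a smaller radius and a shorter window. -/
theorem chok_win {F : Fam m J} {c : ℕ → Fin m} {r : ℕ} {K : ℕ → ℕ} {a a' w w' e : ℕ} {g : ℕ → ℕ}
    {B : F.Ω → Prop} {G : PtT F → ℕ → MvPolynomial (Option (Fin m)) ℝ}
    {H : LnT F → ℕ → MvPolynomial (Option (Fin m)) ℝ} (h : ChOK F c r K a w e g B G H)
    (ha : a ≤ a') (hw : w ≤ w') (hw' : w' ≤ J) :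
    ChOK F c r K a' w' e g B G (fun S => H (cos F w w' S)) := by
  refine ⟨h.degG, fun S i => h.degH _ i, h.depG, fun S i => h.depH _ i, h.pos,
    fun ω hω i hi b hb => ?_, fun ω hω i hi b hb => h.lip ω hω i hi b (hb.mono ha le_rfl)⟩
  show |eval b (G (ptr F J ω) i) - eval b (H (cos F w w' (slam F w' ω)) i)| ≤ _
  rw [cos_slam F hw hw' ω]
  exact h.agr ω hω i hi b (hb.mono ha le_rfl)

/-- **Two chains**: the labels of a coarse chain on the natural boxes of a chain without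
relations. -/
theorem uni_two (D R : ℕ) (hD : 1 ≤ D) : ∃ C : ℕ, ∀ {m J : ℕ} {F : Fam m J} {c : ℕ → Fin m}
    {a w a' w' e e' h : ℕ} {g g' : ℕ → ℕ} {κ κ' : ℝ} {B₀ B' : F.Ω → Prop}
    {T G : PtT F → ℕ → MvPolynomial (Option (Fin m)) ℝ}
    {TH H : LnT F → ℕ → MvPolynomial (Option (Fin m)) ℝ}, Set.InjOn c (Set.Iio R) →
    a ≤ a' → w ≤ w' → w' ≤ J → RelvF F c R a' w' g' D h κ B₀ T → Sub B' B₀ →
    κ' * Pe F.p B₀ ≤ Pe F.p B' → κ * 2 ^ R ≤ κ' → ChOK F c R (fun _ => D) a' w' e' g' B' T TH →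
    ChOK F c R (fun _ => D) a w e g B' G H →
    ∃ B : F.Ω → Prop, Sub B B' ∧ Pe F.p B' ≤ 2 ^ R * Pe F.p B ∧
      (∀ ω, B ω → ∀ l < R, ∀ b, NBx c (T (ptr F J ω)) g' a' (F.t ω) l b →
        |eval b (T (ptr F J ω) l) - eval b (G (ptr F J ω) l)| ≤ 2 ^ (C * (h + 1)) / 2 ^ g l) ∧
      ∀ ω, B ω → ∀ l < R, ∀ b, NBx c (T (ptr F J ω)) g' a' (F.t ω) l b →
        |eval b (H (slam F w ω) l) - eval b (T (ptr F J ω) l)| ≤ 2 ^ (C * (h + 1)) / 2 ^ g l := by
  obtain ⟨C₁, hmv⟩ := Pool.Z3.move_any D R hD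
  obtain ⟨c₀, D₁, hD₁, hdil⟩ := nbx_dil (R + 1) (fun _ => D)
  refine ⟨C₁ + c₀ + C₁ * D₁ + 1, ?_⟩
  intro m J F c a w a' w' e e' h g g' κ κ' B₀ B' T G TH H hc haa hww hw' hR hB hP hκ hT hG
  have pw : ∀ {x y : ℕ}, x ≤ y → (2 : ℝ) ^ x ≤ 2 ^ y := fun h => pow_le_pow_right₀ (by norm_num) h
  have hGw := chok_win hG haa hww hw'
  obtain ⟨B, k1, k2, k3⟩ := hmv (c' := c) (s := R) (i := R) le_rfl (fun j hj => ⟨j, hj, rfl⟩) hc
    hR hB hP hκ hGw
  have hu : ∀ ω, B ω → ∀ l < R, ∀ b, NBx c (T (ptr F J ω)) g' a' (F.t ω) l b →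
      |eval b (T (ptr F J ω) l) - eval b (G (ptr F J ω) l)| ≤ 2 ^ (C₁ * (h + 1)) / 2 ^ g l := by
    intro ω hω l hl b hb
    obtain ⟨b', m1, m2, m3, m4⟩ := Pool.ISO.nbx_ext hc (hT.depG (ptr F J ω)) hl.le hb
    have h1 := k3 ω hω b' m1 l hl
    rw [m4 l le_rfl hl, hT.depG _ l b' b m2 m3, hG.depG _ l b' b m2 m3] at h1
    exact h1
  refine ⟨B, k1, ?_, fun ω hω l hl b hb => (hu ω hω l hl b hb).trans ?_,
    fun ω hω l hl b hb => ?_⟩
  · rw [div_le_iff₀ (by positivity)] at k2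
    linarith
  · refine div_le_div_of_nonneg_right (pw ?_) (by positivity)
    exact Nat.mul_le_mul_right _ (by nlinarith)
  · have h1 := hu ω hω l hl b hb
    have h2 : ∀ j < l, |b (some (c j)) - eval b (G (ptr F J ω) j)| ≤
        2 ^ (C₁ * (h + 1)) / 2 ^ g j := by
      intro j hj
      obtain ⟨b', m1, m2, m3, m4⟩ := Pool.ISO.nbx_ext hc (hT.depG (ptr F J ω)) hl.le hb
      have h3 := k3 ω hω b' m1 j (hj.trans hl)
      rw [m3 j hj, hG.depG _ j b' b m2 fun i hi => m3 i (hi.trans hj)] at h3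
      exact h3
    have h3 := hdil (c := c) (i := l) (G := G (ptr F J ω)) (Q := H (slam F w ω) l -
        G (ptr F J ω) l) (g := g) (a := a) (t := F.t ω) (M := 1 / 2 ^ g l) (C₁ * (h + 1))
      (by omega) (hc.mono fun x (hx : x < l) => show x < R by omega) (hG.degG _) (hG.depG _)
      (fun b b' hn hb => by rw [map_sub, map_sub, hG.depH _ l b b' hn hb,
        hG.depG _ l b b' hn hb])
      ((totalDegree_sub _ _).trans (max_le (hG.degH _ _) (hG.degG _ _))) (by positivity)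
      (fun b hb => by
        rw [map_sub, abs_sub_comm]
        exact hG.agr ω (k1 ω hω) l hl b hb) b (hb.1.trans (inv_mono haa)) h2
    rw [map_sub] at h3
    have e1 : eval b (H (slam F w ω) l) - eval b (T (ptr F J ω) l) =
        (eval b (H (slam F w ω) l) - eval b (G (ptr F J ω) l)) -
        (eval b (T (ptr F J ω) l) - eval b (G (ptr F J ω) l)) := by ring
    rw [e1]
    refine (abs_sub _ _).trans ((add_le_add h3 h1).trans ?_)
    rw [mul_one_div, ← add_div]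
    refine div_le_div_of_nonneg_right ?_ (by positivity)
    have h4 : (2 : ℝ) ^ (c₀ + C₁ * (h + 1) * D₁) ≤ 2 ^ (C₁ * (h + 1) + c₀ + C₁ * (h + 1) * D₁) :=
      pw (by omega)
    have h5 : (2 : ℝ) ^ (C₁ * (h + 1)) ≤ 2 ^ (C₁ * (h + 1) + c₀ + C₁ * (h + 1) * D₁) :=
      pw (by omega)
    have h6 : (2 : ℝ) ^ (C₁ * (h + 1) + c₀ + C₁ * (h + 1) * D₁ + 1) ≤
        2 ^ ((C₁ + c₀ + C₁ * D₁ + 1) * (h + 1)) := by
      refine pw ?_
      have : (C₁ + c₀ + C₁ * D₁ + 1) * (h + 1) = C₁ * (h + 1) + c₀ * (h + 1) +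
          C₁ * (h + 1) * D₁ + (h + 1) := by ring
      rw [this]
      have h7 : c₀ ≤ c₀ * (h + 1) := Nat.le_mul_of_pos_right _ (by omega)
      omega
    rw [pow_succ] at h6
    linarith

/-! ### Balls and a static node -/

/-- **Chains at balls and at a static node on one event**, `R` coordinates. -/
structure BlS (F : Fam m J) (c : ℕ → Fin m) (R D N s : ℕ) (A e : ℕ → ℕ) (g : ℕ → ℕ → ℕ)
    (eS : ℕ) (gS : ℕ → ℕ) (B : F.Ω → Prop)
    (G : ℕ → PtT F → ℕ → MvPolynomial (Option (Fin m)) ℝ)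
    (H : ℕ → LnT F → ℕ → MvPolynomial (Option (Fin m)) ℝ)
    (GS : PtT F → ℕ → MvPolynomial (Option (Fin m)) ℝ)
    (HS : LnT F → ℕ → MvPolynomial (Option (Fin m)) ℝ) : Prop where
  ok : ∀ k ≤ N, ChOK F c R (fun _ => D) (A k) (A k) (e k) (g k) B (G k) (H k)
  okS : ChOK F c R (fun _ => D) (A N) (A 0) eS gS B GS HS
  own : ∀ k ≤ N, ∀ ω, B ω → ∀ l < R, ∀ t, |t - F.t ω| ≤ 1 / 2 ^ A k →
    |opt F ω t (some (c l)) - eval (opt F ω t) (G k (ptr F J ω) l)| ≤ 2 ^ s / 2 ^ g k l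
  uni : ∀ k < N, ∀ ω, B ω → ∀ l < R, ∀ b,
    NBx c (G (k + 1) (ptr F J ω)) (g (k + 1)) (A (k + 1)) (F.t ω) l b →
    |eval b (G (k + 1) (ptr F J ω) l) - eval b (G k (ptr F J ω) l)| ≤ 2 ^ s / 2 ^ g k l
  unS : ∀ ω, B ω → ∀ l < R, ∀ b, NBx c (G N (ptr F J ω)) (g N) (A N) (F.t ω) l b →
    |eval b (G N (ptr F J ω) l) - eval b (GS (ptr F J ω) l)| ≤ 2 ^ s / 2 ^ gS l
  sta : ∀ ω, B ω → ∀ l < R, ∀ b, NBx c (G N (ptr F J ω)) (g N) (A N) (F.t ω) l b →
    |eval b (HS (slam F (A 0) ω) l) - eval b (G N (ptr F J ω) l)| ≤ 2 ^ s / 2 ^ gS l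

/-- **Chains at balls and at a static node**, family form. -/
theorem bls_fam (m D R N : ℕ) (hD : 1 ≤ D) : ∃ (C : ℕ) (C₁ : ℝ), 1 ≤ C₁ ∧ ∀ {J : ℕ}
    {F : Fam m J} {c : ℕ → Fin m} {A e : ℕ → ℕ} {g : ℕ → ℕ → ℕ} {eS h s s' : ℕ} {gS : ℕ → ℕ}
    {κ θ : ℝ} {B : F.Ω → Prop} {G : ℕ → PtT F → ℕ → MvPolynomial (Option (Fin m)) ℝ}
    {H : ℕ → LnT F → ℕ → MvPolynomial (Option (Fin m)) ℝ}
    {GS : PtT F → ℕ → MvPolynomial (Option (Fin m)) ℝ}
    {HS : LnT F → ℕ → MvPolynomial (Option (Fin m)) ℝ}, 0 < Pe F.p B →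
    Set.InjOn c (Set.Iio R) → (∀ k ≤ N, A k ≤ J) → (∀ k < N, A k ≤ A (k + 1)) →
    (∀ k ≤ N, A 0 ≤ A k) → (∀ k ≤ N, A k ≤ A N) →
    (∀ k ≤ N, ChOK F c R (fun _ => D) (A k) (A k) (e k) (g k) B (G k) (H k)) →
    ChOK F c R (fun _ => D) (A N) (A 0) eS gS B GS HS →
    (∀ k ≤ N, RelvF F c R (A k) (A k) (g k) D h κ B (G k)) →
    κ * (2 ^ R * (2 ^ (R + 1)) ^ (2 * N + 2)) ≤ 1 → 0 ≤ θ →
    (∀ B', Sub B' B → Pe F.p B ≤ (2 ^ (R + 1)) ^ (2 * N + 2) * Pe F.p B' →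
      ∀ hB : 0 < Pe F.p B', (Fam.sub F B' hB).Tm θ) →
    C₁ * (θ + 1) ≤ ((J : ℝ) - A N) * Real.log 2 → C₁ * (θ + 1) ≤ s' → C * (h + s' + 1) ≤ s →
    ∃ B' : F.Ω → Prop, Sub B' B ∧ Pe F.p B ≤ (2 ^ (R + 1)) ^ (2 * N + 2) * Pe F.p B' ∧
      BlS F c R D N s A e g eS gS B' G H GS HS := by
  obtain ⟨Cu, hu⟩ := uni_two D R hD
  obtain ⟨Co, C₁, hC₁, ho⟩ := own_box m D R
  refine ⟨Cu + Co, C₁, hC₁, ?_⟩
  intro J F c A e g eS h s s' gS κ θ B G H GS HS hB0 hc hAJ hAm hA0 hAN hok hokS hrel hκ hθ hTm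
    hCJ hCs hs
  obtain ⟨K, hK⟩ : ∃ K : ℝ, K = 2 ^ (R + 1) := ⟨_, rfl⟩
  have hK1 : 1 ≤ K := by rw [hK]; exact one_le_pow₀ (by norm_num)
  have hK2 : 2 ≤ K := by
    rw [hK, pow_succ]
    have : (1 : ℝ) ≤ 2 ^ R := one_le_pow₀ (by norm_num)
    linarith
  have hKR : (2 : ℝ) ^ R ≤ K := by
    rw [hK]
    exact pow_le_pow_right₀ (by norm_num) (by omega)
  rw [← hK] at hκ hTm ⊢
  have hp := Pe_nonneg F.isLaw
  have pw : ∀ {x y : ℕ}, x ≤ y → (2 : ℝ) ^ x ≤ 2 ^ y := fun h => pow_le_pow_right₀ (by norm_num) h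
  have dv : ∀ {x : ℝ} {a b k : ℕ}, x ≤ 2 ^ a / 2 ^ k → a ≤ b → x ≤ 2 ^ b / 2 ^ k :=
    fun h hab => h.trans (div_le_div_of_nonneg_right (pw hab) (by positivity))
  have s1 : Cu * (h + 1) ≤ s := by
    refine le_trans ?_ hs
    calc Cu * (h + 1) ≤ (Cu + Co) * (h + 1) := Nat.mul_le_mul_right _ (by omega)
      _ ≤ _ := Nat.mul_le_mul_left _ (by omega)
  have s2 : Co * (s' + 1) ≤ s := by
    refine le_trans ?_ hs
    calc Co * (s' + 1) ≤ (Cu + Co) * (s' + 1) := Nat.mul_le_mul_right _ (by omega)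
      _ ≤ _ := Nat.mul_le_mul_left _ (by omega)
  obtain ⟨Φ, hΦ⟩ : ∃ Φ : ℕ → (F.Ω → Prop) → Prop, Φ = fun i B' =>
      if i < N then ∀ ω, B' ω → ∀ l < R, ∀ b,
        NBx c (G (i + 1) (ptr F J ω)) (g (i + 1)) (A (i + 1)) (F.t ω) l b →
        |eval b (G (i + 1) (ptr F J ω) l) - eval b (G i (ptr F J ω) l)| ≤ 2 ^ s / 2 ^ g i l
      else if i = N then (∀ ω, B' ω → ∀ l < R, ∀ b,
        NBx c (G N (ptr F J ω)) (g N) (A N) (F.t ω) l b →
        |eval b (G N (ptr F J ω) l) - eval b (GS (ptr F J ω) l)| ≤ 2 ^ s / 2 ^ gS l) ∧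
        ∀ ω, B' ω → ∀ l < R, ∀ b, NBx c (G N (ptr F J ω)) (g N) (A N) (F.t ω) l b →
        |eval b (HS (slam F (A 0) ω) l) - eval b (G N (ptr F J ω) l)| ≤ 2 ^ s / 2 ^ gS l
      else ∀ ω, B' ω → ∀ l < R, ∀ t, |t - F.t ω| ≤ 1 / 2 ^ A (i - (N + 1)) →
        |opt F ω t (some (c l)) - eval (opt F ω t) (G (i - (N + 1)) (ptr F J ω) l)| ≤
          2 ^ s / 2 ^ g (i - (N + 1)) l := ⟨_, rfl⟩
  have hpos : ∀ B', Pe F.p B ≤ K ^ (2 * N + 2) * Pe F.p B' → 0 < Pe F.p B' := by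
    intro B' h1
    by_contra hcon
    have h2 : Pe F.p B' = 0 := le_antisymm (not_lt.1 hcon) (hp B')
    rw [h2, mul_zero] at h1
    linarith
  obtain ⟨B', k1, k2, k3⟩ := fin_ev (p := F.p) B (2 * N + 2) hK1 hp Φ (fun i B₁ B₂ hB h => by
      rw [hΦ] at h ⊢
      show (if i < N then _ else if i = N then _ else _)
      have h' : (if i < N then _ else if i = N then _ else _) := h
      split_ifs at h' ⊢ with h1 h2
      · exact fun ω hω => h' ω (hB ω hω)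
      · exact ⟨fun ω hω => h'.1 ω (hB ω hω), fun ω hω => h'.2 ω (hB ω hω)⟩
      · exact fun ω hω => h' ω (hB ω hω)) (fun i hi B' hB' hP => by
      have hκ' : κ * 2 ^ R ≤ 1 / K ^ (2 * N + 2) := by
        rw [le_div_iff₀ (by positivity)]
        calc κ * 2 ^ R * K ^ (2 * N + 2) = κ * (2 ^ R * K ^ (2 * N + 2)) := by ring
          _ ≤ 1 := hκ
      have hP' : 1 / K ^ (2 * N + 2) * Pe F.p B ≤ Pe F.p B' := by
        rw [one_div, inv_mul_le_iff₀ (by positivity)]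
        exact hP
      rw [hΦ]
      show ∃ B'' : F.Ω → Prop, Sub B'' B' ∧ Pe F.p B' ≤ K * Pe F.p B'' ∧
        (if i < N then _ else if i = N then _ else _)
      by_cases h1 : i < N
      · obtain ⟨B'', m1, m2, m3, m4⟩ := hu hc (hAm i h1) (hAm i h1) (hAJ (i + 1) (by omega))
          (hrel (i + 1) (by omega)) hB' hP' hκ' ((hok (i + 1) (by omega)).sub hB')
          ((hok i h1.le).sub hB')
        refine ⟨B'', m1, m2.trans (mul_le_mul_of_nonneg_right hKR (hp _)), ?_⟩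
        rw [if_pos h1]
        exact fun ω hω l hl b hb => dv (m3 ω hω l hl b hb) s1
      · by_cases h2 : i = N
        · obtain ⟨B'', m1, m2, m3, m4⟩ := hu hc le_rfl (hA0 N le_rfl) (hAJ N le_rfl)
            (hrel N le_rfl) hB' hP' hκ' ((hok N le_rfl).sub hB') (hokS.sub hB')
          refine ⟨B'', m1, m2.trans (mul_le_mul_of_nonneg_right hKR (hp _)), ?_⟩
          rw [if_neg h1, if_pos h2]
          exact ⟨fun ω hω l hl b hb => dv (m3 ω hω l hl b hb) s1,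
            fun ω hω l hl b hb => dv (m4 ω hω l hl b hb) s1⟩
        · have h3 : i - (N + 1) ≤ N := by omega
          have hB'0 := hpos B' hP
          have hAiJ : ((A (i - (N + 1)) : ℕ) : ℝ) ≤ A N := by exact_mod_cast hAN _ h3
          have hl2 : 0 < Real.log 2 := Real.log_pos one_lt_two
          obtain ⟨B'', m1, m2, m3⟩ := ho (s := s') hB'0 hc (hAJ _ h3) ((hok _ h3).sub hB')
            (hTm B' hB' hP hB'0) hθ (hCJ.trans (mul_le_mul_of_nonneg_right (by linarith) hl2.le))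
            hCs
          refine ⟨B'', m1, ?_, ?_⟩
          · have h4 := mul_le_mul_of_nonneg_right hK2 (hp B'')
            linarith
          · rw [if_neg h1, if_neg h2]
            exact fun ω hω l hl t ht => dv (m3 ω hω l hl t ht) s2)
  refine ⟨B', k1, k2, fun k hk => (hok k hk).sub k1, hokS.sub k1, fun k hk => ?_, fun k hk => ?_,
    ?_, ?_⟩
  · have h1 := k3 (k + (N + 1)) (by omega)
    rw [hΦ] at h1
    have h2 : (if k + (N + 1) < N then _ else if k + (N + 1) = N then _ else _) := h1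
    rw [if_neg (by omega), if_neg (by omega)] at h2
    rw [Nat.add_sub_cancel] at h2
    exact h2
  · have h1 := k3 k (by omega)
    rw [hΦ] at h1
    have h2 : (if k < N then _ else if k = N then _ else _) := h1
    rw [if_pos hk] at h2
    exact h2
  · have h1 := k3 N (by omega)
    rw [hΦ] at h1
    have h2 : (if N < N then _ else if N = N then _ else _) := h1
    rw [if_neg (lt_irrefl N), if_pos rfl] at h2
    exact h2.1
  · have h1 := k3 N (by omega)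
    rw [hΦ] at h1
    have h2 : (if N < N then _ else if N = N then _ else _) := h1
    rw [if_neg (lt_irrefl N), if_pos rfl] at h2
    exact h2.2

end Pool.STB77
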