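import Pool.Agent.H98.STB.VbD
import Pool.Agent.H82.STB.Ibx
import Pool.Agent.H77.STB.Nde

/-!
# Case (B), a static target: the positions of the event

`VbP`: the fields of `VbE` for the three first places. `vbe_pos'`: from the list of balls.
-/

set_option autoImplicit false

namespace Pool.STB77

open Finset Real MvPolynomial
open Pool.Agent.H49.Ent Pool.Agent.H32.Dense Pool.STK Pool.KA Pool.KSAT Pool.K2S Pool.PB Pool.S6C
open Pool.GEN Pool.CHT Pool.NVX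
open Pool.STB (V3 Po Bx VbT VbE)
open Pool.STB82 (yv yp hgP)
open Pool.STB65 (InpP)

variable {m J : ℕ}

/-- **The fields of `VbE` for the three first places.** -/
structure VbP (F : Fam m J) (c : ℕ → Fin m) (B : F.Ω → Prop) (K n : ℕ) (t : VbT F) : Prop where
  iP : InpP F B t.W₀ t.k t.k n (K + 1) (2 ^ t.y) (yv F c t.W₀ t.g1 t.Pl) t.yt
    (hgP c t.W₀ t.g1 t.Pl)
  Pd : ∀ y, (t.Pv y).totalDegree ≤ K
  Pp : ∀ y, DepC c 1 (t.Pv y)
  Pc : ∀ ω, B ω → t.Pv (ptr F J ω) = t.Pl (slam F t.W₀ ω)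
  Pg : ∀ ω, B ω → ∀ b : Option (Fin m) → ℝ, |b none - F.t ω| ≤ 1 / 2 ^ t.W₀ →
    |b (some (c 0)) - F.x ω (c 0)| ≤ 1 / 2 ^ t.W₀ →
    |eval b (pderiv (some (c 0)) (t.Pv (ptr F J ω)))| ≤ 2 ^ t.e₁'
  ch : ∀ i < n, ChOK F c 3 (fun _ => K) (t.W₀ + t.k + i * t.k) (t.W₀ + t.k + i * t.k) (t.e₁ + 1)
    (t.gc i) B (t.Gc i) (t.Hc i)
  hx0 : ∀ i < n, ∀ ω, B ω → ∀ b, NBx c (t.Gc i (ptr F J ω)) (t.gc i) (t.W₀ + t.k + i * t.k)
    (F.t ω) 3 b → |b (some (c 0)) - F.x ω (c 0)| ≤ 2 ^ t.s / 2 ^ (t.W₀ + t.k + i * t.k)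
  hx1 : ∀ i < n, ∀ ω, B ω → ∀ b, NBx c (t.Gc i (ptr F J ω)) (t.gc i) (t.W₀ + t.k + i * t.k)
    (F.t ω) 3 b → |(b (some (c 1)) - eval b (t.Pv (ptr F J ω))) -
      (F.x ω (c 1) - eval (bt F ω) (t.Pv (ptr F J ω)))| ≤ 2 ^ t.s / 2 ^ (t.g1 + (t.k + i * t.k))

/-- **The fields of the three first places of `VbE`**, from the list of balls: the balls `jb i` below
the windows. -/
theorem vbe_pos' (D : ℕ) : ∃ C : ℕ, ∀ {m : ℕ} {S : PCl m} (_ : TmH S) (K : ℕ) (_ : D ≤ K)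
    {ε w : ℝ} (K₁ : ℝ) (_ : 0 < ε) (_ : w < 1),
    Bas S (fun J F A => ∀ (B : F.Ω → Prop) (c : ℕ → Fin m) (N W s v n : ℕ) (A' e : ℕ → ℕ)
      (g : ℕ → ℕ → ℕ) (G : ℕ → PtT F → ℕ → MvPolynomial (Option (Fin m)) ℝ)
      (H : ℕ → LnT F → ℕ → MvPolynomial (Option (Fin m)) ℝ)
      (pP : PtT F → ℕ → MvPolynomial (Option (Fin m)) ℝ)
      (pH : LnT F → ℕ → MvPolynomial (Option (Fin m)) ℝ) (jb : ℕ → ℕ) (t : VbT F),
      Sub B A → Pe F.p A ≤ K₁ * Pe F.p B → Inc F c D N W s v A' e g B G H pP pH → N ≤ s →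
      (W : ℝ) ≤ w * J →
      (∀ ω, B ω → ∀ b : Option (Fin m) → ℝ, |b none - F.t ω| ≤ 1 / 2 ^ W →
        |b (some (c 0)) - F.x ω (c 0)| ≤ 1 / 2 ^ W →
        |eval b (pderiv (some (c 0)) (pP (ptr F J ω) 1))| ≤ 2 ^ t.e₁') →
      t.W₀ = W → t.g1 = g 0 1 → t.Pv = (fun y => pP y 1) → t.Pl = (fun S => pH S 1) →
      t.yt = yp F c W (g 0 1) (fun y => pP y 1) →
      (∀ i < n, jb i ≤ N ∧ A' (jb i) ≤ W + t.k + i * t.k ∧ W + t.k + i * t.k ≤ A' (jb i) + v ∧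
        A' (jb i) ≤ g (jb i) 0 + s ∧ e (jb i) ≤ t.e₁ + 1) →
      (∀ i < n, t.gc i = g (jb i) ∧ t.Gc i = G (jb i) ∧
        t.Hc i = fun S => H (jb i) (cos F (A' (jb i)) (W + t.k + i * t.k) S)) →
      C * (s + v + 1) ≤ t.s → ((s : ℝ) + 1) * Real.log 2 + ε * J ≤ t.y * Real.log 2 →
      g 0 1 + t.e₁' + 1 + t.k + n * t.k ≤ J → W + t.k + n * t.k ≤ J →
      ∃ B' : F.Ω → Prop, Sub B' B ∧ Pe F.p B / 4 ≤ Pe F.p B' ∧ 0 < Pe F.p B ∧
        VbP F c B' K n t) := by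
  obtain ⟨C, hbox⟩ := Pool.STB82.inc_box D
  refine ⟨C, ?_⟩
  intro m S hS K hDK ε w K₁ hε hw
  refine Bas.mono 0 (Pool.STB82.inp_cls hS K K₁ hε hw) ?_
  intro J _ F A hinp B c N W s v n A' e g G H pP pH jb t hBA hK I hNs hW hgr tW tg tP tL ty hjb hj2
    hCs hY hn1 hn2
  have hWJ : W ≤ J := by omega
  have ok0 := I.ok 0 (Nat.zero_le N)
  have hA0 := I.A0
  obtain ⟨B', hB', hP', hP0, hI⟩ := hinp B c W t.k t.k n (g 0 1) t.e₁' (s + 1) (2 ^ t.y)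
    (fun y => pP y 1) (fun S => pH S 1) hBA hK hW (fun S => (I.hd S 1).trans hDK)
    (fun y => I.pe y 1) (fun ω hω => I.pc ω hω 1) (fun ω hω r hr => by
      refine hgr ω hω _ ?_ ?_
      · rw [Function.update_of_ne (by simp)]
        show |F.t ω - F.t ω| ≤ _
        rw [sub_self, abs_zero]
        positivity
      · rw [Function.update_self]
        show |F.x ω (c 0) + r - F.x ω (c 0)| ≤ _
        rw [add_sub_cancel_left]
        exact hr.trans (inv_mono hWJ)) (fun ω hω => by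
      have h1 := ok0.pos ω hω 1 (by norm_num)
      have h2 := I.pn ω hω 1 one_pos (by norm_num) (bt F ω) (ok0.self hω (by norm_num))
      have e1 : F.x ω (c 1) - eval (bt F ω) (pP (ptr F J ω) 1) =
          (F.x ω (c 1) - eval (bt F ω) (G 0 (ptr F J ω) 1)) -
          (eval (bt F ω) (pP (ptr F J ω) 1) - eval (bt F ω) (G 0 (ptr F J ω) 1)) := by ring
      rw [e1]
      refine (abs_sub _ _).trans ((add_le_add h1 h2).trans ?_)
      rw [← add_div]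
      refine div_le_div_of_nonneg_right ?_ (by positivity)
      have h3 : (1 : ℝ) ≤ 2 ^ s := one_le_pow₀ (by norm_num)
      rw [pow_succ]
      linarith) (by
      have h1 : ∀ k : ℕ, (2 : ℝ) ^ k = Real.exp (k * Real.log 2) := by
        intro k
        rw [mul_comm, Real.exp_mul, Real.exp_log (by norm_num), Real.rpow_natCast]
      rw [h1, h1, ← Real.exp_add]
      refine Real.exp_le_exp.2 ?_
      push_cast
      exact hY) hn1 hn2
  refine ⟨B', hB', hP', hP0, ?_, ?_, ?_, ?_, ?_, ?_, ?_, ?_⟩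
  · rw [tW, tg, tL, ty]
    exact hI
  · intro y
    rw [tP]
    exact (I.pd y 1).trans hDK
  · intro y
    rw [tP]
    exact I.pe y 1
  · intro ω hω
    rw [tP, tL, tW]
    exact I.pc ω (hB' ω hω) 1
  · intro ω hω
    rw [tP, tW]
    exact hgr ω (hB' ω hω)
  · intro i hi
    obtain ⟨j1, j2, j3, j4, j5⟩ := hjb i hi
    obtain ⟨j6, j7, j8⟩ := hj2 i hi
    rw [j6, j7, j8, tW]
    have hle : (i + 1) * t.k ≤ n * t.k := Nat.mul_le_mul_right _ hi
    rw [add_mul, one_mul] at hle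
    exact chok_win (((I.ok (jb i) j1).sub hB').mono le_rfl (fun _ => hDK) le_rfl j5) j2 j2 (by omega)
  · intro i hi ω hω b hb
    obtain ⟨j1, j2, j3, j4, j5⟩ := hjb i hi
    obtain ⟨j6, j7, j8⟩ := hj2 i hi
    rw [j6, j7, tW] at hb
    rw [tW]
    exact ((hbox I hNs j1 (hB' ω hω) j2 j3 j4 (hb.mono le_rfl (by norm_num))).1).trans
      (div_le_div_of_nonneg_right (pow_le_pow_right₀ (by norm_num) hCs) (by positivity))
  · intro i hi ω hω b hb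
    obtain ⟨j1, j2, j3, j4, j5⟩ := hjb i hi
    obtain ⟨j6, j7, j8⟩ := hj2 i hi
    rw [j6, j7, tW] at hb
    rw [tP, tg]
    have h1 := (hbox I hNs j1 (hB' ω hω) j2 j3 j4 (hb.mono le_rfl (by norm_num))).2
    rw [show W + t.k + i * t.k - W = t.k + i * t.k by omega] at h1
    exact h1.trans
      (div_le_div_of_nonneg_right (pow_le_pow_right₀ (by norm_num) hCs) (by positivity))

end Pool.STB77
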