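import Pool.Agent.H77.STB.Clt
import Pool.Agent.H62.OVN.Ovc
import Pool.Agent.H55.KS3.SML

/-!
# The gradient of the closed polynomial

`grd_pt`: a derivative in the direction of one coordinate. `cls_grd`: the closed polynomial of `c 1`
has a bounded derivative. `cls_pol`: the closed position of `c 0` and the closed polynomials of `c 1`
and `c 2`.
-/

set_option autoImplicit false

namespace Pool.STB77

open Finset Real MvPolynomial
open Pool.Agent.H49.Ent Pool.Agent.H32.Dense Pool.STK Pool.KA Pool.KSAT Pool.K2S Pool.PB Pool.S6C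
open Pool.GEN Pool.CHT Pool.NVX
open Pool.STB (V3 Po Bx)
open Pool.STB65 (wn wn_spec)
open Pool.PB.Trl (rt rt_mem t_rt)

variable {m J : ℕ}

/-- The line in the direction of one coordinate. -/
noncomputable def cln (b : Option (Fin m) → ℝ) (k : Fin m) (ε : ℝ) (o : Option (Fin m)) :
    Polynomial ℝ := Polynomial.C (b o) + Polynomial.C (if o = some k then ε else 0) * Polynomial.X

theorem cln_deg (b : Option (Fin m) → ℝ) (k : Fin m) (ε : ℝ) (o : Option (Fin m)) :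
    (cln b k ε o).natDegree ≤ 1 :=
  (Polynomial.natDegree_add_le _ _).trans (max_le (by
    rw [Polynomial.natDegree_C]
    exact Nat.zero_le _)
    ((Polynomial.natDegree_C_mul_le _ _).trans Polynomial.natDegree_X_le))

theorem cln_eval (b : Option (Fin m) → ℝ) (k : Fin m) (ε s : ℝ) :
    (fun o => (cln b k ε o).eval s) = Function.update b (some k) (b (some k) + s * ε) := by
  funext o
  show (Polynomial.C (b o) + Polynomial.C (if o = some k then ε else 0) * Polynomial.X).eval s = _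
  rw [Polynomial.eval_add, Polynomial.eval_mul, Polynomial.eval_C, Polynomial.eval_C,
    Polynomial.eval_X]
  by_cases h : o = some k
  · rw [if_pos h, h, Function.update_self]
    ring
  · rw [if_neg h, Function.update_of_ne h]
    ring

/-- **A derivative in the direction of one coordinate.** -/
theorem grd_pt (D : ℕ) : ∃ C : ℝ, 1 ≤ C ∧ ∀ {m : ℕ} (Q : MvPolynomial (Option (Fin m)) ℝ)
    (k : Fin m) (b : Option (Fin m) → ℝ) (ε M : ℝ), Q.totalDegree ≤ D → 0 < ε →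
    (∀ s ∈ Set.Icc (0 : ℝ) 1,
      |eval (Function.update b (some k) (b (some k) + s * ε)) Q| ≤ M) →
    |eval b (pderiv (some k) Q)| ≤ C * M / ε := by
  classical
  obtain ⟨C, hC⟩ : ∃ C : ℝ, C = ∑ n ∈ range (D + 2), ∑ j ∈ range (D + 2), |wn (D + 1) n j| :=
    ⟨_, rfl⟩
  have hC0 : 0 ≤ C := by
    rw [hC]
    exact sum_nonneg fun n _ => sum_nonneg fun j _ => abs_nonneg _
  refine ⟨C + 1, by linarith, ?_⟩
  intro m Q k b ε M hQ hε hM
  have hM0 : 0 ≤ M := (abs_nonneg _).trans (hM 0 ⟨le_rfl, zero_le_one⟩)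
  obtain ⟨q, hq⟩ : ∃ q : Polynomial ℝ, q = MvPolynomial.aeval (cln b k ε) Q := ⟨_, rfl⟩
  have hqd : q.natDegree ≤ D + 1 := by
    rw [hq]
    exact (Pool.KBX.natDegree_aeval_le _ _ (fun o => cln_deg b k ε o) hQ).trans (by omega)
  have hqe : ∀ s, q.eval s = eval (Function.update b (some k) (b (some k) + s * ε)) Q := by
    intro s
    rw [hq, Pool.KBX.eval_aeval_poly, cln_eval]
  have h1 : |q.coeff 1| ≤ C * M := by
    rw [wn_spec (D + 1) q hqd]
    refine (Finset.abs_sum_le_sum_abs _ _).trans ?_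
    have h2 : ∀ j ∈ range (D + 1 + 1), |wn (D + 1) 1 j * q.eval ((j : ℝ) / ((D + 1 : ℕ) + 1))| ≤
        |wn (D + 1) 1 j| * M := by
      intro j hj
      rw [abs_mul]
      refine mul_le_mul_of_nonneg_left ?_ (abs_nonneg _)
      rw [hqe]
      refine hM _ ⟨by positivity, ?_⟩
      rw [div_le_one (by positivity)]
      have := mem_range.1 hj
      exact_mod_cast this.le
    refine (Finset.sum_le_sum h2).trans ?_
    rw [← Finset.sum_mul]
    refine mul_le_mul_of_nonneg_right ?_ hM0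
    rw [hC]
    exact Finset.single_le_sum (f := fun n => ∑ j ∈ range (D + 2), |wn (D + 1) n j|)
      (fun n _ => sum_nonneg fun j _ => abs_nonneg _) (mem_range.2 (by omega))
  obtain ⟨v, hv⟩ : ∃ v : Option (Fin m) → ℝ, v = fun o => if o = some k then ε else 0 := ⟨_, rfl⟩
  have h3 := Pool.OVN.hasDerivAt_lin62 Q b v 0
  have h4 : (fun s : ℝ => eval (fun i => b i + s * v i) Q) = fun s => q.eval s := by
    funext s
    rw [hqe]
    congr 1
    congr 1
    funext o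
    rw [hv]
    by_cases h : o = some k
    · subst h
      rw [Function.update_self]
      simp
    · rw [Function.update_of_ne h]
      simp [h]
  rw [h4] at h3
  have h5 := h3.unique (q.hasDerivAt 0)
  have h6 : (∑ j, v j * eval (fun i => b i + 0 * v i) (pderiv j Q)) =
      ε * eval b (pderiv (some k) Q) := by
    rw [Finset.sum_eq_single (some k)]
    · have e1 : (fun i => b i + 0 * v i) = b := by
        funext i
        ring
      rw [e1, hv]
      simp
    · intro j _ hj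
      rw [hv]
      simp [hj]
    · intro hk
      exact absurd (Finset.mem_univ _) hk
  have h7 : (Polynomial.derivative q).eval 0 = q.coeff 1 := by
    rw [← Polynomial.coeff_zero_eq_eval_zero, Polynomial.coeff_derivative]
    simp
  rw [h6, h7] at h5
  rw [le_div_iff₀ hε]
  calc |eval b (pderiv (some k) Q)| * ε = |ε * eval b (pderiv (some k) Q)| := by
        rw [abs_mul, abs_of_pos hε, mul_comm]
    _ = |q.coeff 1| := by rw [h5]
    _ ≤ C * M := h1
    _ ≤ (C + 1) * M := by nlinarith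

/-- **The closed polynomial of `c 1` has a bounded derivative.** -/
theorem cls_grd (r D : ℕ) (hr : 2 ≤ r) : ∃ C : ℕ, ∀ {m J : ℕ} {F : Fam m J} {c : ℕ → Fin m}
    {W e s : ℕ} {g : ℕ → ℕ} {B : F.Ω → Prop} {G : PtT F → ℕ → MvPolynomial (Option (Fin m)) ℝ}
    {H : LnT F → ℕ → MvPolynomial (Option (Fin m)) ℝ}
    {pP : PtT F → MvPolynomial (Option (Fin m)) ℝ}, Set.InjOn c (Set.Iio 2) →
    ChOK F c r (fun _ => D) W W e g B G H →
    (∀ ω, B ω → ∀ t, |t - F.t ω| ≤ 1 / 2 ^ W →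
      |opt F ω t (some (c 0)) - eval (opt F ω t) (G (ptr F J ω) 0)| ≤ 2 ^ s / 2 ^ g 0) →
    g 0 ≤ W + s → W ≤ g 1 + s → (∀ y, (pP y).totalDegree ≤ D) → (∀ y, DepC c 1 (pP y)) →
    (∀ ω, B ω → ∀ b, NBx c (G (ptr F J ω)) g W (F.t ω) 1 b →
      |eval b (pP (ptr F J ω)) - eval b (G (ptr F J ω) 1)| ≤ 2 ^ s / 2 ^ g 1) →
    ∀ ω, B ω → ∀ b : Option (Fin m) → ℝ, |b none - F.t ω| ≤ 1 / 2 ^ W →
      |b (some (c 0)) - F.x ω (c 0)| ≤ 1 / 2 ^ W →
      |eval b (pderiv (some (c 0)) (pP (ptr F J ω)))| ≤ 2 ^ (C * (s + 1) + e) := by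
  obtain ⟨c₀, D₁, hD₁, hdil⟩ := nbx_dil 2 (fun _ => D)
  obtain ⟨C₁, hC₁, hgr⟩ := grd_pt D
  obtain ⟨k₁, hk₁⟩ := pow_unbounded_of_one_lt C₁ (one_lt_two (α := ℝ))
  refine ⟨k₁ + c₀ + 2 * D₁ + 3, ?_⟩
  intro m J F c W e s g B G H pP hc hok hown hgW hWg hpd hpe hpn ω hω b hn hx
  have pw : ∀ {x y : ℕ}, x ≤ y → (2 : ℝ) ^ x ≤ 2 ^ y := fun h => pow_le_pow_right₀ (by norm_num) h
  have hc1 : Set.InjOn c (Set.Iio 1) := hc.mono fun x (hx : x < 1) => show x < 2 by omega
  -- points near the sample in the plane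
  have hpl : ∀ b' : Option (Fin m) → ℝ, |b' none - F.t ω| ≤ 1 / 2 ^ W →
      |b' (some (c 0)) - F.x ω (c 0)| ≤ 2 / 2 ^ W →
      |b' (some (c 0)) - eval b' (G (ptr F J ω) 0)| ≤ 2 ^ (s + 2) / 2 ^ g 0 := by
    intro b' h1 h2
    have h3 := hown ω hω (b' none) h1
    have h4 : eval b' (G (ptr F J ω) 0) = eval (opt F ω (b' none)) (G (ptr F J ω) 0) :=
      hok.depG _ 0 _ _ (opt_none F ω _).symm fun l hl => absurd hl (Nat.not_lt_zero l)
    rw [h4]
    rw [opt_some] at h3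
    have h5 : |(b' none - F.t ω) * F.d ω (c 0)| ≤ 1 / 2 ^ W := by
      rw [abs_mul]
      calc |b' none - F.t ω| * |F.d ω (c 0)| ≤ 1 / 2 ^ W * 1 :=
            mul_le_mul h1 (F.dir ω (c 0)) (abs_nonneg _) (by positivity)
        _ = _ := mul_one _
    have h6 : (1 : ℝ) / 2 ^ W ≤ 2 ^ s / 2 ^ g 0 := by
      rw [div_le_div_iff₀ (by positivity) (by positivity), one_mul, ← pow_add]
      exact pw (by omega)
    have e1 : b' (some (c 0)) - eval (opt F ω (b' none)) (G (ptr F J ω) 0) =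
        (b' (some (c 0)) - F.x ω (c 0)) - (b' none - F.t ω) * F.d ω (c 0) +
        (F.x ω (c 0) + (b' none - F.t ω) * F.d ω (c 0) -
          eval (opt F ω (b' none)) (G (ptr F J ω) 0)) := by ring
    rw [e1]
    refine (abs_add_le _ _).trans ?_
    have h7 := abs_sub (b' (some (c 0)) - F.x ω (c 0)) ((b' none - F.t ω) * F.d ω (c 0))
    have e2 : (2 : ℝ) ^ (s + 2) / 2 ^ g 0 = 4 * (2 ^ s / 2 ^ g 0) := by
      rw [pow_add]
      ring
    have e3 : (2 : ℝ) / 2 ^ W = 2 * (1 / 2 ^ W) := by ring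
    rw [e3] at h2
    rw [e2]
    linarith
  have hd : ∀ (Q : MvPolynomial (Option (Fin m)) ℝ) (M : ℝ), Q.totalDegree ≤ D → DepC c 1 Q →
      0 ≤ M → (∀ b, NBx c (G (ptr F J ω)) g W (F.t ω) 1 b → |eval b Q| ≤ M) →
      ∀ b' : Option (Fin m) → ℝ, |b' none - F.t ω| ≤ 1 / 2 ^ W →
      |b' (some (c 0)) - F.x ω (c 0)| ≤ 2 / 2 ^ W → |eval b' Q| ≤ 2 ^ (c₀ + (s + 2) * D₁) * M :=
    fun Q M h1 h2 h3 h4 b' h5 h6 => hdil (c := c) (i := 1) (G := G (ptr F J ω)) (Q := Q)
      (g := g) (a := W) (t := F.t ω) (M := M) (s + 2) (by norm_num) hc1 (hok.degG _) (hok.depG _)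
      h2 h1 h3 h4 b' h5 fun l hl => by
        have : l = 0 := by omega
        subst this
        exact hpl b' h5 h6
  have hx2 : |b (some (c 0)) - F.x ω (c 0)| ≤ 2 / 2 ^ W :=
    hx.trans (div_le_div_of_nonneg_right (by norm_num) (by positivity))
  -- the derivative of the label
  have k1 : |eval b (pderiv (some (c 0)) (G (ptr F J ω) 1))| ≤
      2 ^ (c₀ + (s + 2) * D₁) * 2 ^ (e + 2 * s) := by
    refine hd _ _ ?_ ((hok.depG _ 1).pderiv 0) (by positivity) (fun b' hb' => ?_) b hn hx2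
    · exact Pool.KS3.SML.totalDegree_pderiv_le _ _ D ((hok.degG _ _).trans (Nat.le_succ _))
    · refine (hok.lip ω hω 1 (by omega) b' hb' 0 (by norm_num)).trans (pw ?_)
      have h1 : nlp g 0 1 ≤ 2 * s := by
        unfold nlp
        have h2 : (Finset.Icc 0 1).sup g ≤ g 1 + 2 * s := by
          refine Finset.sup_le fun i hi => ?_
          rw [Finset.mem_Icc] at hi
          have : i = 0 ∨ i = 1 := by omega
          rcases this with h | h
          · rw [h]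
            omega
          · rw [h]
            omega
        omega
      omega
  -- the derivative of the difference
  have k2 : |eval b (pderiv (some (c 0)) (pP (ptr F J ω) - G (ptr F J ω) 1))| ≤
      C₁ * (2 ^ (c₀ + (s + 2) * D₁) * (2 ^ s / 2 ^ g 1)) / (1 / 2 ^ W) := by
    refine hgr _ (c 0) b (1 / 2 ^ W) _ ((totalDegree_sub _ _).trans (max_le (hpd _)
      (hok.degG _ _))) (by positivity) fun τ hτ => ?_
    refine hd _ _ ((totalDegree_sub _ _).trans (max_le (hpd _) (hok.degG _ _)))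
      (fun b b' hn hb => by rw [map_sub, map_sub, hpe _ b b' hn hb, hok.depG _ 1 b b' hn hb])
      (by positivity) (fun b' hb' => by rw [map_sub]; exact hpn ω hω b' hb') _ ?_ ?_
    · rw [Function.update_of_ne (by simp)]
      exact hn
    · rw [Function.update_self]
      have e1 : b (some (c 0)) + τ * (1 / 2 ^ W) - F.x ω (c 0) =
          (b (some (c 0)) - F.x ω (c 0)) + τ * (1 / 2 ^ W) := by ring
      rw [e1]
      refine (abs_add_le _ _).trans ?_
      have h1 : |τ * (1 / 2 ^ W)| ≤ 1 / 2 ^ W := by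
        rw [abs_mul, abs_of_nonneg hτ.1, abs_of_pos (by positivity : (0:ℝ) < 1 / 2 ^ W)]
        exact mul_le_of_le_one_left (by positivity) hτ.2
      have e2 : (2 : ℝ) / 2 ^ W = 1 / 2 ^ W + 1 / 2 ^ W := by ring
      rw [e2]
      exact add_le_add hx h1
  have e1 : eval b (pderiv (some (c 0)) (pP (ptr F J ω))) =
      eval b (pderiv (some (c 0)) (G (ptr F J ω) 1)) +
      eval b (pderiv (some (c 0)) (pP (ptr F J ω) - G (ptr F J ω) 1)) := by
    rw [map_sub, map_sub]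
    ring
  rw [e1]
  refine (abs_add_le _ _).trans ((add_le_add k1 k2).trans ?_)
  obtain ⟨Z, hZ⟩ : ∃ Z, Z = c₀ + (s + 2) * D₁ := ⟨_, rfl⟩
  rw [← hZ]
  have k3 : C₁ * (2 ^ Z * (2 ^ s / 2 ^ g 1)) / (1 / 2 ^ W) ≤ 2 ^ (k₁ + Z + 2 * s) := by
    have h1 : (2 : ℝ) ^ W / 2 ^ g 1 ≤ 2 ^ s := by
      rw [div_le_iff₀ (by positivity), ← pow_add]
      exact pw (by omega)
    calc C₁ * (2 ^ Z * (2 ^ s / 2 ^ g 1)) / (1 / 2 ^ W) = C₁ * (2 ^ Z * 2 ^ s) *
          (2 ^ W / 2 ^ g 1) := by field_simp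
      _ ≤ 2 ^ k₁ * (2 ^ Z * 2 ^ s) * 2 ^ s :=
          mul_le_mul (mul_le_mul_of_nonneg_right hk₁.le (by positivity)) h1 (by positivity)
            (by positivity)
      _ = _ := by
          rw [← pow_add, ← pow_add, ← pow_add]
          congr 1
          ring
  have k4 : (2 : ℝ) ^ Z * 2 ^ (e + 2 * s) ≤ 2 ^ (k₁ + Z + 2 * s + e) := by
    rw [← pow_add]
    exact pw (by omega)
  have k5 : (2 : ℝ) ^ (k₁ + Z + 2 * s) ≤ 2 ^ (k₁ + Z + 2 * s + e) := pw (by omega)
  refine (add_le_add k4 (k3.trans k5)).trans ?_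
  have e2 : (2 : ℝ) ^ (k₁ + Z + 2 * s + e) + 2 ^ (k₁ + Z + 2 * s + e) =
      2 ^ (k₁ + Z + 2 * s + e + 1) := by
    rw [pow_succ]
    ring
  rw [e2]
  refine pw ?_
  rw [hZ]
  nlinarith [Nat.zero_le (k₁ * s), Nat.zero_le (c₀ * s), Nat.zero_le (D₁ * s)]

/-- **Closed position of `c 0` and closed polynomials of `c 1`, `c 2`.** -/
theorem cls_pol (D : ℕ) : ∃ C D' : ℕ, D ≤ D' ∧ ∀ {m J : ℕ} {F : Fam m J} {c : ℕ → Fin m}
    {W e s : ℕ} {g : ℕ → ℕ} {B : F.Ω → Prop} {G : PtT F → ℕ → MvPolynomial (Option (Fin m)) ℝ}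
    {H : LnT F → ℕ → MvPolynomial (Option (Fin m)) ℝ}, Set.InjOn c (Set.Iio 2) → W ≤ J →
    ChOK F c 3 (fun _ => D) W W e g B G H →
    (∀ ω, B ω → ∀ t, |t - F.t ω| ≤ 1 / 2 ^ W →
      |opt F ω t (some (c 0)) - eval (opt F ω t) (G (ptr F J ω) 0)| ≤ 2 ^ s / 2 ^ g 0) →
    W ≤ g 0 + s → g 0 ≤ W + s →
    ∃ (B' : F.Ω → Prop) (xP : PtT F → ℝ) (xH : LnT F → ℝ)
      (pP : PtT F → ℕ → MvPolynomial (Option (Fin m)) ℝ)
      (pH : LnT F → ℕ → MvPolynomial (Option (Fin m)) ℝ), Sub B' B ∧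
      Pe F.p B / 2 ≤ Pe F.p B' ∧ (∀ y l, (pP y l).totalDegree ≤ D') ∧
      (∀ S l, (pH S l).totalDegree ≤ D') ∧ (∀ y l, DepC c l (pP y l)) ∧
      (∀ S l, DepC c l (pH S l)) ∧
      (∀ ω, B' ω → xP (ptr F J ω) = xH (slam F W ω)) ∧
      (∀ ω, B' ω → |xP (ptr F J ω) - 2 ^ W * F.x ω (c 0)| ≤ 2 ^ (C * (s + 1))) ∧
      (∀ ω, B' ω → ∀ l, pP (ptr F J ω) l = pH (slam F W ω) l) ∧
      ∀ ω, B' ω → ∀ l, 0 < l → l < 3 → ∀ b, NBx c (G (ptr F J ω)) g W (F.t ω) l b →
        |eval b (pP (ptr F J ω) l) - eval b (G (ptr F J ω) l)| ≤ 2 ^ (C * (s + 1)) / 2 ^ g l := by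
  obtain ⟨C₁, D₁, h1⟩ := cls_one 3 D (by norm_num)
  obtain ⟨D₂, hD₂⟩ : ∃ D₂, D₂ = max D D₁ := ⟨_, rfl⟩
  obtain ⟨C₂, D₃, h2⟩ := cls_tgt 3 D₂ (by norm_num)
  obtain ⟨q, hq⟩ : ∃ q, q = C₁ + 5 := ⟨_, rfl⟩
  refine ⟨q + C₂ * (q + 1), max D₂ D₃, by omega, ?_⟩
  intro m J F c W e s g B G H hc hW hok hown hWg hgW
  have pw : ∀ {x y : ℕ}, x ≤ y → (2 : ℝ) ^ x ≤ 2 ^ y := fun h => pow_le_pow_right₀ (by norm_num) h
  obtain ⟨B₁, xP, xH, pP, pH, k1, k2, k3, k4, k5, k6, k7, k8, k9, k10⟩ :=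
    h1 hc hW hok hown hWg hgW
  obtain ⟨s', hs'⟩ : ∃ s', s' = q * (s + 1) := ⟨_, rfl⟩
  have e1 : s ≤ s' := by rw [hs', hq]; nlinarith [Nat.zero_le (C₁ * s)]
  have e2 : 2 * s + 5 ≤ s' := by rw [hs', hq]; nlinarith [Nat.zero_le (C₁ * s)]
  have e3 : C₁ * (s + 1) ≤ s' := by rw [hs', hq]; nlinarith [Nat.zero_le (C₁ * s)]
  have dv : ∀ {x : ℝ} {a b k : ℕ}, x ≤ 2 ^ a / 2 ^ k → a ≤ b → x ≤ 2 ^ b / 2 ^ k :=
    fun h hab => h.trans (div_le_div_of_nonneg_right (pw hab) (by positivity))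
  obtain ⟨B₂, zP, zH, l1, l2, l3, l4, l5, l6, l7, l8⟩ := h2 (s := s') (QP := fun y => G y 2)
    (QH := fun S => H S 2) (M := 1 / 2 ^ g 2) hc hW
    ((hok.mono le_rfl (fun _ => by rw [hD₂]; exact le_max_left _ _) le_rfl le_rfl).sub k1)
    (fun ω hω t ht => dv (hown ω (k1 ω hω) t ht) e1) (by omega) (by omega)
    (fun y => (k3 y).trans (by rw [hD₂]; exact le_max_right _ _))
    (fun S => (k4 S).trans (by rw [hD₂]; exact le_max_right _ _)) k5 k6 k7
    (fun ω hω => (k8 ω hω).trans (pw e2)) k9 (fun ω hω b hb => dv (k10 ω hω b hb) e3)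
    (fun y => (hok.degG y 2).trans (by rw [hD₂]; exact le_max_left _ _))
    (fun S => (hok.degH S 2).trans (by rw [hD₂]; exact le_max_left _ _))
    (fun y => hok.depG y 2) (fun S => hok.depH S 2) (by positivity)
    (fun ω hω b hb => hok.agr ω (k1 ω hω) 2 (by norm_num) b hb)
  have d0 : ∀ l : ℕ, DepC c l (0 : MvPolynomial (Option (Fin m)) ℝ) := by
    intro l b b' _ _
    rw [map_zero, map_zero]
  refine ⟨B₂, xP, xH, fun y l => if l = 1 then pP y else if l = 2 then zP y else 0,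
    fun S l => if l = 1 then pH S else if l = 2 then zH S else 0, fun ω hω => k1 ω (l1 ω hω), ?_,
    fun y l => ?_, fun S l => ?_, fun y l => ?_, fun S l => ?_, fun ω hω => k7 ω (l1 ω hω),
    fun ω hω => (k8 ω (l1 ω hω)).trans (pw ?_), fun ω hω l => ?_, fun ω hω l h0 h3 b hb => ?_⟩
  · have h3 := Pe_nonneg F.isLaw B
    linarith
  · show (if l = 1 then pP y else if l = 2 then zP y else 0).totalDegree ≤ _
    split_ifs
    · exact (k3 y).trans (by omega)
    · exact (l3 y).trans (le_max_right _ _)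
    · rw [totalDegree_zero]
      exact Nat.zero_le _
  · show (if l = 1 then pH S else if l = 2 then zH S else 0).totalDegree ≤ _
    split_ifs
    · exact (k4 S).trans (by omega)
    · exact (l4 S).trans (le_max_right _ _)
    · rw [totalDegree_zero]
      exact Nat.zero_le _
  · show DepC c l (if l = 1 then pP y else if l = 2 then zP y else 0)
    split_ifs with h h'
    · rw [h]; exact k5 y
    · rw [h']; exact l5 y
    · exact d0 l
  · show DepC c l (if l = 1 then pH S else if l = 2 then zH S else 0)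
    split_ifs with h h'
    · rw [h]; exact k6 S
    · rw [h']; exact l6 S
    · exact d0 l
  · nlinarith [Nat.zero_le (C₂ * (q + 1) * s), Nat.zero_le (C₂ * (q + 1))]
  · show (if l = 1 then pP _ else if l = 2 then zP _ else 0) =
      if l = 1 then pH _ else if l = 2 then zH _ else 0
    rw [k9 ω (l1 ω hω), l7 ω hω]
  · have e4 : C₂ * (s' + 1) ≤ (q + C₂ * (q + 1)) * (s + 1) := by
      rw [hs']
      nlinarith [Nat.zero_le (C₂ * s), Nat.zero_le (q * s), Nat.zero_le q]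
    have e5 : C₁ * (s + 1) ≤ (q + C₂ * (q + 1)) * (s + 1) :=
      Nat.mul_le_mul_right _ (by rw [hq]; omega)
    interval_cases l
    · show |eval b (if 1 = 1 then pP _ else _) - _| ≤ _
      rw [if_pos rfl]
      exact dv (k10 ω (l1 ω hω) b hb) e5
    · show |eval b (if 2 = 1 then pP _ else if 2 = 2 then zP _ else 0) - _| ≤ _
      rw [if_neg (by norm_num), if_pos rfl]
      refine (l8 ω hω b hb).trans ?_
      rw [mul_one_div]
      exact div_le_div_of_nonneg_right (pw e4) (by positivity)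

end Pool.STB77
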