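import Pool.Agent.H77.STB.Vso

/-!
# The labels of a place over two coordinates in absolute coordinates

`vso`: the substitution of the absolute coordinates in natural units of a window `W`. `NodC`: the
labels of `c 0`, `c 1`, `c 2` at a list of balls. `bxi`: a point near the sample is in the natural
boxes of the balls. `vth`: the label of `c 2` in absolute coordinates along the list.
-/

set_option autoImplicit false

namespace Pool.STB77

open Finset Real MvPolynomial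
open Pool.Agent.H49.Ent Pool.Agent.H32.Dense Pool.STK Pool.KA Pool.KSAT Pool.K2S Pool.PB Pool.S6C
open Pool.GEN Pool.CHT Pool.NVX
open Pool.STB (V3 Po Bx)
open Pool.PB.Trl (rt rt_mem t_rt)

variable {m J : ℕ}

/-! ### The substitution -/

/-- The time and the first coordinate. -/
noncomputable def vs0 (c : ℕ → Fin m) (W T : ℕ) : Option (Fin m) → Po
  | none => C ((T : ℝ) / 2 ^ W) + C (1 / 2 ^ W) * X 0
  | some k => if k = c 0 then C (1 / 2 ^ W) * X 1 else 0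

/-- **The substitution of the absolute coordinates.** -/
noncomputable def vso (c : ℕ → Fin m) (W g T : ℕ) (P : MvPolynomial (Option (Fin m)) ℝ) :
    Option (Fin m) → Po
  | none => vs0 c W T none
  | some k => if k = c 0 then C (1 / 2 ^ W) * X 1 else
      if k = c 1 then bind₁ (vs0 c W T) P + C (1 / 2 ^ g) * X 2 else 0

/-- The point with the absolute coordinates `q`. -/
noncomputable def vpt (c : ℕ → Fin m) (W g T : ℕ) (P : MvPolynomial (Option (Fin m)) ℝ) (q : V3) :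
    Option (Fin m) → ℝ := fun o => eval q (vso c W g T P o)

theorem eval_bnd {σ τ : Type} (f : σ → MvPolynomial τ ℝ) (Q : MvPolynomial σ ℝ) (q : τ → ℝ) :
    eval q (bind₁ f Q) = eval (fun o => eval q (f o)) Q := by
  rw [eval, eval₂Hom_bind₁]
  rfl

theorem vpt_none (c : ℕ → Fin m) (W g T : ℕ) (P : MvPolynomial (Option (Fin m)) ℝ) (q : V3) :
    vpt c W g T P q none = (T + q 0) / 2 ^ W := by
  show eval q (C ((T : ℝ) / 2 ^ W) + C (1 / 2 ^ W) * X 0) = _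
  rw [map_add, map_mul, eval_C, eval_C, eval_X]
  ring

theorem vpt_zero (c : ℕ → Fin m) (W g T : ℕ) (P : MvPolynomial (Option (Fin m)) ℝ) (q : V3) :
    vpt c W g T P q (some (c 0)) = q 1 / 2 ^ W := by
  show eval q (if c 0 = c 0 then C (1 / 2 ^ W) * X 1 else _) = _
  rw [if_pos rfl, map_mul, eval_C, eval_X]
  ring

theorem vpt_one {c : ℕ → Fin m} (hc : Set.InjOn c (Set.Iio 2)) (W g T : ℕ)
    {P : MvPolynomial (Option (Fin m)) ℝ} (hP : DepC c 1 P) (q : V3) :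
    vpt c W g T P q (some (c 1)) = eval (vpt c W g T P q) P + q 2 / 2 ^ g := by
  have h10 : c 1 ≠ c 0 := fun h => by
    have := hc (show 1 < 2 by norm_num) (show 0 < 2 by norm_num) h
    omega
  show eval q (if c 1 = c 0 then _ else if c 1 = c 1 then _ else _) = _
  rw [if_neg h10, if_pos rfl, map_add, map_mul, eval_C, eval_X, eval_bnd]
  have e1 : eval (fun o => eval q (vs0 c W T o)) P = eval (vpt c W g T P q) P := by
    refine hP _ _ rfl fun l hl => ?_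
    have : l = 0 := by omega
    subst this
    rw [vpt_zero]
    show eval q (if c 0 = c 0 then C (1 / 2 ^ W) * X 1 else 0) = _
    rw [if_pos rfl, map_mul, eval_C, eval_X]
    ring
  rw [e1]
  ring

/-- The polynomial in absolute coordinates. -/
noncomputable def vpl (c : ℕ → Fin m) (W g T : ℕ) (P Q : MvPolynomial (Option (Fin m)) ℝ) : Po :=
  bind₁ (vso c W g T P) Q

theorem vpl_eval (c : ℕ → Fin m) (W g T : ℕ) (P Q : MvPolynomial (Option (Fin m)) ℝ) (q : V3) :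
    eval q (vpl c W g T P Q) = eval (vpt c W g T P q) Q := eval_bnd _ _ _

theorem deg_bnd {σ τ : Type} (f : σ → MvPolynomial τ ℝ) {K : ℕ} (hf : ∀ i, (f i).totalDegree ≤ K)
    (Q : MvPolynomial σ ℝ) : (bind₁ f Q).totalDegree ≤ Q.totalDegree * K := by
  classical
  rw [← aeval_eq_bind₁, aeval_def, eval₂_eq]
  refine (totalDegree_finsetSum _ _).trans (Finset.sup_le fun s hs => ?_)
  refine (totalDegree_mul _ _).trans ?_
  have h1 : (algebraMap ℝ (MvPolynomial τ ℝ) (coeff s Q)).totalDegree = 0 := totalDegree_C _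
  rw [h1, zero_add]
  refine (totalDegree_finsetProd _ _).trans ?_
  refine le_trans ?_ (Nat.mul_le_mul_right K (le_totalDegree hs))
  rw [Finsupp.sum, Finset.sum_mul]
  refine Finset.sum_le_sum fun i _ => ?_
  exact (totalDegree_pow _ _).trans (Nat.mul_le_mul_left _ (hf i))

theorem vs0_deg (c : ℕ → Fin m) (W T : ℕ) (o : Option (Fin m)) : (vs0 c W T o).totalDegree ≤ 1 := by
  have h1 : ∀ (x : ℝ) (i : Fin 3), (C x * X i : Po).totalDegree ≤ 1 := by
    intro x i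
    refine (totalDegree_mul _ _).trans ?_
    rw [totalDegree_C, totalDegree_X]
  cases o
  · refine (totalDegree_add _ _).trans (max_le ?_ (h1 _ _))
    rw [totalDegree_C]
    exact Nat.zero_le _
  · rename_i k
    show (if k = c 0 then (C (1 / 2 ^ W) * X 1 : Po) else 0).totalDegree ≤ 1
    split_ifs
    · exact h1 _ _
    · rw [totalDegree_zero]
      exact Nat.zero_le _

theorem vso_deg (c : ℕ → Fin m) (W g T : ℕ) {P : MvPolynomial (Option (Fin m)) ℝ} {D : ℕ}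
    (hP : P.totalDegree ≤ D) (o : Option (Fin m)) : (vso c W g T P o).totalDegree ≤ D + 1 := by
  have h1 : ∀ (x : ℝ) (i : Fin 3), (C x * X i : Po).totalDegree ≤ D + 1 := by
    intro x i
    refine (totalDegree_mul _ _).trans ?_
    rw [totalDegree_C, totalDegree_X]
    omega
  cases o
  · exact (vs0_deg c W T none).trans (by omega)
  · rename_i k
    show (if k = c 0 then (C (1 / 2 ^ W) * X 1 : Po) else
      if k = c 1 then bind₁ (vs0 c W T) P + C (1 / 2 ^ g) * X 2 else 0).totalDegree ≤ D + 1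
    split_ifs
    · exact h1 _ _
    · refine (totalDegree_add _ _).trans (max_le ?_ (h1 _ _))
      refine (deg_bnd _ (vs0_deg c W T) P).trans ?_
      omega
    · rw [totalDegree_zero]
      exact Nat.zero_le _

theorem vpl_deg (c : ℕ → Fin m) (W g T : ℕ) {P Q : MvPolynomial (Option (Fin m)) ℝ} {D : ℕ}
    (hP : P.totalDegree ≤ D) (hQ : Q.totalDegree ≤ D) :
    (vpl c W g T P Q).totalDegree ≤ D * (D + 1) :=
  (deg_bnd _ (vso_deg c W g T hP) Q).trans (Nat.mul_le_mul_right _ hQ)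

/-! ### The sample -/

/-- The absolute coordinates of the sample. -/
noncomputable def ypt (F : Fam m J) (c : ℕ → Fin m) (W g : ℕ)
    (P : MvPolynomial (Option (Fin m)) ℝ) (ω : F.Ω) : V3 := fun i =>
  if i = 0 then rt F W ω else if i = 1 then 2 ^ W * F.x ω (c 0) else
    2 ^ g * (F.x ω (c 1) - eval (bt F ω) P)

theorem ypt_zero (F : Fam m J) (c : ℕ → Fin m) (W g : ℕ) (P : MvPolynomial (Option (Fin m)) ℝ)
    (ω : F.Ω) : ypt F c W g P ω 0 = rt F W ω := rfl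

theorem ypt_one (F : Fam m J) (c : ℕ → Fin m) (W g : ℕ) (P : MvPolynomial (Option (Fin m)) ℝ)
    (ω : F.Ω) : ypt F c W g P ω 1 = 2 ^ W * F.x ω (c 0) := rfl

theorem ypt_two (F : Fam m J) (c : ℕ → Fin m) (W g : ℕ) (P : MvPolynomial (Option (Fin m)) ℝ)
    (ω : F.Ω) : ypt F c W g P ω 2 = 2 ^ g * (F.x ω (c 1) - eval (bt F ω) P) := rfl

section Pt

variable {F : Fam m J} {c : ℕ → Fin m} {W g : ℕ} {P : MvPolynomial (Option (Fin m)) ℝ}

/-- The point near the sample. -/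
noncomputable def vnr (F : Fam m J) (c : ℕ → Fin m) (W g : ℕ)
    (P : MvPolynomial (Option (Fin m)) ℝ) (ω : F.Ω) (r : V3) : Option (Fin m) → ℝ :=
  vpt c W g (slam F W ω).2.2 P (ypt F c W g P ω + r)

theorem vnr_none (hW : W ≤ J) (ω : F.Ω) (r : V3) :
    vnr F c W g P ω r none = F.t ω + r 0 / 2 ^ W := by
  unfold vnr
  rw [vpt_none, Pi.add_apply, ypt_zero, t_rt F hW ω]
  ring

theorem vnr_zero (ω : F.Ω) (r : V3) :
    vnr F c W g P ω r (some (c 0)) = F.x ω (c 0) + r 1 / 2 ^ W := by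
  unfold vnr
  rw [vpt_zero, Pi.add_apply, ypt_one]
  have : (2 : ℝ) ^ W ≠ 0 := by positivity
  field_simp

theorem vnr_one (hc : Set.InjOn c (Set.Iio 2)) (hP : DepC c 1 P) (ω : F.Ω) (r : V3) :
    vnr F c W g P ω r (some (c 1)) = F.x ω (c 1) + (eval (vnr F c W g P ω r) P -
      eval (bt F ω) P) + r 2 / 2 ^ g := by
  unfold vnr
  rw [vpt_one hc W g _ hP, Pi.add_apply, ypt_two]
  have : (2 : ℝ) ^ g ≠ 0 := by positivity
  field_simp
  ring

end Pt

/-! ### The labels at a list of balls -/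

/-- **The labels of `c 0`, `c 1`, `c 2` at a list of balls** with radii `A 0 = W, …, A N`, and closed
polynomials of the window `W` for `c 1` and `c 2`. -/
structure Inc (F : Fam m J) (c : ℕ → Fin m) (D N W s v : ℕ) (A : ℕ → ℕ) (e : ℕ → ℕ)
    (g : ℕ → ℕ → ℕ) (B : F.Ω → Prop) (G : ℕ → PtT F → ℕ → MvPolynomial (Option (Fin m)) ℝ)
    (H : ℕ → LnT F → ℕ → MvPolynomial (Option (Fin m)) ℝ)
    (pP : PtT F → ℕ → MvPolynomial (Option (Fin m)) ℝ)
    (pH : LnT F → ℕ → MvPolynomial (Option (Fin m)) ℝ) : Prop where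
  inj : Set.InjOn c (Set.Iio 3)
  A0 : A 0 = W
  AJ : ∀ k ≤ N, A k ≤ J
  AW : ∀ k ≤ N, W ≤ A k
  Am : ∀ k < N, A k ≤ A (k + 1)
  Av : ∀ k < N, A (k + 1) ≤ A k + v
  ok : ∀ k ≤ N, ChOK F c 3 (fun _ => D) (A k) (A k) (e k) (g k) B (G k) (H k)
  own : ∀ k ≤ N, ∀ ω, B ω → ∀ t, |t - F.t ω| ≤ 1 / 2 ^ A k →
    |opt F ω t (some (c 0)) - eval (opt F ω t) (G k (ptr F J ω) 0)| ≤ 2 ^ s / 2 ^ g k 0
  uni : ∀ k < N, ∀ l < 3, ∀ ω, B ω → ∀ b,
    NBx c (G (k + 1) (ptr F J ω)) (g (k + 1)) (A (k + 1)) (F.t ω) l b →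
    |eval b (G (k + 1) (ptr F J ω) l) - eval b (G k (ptr F J ω) l)| ≤ 2 ^ s / 2 ^ g k l
  n0 : ∀ k ≤ N, g k 0 ≤ A k + s
  n1 : ∀ k ≤ N, g k 1 ≤ g 0 1 + (A k - W) + s
  n1' : ∀ k ≤ N, g 0 1 + (A k - W) ≤ g k 1 + s
  pd : ∀ y l, (pP y l).totalDegree ≤ D
  hd : ∀ y l, (pH y l).totalDegree ≤ D
  pe : ∀ y l, DepC c l (pP y l)
  pc : ∀ ω, B ω → ∀ l, pP (ptr F J ω) l = pH (slam F W ω) l
  pn : ∀ ω, B ω → ∀ l, 0 < l → l < 3 → ∀ b, NBx c (G 0 (ptr F J ω)) (g 0) (A 0) (F.t ω) l b →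
    |eval b (pP (ptr F J ω) l) - eval b (G 0 (ptr F J ω) l)| ≤ 2 ^ s / 2 ^ g 0 l

section Box

variable {F : Fam m J} {c : ℕ → Fin m} {D N W s v : ℕ} {A : ℕ → ℕ} {e : ℕ → ℕ}
    {g : ℕ → ℕ → ℕ} {B : F.Ω → Prop} {G : ℕ → PtT F → ℕ → MvPolynomial (Option (Fin m)) ℝ}
    {H : ℕ → LnT F → ℕ → MvPolynomial (Option (Fin m)) ℝ}
    {pP : PtT F → ℕ → MvPolynomial (Option (Fin m)) ℝ}
    {pH : LnT F → ℕ → MvPolynomial (Option (Fin m)) ℝ}

theorem Inc.AmW (I : Inc F c D N W s v A e g B G H pP pH) {k : ℕ} (hk : k ≤ N) : W ≤ A k :=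
  I.AW k hk

/-- A point near the sample in the plane. -/
theorem Inc.pln (I : Inc F c D N W s v A e g B G H pP pH) {k : ℕ} (hk : k ≤ N) {ω : F.Ω}
    (hω : B ω) {b : Option (Fin m) → ℝ} (hb0 : |b none - F.t ω| ≤ 1 / 2 ^ A k)
    (hb1 : |b (some (c 0)) - F.x ω (c 0)| ≤ 1 / 2 ^ A k) :
    |b (some (c 0)) - eval b (G k (ptr F J ω) 0)| ≤ 2 ^ (s + 2) / 2 ^ g k 0 := by
  have h1 := I.own k hk ω hω (b none) hb0
  have h2 : eval b (G k (ptr F J ω) 0) = eval (opt F ω (b none)) (G k (ptr F J ω) 0) :=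
    (I.ok k hk).depG _ 0 _ _ (opt_none F ω _).symm fun l hl => absurd hl (Nat.not_lt_zero l)
  rw [h2]
  rw [opt_some] at h1
  have h3 : |(b none - F.t ω) * F.d ω (c 0)| ≤ 1 / 2 ^ A k := by
    rw [abs_mul]
    calc |b none - F.t ω| * |F.d ω (c 0)| ≤ 1 / 2 ^ A k * 1 :=
          mul_le_mul hb0 (F.dir ω (c 0)) (abs_nonneg _) (by positivity)
      _ = _ := mul_one _
  have h4 : (1 : ℝ) / 2 ^ A k ≤ 2 ^ s / 2 ^ g k 0 := by
    rw [div_le_div_iff₀ (by positivity) (by positivity), one_mul, ← pow_add]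
    exact pow_le_pow_right₀ (by norm_num) (by have := I.n0 k hk; omega)
  have e1 : b (some (c 0)) - eval (opt F ω (b none)) (G k (ptr F J ω) 0) =
      (b (some (c 0)) - F.x ω (c 0)) - (b none - F.t ω) * F.d ω (c 0) +
      (F.x ω (c 0) + (b none - F.t ω) * F.d ω (c 0) -
        eval (opt F ω (b none)) (G k (ptr F J ω) 0)) := by ring
  rw [e1]
  refine (abs_add_le _ _).trans ?_
  have h5 := abs_sub (b (some (c 0)) - F.x ω (c 0)) ((b none - F.t ω) * F.d ω (c 0))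
  have e2 : (2 : ℝ) ^ (s + 2) / 2 ^ g k 0 = 4 * (2 ^ s / 2 ^ g k 0) := by
    rw [pow_add]
    ring
  have h6 : (0 : ℝ) ≤ 2 ^ s / 2 ^ g k 0 := by positivity
  rw [e2]
  linarith

end Box

/-- **A label over the plane moves little** near the sample. -/
theorem plane_lip (D : ℕ) : ∃ C : ℕ, ∀ {m J : ℕ} {F : Fam m J} {c : ℕ → Fin m} {N W s v : ℕ}
    {A : ℕ → ℕ} {e : ℕ → ℕ} {g : ℕ → ℕ → ℕ} {B : F.Ω → Prop}
    {G : ℕ → PtT F → ℕ → MvPolynomial (Option (Fin m)) ℝ}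
    {H : ℕ → LnT F → ℕ → MvPolynomial (Option (Fin m)) ℝ}
    {pP : PtT F → ℕ → MvPolynomial (Option (Fin m)) ℝ}
    {pH : LnT F → ℕ → MvPolynomial (Option (Fin m)) ℝ} {k a : ℕ} {ω : F.Ω} {M : ℝ}
    {Q : MvPolynomial (Option (Fin m)) ℝ} {b : Option (Fin m) → ℝ},
    Inc F c D N W s v A e g B G H pP pH → k ≤ N → B ω → Q.totalDegree ≤ D → DepC c 1 Q →
    0 ≤ M → (∀ b, NBx c (G k (ptr F J ω)) (g k) (A k) (F.t ω) 1 b → |eval b Q| ≤ M) → A k ≤ a →
    |b none - F.t ω| ≤ 1 / 2 ^ a → |b (some (c 0)) - F.x ω (c 0)| ≤ 1 / 2 ^ a →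
    |eval b Q - eval (bt F ω) Q| ≤ 2 ^ (C * (s + 1)) * M / 2 ^ (a - A k) := by
  obtain ⟨c₀, D₁, hD₁, hdil⟩ := nbx_dil 3 (fun _ => D)
  obtain ⟨C₂, hC₂, hlip⟩ := lip_pt D
  obtain ⟨k₂, hk₂⟩ := pow_unbounded_of_one_lt C₂ (one_lt_two (α := ℝ))
  refine ⟨c₀ + 2 * D₁ + k₂, ?_⟩
  intro m J F c N W s v A e g B G H pP pH k a ω M Q b I hk hω hQ hQd hM hQM hka hb0 hb1
  have hok := I.ok k hk
  obtain ⟨d, hd⟩ : ∃ d, d = a - A k := ⟨_, rfl⟩
  have hda : a = A k + d := by omega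
  obtain ⟨ln, hln⟩ : ∃ ln : Option (Fin m) → Polynomial ℝ, ln = fun o =>
      Polynomial.C (bt F ω o) + Polynomial.C (2 ^ d * (b o - bt F ω o)) * Polynomial.X := ⟨_, rfl⟩
  have hlnd : ∀ o, (ln o).natDegree ≤ 1 := by
    intro o
    rw [hln]
    exact (Polynomial.natDegree_add_le _ _).trans (max_le (by
      rw [Polynomial.natDegree_C]
      exact Nat.zero_le _)
      ((Polynomial.natDegree_C_mul_le _ _).trans Polynomial.natDegree_X_le))
  have hlne : ∀ o σ, (ln o).eval σ = bt F ω o + 2 ^ d * (b o - bt F ω o) * σ := by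
    intro o σ
    rw [hln]
    show (Polynomial.C _ + Polynomial.C _ * Polynomial.X).eval σ = _
    rw [Polynomial.eval_add, Polynomial.eval_mul, Polynomial.eval_C, Polynomial.eval_C,
      Polynomial.eval_X]
  have h2d : (0 : ℝ) < 2 ^ d := by positivity
  have e1a : (1 : ℝ) / 2 ^ a = 1 / 2 ^ A k / 2 ^ d := by
    rw [hda, pow_add]
    field_simp
  have hmv : ∀ o, |b o - bt F ω o| ≤ 1 / 2 ^ a → ∀ σ ∈ Set.Icc (0 : ℝ) 1,
      |(ln o).eval σ - bt F ω o| ≤ 1 / 2 ^ A k := by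
    intro o ho σ hσ
    rw [hlne, add_sub_cancel_left, abs_mul, abs_mul, abs_of_pos h2d, abs_of_nonneg hσ.1]
    rw [e1a] at ho
    calc 2 ^ d * |b o - bt F ω o| * σ ≤ 2 ^ d * (1 / 2 ^ A k / 2 ^ d) * 1 := by
          refine mul_le_mul (mul_le_mul_of_nonneg_left ho h2d.le) hσ.2 hσ.1 (by positivity)
      _ = _ := by field_simp
  have hpt : ∀ σ ∈ Set.Icc (0 : ℝ) 1,
      |eval (fun o => (ln o).eval σ) Q| ≤ 2 ^ (c₀ + (s + 2) * D₁) * M := by
    intro σ hσ
    have h1 := hmv none (by exact hb0) σ hσ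
    have h2 := hmv (some (c 0)) (by exact hb1) σ hσ
    refine hdil (c := c) (i := 1) (G := G k (ptr F J ω)) (Q := Q) (g := g k) (a := A k)
      (t := F.t ω) (M := M) (s + 2) (by norm_num)
      (I.inj.mono fun x (hx : x < 1) => show x < 3 by omega)
      (hok.degG _) (hok.depG _) hQd hQ hM hQM _ h1 fun l hl => ?_
    have : l = 0 := by omega
    subst this
    exact I.pln hk hω (b := fun o => (ln o).eval σ) h1 h2
  have h3 := (hlip (MvPolynomial.aeval ln Q) (2 ^ (c₀ + (s + 2) * D₁) * M)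
    (Pool.KBX.natDegree_aeval_le Q ln hlnd hQ) (fun σ hσ => by
      rw [Pool.KBX.eval_aeval_poly]
      exact hpt σ hσ)).1 (1 / 2 ^ d) ⟨by positivity, by
        rw [div_le_one h2d]
        exact one_le_pow₀ (by norm_num)⟩
  rw [Pool.KBX.eval_aeval_poly, Pool.KBX.eval_aeval_poly] at h3
  have e2 : (fun o => (ln o).eval (1 / 2 ^ d)) = b := by
    funext o
    rw [hlne]
    field_simp
    ring
  have e3 : (fun o => (ln o).eval 0) = bt F ω := by
    funext o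
    rw [hlne, mul_zero, add_zero]
  rw [e2, e3] at h3
  refine h3.trans ?_
  rw [← hd]
  calc C₂ * (2 ^ (c₀ + (s + 2) * D₁) * M) * (1 / 2 ^ d) ≤
      2 ^ k₂ * (2 ^ (c₀ + (s + 2) * D₁) * M) * (1 / 2 ^ d) := by
        refine mul_le_mul_of_nonneg_right (mul_le_mul_of_nonneg_right hk₂.le ?_) ?_ <;> positivity
    _ = 2 ^ (k₂ + (c₀ + (s + 2) * D₁)) * M / 2 ^ d := by rw [pow_add]; ring
    _ ≤ _ := by
        refine div_le_div_of_nonneg_right (mul_le_mul_of_nonneg_right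
          (pow_le_pow_right₀ (by norm_num) ?_) hM) (by positivity)
        nlinarith [Nat.zero_le (c₀ * s), Nat.zero_le (D₁ * s), Nat.zero_le (k₂ * s)]

/-- **The own coordinate of the closed label** near the sample. -/
theorem cl_lip (D N : ℕ) : ∃ C : ℕ, ∀ {m J : ℕ} {F : Fam m J} {c : ℕ → Fin m} {W s v : ℕ}
    {A : ℕ → ℕ} {e : ℕ → ℕ} {g : ℕ → ℕ → ℕ} {B : F.Ω → Prop}
    {G : ℕ → PtT F → ℕ → MvPolynomial (Option (Fin m)) ℝ}
    {H : ℕ → LnT F → ℕ → MvPolynomial (Option (Fin m)) ℝ}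
    {pP : PtT F → ℕ → MvPolynomial (Option (Fin m)) ℝ}
    {pH : LnT F → ℕ → MvPolynomial (Option (Fin m)) ℝ} {k a : ℕ} {ω : F.Ω}
    {b : Option (Fin m) → ℝ},
    Inc F c D N W s v A e g B G H pP pH → k ≤ N → B ω → A k ≤ a →
    |b none - F.t ω| ≤ 1 / 2 ^ a → |b (some (c 0)) - F.x ω (c 0)| ≤ 1 / 2 ^ a →
    |(eval b (pP (ptr F J ω) 1) - eval b (G k (ptr F J ω) 1)) -
      (eval (bt F ω) (pP (ptr F J ω) 1) - eval (bt F ω) (G k (ptr F J ω) 1))| ≤
      2 ^ (C * (s + v + 1)) / 2 ^ (g 0 1 + (a - W)) := by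
  obtain ⟨C, hpl⟩ := plane_lip D
  refine ⟨C + N + 2, ?_⟩
  intro m J F c W s v A e g B G H pP pH k a ω b I hk hω hka hb0 hb1
  have hN0 := I.A0
  obtain ⟨U, hU⟩ : ∃ U : ℝ, U = 2 ^ (C * (s + 1) + 2 * s + v) / 2 ^ (g 0 1 + (a - W)) := ⟨_, rfl⟩
  have hU0 : 0 ≤ U := by rw [hU]; positivity
  have pw : ∀ {x y : ℕ}, x ≤ y → (2 : ℝ) ^ x ≤ 2 ^ y := fun h => pow_le_pow_right₀ (by norm_num) h
  have h3c : Set.InjOn c (Set.Iio 3) := I.inj
  have key : ∀ j ≤ k, |(eval b (pP (ptr F J ω) 1) - eval b (G j (ptr F J ω) 1)) -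
      (eval (bt F ω) (pP (ptr F J ω) 1) - eval (bt F ω) (G j (ptr F J ω) 1))| ≤
      (j + 1) * U := by
    intro j
    induction j with
    | zero =>
      intro _
      have ok0 := I.ok 0 (Nat.zero_le N)
      have hWa : W ≤ a := (I.AmW hk).trans hka
      have h1 := hpl (Q := pP (ptr F J ω) 1 - G 0 (ptr F J ω) 1) (M := 2 ^ s / 2 ^ g 0 1)
        (b := b) (k := 0) (a := a) (ω := ω) I (Nat.zero_le N) hω
        ((totalDegree_sub _ _).trans (max_le (I.pd _ _) (ok0.degG _ _)))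
        (fun b b' hn hb => by rw [map_sub, map_sub, I.pe _ 1 b b' hn hb, ok0.depG _ 1 b b' hn hb])
        (by positivity) (fun b hb => by
          rw [map_sub]
          exact I.pn ω hω 1 one_pos (by norm_num) b hb) (by rw [hN0]; exact hWa) hb0 hb1
      rw [map_sub, map_sub, hN0] at h1
      have e1 : (eval b (pP (ptr F J ω) 1) - eval b (G 0 (ptr F J ω) 1)) -
          (eval (bt F ω) (pP (ptr F J ω) 1) - eval (bt F ω) (G 0 (ptr F J ω) 1)) =
          eval b (pP (ptr F J ω) 1) - eval b (G 0 (ptr F J ω) 1) -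
            (eval (bt F ω) (pP (ptr F J ω) 1) - eval (bt F ω) (G 0 (ptr F J ω) 1)) := rfl
      rw [e1]
      refine h1.trans ?_
      rw [Nat.cast_zero, zero_add, one_mul, hU, pow_add 2 (g 0 1)]
      calc (2 : ℝ) ^ (C * (s + 1)) * (2 ^ s / 2 ^ g 0 1) / 2 ^ (a - W) =
          2 ^ (C * (s + 1) + s) / (2 ^ g 0 1 * 2 ^ (a - W)) := by
            rw [pow_add]
            field_simp
        _ ≤ _ := div_le_div_of_nonneg_right (pw (by omega)) (by positivity)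
    | succ j ih =>
      intro hj
      have hjN : j < N := by omega
      have ih' := ih (by omega)
      have okj := I.ok j hjN.le
      have okj' := I.ok (j + 1) (by omega)
      have hAj : A (j + 1) ≤ a := by
        refine le_trans ?_ hka
        clear ih ih' okj okj'
        have : ∀ i, j + 1 + i ≤ N → A (j + 1) ≤ A (j + 1 + i) := by
          intro i
          induction i with
          | zero => intro _; exact le_rfl
          | succ i ih =>
            intro hi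
            exact (ih (by omega)).trans (I.Am (j + 1 + i) (by omega))
        have h1 := this (k - (j + 1)) (by omega)
        rwa [show j + 1 + (k - (j + 1)) = k by omega] at h1
      have h1 := hpl (Q := G (j + 1) (ptr F J ω) 1 - G j (ptr F J ω) 1) (M := 2 ^ s / 2 ^ g j 1)
        (b := b) (k := j + 1) (a := a) (ω := ω) I (by omega) hω
        ((totalDegree_sub _ _).trans (max_le (okj'.degG _ _) (okj.degG _ _)))
        (fun b b' hn hb => by
          rw [map_sub, map_sub, okj'.depG _ 1 b b' hn hb, okj.depG _ 1 b b' hn hb])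
        (by positivity) (fun b hb => by
          rw [map_sub]
          exact I.uni j hjN 1 (by norm_num) ω hω b hb) hAj hb0 hb1
      rw [map_sub, map_sub] at h1
      have e1 : (eval b (pP (ptr F J ω) 1) - eval b (G (j + 1) (ptr F J ω) 1)) -
          (eval (bt F ω) (pP (ptr F J ω) 1) - eval (bt F ω) (G (j + 1) (ptr F J ω) 1)) =
          ((eval b (pP (ptr F J ω) 1) - eval b (G j (ptr F J ω) 1)) -
          (eval (bt F ω) (pP (ptr F J ω) 1) - eval (bt F ω) (G j (ptr F J ω) 1))) -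
          (eval b (G (j + 1) (ptr F J ω) 1) - eval b (G j (ptr F J ω) 1) -
            (eval (bt F ω) (G (j + 1) (ptr F J ω) 1) - eval (bt F ω) (G j (ptr F J ω) 1))) := by
        ring
      rw [e1]
      refine (abs_sub _ _).trans ?_
      have h2 : (2 : ℝ) ^ (C * (s + 1)) * (2 ^ s / 2 ^ g j 1) / 2 ^ (a - A (j + 1)) ≤ U := by
        have h3 := I.n1' j hjN.le
        have h4 := I.Av j hjN
        have h5 := I.AW j hjN.le
        rw [hU, ← mul_div_assoc, ← pow_add, div_div, ← pow_add, div_le_div_iff₀ (by positivity)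
          (by positivity), ← pow_add, ← pow_add]
        exact pw (by omega)
      push_cast
      linarith
  refine (key k le_rfl).trans ?_
  have h1 : ((k : ℝ) + 1) ≤ 2 ^ N := by
    have h2 : k + 1 ≤ 2 ^ N := (Nat.succ_le_succ hk).trans (Nat.lt_two_pow_self (n := N))
    exact_mod_cast h2
  calc ((k : ℝ) + 1) * U ≤ 2 ^ N * U := mul_le_mul_of_nonneg_right h1 hU0
    _ = 2 ^ (N + (C * (s + 1) + 2 * s + v)) / 2 ^ (g 0 1 + (a - W)) := by
        rw [hU, pow_add 2 N]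
        ring
    _ ≤ _ := by
        refine div_le_div_of_nonneg_right (pw ?_) (by positivity)
        nlinarith [Nat.zero_le (C * v), Nat.zero_le (N * s), Nat.zero_le (N * v)]

/-- **The natural boxes of the balls** contain the small boxes in absolute coordinates, up to a
dilation. -/
theorem vdil (D N : ℕ) : ∃ C : ℕ, ∀ {m J : ℕ} {F : Fam m J} {c : ℕ → Fin m} {W s v : ℕ}
    {A : ℕ → ℕ} {e : ℕ → ℕ} {g : ℕ → ℕ → ℕ} {B : F.Ω → Prop}
    {G : ℕ → PtT F → ℕ → MvPolynomial (Option (Fin m)) ℝ}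
    {H : ℕ → LnT F → ℕ → MvPolynomial (Option (Fin m)) ℝ}
    {pP : PtT F → ℕ → MvPolynomial (Option (Fin m)) ℝ}
    {pH : LnT F → ℕ → MvPolynomial (Option (Fin m)) ℝ} {k : ℕ} {ω : F.Ω} {r : V3} {M : ℝ}
    {Q : MvPolynomial (Option (Fin m)) ℝ},
    Inc F c D N W s v A e g B G H pP pH → k ≤ N → B ω → Bx (1 / 2 ^ (A k - W)) r →
    Q.totalDegree ≤ D → DepC c 2 Q → 0 ≤ M →
    (∀ b, NBx c (G k (ptr F J ω)) (g k) (A k) (F.t ω) 2 b → |eval b Q| ≤ M) →
    |eval (vnr F c W (g 0 1) (pP (ptr F J ω) 1) ω r) Q| ≤ 2 ^ (C * (s + v + 1)) * M := by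
  obtain ⟨C₁, hcl⟩ := cl_lip D N
  obtain ⟨c₀, D₁, hD₁, hdil⟩ := nbx_dil 3 (fun _ => D)
  refine ⟨c₀ + (C₁ + 3) * D₁, ?_⟩
  intro m J F c W s v A e g B G H pP pH k ω r M Q I hk hω hr hQ hQd hM hQM
  have pw : ∀ {x y : ℕ}, x ≤ y → (2 : ℝ) ^ x ≤ 2 ^ y := fun h => pow_le_pow_right₀ (by norm_num) h
  have hok := I.ok k hk
  have hWA := I.AmW hk
  have hWJ : W ≤ J := hWA.trans (I.AJ k hk)
  obtain ⟨b, hb⟩ : ∃ b, b = vnr F c W (g 0 1) (pP (ptr F J ω) 1) ω r := ⟨_, rfl⟩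
  have e2 : (1 : ℝ) / 2 ^ (A k - W) / 2 ^ W = 1 / 2 ^ A k := by
    rw [div_div, ← pow_add, Nat.sub_add_cancel hWA]
  have hbn : |b none - F.t ω| ≤ 1 / 2 ^ A k := by
    rw [hb, vnr_none hWJ, add_sub_cancel_left, abs_div, abs_of_pos (by positivity : (0:ℝ) < 2 ^ W),
      ← e2]
    exact div_le_div_of_nonneg_right (hr 0) (by positivity)
  have hb0 : |b (some (c 0)) - F.x ω (c 0)| ≤ 1 / 2 ^ A k := by
    rw [hb, vnr_zero, add_sub_cancel_left, abs_div, abs_of_pos (by positivity : (0:ℝ) < 2 ^ W),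
      ← e2]
    exact div_le_div_of_nonneg_right (hr 1) (by positivity)
  have h1 := I.pln hk hω hbn hb0
  have h2 := hcl I hk hω le_rfl hbn hb0
  have hb1 : b (some (c 1)) = F.x ω (c 1) + (eval b (pP (ptr F J ω) 1) -
      eval (bt F ω) (pP (ptr F J ω) 1)) + r 2 / 2 ^ g 0 1 := by
    rw [hb]
    exact vnr_one (I.inj.mono fun x (hx : x < 2) => show x < 3 by omega) (I.pe _ 1) ω r
  have h3 : |b (some (c 1)) - eval b (G k (ptr F J ω) 1)| ≤
      2 ^ ((C₁ + 3) * (s + v + 1)) / 2 ^ g k 1 := by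
    have h4 := hok.pos ω hω 1 (by norm_num)
    have h5 : |r 2 / 2 ^ g 0 1| ≤ 2 ^ s / 2 ^ g k 1 := by
      rw [abs_div, abs_of_pos (by positivity : (0:ℝ) < 2 ^ g 0 1)]
      refine (div_le_div_of_nonneg_right (hr 2) (by positivity)).trans ?_
      rw [div_div, ← pow_add, div_le_div_iff₀ (by positivity) (by positivity), one_mul, ← pow_add]
      exact pw (by have := I.n1 k hk; omega)
    have h6 : (2 : ℝ) ^ (C₁ * (s + v + 1)) / 2 ^ (g 0 1 + (A k - W)) ≤
        2 ^ (C₁ * (s + v + 1) + s) / 2 ^ g k 1 := by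
      rw [div_le_div_iff₀ (by positivity) (by positivity), ← pow_add, ← pow_add]
      exact pw (by have := I.n1 k hk; omega)
    have e1 : b (some (c 1)) - eval b (G k (ptr F J ω) 1) =
        (F.x ω (c 1) - eval (bt F ω) (G k (ptr F J ω) 1)) +
        ((eval b (pP (ptr F J ω) 1) - eval b (G k (ptr F J ω) 1)) -
          (eval (bt F ω) (pP (ptr F J ω) 1) - eval (bt F ω) (G k (ptr F J ω) 1))) +
        r 2 / 2 ^ g 0 1 := by
      rw [hb1]
      ring
    rw [e1]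
    refine (abs_add_le _ _).trans ?_
    have h7 := abs_add_le (F.x ω (c 1) - eval (bt F ω) (G k (ptr F J ω) 1))
      ((eval b (pP (ptr F J ω) 1) - eval b (G k (ptr F J ω) 1)) -
          (eval (bt F ω) (pP (ptr F J ω) 1) - eval (bt F ω) (G k (ptr F J ω) 1)))
    have h8 : (1 : ℝ) / 2 ^ g k 1 + 2 ^ (C₁ * (s + v + 1) + s) / 2 ^ g k 1 + 2 ^ s / 2 ^ g k 1 ≤
        2 ^ ((C₁ + 3) * (s + v + 1)) / 2 ^ g k 1 := by
      rw [← add_div, ← add_div]
      refine div_le_div_of_nonneg_right ?_ (by positivity)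
      have k1 : (1 : ℝ) ≤ 2 ^ (C₁ * (s + v + 1) + s) := one_le_pow₀ (by norm_num)
      have k2 : (2 : ℝ) ^ s ≤ 2 ^ (C₁ * (s + v + 1) + s) := pw (by omega)
      have k3 : (2 : ℝ) ^ (C₁ * (s + v + 1) + s + 2) ≤ 2 ^ ((C₁ + 3) * (s + v + 1)) :=
        pw (by nlinarith)
      rw [pow_add 2 (C₁ * (s + v + 1) + s) 2] at k3
      linarith
    linarith
  rw [← hb]
  refine (hdil (c := c) (i := 2) (G := G k (ptr F J ω)) (Q := Q) (g := g k) (a := A k)
      (t := F.t ω) (M := M) ((C₁ + 3) * (s + v + 1)) (by norm_num)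
      (I.inj.mono fun x (hx : x < 2) => show x < 3 by omega)
      (hok.degG _) (hok.depG _) hQd hQ hM hQM b hbn fun l hl => ?_).trans ?_
  · interval_cases l
    · exact h1.trans (div_le_div_of_nonneg_right (pw (by nlinarith)) (by positivity))
    · exact h3
  · refine mul_le_mul_of_nonneg_right (pw ?_) hM
    nlinarith [Nat.zero_le (c₀ * (s + v))]

/-! ### The label of `c 2` -/

/-- The visible label of `c 2` minus the closed one, in absolute coordinates. -/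
noncomputable def fvP (F : Fam m J) (c : ℕ → Fin m) (W g₁ g₂ : ℕ)
    (G pP : PtT F → ℕ → MvPolynomial (Option (Fin m)) ℝ) (y : PtT F) : Po :=
  C (2 ^ g₂) * vpl c W g₁ (y.2.1 / 2 ^ (J - W)) (pP y 1) (G y 2 - pP y 2)

/-- The label of a line and of the larger window `W`, from the window `a`. -/
def cos (F : Fam m J) (W a : ℕ) (S : LnT F) : LnT F := (S.1, S.2.1, S.2.2 / 2 ^ (a - W))

/-- The label of the line and of the window `a`. -/
noncomputable def fvH (F : Fam m J) (c : ℕ → Fin m) (W a g₁ g₂ : ℕ)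
    (H pH : LnT F → ℕ → MvPolynomial (Option (Fin m)) ℝ) (S : LnT F) : Po :=
  C (2 ^ g₂) * vpl c W g₁ (cos F W a S).2.2 (pH (cos F W a S) 1) (H S 2 - pH (cos F W a S) 2)

/-- The label of the line and of the window `W`. -/
noncomputable def kvH (F : Fam m J) (c : ℕ → Fin m) (W g₁ g₂ : ℕ)
    (H pH : LnT F → ℕ → MvPolynomial (Option (Fin m)) ℝ) (S : LnT F) : Po :=
  C (2 ^ g₂) * vpl c W g₁ S.2.2 (pH S 1) (H S 2 - pH S 2)

theorem cos_slam (F : Fam m J) {W a : ℕ} (hW : W ≤ a) (ha : a ≤ J) (ω : F.Ω) :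
    cos F W a (slam F a ω) = slam F W ω := slam_coarse' F hW ha ω

/-- The label, evaluated near the sample. -/
theorem fvP_eval (F : Fam m J) (c : ℕ → Fin m) (W g₁ g₂ : ℕ)
    (G pP : PtT F → ℕ → MvPolynomial (Option (Fin m)) ℝ) (ω : F.Ω) (r : V3) :
    eval (ypt F c W g₁ (pP (ptr F J ω) 1) ω + r) (fvP F c W g₁ g₂ G pP (ptr F J ω)) =
      2 ^ g₂ * (eval (vnr F c W g₁ (pP (ptr F J ω) 1) ω r) (G (ptr F J ω) 2) -
        eval (vnr F c W g₁ (pP (ptr F J ω) 1) ω r) (pP (ptr F J ω) 2)) := by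
  unfold fvP
  rw [map_mul, eval_C, vpl_eval, map_sub]
  rfl

theorem kvH_eval (F : Fam m J) (c : ℕ → Fin m) (W g₁ g₂ : ℕ)
    (H pH : LnT F → ℕ → MvPolynomial (Option (Fin m)) ℝ)
    (P : MvPolynomial (Option (Fin m)) ℝ) (ω : F.Ω) (hP : pH (slam F W ω) 1 = P) (r : V3) :
    eval (ypt F c W g₁ P ω + r) (kvH F c W g₁ g₂ H pH (slam F W ω)) =
      2 ^ g₂ * (eval (vnr F c W g₁ P ω r) (H (slam F W ω) 2) -
        eval (vnr F c W g₁ P ω r) (pH (slam F W ω) 2)) := by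
  unfold kvH
  rw [map_mul, eval_C, vpl_eval, map_sub, hP]
  rfl

theorem fvH_eval (F : Fam m J) (c : ℕ → Fin m) {W a : ℕ} (hW : W ≤ a) (ha : a ≤ J) (g₁ g₂ : ℕ)
    (H pH : LnT F → ℕ → MvPolynomial (Option (Fin m)) ℝ)
    (P : MvPolynomial (Option (Fin m)) ℝ) (ω : F.Ω) (hP : pH (slam F W ω) 1 = P) (r : V3) :
    eval (ypt F c W g₁ P ω + r) (fvH F c W a g₁ g₂ H pH (slam F a ω)) =
      2 ^ g₂ * (eval (vnr F c W g₁ P ω r) (H (slam F a ω) 2) -
        eval (vnr F c W g₁ P ω r) (pH (slam F W ω) 2)) := by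
  unfold fvH
  rw [cos_slam F hW ha, map_mul, eval_C, vpl_eval, map_sub, hP]
  rfl

/-- The degrees. -/
theorem fv_deg (c : ℕ → Fin m) (W g₁ g₂ T : ℕ) {D : ℕ}
    {P Q R : MvPolynomial (Option (Fin m)) ℝ} (hP : P.totalDegree ≤ D) (hQ : Q.totalDegree ≤ D)
    (hR : R.totalDegree ≤ D) :
    (C (2 ^ g₂) * vpl c W g₁ T P (Q - R) : Po).totalDegree ≤ D * (D + 1) := by
  refine (totalDegree_mul _ _).trans ?_
  rw [totalDegree_C, zero_add]
  exact vpl_deg c W g₁ T hP ((totalDegree_sub _ _).trans (max_le hQ hR))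

/-- **The label of `c 2` in absolute coordinates** along the list of balls. -/
theorem vth (D N b : ℕ) : ∃ C : ℕ, ∀ {m J : ℕ} {F : Fam m J} {c : ℕ → Fin m} {W s v gS : ℕ}
    {A : ℕ → ℕ} {e : ℕ → ℕ} {g : ℕ → ℕ → ℕ} {B : F.Ω → Prop}
    {G : ℕ → PtT F → ℕ → MvPolynomial (Option (Fin m)) ℝ}
    {H : ℕ → LnT F → ℕ → MvPolynomial (Option (Fin m)) ℝ}
    {pP : PtT F → ℕ → MvPolynomial (Option (Fin m)) ℝ}
    {pH HS : LnT F → ℕ → MvPolynomial (Option (Fin m)) ℝ},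
    Inc F c D N W s v A e g B G H pP pH → (∀ S, (HS S 2).totalDegree ≤ D) →
    (∀ S, DepC c 2 (HS S 2)) → (∀ ω, B ω → ∀ b, NBx c (G N (ptr F J ω)) (g N) (A N) (F.t ω) 2 b →
      |eval b (HS (slam F W ω) 2) - eval b (G N (ptr F J ω) 2)| ≤ 2 ^ s / 2 ^ gS) →
    (∀ k ≤ N, g 0 2 + b * (A k - W) ≤ g k 2 + s) → g 0 2 + b * (A N - W) ≤ gS + s →
    (∀ ω, B ω → ∀ r, Bx 1 r → |eval (ypt F c W (g 0 1) (pP (ptr F J ω) 1) ω + r)
      (fvP F c W (g 0 1) (g 0 2) (G 0) pP (ptr F J ω))| ≤ 2 ^ (C * (s + v + 1))) ∧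
    (∀ ω, B ω → ∀ k < N, ∀ r, Bx (1 / 2 ^ (A (k + 1) - W)) r →
      |eval (ypt F c W (g 0 1) (pP (ptr F J ω) 1) ω + r)
        (fvP F c W (g 0 1) (g 0 2) (G (k + 1)) pP (ptr F J ω)) -
      eval (ypt F c W (g 0 1) (pP (ptr F J ω) 1) ω + r)
        (fvP F c W (g 0 1) (g 0 2) (G k) pP (ptr F J ω))| ≤
        2 ^ (C * (s + v + 1)) * (1 / 2 ^ (A k - W)) ^ b) ∧
    (∀ ω, B ω → ∀ k ≤ N, ∀ r, Bx (1 / 2 ^ (A k - W)) r →
      |eval (ypt F c W (g 0 1) (pP (ptr F J ω) 1) ω + r)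
        (fvP F c W (g 0 1) (g 0 2) (G k) pP (ptr F J ω)) -
      eval (ypt F c W (g 0 1) (pP (ptr F J ω) 1) ω + r)
        (fvH F c W (A k) (g 0 1) (g 0 2) (H k) pH (slam F (A k) ω))| ≤
        2 ^ (C * (s + v + 1)) * (1 / 2 ^ (A k - W)) ^ b) ∧
    ∀ ω, B ω → ∀ r, Bx (1 / 2 ^ (A N - W)) r →
      |eval (ypt F c W (g 0 1) (pP (ptr F J ω) 1) ω + r)
        (kvH F c W (g 0 1) (g 0 2) HS pH (slam F W ω)) -
      eval (ypt F c W (g 0 1) (pP (ptr F J ω) 1) ω + r)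
        (fvP F c W (g 0 1) (g 0 2) (G N) pP (ptr F J ω))| ≤
        2 ^ (C * (s + v + 1)) * (1 / 2 ^ (A N - W)) ^ b := by
  obtain ⟨C₁, hv⟩ := vdil D N
  refine ⟨C₁ + 2, ?_⟩
  intro m J F c W s v gS A e g B G H pP pH HS I hSd hSp hST hn2 hgS
  have pw : ∀ {x y : ℕ}, x ≤ y → (2 : ℝ) ^ x ≤ 2 ^ y := fun h => pow_le_pow_right₀ (by norm_num) h
  have e2 : (2 : ℝ) ^ (C₁ * (s + v + 1)) * 2 ^ s * 2 ^ s ≤ 2 ^ ((C₁ + 2) * (s + v + 1)) := by
    rw [← pow_add, ← pow_add]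
    exact pw (by nlinarith)
  have num : ∀ {x y : ℕ} {E : ℝ}, g 0 2 + b * x ≤ y + s →
      |E| ≤ 2 ^ (C₁ * (s + v + 1)) * (2 ^ s / 2 ^ y) →
      |2 ^ g 0 2 * E| ≤ 2 ^ ((C₁ + 2) * (s + v + 1)) * (1 / 2 ^ x) ^ b := by
    intro x y E hxy hE
    rw [abs_mul, abs_of_pos (by positivity : (0 : ℝ) < 2 ^ g 0 2)]
    have e3 : (2 : ℝ) ^ g 0 2 / 2 ^ y ≤ 2 ^ s * (1 / 2 ^ x) ^ b := by
      rw [one_div, inv_pow, ← pow_mul, ← div_eq_mul_inv, div_le_div_iff₀ (by positivity)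
        (by positivity), ← pow_add, ← pow_add]
      exact pw (by rw [Nat.mul_comm x b]; omega)
    calc (2 : ℝ) ^ g 0 2 * |E| ≤ 2 ^ g 0 2 * (2 ^ (C₁ * (s + v + 1)) * (2 ^ s / 2 ^ y)) :=
          mul_le_mul_of_nonneg_left hE (by positivity)
      _ = 2 ^ (C₁ * (s + v + 1)) * 2 ^ s * (2 ^ g 0 2 / 2 ^ y) := by ring
      _ ≤ 2 ^ (C₁ * (s + v + 1)) * 2 ^ s * (2 ^ s * (1 / 2 ^ x) ^ b) :=
          mul_le_mul_of_nonneg_left e3 (by positivity)
      _ = 2 ^ (C₁ * (s + v + 1)) * 2 ^ s * 2 ^ s * (1 / 2 ^ x) ^ b := by ring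
      _ ≤ _ := mul_le_mul_of_nonneg_right e2 (by positivity)
  have h1s : (1 : ℝ) ≤ 2 ^ s := one_le_pow₀ (by norm_num)
  refine ⟨?_, ?_, ?_, ?_⟩
  · intro ω hω r hr
    have ok0 := I.ok 0 (Nat.zero_le N)
    have e0 : A 0 - W = 0 := by rw [I.A0]; omega
    have h1 := hv (Q := G 0 (ptr F J ω) 2 - pP (ptr F J ω) 2) (M := 2 ^ s / 2 ^ g 0 2) I
      (Nat.zero_le N) hω (r := r) (by rw [e0, pow_zero, div_one]; exact hr)
      ((totalDegree_sub _ _).trans (max_le (ok0.degG _ _) (I.pd _ _)))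
      (fun b b' hn hb => by rw [map_sub, map_sub, I.pe _ 2 b b' hn hb, ok0.depG _ 2 b b' hn hb])
      (by positivity) (fun b hb => by
        rw [map_sub, abs_sub_comm]
        exact I.pn ω hω 2 (by norm_num) (by norm_num) b hb)
    rw [map_sub] at h1
    rw [fvP_eval]
    refine (num (x := 0) (y := g 0 2) (by omega) h1).trans (le_of_eq ?_)
    rw [pow_zero, div_one, one_pow, mul_one]
  · intro ω hω k hk r hr
    have okj := I.ok k hk.le
    have okj' := I.ok (k + 1) (by omega)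
    have h1 := hv (Q := G (k + 1) (ptr F J ω) 2 - G k (ptr F J ω) 2) (M := 2 ^ s / 2 ^ g k 2) I
      (k := k + 1) (by omega) hω (r := r) hr
      ((totalDegree_sub _ _).trans (max_le (okj'.degG _ _) (okj.degG _ _)))
      (fun b b' hn hb => by
        rw [map_sub, map_sub, okj.depG _ 2 b b' hn hb, okj'.depG _ 2 b b' hn hb])
      (by positivity) (fun b hb => by
        rw [map_sub]
        exact I.uni k hk 2 (by norm_num) ω hω b hb)
    rw [map_sub] at h1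
    rw [fvP_eval, fvP_eval, ← mul_sub]
    have e3 : ∀ x y z : ℝ, x - z - (y - z) = x - y := fun x y z => by ring
    rw [e3]
    exact num (hn2 k hk.le) h1
  · intro ω hω k hk r hr
    have okk := I.ok k hk
    have h1 := hv (Q := G k (ptr F J ω) 2 - H k (slam F (A k) ω) 2) (M := 2 ^ s / 2 ^ g k 2) I
      hk hω (r := r) hr ((totalDegree_sub _ _).trans (max_le (okk.degG _ _) (okk.degH _ _)))
      (fun b b' hn hb => by
        rw [map_sub, map_sub, okk.depG _ 2 b b' hn hb, okk.depH _ 2 b b' hn hb])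
      (by positivity) (fun b hb => by
        rw [map_sub]
        exact (okk.agr ω hω 2 (by norm_num) b hb).trans
          (div_le_div_of_nonneg_right h1s (by positivity)))
    rw [map_sub] at h1
    rw [fvP_eval, fvH_eval F c (I.AmW hk) (I.AJ k hk) _ _ (H k) pH _ ω (I.pc ω hω 1).symm,
      ← mul_sub, ← I.pc ω hω 2]
    have e3 : ∀ x y z : ℝ, x - z - (y - z) = x - y := fun x y z => by ring
    rw [e3]
    exact num (hn2 k hk) h1
  · intro ω hω r hr
    have okk := I.ok N le_rfl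
    have h1 := hv (Q := HS (slam F W ω) 2 - G N (ptr F J ω) 2) (M := 2 ^ s / 2 ^ gS) I
      le_rfl hω (r := r) hr ((totalDegree_sub _ _).trans (max_le (hSd _) (okk.degG _ _)))
      (fun b b' hn hb => by
        rw [map_sub, map_sub, okk.depG _ 2 b b' hn hb, hSp _ b b' hn hb])
      (by positivity) (fun b hb => by
        rw [map_sub]
        exact hST ω hω b hb)
    rw [map_sub] at h1
    rw [fvP_eval, kvH_eval F c W _ _ HS pH _ ω (I.pc ω hω 1).symm, ← mul_sub, ← I.pc ω hω 2]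
    have e3 : ∀ x y z : ℝ, x - z - (y - z) = x - y := fun x y z => by ring
    rw [e3]
    exact num hgS h1

end Pool.STB77
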