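import Pool.Agent.H77.STB.Nwd
import Pool.Agent.H77.STB.Vth
import Pool.Agent.H77.STB.Clg

/-!
# The labels at a list of balls, from a list of nodes

`Nls.sub`: smaller events. `inc_nls`: a list of nodes with at least two coordinates in the list gives
`Inc` for the balls of the list, with closed polynomials of the window of the first ball and a small
gradient.
-/

set_option autoImplicit false

namespace Pool.STB77

open Finset Real MvPolynomial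
open Pool.Agent.H49.Ent Pool.Agent.H32.Dense Pool.STK Pool.KA Pool.KSAT Pool.K2S Pool.PB Pool.S6C
open Pool.GEN Pool.CHT Pool.NVX
open Pool.STB (V3 Po Bx)

variable {m J : ℕ}

/-- Smaller events. -/
theorem Nls.sub {F : Fam m J} {c : ℕ → Fin m} {r D Dr M s : ℕ} {R : ℕ → ℕ → Prop} {a w : ℕ → ℕ}
    {e E : ℕ} {g : ℕ → ℕ → ℕ} {h : ℕ} {κ : ℝ} {B : F.Ω → Prop}
    {G : ℕ → PtT F → ℕ → MvPolynomial (Option (Fin m)) ℝ}
    {H : ℕ → LnT F → ℕ → MvPolynomial (Option (Fin m)) ℝ}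
    (L : Nls F c r D Dr M s R a w e E g h κ B G H) {κ₁ κ₂ : ℝ} {B' : F.Ω → Prop}
    (hB : Sub B' B) (hP : κ₁ * Pe F.p B ≤ Pe F.p B') (h2 : 0 ≤ κ₂) (hκ : κ ≤ κ₂ * κ₁) :
    Nls F c r D Dr M s R a w e E g h κ₂ B' G H :=
  ⟨fun k hk => (L.nod k hk).sub hB hP h2 hκ,
    fun j hj k hk hR ω hω => L.uni j hj k hk hR ω (hB ω hω),
    fun j hj k hk hR ω hω => L.two j hj k hk hR ω (hB ω hω),
    fun k hk h ω hω => L.own k hk h ω (hB ω hω), fun k hk ω hω => L.ow k hk ω (hB ω hω)⟩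

/-- **The labels at a list of balls**, from a list of nodes. -/
theorem inc_nls (D : ℕ) : ∃ C D' : ℕ, 1 ≤ C ∧ D ≤ D' ∧ ∀ {m J : ℕ} {F : Fam m J} {c : ℕ → Fin m}
    {r Dr M N s v : ℕ} {R : ℕ → ℕ → Prop} {a w : ℕ → ℕ} {e E : ℕ} {g : ℕ → ℕ → ℕ} {h : ℕ} {κ : ℝ}
    {B : F.Ω → Prop} {G : ℕ → PtT F → ℕ → MvPolynomial (Option (Fin m)) ℝ}
    {H : ℕ → LnT F → ℕ → MvPolynomial (Option (Fin m)) ℝ} {ι : ℕ → ℕ}, 2 ≤ r →
    Set.InjOn c (Set.Iio (r + 1)) → Nls F c r D Dr M s R a w e E g h κ B G H →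
    (∀ k ≤ N, ι k < M) → (∀ k ≤ N, w (ι k) = a (ι k)) → (∀ k < N, R (ι k) (ι (k + 1))) →
    (∀ k ≤ N, a (ι k) ≤ J) → (∀ k < N, a (ι k) ≤ a (ι (k + 1))) →
    (∀ k < N, a (ι (k + 1)) ≤ a (ι k) + v) → (∀ k ≤ N, g (ι k) 0 ≤ a (ι k) + s) →
    a (ι 0) ≤ g (ι 0) 0 + s → a (ι 0) ≤ g (ι 0) 1 + s →
    (∀ k ≤ N, g (ι k) 1 ≤ g (ι 0) 1 + (a (ι k) - a (ι 0)) + s) →
    (∀ k ≤ N, g (ι 0) 1 + (a (ι k) - a (ι 0)) ≤ g (ι k) 1 + s) →
    ∃ (B' : F.Ω → Prop) (xP : PtT F → ℝ) (xH : LnT F → ℝ)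
      (pP : PtT F → ℕ → MvPolynomial (Option (Fin m)) ℝ)
      (pH : LnT F → ℕ → MvPolynomial (Option (Fin m)) ℝ), Sub B' B ∧
      Pe F.p B ≤ 2 * Pe F.p B' ∧
      Inc F c D' N (a (ι 0)) (C * (s + 1)) v (fun k => a (ι k)) (fun _ => E) (fun k => g (ι k)) B'
        (fun k => G (ι k)) (fun k => H (ι k)) pP pH ∧
      (∀ S l, DepC c l (pH S l)) ∧
      (∀ ω, B' ω → xP (ptr F J ω) = xH (slam F (a (ι 0)) ω)) ∧
      (∀ ω, B' ω → |xP (ptr F J ω) - 2 ^ a (ι 0) * F.x ω (c 0)| ≤ 2 ^ (C * (s + 1))) ∧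
      ∀ ω, B' ω → ∀ b : Option (Fin m) → ℝ, |b none - F.t ω| ≤ 1 / 2 ^ a (ι 0) →
        |b (some (c 0)) - F.x ω (c 0)| ≤ 1 / 2 ^ a (ι 0) →
        |eval b (pderiv (some (c 0)) (pP (ptr F J ω) 1))| ≤ 2 ^ (C * (s + 1) + e) := by
  obtain ⟨C₁, D', hDD, hcl⟩ := cls_pol D
  obtain ⟨C₂, hgr⟩ := cls_grd 2 D' le_rfl
  refine ⟨C₁ + 1 + C₂ * (C₁ + 2), D', by omega, hDD, ?_⟩
  intro m J F c r Dr M N s v R a w e E g h κ B G H ι hr hc L hι haw hR haJ ham hav hn0 hn0' hn1g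
    hn1 hn1'
  have pw : ∀ {x y : ℕ}, x ≤ y → (2 : ℝ) ^ x ≤ 2 ^ y := fun h => pow_le_pow_right₀ (by norm_num) h
  have dv : ∀ {x : ℝ} {a b k : ℕ}, x ≤ 2 ^ a / 2 ^ k → a ≤ b → x ≤ 2 ^ b / 2 ^ k :=
    fun h hab => h.trans (div_le_div_of_nonneg_right (pw hab) (by positivity))
  have hc3 : Set.InjOn c (Set.Iio 3) := hc.mono fun x (hx : x < 3) => show x < r + 1 by omega
  have hc2 : Set.InjOn c (Set.Iio 2) := hc.mono fun x (hx : x < 2) => show x < r + 1 by omega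
  have hok : ∀ k ≤ N, ChOK F c 3 (fun _ => D) (a (ι k)) (a (ι k)) E (g (ι k)) B (G (ι k))
      (H (ι k)) := by
    intro k hk
    have h1 := (L.nod (ι k) (hι k hk)).top
    rw [haw k hk] at h1
    exact h1.mono (by omega) (fun _ => le_rfl) le_rfl le_rfl
  have hok2 : ChOK F c 2 (fun _ => D) (a (ι 0)) (a (ι 0)) e (g (ι 0)) B (G (ι 0)) (H (ι 0)) := by
    have h1 := (L.nod (ι 0) (hι 0 (Nat.zero_le N))).lst
    rw [haw 0 (Nat.zero_le N)] at h1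
    exact h1.mono hr (fun _ => le_rfl) le_rfl le_rfl
  have hown : ∀ k ≤ N, ∀ ω, B ω → ∀ t, |t - F.t ω| ≤ 1 / 2 ^ a (ι k) →
      |opt F ω t (some (c 0)) - eval (opt F ω t) (G (ι k) (ptr F J ω) 0)| ≤
        2 ^ s / 2 ^ g (ι k) 0 := fun k hk ω hω t ht =>
    L.own (ι k) (hι k hk) (haw k hk).symm ω hω 0 (Nat.zero_le _) t ht
  have haW : ∀ k ≤ N, a (ι 0) ≤ a (ι k) := by
    intro k
    induction k with
    | zero => exact fun _ => le_rfl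
    | succ k ih => exact fun hk => (ih (by omega)).trans (ham k (by omega))
  obtain ⟨B', xP, xH, pP, pH, k1, k2, k3, k4, k5, k6, k7, k8, k9, k10⟩ :=
    hcl hc2 (haJ 0 (Nat.zero_le N)) (hok 0 (Nat.zero_le N)) (hown 0 (Nat.zero_le N)) hn0'
      (hn0 0 (Nat.zero_le N))
  obtain ⟨s', hs'⟩ : ∃ s', s' = (C₁ + 1) * (s + 1) := ⟨_, rfl⟩
  have e1 : s ≤ s' := by rw [hs']; nlinarith [Nat.zero_le (C₁ * s)]
  have e2 : C₁ * (s + 1) ≤ s' := by rw [hs']; exact Nat.mul_le_mul_right _ (by omega)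
  obtain ⟨C, hC⟩ : ∃ C, C = C₁ + 1 + C₂ * (C₁ + 2) := ⟨_, rfl⟩
  have e3 : s' ≤ C * (s + 1) := by
    rw [hs', hC]
    exact Nat.mul_le_mul_right _ (by omega)
  have e4 : C₂ * (s' + 1) ≤ C * (s + 1) := by
    calc C₂ * (s' + 1) ≤ C₂ * ((C₁ + 2) * (s + 1)) :=
          Nat.mul_le_mul_left _ (by rw [hs']; nlinarith)
      _ = (C₂ * (C₁ + 2)) * (s + 1) := by ring
      _ ≤ _ := by rw [hC]; exact Nat.mul_le_mul_right _ (by omega)
  rw [← hC]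
  refine ⟨B', xP, xH, pP, pH, k1, by linarith, ?_, k6, k7,
    fun ω hω => (k8 ω hω).trans (pw (e2.trans e3)), fun ω hω b h1 h2 => ?_⟩
  · exact
    { inj := hc3
      A0 := rfl
      AJ := haJ
      AW := haW
      Am := ham
      Av := hav
      ok := fun k hk => ((hok k hk).sub k1).mono le_rfl (fun _ => hDD) le_rfl le_rfl
      own := fun k hk ω hω t ht => dv (hown k hk ω (k1 ω hω) t ht) (e1.trans e3)
      uni := fun k hk l hl ω hω b hb => dv (L.uni (ι k) (hι k hk.le) (ι (k + 1))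
        (hι (k + 1) hk) (hR k hk) ω (k1 ω hω) l (by omega) b hb) (e1.trans e3)
      n0 := fun k hk => (hn0 k hk).trans (Nat.add_le_add_left (e1.trans e3) _)
      n1 := fun k hk => (hn1 k hk).trans (Nat.add_le_add_left (e1.trans e3) _)
      n1' := fun k hk => (hn1' k hk).trans (Nat.add_le_add_left (e1.trans e3) _)
      pd := k3
      hd := k4
      pe := k5
      pc := k9
      pn := fun ω hω l h0 h3 b hb => dv (k10 ω hω l h0 h3 b hb) (e2.trans e3) }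
  · have h3 := hgr (F := F) (c := c) (W := a (ι 0)) (e := e) (s := s') (g := g (ι 0)) (B := B')
      (G := G (ι 0)) (H := H (ι 0)) (pP := fun y => pP y 1) hc2
      ((hok2.sub k1).mono le_rfl (fun _ => hDD) le_rfl le_rfl)
      (fun ω hω t ht => dv (hown 0 (Nat.zero_le N) ω (k1 ω hω) t ht) e1)
      ((hn0 0 (Nat.zero_le N)).trans (by omega)) (hn1g.trans (by omega)) (fun y => k3 y 1)
      (fun y => k5 y 1) (fun ω hω b hb => dv (k10 ω hω 1 one_pos (by norm_num) b hb) e2) ω hω b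
      h1 h2
    exact h3.trans (pw (by omega))

end Pool.STB77
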