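import Pool.Agent.H87.GEN.Nod
import Pool.Agent.H64.F5.Rel
import Pool.Agent.H80.NV.Bal

/-!
# The derivative of a blind static label

A node has a chain `c 0, …, c i` without relations and a label of a target over the chain, visible
and closed, on the natural box. `lab_two`: the labels of a target of two nodes are near on the
natural box of the finer one. `last_dir`: the derivative in the last coordinate. `mix_lab`: let the
labels of the target be given at the nodes `0, …, n` with the same window, the derivative in the last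
coordinate of the label of the node `n` minus a closed polynomial is small at the sample; then it is
small for the node `0` on the whole natural box.
-/

set_option autoImplicit false

namespace Pool.STB77

open Finset Real MvPolynomial
open Pool.Agent.H49.Ent Pool.Agent.H32.Dense Pool.STK Pool.KA Pool.KSAT Pool.K2S Pool.PB Pool.S6C
open Pool.GEN Pool.CHT Pool.NVX
open Pool.SHR (dir mvp markov mvp_box dir_deg dir_dep dir_sub)
open Pool.F5 (pe_part)

variable {m J : ℕ}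

/-- **A label of a target** `P` (visible), `R` (closed) over the chain of a node, with the precision
`q`; the position is `y`. -/
structure Tgt (F : Fam m J) (c : ℕ → Fin m) (i K a w q : ℕ) (g : ℕ → ℕ) (A : F.Ω → Prop)
    (G : PtT F → ℕ → MvPolynomial (Option (Fin m)) ℝ) (y : F.Ω → ℝ)
    (P : PtT F → MvPolynomial (Option (Fin m)) ℝ) (R : LnT F → MvPolynomial (Option (Fin m)) ℝ) :
    Prop where
  degP : ∀ y, (P y).totalDegree ≤ K
  degR : ∀ s, (R s).totalDegree ≤ K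
  depP : ∀ y, DepC c i (P y)
  depR : ∀ s, DepC c i (R s)
  pos : ∀ ω, A ω → |y ω - eval (bt F ω) (P (ptr F J ω))| ≤ 1 / 2 ^ q
  agr : ∀ ω, A ω → ∀ b : Option (Fin m) → ℝ, NBx c (G (ptr F J ω)) g a (F.t ω) i b →
    |eval b (P (ptr F J ω)) - eval b (R (slam F w ω))| ≤ 1 / 2 ^ q

theorem Tgt.sub {F : Fam m J} {c : ℕ → Fin m} {i K a w q : ℕ} {g : ℕ → ℕ} {A B : F.Ω → Prop}
    {G : PtT F → ℕ → MvPolynomial (Option (Fin m)) ℝ} {y : F.Ω → ℝ}
    {P : PtT F → MvPolynomial (Option (Fin m)) ℝ} {R : LnT F → MvPolynomial (Option (Fin m)) ℝ}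
    (h : Tgt F c i K a w q g A G y P R) (hB : Sub B A) : Tgt F c i K a w q g B G y P R :=
  ⟨h.degP, h.degR, h.depP, h.depR, fun ω hω => h.pos ω (hB ω hω), fun ω hω => h.agr ω (hB ω hω)⟩

theorem Tgt.rad {F : Fam m J} {c : ℕ → Fin m} {i K a a' w q : ℕ} {g : ℕ → ℕ} {A : F.Ω → Prop}
    {G : PtT F → ℕ → MvPolynomial (Option (Fin m)) ℝ} {y : F.Ω → ℝ}
    {P : PtT F → MvPolynomial (Option (Fin m)) ℝ} {R : LnT F → MvPolynomial (Option (Fin m)) ℝ}
    (h : Tgt F c i K a w q g A G y P R) (ha : a ≤ a') : Tgt F c i K a' w q g A G y P R :=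
  ⟨h.degP, h.degR, h.depP, h.depR, h.pos, fun ω hω b hb => h.agr ω hω b (hb.mono ha le_rfl)⟩

/-- The label of the last coordinate of a chain. -/
theorem tgt_of {F : Fam m J} {c : ℕ → Fin m} {i K a w e : ℕ} {g : ℕ → ℕ} {A : F.Ω → Prop}
    {G : PtT F → ℕ → MvPolynomial (Option (Fin m)) ℝ}
    {H : LnT F → ℕ → MvPolynomial (Option (Fin m)) ℝ}
    (h : ChOK F c (i + 1) (fun _ => K) a w e g A G H) :
    Tgt F c i K a w (g i) g A G (fun ω => F.x ω (c i)) (fun y => G y i) (fun s => H s i) :=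
  ⟨fun y => h.degG y i, fun s => h.degH s i, fun y => h.depG y i, fun s => h.depH s i,
    fun ω hω => h.pos ω hω i (Nat.lt_succ_self i),
    fun ω hω b hb => h.agr ω hω i (Nat.lt_succ_self i) b hb⟩

/-- **The labels of a target of two nodes** are near on the natural box. -/
theorem lab_two (D r : ℕ) (hD : 1 ≤ D) : ∃ C : ℕ, ∀ {m J : ℕ} {F : Fam m J} {c : ℕ → Fin m}
    {i a w e' h q q' : ℕ} {g g' : ℕ → ℕ} {κ κ' : ℝ} {B₀ B' : F.Ω → Prop}
    {G G' : PtT F → ℕ → MvPolynomial (Option (Fin m)) ℝ}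
    {H' : LnT F → ℕ → MvPolynomial (Option (Fin m)) ℝ} {y : F.Ω → ℝ}
    {P P' : PtT F → MvPolynomial (Option (Fin m)) ℝ}
    {R R' : LnT F → MvPolynomial (Option (Fin m)) ℝ}, i < r →
    Set.InjOn c (Set.Iio i) → RelvF F c i a w g D h κ B₀ G → Sub B' B₀ →
    κ' * Pe F.p B₀ ≤ Pe F.p B' → κ * 2 ^ r ≤ κ' → 0 ≤ κ →
    ChOK F c i (fun _ => D) a w e' g' B' G' H' →
    Tgt F c i D a w q g B' G y P R → Tgt F c i D a w q' g' B' G' y P' R' →
    ∃ B : F.Ω → Prop, Sub B B' ∧ Pe F.p B' / 2 ^ (i + 1) ≤ Pe F.p B ∧ ∀ ω, B ω →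
      ∀ b, NBx c (G (ptr F J ω)) g a (F.t ω) i b →
        |eval b (P (ptr F J ω)) - eval b (P' (ptr F J ω))| ≤
          2 ^ (C * (h + 1)) * (1 / 2 ^ q + 1 / 2 ^ q') := by
  obtain ⟨C, move⟩ := Pool.ISO.move_all D r hD
  obtain ⟨c₀, D₁, hD₁, hdil⟩ := nbx_dil r (fun _ => D)
  refine ⟨c₀ + C * D₁ + 2, ?_⟩
  intro m J F c i a w e' h q q' g g' κ κ' B₀ B' G G' H' y P P' R R' hi hc hR hB hP hκ hκ0 hL hT hT'
  obtain ⟨B₁, k1, k2, k3⟩ := move hi hc hR hB hP hκ hL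
  obtain ⟨n, hn⟩ : ∃ n, n = c₀ + C * (h + 1) * D₁ := ⟨_, rfl⟩
  obtain ⟨M, hM⟩ : ∃ M : ℝ, M = 2 ^ n * (1 / 2 ^ q + 1 / 2 ^ q') := ⟨_, rfl⟩
  have h1n : (1 : ℝ) ≤ 2 ^ n := one_le_pow₀ (by norm_num)
  have hq0 : (0 : ℝ) < 1 / 2 ^ q := by positivity
  have hq0' : (0 : ℝ) < 1 / 2 ^ q' := by positivity
  have hM0 : 0 < M := by rw [hM]; positivity
  have hM1 : (1 : ℝ) / 2 ^ q + 1 / 2 ^ q' ≤ M := by
    rw [hM]
    exact le_mul_of_one_le_left (by positivity) h1n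
  have hP0 := Pe_nonneg F.isLaw B₀
  obtain ⟨B₂, l1, l2, l3⟩ := hR B₁ (fun ω hω => hB ω (k1 ω hω)) (by
      have h1 : κ * 2 ^ i * Pe F.p B₀ ≤ Pe F.p B' := by
        refine le_trans (mul_le_mul_of_nonneg_right ?_ hP0) hP
        refine le_trans (mul_le_mul_of_nonneg_left ?_ hκ0) hκ
        exact pow_le_pow_right₀ (by norm_num) hi.le
      refine le_trans ?_ k2
      rw [le_div_iff₀ (by positivity)]
      linarith)
    (fun y => P y - P' y) (fun s => R s - R' s) M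
    (fun y => (totalDegree_sub _ _).trans (max_le (hT.degP y) (hT'.degP y)))
    (fun s => (totalDegree_sub _ _).trans (max_le (hT.degR s) (hT'.degR s)))
    (fun y b b' hn hb => by rw [map_sub, map_sub, hT.depP y b b' hn hb, hT'.depP y b b' hn hb])
    (fun s b b' hn hb => by rw [map_sub, map_sub, hT.depR s b b' hn hb, hT'.depR s b b' hn hb])
    hM0 (fun ω hω => by
      have h1 := hT.pos ω (k1 ω hω)
      have h2 := hT'.pos ω (k1 ω hω)
      rw [map_sub]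
      have e1 : eval (bt F ω) (P (ptr F J ω)) - eval (bt F ω) (P' (ptr F J ω)) =
        (y ω - eval (bt F ω) (P' (ptr F J ω))) - (y ω - eval (bt F ω) (P (ptr F J ω))) := by ring
      rw [e1]
      refine (abs_sub _ _).trans ?_
      linarith) (fun ω hω b hb => by
      have h1 := hT.agr ω (k1 ω hω) b hb
      have h2 := hdil (c := c) (i := i) (G := G' (ptr F J ω))
        (Q := P' (ptr F J ω) - R' (slam F w ω)) (g := g') (a := a) (t := F.t ω)
        (M := 1 / 2 ^ q') (C * (h + 1)) hi hc (hL.degG _) (hL.depG _)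
        (fun y y' hn hy => by
          rw [map_sub, map_sub, hT'.depP _ y y' hn hy, hT'.depR _ y y' hn hy])
        ((totalDegree_sub _ _).trans (max_le (hT'.degP _) (hT'.degR _))) hq0'.le
        (fun b hb => by rw [map_sub]; exact hT'.agr ω (k1 ω hω) b hb) b hb.1
        (fun j hj => k3 ω hω b hb j hj)
      rw [map_sub, ← hn] at h2
      rw [map_sub, map_sub]
      have e1 : eval b (P (ptr F J ω)) - eval b (P' (ptr F J ω)) -
          (eval b (R (slam F w ω)) - eval b (R' (slam F w ω))) =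
          (eval b (P (ptr F J ω)) - eval b (R (slam F w ω))) -
          (eval b (P' (ptr F J ω)) - eval b (R' (slam F w ω))) := by ring
      rw [e1]
      refine (abs_sub _ _).trans ?_
      rw [hM, mul_add]
      refine add_le_add (h1.trans (le_mul_of_one_le_left hq0.le h1n)) h2)
  refine ⟨B₂, fun ω hω => k1 ω (l1 ω hω), ?_, fun ω hω b hb => ?_⟩
  · refine le_trans (le_of_eq ?_) ((div_le_div_of_nonneg_right k2 (by norm_num)).trans l2)
    rw [pow_succ]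
    field_simp
  · have h1 := l3 ω hω b hb
    rw [map_sub, hM, ← mul_assoc, ← pow_add] at h1
    refine h1.trans (mul_le_mul_of_nonneg_right (pow_le_pow_right₀ (by norm_num) ?_) (by positivity))
    rw [hn]
    nlinarith

/-- **The derivative in the last coordinate** on the natural box. -/
theorem last_dir (D r : ℕ) : ∃ C : ℕ, ∀ {m : ℕ} {c : ℕ → Fin m} {i a : ℕ} {g : ℕ → ℕ} {t M : ℝ}
    {G : ℕ → MvPolynomial (Option (Fin m)) ℝ} {P : MvPolynomial (Option (Fin m)) ℝ}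
    {b : Option (Fin m) → ℝ}, i + 1 < r → Set.InjOn c (Set.Iio (i + 1)) →
    (∀ l, (G l).totalDegree ≤ D) → (∀ l, DepC c l (G l)) → DepC c (i + 1) P →
    P.totalDegree ≤ D → 0 ≤ M → NBx c G g a t (i + 1) b →
    (∀ b, NBx c G g a t (i + 1) b → |eval b P| ≤ M) →
    |eval b (dir (ek (c i)) P)| ≤ 2 ^ C * (M * 2 ^ g i) := by
  obtain ⟨c₀, D₁, hD₁, hdil⟩ := nbx_dil r (fun _ => D)
  obtain ⟨Cm, hC, hmar⟩ := markov D
  obtain ⟨c₁, hc₁⟩ := pow_unbounded_of_one_lt Cm (one_lt_two (α := ℝ))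
  refine ⟨c₁ + c₀ + D₁, ?_⟩
  intro m c i a g t M G P b hi hc hdeg hdep hPd hP hM hb hk
  have h0 : ∀ j < i, ek (c i) (c j) = 0 := fun j hj => ek_ne fun h => by
    have := hc (show j < i + 1 by omega) (show i < i + 1 by omega) h
    omega
  refine (hmar (ek (c i)) b P (2 ^ (c₀ + 1 * D₁) * M) (g i) hP (by positivity)
    fun s hs0 hs1 => ?_).trans ?_
  · have hs : |s| ≤ 1 / 2 ^ g i := by rw [abs_of_nonneg hs0]; exact hs1
    obtain ⟨m1, m2⟩ := mvp_box (y := 0) (fun j => hdep j) h0 (ek_self (c i)) hb hs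
      fun j hj hlj => by omega
    exact hdil (c := c) (i := i + 1) (G := G) (Q := P) (g := g) (a := a) (t := t)
      (M := M) 1 hi hc hdeg hdep hPd hP hM hk _ m1 m2
  · calc Cm * (2 ^ (c₀ + 1 * D₁) * M) * 2 ^ g i
        ≤ 2 ^ c₁ * (2 ^ (c₀ + 1 * D₁) * M) * 2 ^ g i := by
          refine mul_le_mul_of_nonneg_right (mul_le_mul_of_nonneg_right hc₁.le ?_) ?_ <;>
            positivity
      _ = 2 ^ (c₁ + c₀ + D₁) * (M * 2 ^ g i) := by
          rw [one_mul, pow_add 2 (c₁ + c₀), pow_add 2 c₁, pow_add]; ring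

/-- An event every large part of which has a good part. -/
theorem bad_lt {F : Fam m J} {B Q : F.Ω → Prop} {x : ℝ}
    (h : ∀ B' : F.Ω → Prop, Sub B' B → x ≤ Pe F.p B' → ∃ ω, B' ω ∧ Q ω) :
    Pe F.p (fun ω => B ω ∧ ¬Q ω) < x := by
  by_contra hcon
  push Not at hcon
  obtain ⟨ω, h1, h2⟩ := h _ (fun ω hω => hω.1) hcon
  exact h1.2 h2

/-- **The labels of a target along a list of nodes** with the same window: on one event the labels of
two consecutive nodes are near on the natural box of the finer one. -/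
theorem lab_chain (D r : ℕ) (hD : 1 ≤ D) : ∃ C : ℕ, ∀ {m J : ℕ} {F : Fam m J} {c : ℕ → Fin m}
    {i w e h : ℕ} {κ : ℝ} (n : ℕ) {a q : ℕ → ℕ} {g : ℕ → ℕ → ℕ} {B₀ B : F.Ω → Prop}
    {G : ℕ → PtT F → ℕ → MvPolynomial (Option (Fin m)) ℝ}
    {H : ℕ → LnT F → ℕ → MvPolynomial (Option (Fin m)) ℝ} {y : F.Ω → ℝ}
    {P : ℕ → PtT F → MvPolynomial (Option (Fin m)) ℝ}
    {R : ℕ → LnT F → MvPolynomial (Option (Fin m)) ℝ}, i < r → Set.InjOn c (Set.Iio i) →
    0 < κ → 0 < Pe F.p B₀ → Sub B B₀ → (∀ k < n, a k ≤ a (k + 1)) →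
    (∀ k ≤ n, RelvF F c i (a k) w (g k) D h κ B₀ (G k)) →
    (∀ k ≤ n, ChOK F c i (fun _ => D) (a k) w e (g k) B (G k) (H k)) →
    (∀ k ≤ n, Tgt F c i D (a k) w (q k) (g k) B (G k) y (P k) (R k)) →
    ∃ B' : F.Ω → Prop, Sub B' B ∧
      Pe F.p B ≤ Pe F.p B' + n * (κ * 2 ^ r * Pe F.p B₀) ∧ ∀ ω, B' ω → ∀ k < n,
        ∀ b, NBx c (G (k + 1) (ptr F J ω)) (g (k + 1)) (a (k + 1)) (F.t ω) i b →
          |eval b (P (k + 1) (ptr F J ω)) - eval b (P k (ptr F J ω))| ≤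
            2 ^ (C * (h + 1)) * (1 / 2 ^ q (k + 1) + 1 / 2 ^ q k) := by
  obtain ⟨C₁, htwo⟩ := lab_two D r hD
  refine ⟨C₁, ?_⟩
  intro m J F c i w e h κ n a q g B₀ B G H y P R hi hc hκ hP₀ hB ha hR hL hT
  obtain ⟨x, hx⟩ : ∃ x : ℝ, x = κ * 2 ^ r * Pe F.p B₀ := ⟨_, rfl⟩
  have hx0 : 0 < x := by rw [hx]; positivity
  obtain ⟨Gd, hGd⟩ : ∃ Gd : ℕ → F.Ω → Prop, Gd = fun k ω =>
      ∀ b, NBx c (G (k + 1) (ptr F J ω)) (g (k + 1)) (a (k + 1)) (F.t ω) i b →
        |eval b (P (k + 1) (ptr F J ω)) - eval b (P k (ptr F J ω))| ≤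
          2 ^ (C₁ * (h + 1)) * (1 / 2 ^ q (k + 1) + 1 / 2 ^ q k) := ⟨_, rfl⟩
  -- one step
  have hstep : ∀ k < n, ∀ B' : F.Ω → Prop, Sub B' B → x ≤ Pe F.p B' → ∃ ω, B' ω ∧ Gd k ω := by
    intro k hk B' hB' hx'
    obtain ⟨B'', l1, l2, l3⟩ := htwo hi hc (hR (k + 1) (by omega))
      (fun ω hω => hB ω (hB' ω hω)) (κ' := κ * 2 ^ r) (by rw [← hx]; exact hx') le_rfl hκ.le
      (((hL k (by omega)).sub hB').mono le_rfl (fun _ => le_rfl) (ha k hk) le_rfl)
      ((hT (k + 1) (by omega)).sub hB') (((hT k (by omega)).sub hB').rad (ha k hk))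
    have h1 : 0 < Pe F.p B'' := lt_of_lt_of_le (div_pos (hx0.trans_le hx') (by positivity)) l2
    obtain ⟨ω, hω⟩ := Pool.F5.pe_ne h1
    refine ⟨ω, l1 ω hω, ?_⟩
    rw [hGd]
    exact fun b hb => l3 ω hω b hb
  have hmass : ∀ j ≤ n, Pe F.p B ≤ Pe F.p (fun ω => B ω ∧ ∀ k < j, Gd k ω) + j * x := by
    intro j
    induction j with
    | zero =>
      intro _
      have e1 : (fun ω => B ω ∧ ∀ k < 0, Gd k ω) = B := by
        funext ω
        exact propext ⟨fun h => h.1, fun h => ⟨h, fun k hk => absurd hk (Nat.not_lt_zero k)⟩⟩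
      rw [e1]
      simp
    | succ j ih =>
      intro hj
      have h1 := ih (by omega)
      have h2 := pe_part (fun ω => B ω ∧ ∀ k < j, Gd k ω) (Gd j)
      have h3 : Pe F.p (fun ω => (B ω ∧ ∀ k < j, Gd k ω) ∧ ¬Gd j ω) < x :=
        bad_lt fun B' hB' hx' => hstep j (by omega) B' (fun ω hω => (hB' ω hω).1) hx'
      have e1 : (fun ω => (B ω ∧ ∀ k < j, Gd k ω) ∧ Gd j ω) =
          (fun ω => B ω ∧ ∀ k < j + 1, Gd k ω) := by
        funext ω
        refine propext ⟨fun h => ⟨h.1.1, fun k hk => ?_⟩, fun h =>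
          ⟨⟨h.1, fun k hk => h.2 k (by omega)⟩, h.2 j (by omega)⟩⟩
        rcases Nat.lt_or_ge k j with h4 | h4
        · exact h.1.2 k h4
        · rw [show k = j by omega]
          exact h.2
      rw [e1] at h2
      push_cast
      linarith
  refine ⟨fun ω => B ω ∧ ∀ k < n, Gd k ω, fun ω hω => hω.1, by rw [← hx]; exact hmass n le_rfl,
    fun ω hω k hk b hb => ?_⟩
  have h2 := hω.2 k hk
  rw [hGd] at h2
  exact h2 b hb

/-- **The derivative in the last coordinate of a label which is blind at a finer node.** -/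
theorem mix_lab (D r : ℕ) (hD : 1 ≤ D) : ∃ C : ℕ, ∀ {m J : ℕ} {F : Fam m J} {c : ℕ → Fin m}
    {i w e h : ℕ} {κ M : ℝ} (n : ℕ) {a q : ℕ → ℕ} {g : ℕ → ℕ → ℕ} {B₀ B : F.Ω → Prop}
    {G : ℕ → PtT F → ℕ → MvPolynomial (Option (Fin m)) ℝ}
    {H : ℕ → LnT F → ℕ → MvPolynomial (Option (Fin m)) ℝ} {y : F.Ω → ℝ}
    {P : ℕ → PtT F → MvPolynomial (Option (Fin m)) ℝ}
    {R : ℕ → LnT F → MvPolynomial (Option (Fin m)) ℝ}
    {Gx : PtT F → MvPolynomial (Option (Fin m)) ℝ}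
    {Gl : LnT F → MvPolynomial (Option (Fin m)) ℝ}, i + 1 < r → Set.InjOn c (Set.Iio (i + 1)) →
    0 < κ → 0 < Pe F.p B₀ → Sub B B₀ → (∀ k < n, a k ≤ a (k + 1)) →
    (∀ k ≤ n, RelvF F c (i + 1) (a k) w (g k) D h κ B₀ (G k)) →
    (∀ k ≤ n, ChOK F c (i + 1) (fun _ => D) (a k) w e (g k) B (G k) (H k)) →
    (∀ k ≤ n, Tgt F c (i + 1) D (a k) w (q k) (g k) B (G k) y (P k) (R k)) →
    (∀ y, (Gx y).totalDegree ≤ D) → (∀ s, (Gl s).totalDegree ≤ D) →
    (∀ y, DepC c (i + 1) (Gx y)) → (∀ s, DepC c (i + 1) (Gl s)) →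
    (∀ ω, B ω → Gx (ptr F J ω) = Gl (slam F w ω)) → 0 < M →
    (∀ k < n, 2 ^ g (k + 1) i / 2 ^ q k ≤ M) → (∀ k ≤ n, 2 ^ g k i / 2 ^ q k ≤ M) →
    (∀ ω, B ω →
      |eval (bt F ω) (dir (ek (c i)) (P n (ptr F J ω) - Gx (ptr F J ω)))| ≤ M) →
    ∃ B' : F.Ω → Prop, Sub B' B ∧
      Pe F.p B ≤ Pe F.p B' + (n + 1) * (κ * 2 ^ r * Pe F.p B₀) ∧ ∀ ω, B' ω →
        ∀ b, NBx c (G 0 (ptr F J ω)) (g 0) (a 0) (F.t ω) (i + 1) b →
          |eval b (dir (ek (c i)) (P 0 (ptr F J ω) - Gx (ptr F J ω)))| ≤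
            (n + 1) * 2 ^ (C * (h + 1)) * M ∧
          |eval b (dir (ek (c i)) (R 0 (slam F w ω) - Gl (slam F w ω)))| ≤
            (n + 1) * 2 ^ (C * (h + 1)) * M := by
  obtain ⟨C₁, hchn⟩ := lab_chain D r hD
  obtain ⟨C₂, hlast⟩ := last_dir D r
  refine ⟨C₁ + C₂ + 3, ?_⟩
  intro m J F c i w e h κ M n a q g B₀ B G H y P R Gx Gl hi hc hκ hP₀ hB ha hR hL hT hGxd hGld
    hGxp hGlp hG hM hM1 hM2 hbl
  obtain ⟨x, hx⟩ : ∃ x : ℝ, x = κ * 2 ^ r * Pe F.p B₀ := ⟨_, rfl⟩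
  have hx0 : 0 < x := by rw [hx]; positivity
  obtain ⟨E, hE⟩ : ∃ E : ℝ, E = 2 ^ (C₂ + C₁ * (h + 1) + 1) := ⟨_, rfl⟩
  have hE1 : 1 ≤ E := by rw [hE]; exact one_le_pow₀ (by norm_num)
  obtain ⟨B₁, hB₁B, h1, hch⟩ := hchn n (by omega) hc hκ hP₀ hB ha hR hL hT
  rw [← hx] at h1
  have pw : ∀ {x y : ℕ}, x ≤ y → (2 : ℝ) ^ x ≤ 2 ^ y := fun h => pow_le_pow_right₀ (by norm_num) h
  -- the value at the sample
  have hsm : ∀ ω, B₁ ω → |eval (bt F ω) (dir (ek (c i)) (P 0 (ptr F J ω) - Gx (ptr F J ω)))| ≤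
      (n + 1) * (E * M) := by
    intro ω hω
    have hω' := hB₁B ω hω
    have hd : ∀ k < n, |eval (bt F ω) (dir (ek (c i)) (P (k + 1) (ptr F J ω))) -
        eval (bt F ω) (dir (ek (c i)) (P k (ptr F J ω)))| ≤ E * M := by
      intro k hk
      have h2 := hch ω hω k hk
      have hLk := hL (k + 1) (by omega)
      have hTk := hT (k + 1) (by omega)
      have hTk' := hT k (by omega)
      have h3 := hlast (c := c) (i := i) (a := a (k + 1)) (g := g (k + 1)) (t := F.t ω)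
        (M := 2 ^ (C₁ * (h + 1)) * (1 / 2 ^ q (k + 1) + 1 / 2 ^ q k))
        (G := G (k + 1) (ptr F J ω)) (P := P (k + 1) (ptr F J ω) - P k (ptr F J ω))
        (b := bt F ω) hi hc (hLk.degG _) (hLk.depG _)
        (fun y y' hn hy => by
          rw [map_sub, map_sub, hTk.depP _ y y' hn hy, hTk'.depP _ y y' hn hy])
        ((totalDegree_sub _ _).trans (max_le (hTk.degP _) (hTk'.degP _))) (by positivity)
        (hLk.self hω' le_rfl) (fun b hb => by rw [map_sub]; exact h2 b hb)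
      rw [dir_sub, map_sub] at h3
      refine h3.trans ?_
      have h4 := hM1 k hk
      have h5 := hM2 (k + 1) (by omega)
      have e1 : (2 : ℝ) ^ C₂ * (2 ^ (C₁ * (h + 1)) * (1 / 2 ^ q (k + 1) + 1 / 2 ^ q k) *
          2 ^ g (k + 1) i) = 2 ^ (C₂ + C₁ * (h + 1)) *
            (2 ^ g (k + 1) i / 2 ^ q (k + 1) + 2 ^ g (k + 1) i / 2 ^ q k) := by
        rw [pow_add]
        ring
      rw [e1, hE, pow_succ]
      calc _ ≤ (2 : ℝ) ^ (C₂ + C₁ * (h + 1)) * (M + M) :=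
            mul_le_mul_of_nonneg_left (add_le_add h5 h4) (by positivity)
        _ = _ := by ring
    have hsum : ∀ j ≤ n, |eval (bt F ω) (dir (ek (c i)) (P (n - j) (ptr F J ω) -
        Gx (ptr F J ω)))| ≤ (j + 1) * (E * M) := by
      intro j
      induction j with
      | zero =>
        intro _
        refine (hbl ω hω').trans ?_
        have : M ≤ E * M := le_mul_of_one_le_left hM.le hE1
        push_cast
        linarith
      | succ j ih =>
        intro hj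
        have h2 := ih (by omega)
        have h3 := hd (n - (j + 1)) (by omega)
        rw [show n - (j + 1) + 1 = n - j by omega] at h3
        rw [dir_sub, map_sub] at h2 ⊢
        have e1 : eval (bt F ω) (dir (ek (c i)) (P (n - (j + 1)) (ptr F J ω))) -
            eval (bt F ω) (dir (ek (c i)) (Gx (ptr F J ω))) =
            (eval (bt F ω) (dir (ek (c i)) (P (n - j) (ptr F J ω))) -
            eval (bt F ω) (dir (ek (c i)) (Gx (ptr F J ω)))) -
            (eval (bt F ω) (dir (ek (c i)) (P (n - j) (ptr F J ω))) -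
            eval (bt F ω) (dir (ek (c i)) (P (n - (j + 1)) (ptr F J ω)))) := by ring
        rw [e1]
        refine (abs_sub _ _).trans ?_
        push_cast
        linarith
    have h2 := hsum n le_rfl
    rw [Nat.sub_self] at h2
    exact h2
  -- the natural box
  obtain ⟨M₁, hM₁⟩ : ∃ M₁ : ℝ, M₁ = (n + 1) * (E * M) := ⟨_, rfl⟩
  have hEM : 0 < E * M := mul_pos (by linarith) hM
  have hM₁0 : 0 < M₁ := by rw [hM₁]; positivity
  have hEM1 : E * M ≤ M₁ := by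
    rw [hM₁]
    refine le_mul_of_one_le_left hEM.le ?_
    have : (0 : ℝ) ≤ n := Nat.cast_nonneg n
    linarith
  have hL0 := hL 0 (Nat.zero_le n)
  have hT0 := hT 0 (Nat.zero_le n)
  have hag : ∀ ω, B₁ ω → ∀ b, NBx c (G 0 (ptr F J ω)) (g 0) (a 0) (F.t ω) (i + 1) b →
      |eval b (dir (ek (c i)) (P 0 (ptr F J ω) - Gx (ptr F J ω))) -
        eval b (dir (ek (c i)) (R 0 (slam F w ω) - Gl (slam F w ω)))| ≤ M₁ := by
    intro ω hω b hb
    have hω' := hB₁B ω hω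
    have h3 := hlast (c := c) (i := i) (a := a 0) (g := g 0) (t := F.t ω)
        (M := 1 / 2 ^ q 0) (G := G 0 (ptr F J ω)) (P := P 0 (ptr F J ω) - R 0 (slam F w ω))
        (b := b) hi hc (hL0.degG _) (hL0.depG _)
        (fun y y' hn hy => by
          rw [map_sub, map_sub, hT0.depP _ y y' hn hy, hT0.depR _ y y' hn hy])
        ((totalDegree_sub _ _).trans (max_le (hT0.degP _) (hT0.degR _))) (by positivity)
        hb (fun b hb => by rw [map_sub]; exact hT0.agr ω hω' b hb)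
    rw [dir_sub, map_sub] at h3
    rw [dir_sub, map_sub, dir_sub, map_sub, hG ω hω']
    have e1 : eval b (dir (ek (c i)) (P 0 (ptr F J ω))) -
        eval b (dir (ek (c i)) (Gl (slam F w ω))) -
        (eval b (dir (ek (c i)) (R 0 (slam F w ω))) -
          eval b (dir (ek (c i)) (Gl (slam F w ω)))) =
        eval b (dir (ek (c i)) (P 0 (ptr F J ω))) -
          eval b (dir (ek (c i)) (R 0 (slam F w ω))) := by ring
    rw [e1]
    refine h3.trans (le_trans ?_ hEM1)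
    have h4 := hM2 0 (Nat.zero_le n)
    calc (2 : ℝ) ^ C₂ * (1 / 2 ^ q 0 * 2 ^ g 0 i) = 2 ^ C₂ * (2 ^ g 0 i / 2 ^ q 0) := by ring
      _ ≤ E * M := by
        rw [hE]
        exact mul_le_mul (pw (by omega)) h4 (by positivity) (by positivity)
  obtain ⟨Gf, hGf⟩ : ∃ Gf : F.Ω → Prop, Gf = fun ω =>
      ∀ b, NBx c (G 0 (ptr F J ω)) (g 0) (a 0) (F.t ω) (i + 1) b →
        |eval b (dir (ek (c i)) (P 0 (ptr F J ω) - Gx (ptr F J ω)))| ≤ 2 ^ h * M₁ := ⟨_, rfl⟩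
  have hlastb : Pe F.p (fun ω => B₁ ω ∧ ¬Gf ω) < x := by
    refine bad_lt fun B' hB' hx' => ?_
    have hxκ : κ * Pe F.p B₀ ≤ Pe F.p B' := by
      refine le_trans ?_ hx'
      rw [hx, mul_assoc]
      refine mul_le_mul_of_nonneg_left ?_ hκ.le
      exact le_mul_of_one_le_left hP₀.le (one_le_pow₀ (by norm_num))
    obtain ⟨B'', l1, l2, l3⟩ := hR 0 (Nat.zero_le n) B'
      (fun ω hω => hB ω (hB₁B ω (hB' ω hω))) hxκ
      (fun y => dir (ek (c i)) (P 0 y - Gx y)) (fun s => dir (ek (c i)) (R 0 s - Gl s)) M₁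
      (fun y => dir_deg _ ((totalDegree_sub _ _).trans (max_le (hT0.degP y) (hGxd y))))
      (fun s => dir_deg _ ((totalDegree_sub _ _).trans (max_le (hT0.degR s) (hGld s))))
      (fun y => dir_dep _ fun b b' hn hb => by
        rw [map_sub, map_sub, hT0.depP y b b' hn hb, hGxp y b b' hn hb])
      (fun s => dir_dep _ fun b b' hn hb => by
        rw [map_sub, map_sub, hT0.depR s b b' hn hb, hGlp s b b' hn hb]) hM₁0
      (fun ω hω => by rw [hM₁]; exact hsm ω (hB' ω hω)) (fun ω hω b hb => hag ω (hB' ω hω) b hb)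
    have h2 : 0 < Pe F.p B'' := lt_of_lt_of_le (div_pos (hx0.trans_le hx') (by positivity)) l2
    obtain ⟨ω, hω⟩ := Pool.F5.pe_ne h2
    refine ⟨ω, l1 ω hω, ?_⟩
    rw [hGf]
    exact fun b hb => l3 ω hω b hb
  have h2 := pe_part B₁ Gf
  refine ⟨fun ω => B₁ ω ∧ Gf ω, fun ω hω => hB₁B ω hω.1, by rw [← hx]; linarith,
    fun ω hω b hb => ?_⟩
  obtain ⟨hω, h3⟩ := hω
  rw [hGf] at h3
  have h4 := h3 b hb
  have h5 := hag ω hω b hb
  have h6 : 2 ^ h * M₁ + M₁ ≤ (n + 1) * 2 ^ ((C₁ + C₂ + 3) * (h + 1)) * M := by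
    have h7 : (1 : ℝ) ≤ 2 ^ h := one_le_pow₀ (by norm_num)
    have h8 : (2 : ℝ) ^ (h + 1) * E ≤ 2 ^ ((C₁ + C₂ + 3) * (h + 1)) := by
      rw [hE, ← pow_add]
      refine pw ?_
      nlinarith [Nat.zero_le (C₂ * h)]
    calc 2 ^ h * M₁ + M₁ ≤ 2 ^ h * M₁ + 2 ^ h * M₁ :=
          add_le_add le_rfl (le_mul_of_one_le_left hM₁0.le h7)
      _ = (n + 1) * (2 ^ (h + 1) * E) * M := by rw [hM₁, pow_succ]; ring
      _ ≤ _ := by
        refine mul_le_mul_of_nonneg_right (mul_le_mul_of_nonneg_left h8 ?_) hM.le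
        positivity
  have h9 : 0 ≤ M₁ := hM₁0.le
  refine ⟨h4.trans (by linarith), ?_⟩
  have e1 : eval b (dir (ek (c i)) (R 0 (slam F w ω) - Gl (slam F w ω))) =
      eval b (dir (ek (c i)) (P 0 (ptr F J ω) - Gx (ptr F J ω))) -
      (eval b (dir (ek (c i)) (P 0 (ptr F J ω) - Gx (ptr F J ω))) -
        eval b (dir (ek (c i)) (R 0 (slam F w ω) - Gl (slam F w ω)))) := by ring
  rw [e1]
  refine (abs_sub _ _).trans ?_
  linarith

end Pool.STB77
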