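import Pool.Agent.H65.STB.Nat
import Pool.Agent.H77.STB.Mix
import Pool.Agent.H23.D2.Two

/-!
# Absolute coordinates of a low window

`so`: the substitution of the absolute coordinates in natural units of a window. `lip_pt`: a
polynomial on `[0, 1]` moves by at most its size times the length. `own_zero`: the own coordinate
`c 0` of a line near the chart of a ball.
-/

set_option autoImplicit false

namespace Pool.STB77

open Finset Real MvPolynomial
open Pool.Agent.H49.Ent Pool.Agent.H32.Dense Pool.STK Pool.KA Pool.KSAT Pool.K2S Pool.PB Pool.S6C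
open Pool.GEN Pool.CHT Pool.NVX
open Pool.STB (V3 Po Bx)
open Pool.STB65 (wn wn_spec)
open Pool.FLF (Fam.sub)
open Pool.PB.Trl (rt rt_mem t_rt)

variable {m J : ℕ}

/-! ### Polynomials of one variable -/

/-- A polynomial on `[0, 1]` moves by at most its size times the length. -/
theorem lip_pt (K : ℕ) : ∃ C : ℝ, 1 ≤ C ∧ ∀ (P : Polynomial ℝ) (M : ℝ), P.natDegree ≤ K →
    (∀ s ∈ Set.Icc (0 : ℝ) 1, |P.eval s| ≤ M) →
    (∀ s ∈ Set.Icc (0 : ℝ) 1, |P.eval s - P.eval 0| ≤ C * M * s) ∧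
    ∀ s, |s| ≤ 2 → |P.eval s| ≤ C * M := by
  obtain ⟨W, hW⟩ : ∃ W : ℝ, W = ∑ n ∈ range (K + 1), ∑ j ∈ range (K + 1), |wn K n j| :=
    ⟨_, rfl⟩
  have hW0 : 0 ≤ W := by
    rw [hW]
    exact sum_nonneg fun n _ => sum_nonneg fun j _ => abs_nonneg _
  refine ⟨1 + (K + 1) * W * 2 ^ K, by
    have : 0 ≤ (K + 1) * W * 2 ^ K := by positivity
    linarith, fun P M hP hM => ?_⟩
  have hM0 : 0 ≤ M := (abs_nonneg _).trans (hM 0 ⟨le_rfl, zero_le_one⟩)
  have hc : ∀ n ≤ K, |P.coeff n| ≤ W * M := by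
    intro n hn
    rw [wn_spec K P hP]
    refine (Finset.abs_sum_le_sum_abs _ _).trans ?_
    have h1 : ∀ j ∈ range (K + 1), |wn K n j * P.eval ((j : ℝ) / (K + 1))| ≤ |wn K n j| * M := by
      intro j hj
      rw [abs_mul]
      refine mul_le_mul_of_nonneg_left (hM _ ⟨by positivity, ?_⟩) (abs_nonneg _)
      rw [div_le_one (by positivity)]
      have := mem_range.1 hj
      exact_mod_cast this.le
    refine (Finset.sum_le_sum h1).trans ?_
    rw [← Finset.sum_mul]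
    refine mul_le_mul_of_nonneg_right ?_ hM0
    rw [hW]
    exact Finset.single_le_sum (f := fun n => ∑ j ∈ range (K + 1), |wn K n j|)
      (fun n _ => sum_nonneg fun j _ => abs_nonneg _) (mem_range.2 (Nat.lt_succ_of_le hn))
  have hWM : 0 ≤ W * M := by positivity
  have h2K : (1 : ℝ) ≤ 2 ^ K := one_le_pow₀ (by norm_num)
  constructor
  · intro s hs
    have e1 : P.eval s - P.eval 0 = ∑ n ∈ range K, P.coeff (n + 1) * s ^ (n + 1) := by
      rw [Polynomial.eval_eq_sum_range' (Nat.lt_succ_of_le hP) s,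
        ← Polynomial.coeff_zero_eq_eval_zero, Finset.sum_range_succ']
      simp
    rw [e1]
    refine (Finset.abs_sum_le_sum_abs _ _).trans ?_
    have h2 : ∀ n ∈ range K, |P.coeff (n + 1) * s ^ (n + 1)| ≤ W * M * s := by
      intro n hn
      rw [abs_mul]
      refine mul_le_mul (hc (n + 1) (by have := mem_range.1 hn; omega)) ?_ (abs_nonneg _) hWM
      rw [abs_of_nonneg (pow_nonneg hs.1 _), pow_succ]
      exact mul_le_of_le_one_left hs.1 (pow_le_one₀ hs.1 hs.2)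
    refine (Finset.sum_le_sum h2).trans ?_
    rw [Finset.sum_const, card_range, nsmul_eq_mul]
    have h3 : 0 ≤ M * s := mul_nonneg hM0 hs.1
    have h4 : (K : ℝ) * W ≤ 1 + (K + 1) * W * 2 ^ K := by
      have h5 : (K : ℝ) * W ≤ (K + 1) * W := by nlinarith
      have h6 : (K + 1) * W ≤ (K + 1) * W * 2 ^ K := le_mul_of_one_le_right (by positivity) h2K
      linarith
    calc (K : ℝ) * (W * M * s) = (K : ℝ) * W * (M * s) := by ring
      _ ≤ (1 + (K + 1) * W * 2 ^ K) * (M * s) := mul_le_mul_of_nonneg_right h4 h3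
      _ = _ := by ring
  · intro s hs
    rw [Polynomial.eval_eq_sum_range' (Nat.lt_succ_of_le hP) s]
    refine (Finset.abs_sum_le_sum_abs _ _).trans ?_
    have h2 : ∀ n ∈ range (K + 1), |P.coeff n * s ^ n| ≤ W * M * 2 ^ K := by
      intro n hn
      have hn' := mem_range.1 hn
      rw [abs_mul, abs_pow]
      refine mul_le_mul (hc n (by omega)) ?_ (by positivity) hWM
      exact (pow_le_pow_left₀ (abs_nonneg _) hs n).trans
        (pow_le_pow_right₀ (by norm_num) (by omega))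
    refine (Finset.sum_le_sum h2).trans ?_
    rw [Finset.sum_const, card_range, nsmul_eq_mul]
    push_cast
    nlinarith

/-! ### The line -/

/-- The line in the relative time of the window. -/
noncomputable def lnp (w : ℕ) (s : ((Fin m → ℝ) × (Fin m → ℝ)) × (Unit × ℕ)) :
    Option (Fin m) → Polynomial ℝ
  | none => Polynomial.C ((s.2.2 : ℝ) / 2 ^ w) + Polynomial.C (1 / 2 ^ w) * Polynomial.X
  | some k => Polynomial.C (s.1.1 k + (s.2.2 : ℝ) / 2 ^ w * s.1.2 k) +
      Polynomial.C (s.1.2 k / 2 ^ w) * Polynomial.X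

theorem lnp_deg (w : ℕ) (s : ((Fin m → ℝ) × (Fin m → ℝ)) × (Unit × ℕ)) (o : Option (Fin m)) :
    (lnp w s o).natDegree ≤ 1 := by
  cases o
  · exact (Polynomial.natDegree_add_le _ _).trans (max_le (by
      rw [Polynomial.natDegree_C]
      exact Nat.zero_le _)
      ((Polynomial.natDegree_C_mul_le _ _).trans Polynomial.natDegree_X_le))
  · exact (Polynomial.natDegree_add_le _ _).trans (max_le (by
      rw [Polynomial.natDegree_C]
      exact Nat.zero_le _)
      ((Polynomial.natDegree_C_mul_le _ _).trans Polynomial.natDegree_X_le))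

/-- The point of the own line at the time `t`. -/
noncomputable def opt (F : Fam m J) (ω : F.Ω) (t : ℝ) : Option (Fin m) → ℝ :=
  bt F ω + (t - F.t ω) • bd F ω

theorem opt_none (F : Fam m J) (ω : F.Ω) (t : ℝ) : opt F ω t none = t := by
  show F.t ω + (t - F.t ω) * 1 = t
  ring

theorem opt_some (F : Fam m J) (ω : F.Ω) (t : ℝ) (k : Fin m) :
    opt F ω t (some k) = F.x ω k + (t - F.t ω) * F.d ω k := rfl

theorem lnp_eval (F : Fam m J) (w : ℕ) (ω : F.Ω) (τ : ℝ) (o : Option (Fin m)) :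
    (lnp w ((slam F w ω).1, ((), (slam F w ω).2.2)) o).eval τ =
      opt F ω ((((slam F w ω).2.2 : ℝ) + τ) / 2 ^ w) o := by
  cases o
  · rw [opt_none]
    show (Polynomial.C (((slam F w ω).2.2 : ℝ) / 2 ^ w) +
      Polynomial.C (1 / 2 ^ w) * Polynomial.X).eval τ = _
    rw [Polynomial.eval_add, Polynomial.eval_mul, Polynomial.eval_C, Polynomial.eval_C,
      Polynomial.eval_X]
    ring
  · rename_i k
    rw [opt_some]
    show (Polynomial.C ((slam F w ω).1.1 k + ((slam F w ω).2.2 : ℝ) / 2 ^ w *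
      (slam F w ω).1.2 k) + Polynomial.C ((slam F w ω).1.2 k / 2 ^ w) * Polynomial.X).eval τ = _
    rw [Polynomial.eval_add, Polynomial.eval_mul, Polynomial.eval_C, Polynomial.eval_C,
      Polynomial.eval_X]
    show F.u ω k + ((slam F w ω).2.2 : ℝ) / 2 ^ w * F.d ω k + F.d ω k / 2 ^ w * τ =
      F.x ω k + ((((slam F w ω).2.2 : ℝ) + τ) / 2 ^ w - F.t ω) * F.d ω k
    unfold Fam.x
    ring

/-- **The own line in the natural box of a ball.** -/
theorem own_box (m D r : ℕ) : ∃ (C : ℕ) (C₁ : ℝ), 1 ≤ C₁ ∧ ∀ {J : ℕ} {F : Fam m J}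
    {c : ℕ → Fin m} {a e s : ℕ} {g : ℕ → ℕ} {θ : ℝ} {B : F.Ω → Prop}
    {G : PtT F → ℕ → MvPolynomial (Option (Fin m)) ℝ}
    {H : LnT F → ℕ → MvPolynomial (Option (Fin m)) ℝ} (hB : 0 < Pe F.p B),
    Set.InjOn c (Set.Iio r) → a ≤ J → ChOK F c r (fun _ => D) a a e g B G H →
    (Fam.sub F B hB).Tm θ → 0 ≤ θ → C₁ * (θ + 1) ≤ ((J : ℝ) - a) * Real.log 2 →
    C₁ * (θ + 1) ≤ s → ∃ B' : F.Ω → Prop, Sub B' B ∧ Pe F.p B / 2 ≤ Pe F.p B' ∧
      ∀ ω, B' ω → ∀ l < r, ∀ t, |t - F.t ω| ≤ 1 / 2 ^ a →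
        |opt F ω t (some (c l)) - eval (opt F ω t) (G (ptr F J ω) l)| ≤
          2 ^ (C * (s + 1)) / 2 ^ g l := by
  obtain ⟨c₀, D₁, hD₁, hdil⟩ := nbx_dil (r + 1) (fun _ => D)
  obtain ⟨C₁, hC₁, hrem⟩ := Pool.D2R.rem_fam m (max D 1) r
  obtain ⟨C₂, hC₂, hlip⟩ := lip_pt (max D 1)
  obtain ⟨k₂, hk₂⟩ := pow_unbounded_of_one_lt (2 * C₂) (one_lt_two (α := ℝ))
  refine ⟨(c₀ + k₂ + 2) * (D₁ + 2) ^ r, 2 * C₁, by linarith, ?_⟩
  intro J F c a e s g θ B G H hB hc haJ hL hTm hθ hCJ hCs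
  have hθ1 : 0 ≤ θ + 1 := by linarith
  have hC1θ : 0 ≤ C₁ * (θ + 1) := mul_nonneg (by linarith) hθ1
  have hCJ' : C₁ * (θ + 1) ≤ ((J : ℝ) - a) * Real.log 2 := by linarith
  have hexp : Real.exp (C₁ * (θ + 1)) ≤ 2 ^ s := by
    have h1 : C₁ * (θ + 1) ≤ s * Real.log 2 := by
      have h2 : (1 : ℝ) / 2 ≤ Real.log 2 := by
        have := Real.log_two_gt_d9
        linarith
      have h3 : (s : ℝ) * (1 / 2) ≤ s * Real.log 2 :=
        mul_le_mul_of_nonneg_left h2 (Nat.cast_nonneg s)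
      linarith
    calc Real.exp (C₁ * (θ + 1)) ≤ Real.exp (s * Real.log 2) := Real.exp_le_exp.2 h1
      _ = 2 ^ s := by rw [mul_comm, Real.exp_mul, Real.exp_log (by norm_num), Real.rpow_natCast]
  obtain ⟨q, hq⟩ : ∃ q : ℕ → LnT F → Polynomial ℝ, q = fun l S =>
      lnp a (S.1, ((), S.2.2)) (some (c l)) -
        MvPolynomial.aeval (lnp a (S.1, ((), S.2.2))) (H S l) := ⟨_, rfl⟩
  have hqd : ∀ l < r, ∀ S, (q l S).natDegree ≤ max D 1 := by
    intro l _ S
    rw [hq]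
    refine (Polynomial.natDegree_sub_le _ _).trans (max_le ?_ ?_)
    · exact (lnp_deg _ _ _).trans (le_max_right _ _)
    · exact (Pool.KBX.natDegree_aeval_le _ _ (fun o => lnp_deg _ _ o) (hL.degH S l)).trans
        (le_max_left _ _)
  have hqe : ∀ l ω τ, (q l (slam F a ω)).eval τ =
      opt F ω ((((slam F a ω).2.2 : ℝ) + τ) / 2 ^ a) (some (c l)) -
        eval (opt F ω ((((slam F a ω).2.2 : ℝ) + τ) / 2 ^ a)) (H (slam F a ω) l) := by
    intro l ω τ
    rw [hq]
    show (lnp a ((slam F a ω).1, ((), (slam F a ω).2.2)) (some (c l)) - MvPolynomial.aeval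
      (lnp a ((slam F a ω).1, ((), (slam F a ω).2.2))) (H (slam F a ω) l)).eval τ = _
    rw [Polynomial.eval_sub, Pool.KBX.eval_aeval_poly, lnp_eval]
    congr 2
    congr 1
    funext o
    exact lnp_eval F a ω τ o
  obtain ⟨B', hB'B, hB'P, hB'⟩ := hrem J F B hB a q (fun l => 2 / 2 ^ g l) θ haJ hqd
    (fun l _ => by positivity) hθ hTm hCJ' (fun ω hω l hl => by
      rw [hqe, ← t_rt F haJ]
      have e0 : opt F ω (F.t ω) = bt F ω := by
        unfold opt
        rw [sub_self, zero_smul, add_zero]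
      rw [e0]
      have h1 := hL.pos ω hω l hl
      have h2 := hL.agr ω hω l hl (bt F ω) ⟨by
        show |F.t ω - F.t ω| ≤ _
        rw [sub_self, abs_zero]
        positivity, fun j hj => hL.pos ω hω j (hj.trans hl)⟩
      have e1 : bt F ω (some (c l)) - eval (bt F ω) (H (slam F a ω) l) =
          (F.x ω (c l) - eval (bt F ω) (G (ptr F J ω) l)) +
          (eval (bt F ω) (G (ptr F J ω) l) - eval (bt F ω) (H (slam F a ω) l)) := by
        show F.x ω (c l) - _ = _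
        ring
      rw [e1]
      refine (abs_add_le _ _).trans ?_
      have e2 : (2 : ℝ) / 2 ^ g l = 1 / 2 ^ g l + 1 / 2 ^ g l := by ring
      rw [e2]
      exact add_le_add h1 h2)
  refine ⟨B', hB'B, hB'P, ?_⟩
  intro ω hω
  have hωB := hB'B ω hω
  have pw : ∀ {x y : ℕ}, x ≤ y → (2 : ℝ) ^ x ≤ 2 ^ y := fun h => pow_le_pow_right₀ (by norm_num) h
  -- the closed labels
  have hcl : ∀ l < r, ∀ t, |t - F.t ω| ≤ 1 / 2 ^ a →
      |opt F ω t (some (c l)) - eval (opt F ω t) (H (slam F a ω) l)| ≤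
        2 ^ (k₂ + s) / 2 ^ g l := by
    intro l hl t ht
    obtain ⟨τ, hτ⟩ : ∃ τ : ℝ, τ = 2 ^ a * t - (slam F a ω).2.2 := ⟨_, rfl⟩
    have h2a : (0 : ℝ) < 2 ^ a := by positivity
    have hτ1 : (((slam F a ω).2.2 : ℝ) + τ) / 2 ^ a = t := by
      rw [hτ]
      field_simp
      ring
    have hrt : τ - rt F a ω = 2 ^ a * (t - F.t ω) := by
      rw [t_rt F haJ ω, hτ]
      field_simp
      ring
    have hτ2 : |τ| ≤ 2 := by
      have h1 := rt_mem F a ω
      have h2 : |τ - rt F a ω| ≤ 1 := by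
        rw [hrt, abs_mul, abs_of_pos h2a]
        calc 2 ^ a * |t - F.t ω| ≤ 2 ^ a * (1 / 2 ^ a) := mul_le_mul_of_nonneg_left ht h2a.le
          _ = 1 := by field_simp
      have h3 := abs_le.1 h2
      rw [abs_le]
      constructor <;> linarith [h1.1, h1.2]
    have h1 := (hlip (q l (slam F a ω)) (Real.exp (C₁ * (θ + 1)) * (2 / 2 ^ g l)) (hqd l hl _)
      (fun τ hτ => hB' ω hω l hl τ hτ)).2 τ hτ2
    rw [hqe, hτ1] at h1
    refine h1.trans ?_
    calc C₂ * (Real.exp (C₁ * (θ + 1)) * (2 / 2 ^ g l)) ≤ C₂ * (2 ^ s * (2 / 2 ^ g l)) := by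
          refine mul_le_mul_of_nonneg_left (mul_le_mul_of_nonneg_right hexp (by positivity))
            (by linarith)
      _ = (2 * C₂) * 2 ^ s / 2 ^ g l := by ring
      _ ≤ 2 ^ k₂ * 2 ^ s / 2 ^ g l := div_le_div_of_nonneg_right
          (mul_le_mul_of_nonneg_right hk₂.le (by positivity)) (by positivity)
      _ = _ := by rw [pow_add]
  -- the exponents
  obtain ⟨X, hX⟩ : ∃ X : ℕ → ℕ, X = fun l => (c₀ + k₂ + 2) * (s + 1) * ((D₁ + 2) ^ l - 1) :=
    ⟨_, rfl⟩
  have hX0 : X 0 = 0 := by rw [hX]; simp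
  have hXs : ∀ l, c₀ + X l * D₁ + k₂ + s + 1 + X l ≤ X (l + 1) := by
    intro l
    rw [hX]
    obtain ⟨T, hT⟩ : ∃ T, T = (D₁ + 2) ^ l - 1 := ⟨_, rfl⟩
    have h1 : 1 ≤ (D₁ + 2) ^ l := Nat.one_le_pow _ _ (by omega)
    have h2 : (D₁ + 2) ^ (l + 1) - 1 = T * (D₁ + 2) + (D₁ + 1) := by
      have h3 : (D₁ + 2) ^ l = T + 1 := by omega
      rw [pow_succ, h3, add_mul, one_mul]
      omega
    show c₀ + (c₀ + k₂ + 2) * (s + 1) * ((D₁ + 2) ^ l - 1) * D₁ + k₂ + s + 1 +
      (c₀ + k₂ + 2) * (s + 1) * ((D₁ + 2) ^ l - 1) ≤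
        (c₀ + k₂ + 2) * (s + 1) * ((D₁ + 2) ^ (l + 1) - 1)
    rw [h2, ← hT]
    obtain ⟨Z, hZ⟩ : ∃ Z, Z = (c₀ + k₂ + 2) * (s + 1) := ⟨_, rfl⟩
    have h4 : c₀ + k₂ + s + 1 ≤ Z := by
      rw [hZ]
      nlinarith
    rw [← hZ]
    have h5 : Z ≤ Z * (D₁ + 1) := Nat.le_mul_of_pos_right _ (by omega)
    calc c₀ + Z * T * D₁ + k₂ + s + 1 + Z * T = (c₀ + k₂ + s + 1) + (Z * T * D₁ + Z * T) := by ring
      _ ≤ Z * (D₁ + 1) + (Z * T * D₁ + 2 * (Z * T)) := by
          have h6 : 0 ≤ Z * T := Nat.zero_le _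
          omega
      _ = Z * (T * (D₁ + 2) + (D₁ + 1)) := by ring
  -- the visible labels
  have key : ∀ l ≤ r, ∀ j < l, ∀ t, |t - F.t ω| ≤ 1 / 2 ^ a →
      |opt F ω t (some (c j)) - eval (opt F ω t) (G (ptr F J ω) j)| ≤ 2 ^ X l / 2 ^ g j := by
    intro l
    induction l with
    | zero => intro _ j hj; exact absurd hj (Nat.not_lt_zero j)
    | succ l ih =>
      intro hl j hj t ht
      have ih' := ih (by omega)
      rcases Nat.lt_succ_iff_lt_or_eq.1 hj with h0 | h0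
      · refine (ih' j h0 t ht).trans (div_le_div_of_nonneg_right (pw ?_) (by positivity))
        have := hXs l
        omega
      · subst h0
        have h2 := hdil (c := c) (i := j) (G := G (ptr F J ω))
          (Q := G (ptr F J ω) j - H (slam F a ω) j) (g := g) (a := a) (t := F.t ω)
          (M := 1 / 2 ^ g j) (X j) (by omega)
          (hc.mono fun x (hx : x < j) => show x < r by omega) (hL.degG _) (hL.depG _)
          (fun b b' hn hb => by rw [map_sub, map_sub, hL.depG _ j b b' hn hb,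
            hL.depH _ j b b' hn hb])
          ((totalDegree_sub _ _).trans (max_le (hL.degG _ _) (hL.degH _ _))) (by positivity)
          (fun b hb => by rw [map_sub]; exact hL.agr ω hωB j (by omega) b hb) (opt F ω t)
          (by rw [opt_none]; exact ht) (fun i hi => ih' i hi t ht)
        rw [map_sub] at h2
        have h3 := hcl j (by omega) t ht
        have e1 : opt F ω t (some (c j)) - eval (opt F ω t) (G (ptr F J ω) j) =
            (opt F ω t (some (c j)) - eval (opt F ω t) (H (slam F a ω) j)) -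
            (eval (opt F ω t) (G (ptr F J ω) j) - eval (opt F ω t) (H (slam F a ω) j)) := by ring
        rw [e1]
        refine (abs_sub _ _).trans ?_
        have h4 : (2 : ℝ) ^ (k₂ + s) / 2 ^ g j + 2 ^ (c₀ + X j * D₁) * (1 / 2 ^ g j) ≤
            2 ^ X (j + 1) / 2 ^ g j := by
          rw [mul_one_div, ← add_div]
          refine div_le_div_of_nonneg_right ?_ (by positivity)
          have h5 := hXs j
          have h6 : (2 : ℝ) ^ (k₂ + s) ≤ 2 ^ (c₀ + X j * D₁ + k₂ + s) := pw (by omega)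
          have h7 : (2 : ℝ) ^ (c₀ + X j * D₁) ≤ 2 ^ (c₀ + X j * D₁ + k₂ + s) := pw (by omega)
          have h8 : (2 : ℝ) ^ (c₀ + X j * D₁ + k₂ + s + 1) ≤ 2 ^ X (j + 1) := pw (by omega)
          rw [pow_succ] at h8
          linarith
        linarith
  intro l hl t ht
  refine (key r le_rfl l hl t ht).trans (div_le_div_of_nonneg_right (pw ?_) (by positivity))
  rw [hX]
  calc (c₀ + k₂ + 2) * (s + 1) * ((D₁ + 2) ^ r - 1) ≤ (c₀ + k₂ + 2) * (s + 1) * (D₁ + 2) ^ r :=
        Nat.mul_le_mul_left _ (Nat.sub_le _ _)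
    _ = _ := by ring

end Pool.STB77
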