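import Pool.Agent.H77.Z3.Nod
import Pool.Agent.H77.STB.Vso

/-!
# Weak nodes

`NodW`: a chain for the list and the target with no relation between the coordinates of the list.
`NodF`: such nodes in a class, with one degree. `Nls`: a list of nodes on one event with the
comparisons of their labels.
-/

set_option autoImplicit false

namespace Pool.STB77

open Finset Real MvPolynomial
open Pool.Agent.H49.Ent Pool.Agent.H32.Dense Pool.STK Pool.KA Pool.KSAT Pool.K2S Pool.PB Pool.S6C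
open Pool.GEN Pool.CHT

variable {m J : ℕ}

/-- **A weak node**: one chain for the list and the target, small gradients for the list, no
relation between the coordinates of the list. -/
structure NodW (F : Fam m J) (c : ℕ → Fin m) (r D Dr a w e E : ℕ) (g : ℕ → ℕ) (h : ℕ) (κ : ℝ)
    (B : F.Ω → Prop) (T : PtT F → ℕ → MvPolynomial (Option (Fin m)) ℝ)
    (TH : LnT F → ℕ → MvPolynomial (Option (Fin m)) ℝ) : Prop where
  lst : ChOK F c r (fun _ => D) a w e g B T TH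
  top : ChOK F c (r + 1) (fun _ => D) a w E g B T TH
  rlF : RelvF F c r a w g Dr h κ B T

theorem NodW.sub {F : Fam m J} {c : ℕ → Fin m} {r D Dr a w e E : ℕ} {g : ℕ → ℕ} {h : ℕ} {κ : ℝ}
    {B : F.Ω → Prop} {T : PtT F → ℕ → MvPolynomial (Option (Fin m)) ℝ}
    {TH : LnT F → ℕ → MvPolynomial (Option (Fin m)) ℝ}
    (N : NodW F c r D Dr a w e E g h κ B T TH) {κ₁ κ₂ : ℝ} {B' : F.Ω → Prop}
    (hB : Sub B' B) (hP : κ₁ * Pe F.p B ≤ Pe F.p B') (h2 : 0 ≤ κ₂) (hκ : κ ≤ κ₂ * κ₁) :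
    NodW F c r D Dr a w e E g h κ₂ B' T TH :=
  ⟨N.lst.sub hB, N.top.sub hB, N.rlF.sub hB hP h2 hκ⟩

/-- **Weak nodes of a class**, one degree. -/
def NodF (S : PCl m) (c : ℕ → Fin m) (r D : ℕ) (β : ℕ → ℝ → ℝ → ℝ) (e E a w : ℝ) : Prop :=
  1 ≤ D ∧ ∀ (Dr : ℕ) (η σ : ℝ), 0 < η → 0 < σ → ∃ (K₁ : ℝ) (d : ℕ → ℝ) (ψ : ℝ), 0 < K₁ ∧ 0 < ψ ∧
    (∀ l ≤ r, 0 < d l ∧ d l ≤ σ ∧ d l < a) ∧
    Bas S (fun J F A => ∃ (B : F.Ω → Prop) (T : PtT F → ℕ → MvPolynomial (Option (Fin m)) ℝ)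
      (TH : LnT F → ℕ → MvPolynomial (Option (Fin m)) ℝ), Sub B A ∧ Pe F.p A ≤ K₁ * Pe F.p B ∧
      NodW F c r D Dr ⌊a * J⌋₊ ⌊w * J⌋₊ ⌊e * J⌋₊ ⌊(E + σ) * J⌋₊
        (fun l => ⌊(β l a w - d l) * J⌋₊) ⌊η * J⌋₊ (Real.exp (-(ψ * J))) B T TH)

/-- Larger degrees. -/
theorem NodF.up {S : PCl m} {c : ℕ → Fin m} {r D D' : ℕ} {β : ℕ → ℝ → ℝ → ℝ} {e E a w : ℝ}
    (h : NodF S c r D β e E a w) (hD : D ≤ D') : NodF S c r D' β e E a w := by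
  refine ⟨h.1.trans hD, fun Dr η σ hη hσ => ?_⟩
  obtain ⟨K₁, d, ψ, h1, h2, h3, h4⟩ := h.2 Dr η σ hη hσ
  refine ⟨K₁, d, ψ, h1, h2, h3, Bas.mono 0 h4 ?_⟩
  rintro J - F A ⟨B, T, TH, k1, k2, k3⟩
  exact ⟨B, T, TH, k1, k2, k3.lst.mono le_rfl (fun _ => hD) le_rfl le_rfl,
    k3.top.mono le_rfl (fun _ => hD) le_rfl le_rfl, k3.rlF⟩

/-- **A list of nodes on one event**, `r` coordinates and a target: the pair `k` is finer than the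
pair `j` if `R j k`. -/
structure Nls (F : Fam m J) (c : ℕ → Fin m) (r D Dr M s : ℕ) (R : ℕ → ℕ → Prop) (a w : ℕ → ℕ)
    (e E : ℕ) (g : ℕ → ℕ → ℕ) (h : ℕ) (κ : ℝ) (B : F.Ω → Prop)
    (G : ℕ → PtT F → ℕ → MvPolynomial (Option (Fin m)) ℝ)
    (H : ℕ → LnT F → ℕ → MvPolynomial (Option (Fin m)) ℝ) : Prop where
  nod : ∀ k < M, NodW F c r D Dr (a k) (w k) e E (g k) h κ B (G k) (H k)
  uni : ∀ j < M, ∀ k < M, R j k → ∀ ω, B ω → ∀ l ≤ r, ∀ b,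
    NBx c (G k (ptr F J ω)) (g k) (a k) (F.t ω) l b →
    |eval b (G k (ptr F J ω) l) - eval b (G j (ptr F J ω) l)| ≤ 2 ^ s / 2 ^ g j l
  two : ∀ j < M, ∀ k < M, R j k → ∀ ω, B ω → ∀ l ≤ r, ∀ b,
    NBx c (G k (ptr F J ω)) (g k) (a k) (F.t ω) l b →
    |eval b (H j (slam F (w j) ω) l) - eval b (G k (ptr F J ω) l)| ≤ 2 ^ s / 2 ^ g j l
  own : ∀ k < M, a k = w k → ∀ ω, B ω → ∀ l ≤ r, ∀ t, |t - F.t ω| ≤ 1 / 2 ^ a k →
    |opt F ω t (some (c l)) - eval (opt F ω t) (G k (ptr F J ω) l)| ≤ 2 ^ s / 2 ^ g k l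
  ow : ∀ k < M, ∀ ω, B ω → ∀ l ≤ r, ∀ t, |t - F.t ω| ≤ 1 / 2 ^ w k →
    |opt F ω t (some (c l)) - eval (opt F ω t) (H k (slam F (w k) ω) l)| ≤ 2 ^ s / 2 ^ g k l

end Pool.STB77
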