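import Pool.Agent.H77.STB.Nn6

/-!
# No static third place with a slope which is no integer

`nni_void`: the class theorem: there is no window at which the two first coordinates have slope one
and the third coordinate is static, with a slope which is no integer.
-/

set_option autoImplicit false

namespace Pool.STB77

open Finset Real MvPolynomial
open Pool.Agent.H49.Ent Pool.Agent.H32.Dense Pool.STK Pool.KA Pool.KSAT Pool.K2S Pool.PB Pool.S6C
open Pool.GEN Pool.CHT Pool.NVX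
open Pool.STB (V3 Po Bx)
open Pool.STB65
open Pool.STB82 (yv yp hgP nodF_rec nodF_pair)
open Pool.PKG (Kg RecG KgQ VoidG)
open Pool.FLF (Fam.sub)
open Pool.LBT (bas_false)

/-- A smaller event. -/
theorem inc_lss {m J : ℕ} {F : Fam m J} {c : ℕ → Fin m} {D N W s v : ℕ} {A : ℕ → ℕ} {e : ℕ → ℕ}
    {g : ℕ → ℕ → ℕ} {B B' : F.Ω → Prop} {G : ℕ → PtT F → ℕ → MvPolynomial (Option (Fin m)) ℝ}
    {H : ℕ → LnT F → ℕ → MvPolynomial (Option (Fin m)) ℝ}
    {pP : PtT F → ℕ → MvPolynomial (Option (Fin m)) ℝ}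
    {pH : LnT F → ℕ → MvPolynomial (Option (Fin m)) ℝ}
    (I : Inc F c D N W s v A e g B G H pP pH) (hB : Sub B' B) :
    Inc F c D N W s v A e g B' G H pP pH :=
  { I with
    ok := fun k hk => (I.ok k hk).sub hB
    own := fun k hk ω hω => I.own k hk ω (hB ω hω)
    uni := fun k hk l hl ω hω => I.uni k hk l hl ω (hB ω hω)
    pc := fun ω hω => I.pc ω (hB ω hω)
    pn := fun ω hω => I.pn ω (hB ω hω) }

/-- **The positions over a list of balls**, in a class: visible up to a deep digit. -/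
theorem inc_pos (D : ℕ) {m : ℕ} {S : PCl m} (hS : TmH S) {ε w : ℝ} (K₁ : ℝ) (hε : 0 < ε)
    (hw : w < 1) : Bas S (fun J F A => ∀ (B : F.Ω → Prop) (c : ℕ → Fin m) (N W s v d y e₁' : ℕ)
      (A' e : ℕ → ℕ) (g : ℕ → ℕ → ℕ) (G : ℕ → PtT F → ℕ → MvPolynomial (Option (Fin m)) ℝ)
      (H : ℕ → LnT F → ℕ → MvPolynomial (Option (Fin m)) ℝ)
      (pP : PtT F → ℕ → MvPolynomial (Option (Fin m)) ℝ)
      (pH : LnT F → ℕ → MvPolynomial (Option (Fin m)) ℝ),
      Sub B A → Pe F.p A ≤ K₁ * Pe F.p B → Inc F c D N W s v A' e g B G H pP pH →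
      (W : ℝ) ≤ w * J →
      (∀ ω, B ω → ∀ b : Option (Fin m) → ℝ, |b none - F.t ω| ≤ 1 / 2 ^ W →
        |b (some (c 0)) - F.x ω (c 0)| ≤ 1 / 2 ^ W →
        |eval b (pderiv (some (c 0)) (pP (ptr F J ω) 1))| ≤ 2 ^ e₁') →
      ((s : ℝ) + 1) * Real.log 2 + ε * J ≤ y * Real.log 2 → g 0 1 + e₁' + 1 + d ≤ J → W + d ≤ J →
      ∃ B' : F.Ω → Prop, Sub B' B ∧ Pe F.p B / 4 ≤ Pe F.p B' ∧ 0 < Pe F.p B ∧
        InpP F B' W d 0 0 (D + 1) (2 ^ y) (yv F c W (g 0 1) (fun S => pH S 1))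
          (yp F c W (g 0 1) (fun y => pP y 1)) (hgP c W (g 0 1) (fun S => pH S 1))) := by
  refine Bas.mono 0 (Pool.STB82.inp_cls hS D K₁ hε hw) ?_
  intro J _ F A hinp B c N W s v d y e₁' A' e g G H pP pH hBA hK I hW hgr hY hn1 hn2
  have hWJ : W ≤ J := by omega
  have ok0 := I.ok 0 (Nat.zero_le N)
  exact hinp B c W d 0 0 (g 0 1) e₁' (s + 1) (2 ^ y)
    (fun y => pP y 1) (fun S => pH S 1) hBA hK hW (fun S => I.hd S 1)
    (fun y => I.pe y 1) (fun ω hω => I.pc ω hω 1) (fun ω hω r hr => by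
      refine hgr ω hω _ ?_ ?_
      · rw [Function.update_of_ne (by simp)]
        show |F.t ω - F.t ω| ≤ _
        rw [sub_self, abs_zero]
        positivity
      · rw [Function.update_self]
        show |F.x ω (c 0) + r - F.x ω (c 0)| ≤ _
        rw [add_sub_cancel_left]
        exact hr.trans (inv_mono hWJ)) (fun ω hω => by
      have h1 := ok0.pos ω hω 1 (by norm_num)
      have h2 := I.pn ω hω 1 one_pos (by norm_num) (bt F ω) (ok0.self hω (by norm_num))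
      have e1 : F.x ω (c 1) - eval (bt F ω) (pP (ptr F J ω) 1) =
          (F.x ω (c 1) - eval (bt F ω) (G 0 (ptr F J ω) 1)) -
          (eval (bt F ω) (pP (ptr F J ω) 1) - eval (bt F ω) (G 0 (ptr F J ω) 1)) := by ring
      rw [e1]
      refine (abs_sub _ _).trans ((add_le_add h1 h2).trans ?_)
      rw [← add_div]
      refine div_le_div_of_nonneg_right ?_ (by positivity)
      have h3 : (1 : ℝ) ≤ 2 ^ s := one_le_pow₀ (by norm_num)
      rw [pow_succ]
      linarith) (by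
      have h1 : ∀ k : ℕ, (2 : ℝ) ^ k = Real.exp (k * Real.log 2) := by
        intro k
        rw [mul_comm, Real.exp_mul, Real.exp_log (by norm_num), Real.rpow_natCast]
      rw [h1, h1, ← Real.exp_add]
      refine Real.exp_le_exp.2 ?_
      push_cast
      exact hY) (by omega) (by omega)

/-- The lower bound of a level of the record. -/
theorem recG_low {m : ℕ} {S : PCl m} {al : ℝ} {g₀ : ℝ → ℝ}
    {P : List (Fin m) × Fin m → ℝ → ℝ → ℝ} {θ : ℝ}
    {P₂ : ℕ → List (Fin m) × Fin m → ℝ → ℝ → ℝ} {θ₂ Eb e₂ : ℕ → ℝ} {c : ℕ → Fin m}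
    {Pt : ℝ → ℝ → ℝ} {r : ℝ → ℝ} {h K₀ g : ℝ} {L T : ℕ → ℝ → ℝ → ℝ} {Sl : ℕ → ℝ} {κ : ℕ → Kg}
    {G : Set ℝ} {S₀ N : ℕ} {A V : ℕ → ℝ} {S₂ N' : ℕ} {V' : ℕ → ℝ} {K ε q t : ℝ}
    (R : RecG S al g₀ P θ P₂ θ₂ Eb e₂ c Pt r h K₀ g L T Sl κ G S₀ N A V S₂ N' V' K ε q t) {i : ℕ}
    (hi : i < m) {a w : ℝ} (hw : 0 ≤ w) (hwa : w ≤ a) (ha : a ≤ 1) : a ≤ L i a w := by
  rcases Nat.lt_or_ge (i + 1) m with h1 | h1
  · rw [R.lv_lt h1]
    exact R.thr.low _ _ _ hw hwa ha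
  · have : i = m - 1 := by omega
    rw [this, R.lv_last (by omega)]
    exact R.tgs.low () _ _ hw hwa ha

/-- Floors of levels. -/
theorem fl_lvl {x d s : ℝ} {J : ℕ} (hx : 0 ≤ x) (hd : 0 ≤ d) (hds : d ≤ s) :
    ((⌊(x - d) * J⌋₊ : ℕ) : ℝ) ≤ x * J ∧ x * J - s * J - 1 ≤ ⌊(x - d) * J⌋₊ := by
  have hJ : (0 : ℝ) ≤ J := Nat.cast_nonneg J
  constructor
  · rcases le_or_gt 0 ((x - d) * J) with h | h
    · refine (Nat.floor_le h).trans (mul_le_mul_of_nonneg_right (by linarith) hJ)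
    · rw [Nat.floor_of_nonpos h.le]
      push_cast
      positivity
  · have h1 := Nat.lt_floor_add_one ((x - d) * J)
    have h2 : d * J ≤ s * J := mul_le_mul_of_nonneg_right hds hJ
    linarith

/-- **No static third place with a slope which is no integer.** -/
theorem nni_void {n : ℕ} (hn : 3 ≤ n) {h : ℝ} {Sl : ℕ → ℝ} {κ : ℕ → Kg} (k1 : κ 1 = .one)
    (k2 : κ 2 = .sta) (hni : ∀ b : ℕ, Sl 2 ≠ b) : VoidG n h Sl κ := by
  classical
  intro al _ K₀ _ S₀ hS₀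
  refine ⟨3, 1, fun _ => 2, fun _ => 0, by norm_num, fun k _ => ⟨by norm_num, by norm_num,
    by norm_num⟩, fun S₂ hS₂ => ?_⟩
  rcases lt_or_ge (Sl 2) 2 with hlt | hge
  · refine ⟨3, 0, fun _ => 0, le_rfl, fun k hk => absurd hk (Nat.not_lt_zero k), 1, one_pos, ?_⟩
    intro S g₀ P θ P₂ θ₂ Eb e₂ c Pt r L T G g
    refine ⟨1, one_pos, fun q t _ R => ?_⟩
    have h3 := R.kd 2 (by omega)
    rw [k2] at h3
    exact absurd h3.1 (not_le.2 hlt)
  -- the degrees and the constants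
  obtain ⟨Da, hDa, nodA⟩ := nodF_rec 2 S₀ (by norm_num) hS₀
  obtain ⟨Db, hDb, nodB⟩ := nodF_pair 2 S₂ (by norm_num) (hS₀.trans hS₂)
  obtain ⟨D, hD⟩ : ∃ D, D = max Da Db := ⟨_, rfl⟩
  have hDaD : Da ≤ D := by rw [hD]; exact le_max_left _ _
  have hDbD : Db ≤ D := by rw [hD]; exact le_max_right _ _
  obtain ⟨Ci, D', hDD, hinc⟩ := inc_cls D
  obtain ⟨σ, hσ⟩ : ∃ σ, σ = Sl 2 := ⟨_, rfl⟩
  rw [← hσ] at hge
  obtain ⟨b, hb⟩ : ∃ b, b = ⌊σ⌋₊ := ⟨_, rfl⟩
  have hb1 : (b : ℝ) ≤ σ := by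
    rw [hb]
    exact Nat.floor_le (by linarith)
  have hb2 : σ < b + 1 := by
    rw [hb]
    exact Nat.lt_floor_add_one σ
  have hbne : (b : ℝ) < σ := lt_of_le_of_ne hb1 fun h => hni b (by rw [← hσ, h])
  have hb2' : (2 : ℝ) ≤ b := by
    have : 2 ≤ b := by
      rw [hb]
      exact Nat.le_floor (by exact_mod_cast hge)
    exact_mod_cast this
  obtain ⟨C₀, E, D'', hev⟩ := nni_inc n D' b (by omega)
  obtain ⟨γ, hγ⟩ : ∃ γ, γ = min (σ - b) (b + 1 - σ) / 4 := ⟨_, rfl⟩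
  have hγ0 : 0 < γ := by
    rw [hγ]
    exact div_pos (lt_min (by linarith) (by linarith)) (by norm_num)
  have hγ1 : 4 * γ ≤ σ - b := by
    rw [hγ]
    linarith [min_le_left (σ - b) (b + 1 - σ)]
  have hγ2 : 4 * γ ≤ b + 1 - σ := by
    rw [hγ]
    linarith [min_le_right (σ - b) (b + 1 - σ)]
  obtain ⟨ys, hys⟩ : ∃ ys : ℝ, ys = γ / ((E : ℝ) + b + 2) := ⟨_, rfl⟩
  have hEb : (0 : ℝ) < (E : ℝ) + b + 2 := by positivity
  have hys0 : 0 < ys := by rw [hys]; positivity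
  have hysγ : ((E : ℝ) + b + 2) * ys ≤ γ := by
    rw [hys]
    field_simp
    exact le_rfl
  have hys1 : ys ≤ 1 / 8 := by
    have h1 : 2 * ys ≤ ((E : ℝ) + b + 2) * ys :=
      mul_le_mul_of_nonneg_right (by linarith [Nat.cast_nonneg (α := ℝ) E]) hys0.le
    linarith
  have hC0 : (0 : ℝ) ≤ C₀ := Nat.cast_nonneg _
  have hCi : (0 : ℝ) ≤ Ci := Nat.cast_nonneg _
  obtain ⟨k₁, hk₁⟩ := exists_nat_ge (8 * (C₀ : ℝ) / ys + 1)
  have hk₁0 : (1 : ℝ) ≤ k₁ := by
    have : 0 ≤ 8 * (C₀ : ℝ) / ys := by positivity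
    linarith
  have hk₁1 : 1 ≤ k₁ := by exact_mod_cast hk₁0
  obtain ⟨ν, hν⟩ : ∃ ν : ℝ, ν = 1 / k₁ := ⟨_, rfl⟩
  have hν0 : 0 < ν := by rw [hν]; positivity
  have hkν : (k₁ : ℝ) * ν = 1 := by rw [hν]; field_simp
  have hCν : C₀ * ν ≤ ys / 8 := by
    have h1 : 8 * (C₀ : ℝ) / ys ≤ k₁ := by linarith
    rw [div_le_iff₀ hys0] at h1
    rw [hν, mul_one_div, div_le_iff₀ (by linarith)]
    linarith
  obtain ⟨C, hC, hev⟩ := hev (2 * k₁)
  obtain ⟨ε, hε⟩ : ∃ ε : ℝ, ε = min (γ / 6) (ys / (40 * ((C₀ + 1) * (Ci + 1)))) := ⟨_, rfl⟩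
  have hε0 : 0 < ε := by
    rw [hε]
    exact lt_min (by positivity) (by positivity)
  have hεγ : 6 * ε ≤ γ := by
    have : ε ≤ γ / 6 := by rw [hε]; exact min_le_left _ _
    linarith
  have hεC : 40 * ((C₀ + 1) * (Ci + 1)) * ε ≤ ys := by
    have h1 : ε ≤ ys / (40 * ((C₀ + 1) * (Ci + 1))) := by rw [hε]; exact min_le_right _ _
    rw [le_div_iff₀ (by positivity)] at h1
    linarith
  have hxk : ∀ k ≤ 2 * k₁, 0 ≤ (k : ℝ) * ν ∧ (k : ℝ) * ν ≤ 2 := fun k hk => by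
    refine ⟨by positivity, ?_⟩
    have h1 : (k : ℝ) ≤ 2 * k₁ := by exact_mod_cast hk
    calc (k : ℝ) * ν ≤ 2 * k₁ * ν := mul_le_mul_of_nonneg_right h1 hν0.le
      _ = 2 := by rw [mul_assoc, hkν, mul_one]
  refine ⟨σ + 5, 2 * k₁ + 1, fun k => k * ν, by linarith, fun k hk => ?_, ε, hε0, ?_⟩
  · have := hxk k (by omega)
    exact ⟨by linarith [this.1], by linarith [this.2]⟩
  intro S g₀ P θ P₂ θ₂ Eb e₂ c Pt r L T G g
  refine ⟨1, one_pos, fun q t _ R => ?_⟩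
  -- the record
  have hq := R.q0
  have R2 := R.tg 2 (by norm_num) (by omega)
  have law2 := R.lawL 2 (by omega)
  have hKq0 : 7 * q ≤ (σ + 5) * q := mul_le_mul_of_nonneg_right (by linarith) hq.le
  have ht0 : 7 * q ≤ t := by linarith [R.t0]
  have ht1 : t + 7 * q < 1 := by linarith [R.t1]
  have hbx : ∀ x : ℝ, t ≤ x → x ≤ t + 2 * q → |x - t| ≤ (σ + 5) * q := fun x h1 h2 => by
    rw [abs_le]
    constructor <;> linarith
  have s1 : Sl 1 = 1 := by
    have h1 := R.kd 1 (by omega)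
    rw [k1] at h1
    exact h1
  have hsta := (R.kd 2 (by omega))
  rw [k2] at hsta
  have hsta := hsta.2
  have hεq : 0 < ε * q := mul_pos hε0 hq
  -- the list
  obtain ⟨AA, hAA⟩ : ∃ AA : ℕ → ℝ, AA = fun k => if k ≤ 2 * k₁ then t + (k * ν) * q else
    t + 2 * q := ⟨_, rfl⟩
  obtain ⟨WW, hWW⟩ : ∃ WW : ℕ → ℝ, WW = fun k => if k ≤ 2 * k₁ then t + (k * ν) * q else
    t + 0 * q := ⟨_, rfl⟩
  have AAk : ∀ k ≤ 2 * k₁, AA k = t + (k * ν) * q := fun k hk => by rw [hAA]; simp only [if_pos hk]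
  have WWk : ∀ k ≤ 2 * k₁, WW k = t + (k * ν) * q := fun k hk => by rw [hWW]; simp only [if_pos hk]
  have AAl : AA (2 * k₁ + 1) = t + 2 * q := by
    rw [hAA]
    simp only [if_neg (show ¬ (2 * k₁ + 1 ≤ 2 * k₁) by omega)]
  have WWl : WW (2 * k₁ + 1) = t := by
    rw [hWW]
    simp only [if_neg (show ¬ (2 * k₁ + 1 ≤ 2 * k₁) by omega), zero_mul, add_zero]
  have AA0 : AA 0 = t := by rw [AAk 0 (Nat.zero_le _)]; push_cast; ring
  have WW0 : WW 0 = t := by rw [WWk 0 (Nat.zero_le _)]; push_cast; ring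
  have AA1 : AA k₁ = t + q := by rw [AAk k₁ (by omega), hkν, one_mul]
  have AAN : AA (2 * k₁) = t + 2 * q := by
    rw [AAk _ le_rfl]
    push_cast
    rw [mul_assoc (2 : ℝ), hkν]
    ring
  have WWN : WW (2 * k₁) = t + 2 * q := by
    rw [WWk _ le_rfl, ← AAk _ le_rfl, AAN]
  have hkk : ∀ k < 2 * k₁ + 2, k ≤ 2 * k₁ ∨ k = 2 * k₁ + 1 := fun k hk => by omega
  have kq : ∀ k ≤ 2 * k₁, 0 ≤ (k * ν) * q ∧ ((k : ℝ) * ν) * q ≤ 2 * q := fun k hk =>
    ⟨mul_nonneg (hxk k hk).1 hq.le, mul_le_mul_of_nonneg_right (hxk k hk).2 hq.le⟩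
  have hWWt : ∀ k < 2 * k₁ + 2, t ≤ WW k := fun k hk => by
    rcases hkk k hk with h1 | h1
    · rw [WWk k h1]
      linarith [(kq k h1).1]
    · rw [h1, WWl]
  have hWA : ∀ k < 2 * k₁ + 2, WW k ≤ AA k := fun k hk => by
    rcases hkk k hk with h1 | h1
    · rw [WWk k h1, AAk k h1]
    · rw [h1, WWl, AAl]
      linarith
  have hA2 : ∀ k < 2 * k₁ + 2, AA k ≤ t + 2 * q := fun k hk => by
    rcases hkk k hk with h1 | h1
    · rw [AAk k h1]
      linarith [(kq k h1).2]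
    · rw [h1, AAl]
  have hnod : ∀ k < 2 * k₁ + 2, NodF S c 2 D L (Eb 2) (Eb 2) (AA k) (WW k) := fun k hk => by
    rcases hkk k hk with h1 | h1
    · rw [WWk k h1, AAk k h1]
      exact (nodA R (by omega) k (by omega)).up hDaD
    · have h2 := (nodB R (by omega) 0 one_pos).1.up hDbD
      rw [h1, WWl, AAl]
      simp only [zero_mul, add_zero] at h2
      exact h2
  have l0 : ∀ k ≤ 2 * k₁, |L 0 (AA k) (AA k) - AA k| ≤ ε * q := fun k hk =>
    R.l0 _ (hbx _ (by linarith [hWWt k (by omega), hWA k (by omega)]) (hA2 k (by omega)))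
  have l1 : ∀ k ≤ 2 * k₁, |L 1 (AA k) (AA k) - L 1 t t - (AA k - t)| ≤ ε * q := fun k hk => by
    have h1 := R.dL 1 (by omega) (AA k) (hbx _ (by linarith [hWWt k (by omega), hWA k (by omega)])
      (hA2 k (by omega)))
    rwa [s1, one_mul] at h1
  have l2 : ∀ k ≤ 2 * k₁, |L 2 (AA k) (AA k) - L 2 t t - σ * (AA k - t)| ≤ ε * q := fun k hk => by
    rw [hσ]
    exact R.dL 2 (by omega) (AA k) (hbx _ (by linarith [hWWt k (by omega), hWA k (by omega)])
      (hA2 k (by omega)))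
  have WA : ∀ k ≤ 2 * k₁, WW k = AA k := fun k hk => by rw [WWk k hk, AAk k hk]
  have htL : t ≤ L 1 t t := by
    rw [R.lv_lt (l := 1) (by omega)]
    exact R.thr.low _ t t (by linarith) le_rfl (by linarith)
  -- the class
  obtain ⟨s, hs⟩ : ∃ s : ℝ, s = ε * q := ⟨_, rfl⟩
  have hs0 : 0 < s := by rw [hs]; exact hεq
  obtain ⟨K₁, d, ψ, hK₁, hψ, hd, hbas⟩ := hinc (c := c) (r := 2) (β := L) (e := Eb 2) (E := Eb 2)
    le_rfl R.tmh (R.inj.mono fun x (hx : x < 3) => show x < n by omega) (2 * k₁ + 2) AA WW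
    (fun k hk => by linarith [hWWt k hk]) hWA (fun k hk => by linarith [hA2 k hk])
    (fun j hj k hk h1 h2 => law2.mono (by linarith [hWWt j hj]) (hWA j hj) h1 h2 (hWA k hk)
      (by linarith [hA2 k hk])) hnod (2 * k₁) (fun k => k) (fun k hk => by omega) WA
    (fun k hk => by
      rw [AAk k hk.le, AAk (k + 1) (by omega)]
      push_cast
      have : 0 < ν * q := mul_pos hν0 hq
      linarith) (ν * q) (2 * s) (fun k hk => by
      rw [AAk k hk.le, AAk (k + 1) (by omega)]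
      push_cast
      linarith) (by linarith) (fun k hk => by
      rw [WA k hk, hs]
      linarith [(abs_le.1 (l0 k hk)).2]) (by
      have h1 := (abs_le.1 (l0 0 (Nat.zero_le _))).1
      rw [WW0, hs]
      rw [AA0] at h1 ⊢
      linarith) (by
      rw [WW0, AA0]
      exact htL) (fun k hk => by
      have h1 := (abs_le.1 (l1 k hk)).2
      rw [WA k hk, WW0, AA0, hs]
      linarith) (fun k hk => by
      have h1 := (abs_le.1 (l1 k hk)).1
      rw [WA k hk, WW0, AA0, hs]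
      linarith) 1 1 s one_pos hs0
  -- the rational window
  obtain ⟨δ, hδ, hrat⟩ := R2.ratc k₁ (by omega) (γ * q / 4) (by positivity)
  simp only [hkν, one_mul] at hrat
  obtain ⟨w', hw1, hw2⟩ := exists_rat_btwn (show t + q < min (t + q + δ) (t + 2 * q) from
    lt_min (by linarith) (by linarith))
  have hw3 : (w' : ℝ) ≤ t + q + δ := hw2.le.trans (min_le_left _ _)
  have hw4 : (w' : ℝ) ≤ t + 2 * q := hw2.le.trans (min_le_right _ _)
  have hbet := hrat w' hw1.le hw3 2 le_rfl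
  have hroom2 := R2.room 2 le_rfl (t + q) (hbx _ (by linarith) (by linarith))
  have hroom1 := R2.room 1 (by norm_num) t (hbx _ le_rfl (by linarith))
  have hroomk : ∀ j ≤ 2, L j (t + q) (t + q) < 1 := fun j hj => by
    have := R2.room j hj (t + q) (hbx _ (by linarith) (by linarith))
    linarith [R2.Eb0]
  have hγq : 0 < γ * q := mul_pos hγ0 hq
  have hγq1 : γ * q ≤ q := mul_le_of_le_one_left hq.le (by linarith)
  have hw0 : (0 : ℝ) < w' := by linarith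
  have hno := no_unif R2.thr₂ c 2 (fun _ => D'') w' w' (e₂ 2) (γ * q / 4)
    (by exact_mod_cast hw0.le) le_rfl (by
      have : (w' : ℝ) ≤ 1 := by linarith
      exact_mod_cast this) (R2.eθ _ (hbx _ (by linarith) hw4)) (by positivity)
    (by linarith [R2.Eb0])
  -- the time
  obtain ⟨τ, hτ⟩ : ∃ τ : ℝ, τ = ys * q * Real.log 2 / (4 * C) := ⟨_, rfl⟩
  have hl2 : 0 < Real.log 2 := Real.log_pos one_lt_two
  have hl2' : Real.log 2 < 1 := by linarith [Real.log_two_lt_d9]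
  have hl2'' : 1 / 2 < Real.log 2 := by linarith [Real.log_two_gt_d9]
  have hC1 : 0 < C := by linarith
  have hτ0 : 0 < τ := by rw [hτ]; positivity
  have hTm := Pool.V1E.bas_big (R.tmh.2 τ hτ0) (4 * K₁)
  have hposn := inc_pos D' R.tmh (ε := ys * q / 16) (w := t) K₁ (by positivity) (by linarith)
  have hno' := Pool.V1E.bas_big hno (8 * K₁)
  -- large numbers
  obtain ⟨J₁, hJ₁⟩ := exists_nat_ge ((2 * (b : ℝ) + 20 + 2 * k₁) / (ε * q))
  obtain ⟨J₂, hJ₂⟩ := exists_nat_ge (8 * ((C₀ + 1) * (Ci + 4) + C + 1) / (ys * q))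
  refine bas_false R.ne (Φ := fun _ _ _ => True) ⟨1, one_pos, 0, fun _ _ _ _ _ => trivial⟩
    (Bas.mono (max J₁ J₂) ((hbas.and hposn).and (hTm.and hno')) ?_)
  rintro J hJ F A₀ ⟨⟨⟨B, Gn, Hn, xP, xH, pP, pH, hBA, hBP, Ls, I, hn0, hpH, hxc, hxn, hgr⟩, hpos⟩,
    hTm, hno⟩ -
  clear hbas hposn
  have hJ1 : (J₁ : ℝ) ≤ J := by exact_mod_cast (le_max_left _ _).trans hJ
  have hJ2 : (J₂ : ℝ) ≤ J := by exact_mod_cast (le_max_right _ _).trans hJ
  have hJ0 : (0 : ℝ) ≤ J := Nat.cast_nonneg J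
  obtain ⟨U, hU⟩ : ∃ U : ℝ, U = q * J := ⟨_, rfl⟩
  have hU0 : 0 ≤ U := by rw [hU]; positivity
  have hU1 : 2 * (b : ℝ) + 20 + 2 * k₁ ≤ ε * U := by
    have h1 := hJ₁.trans hJ1
    rw [div_le_iff₀ hεq] at h1
    rw [hU]
    linarith
  have hU2 : 8 * ((C₀ + 1) * (Ci + 4) + C + 1) ≤ ys * U := by
    have h1 := hJ₂.trans hJ2
    rw [div_le_iff₀ (by positivity)] at h1
    rw [hU]
    linarith
  have qJ : ∀ x : ℝ, x * q * J = x * U := fun x => by rw [hU]; ring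
  have sJ : s * J = ε * U := by rw [hs, hU]; ring
  have hsJ0 : 0 ≤ s * J := by positivity
  -- the numbers
  obtain ⟨tJ, htJ⟩ : ∃ tJ : ℝ, tJ = t * J := ⟨_, rfl⟩
  have hEb0 := R2.Eb0
  obtain ⟨sI, hsI⟩ : ∃ sI : ℕ, sI = (Ci + 1) * (⌊(2 * s + 3 * s) * J⌋₊ + 1) := ⟨_, rfl⟩
  have f5 : (2 * s + 3 * s) * J = 5 * (ε * U) := by rw [← sJ]; ring
  have f5l := Nat.floor_le (show 0 ≤ (2 * s + 3 * s) * J by positivity)
  have f5u := Nat.lt_floor_add_one ((2 * s + 3 * s) * J)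
  rw [f5] at f5l f5u
  have sI1 : 5 * (ε * U) ≤ sI := by
    rw [hsI]
    push_cast
    rw [f5]
    have : 1 * ((⌊5 * (ε * U)⌋₊ : ℝ) + 1) ≤ ((Ci : ℝ) + 1) * ((⌊5 * (ε * U)⌋₊ : ℝ) + 1) :=
      mul_le_mul_of_nonneg_right (by linarith only [hCi]) (by positivity)
    linarith only [this, f5u]
  have sI2 : (sI : ℝ) ≤ (Ci + 1) * (5 * (ε * U) + 1) := by
    rw [hsI]
    push_cast
    rw [f5]
    exact mul_le_mul_of_nonneg_left (by linarith only [f5l]) (by linarith only [hCi])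
  have sIC : Ci * (⌊(2 * s + 3 * s) * J⌋₊ + 1) ≤ sI := by
    rw [hsI]
    exact Nat.mul_le_mul_right _ (Nat.le_succ _)
  have sIs : ⌊s * J⌋₊ ≤ sI := by
    refine nat_le_re ?_
    have := Nat.floor_le hsJ0
    have h5 : 0 ≤ ε * U := mul_nonneg hε0.le hU0
    rw [sJ] at this ⊢
    linarith only [this, sI1, h5]
  obtain ⟨y, hy⟩ : ∃ y : ℕ, y = ⌊ys * U⌋₊ := ⟨_, rfl⟩
  have hysU : 0 ≤ ys * U := mul_nonneg hys0.le hU0
  have y1 : (y : ℝ) ≤ ys * U := by rw [hy]; exact Nat.floor_le hysU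
  have y2 : ys * U - 1 ≤ y := by
    rw [hy]
    linarith only [Nat.lt_floor_add_one (ys * U)]
  have hν1 : 0 ≤ ν * U := mul_nonneg hν0.le hU0
  obtain ⟨v, hv⟩ : ∃ v : ℕ, v = ⌊ν * q * J⌋₊ + 1 := ⟨_, rfl⟩
  have v1 : (v : ℝ) ≤ ν * U + 1 := by
    rw [hv]
    push_cast
    rw [qJ]
    linarith only [Nat.floor_le hν1]
  have hCy : C₀ * (sI + v + 1) ≤ y := by
    refine nat_le_re ?_
    push_cast
    have k1 : (C₀ : ℝ) * ((sI : ℝ) + v + 1) ≤
        C₀ * ((Ci + 1) * (5 * (ε * U) + 1) + (ν * U + 1) + 1) :=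
      mul_le_mul_of_nonneg_left (by linarith only [sI2, v1]) hC0
    have k2 : C₀ * ((Ci + 1) * (5 * (ε * U) + 1) + (ν * U + 1) + 1) =
        5 * (C₀ * (Ci + 1) * ε * U) + C₀ * ν * U + C₀ * ((Ci + 1) + 2) := by ring
    have k3 : C₀ * ν * U ≤ ys / 8 * U := mul_le_mul_of_nonneg_right hCν hU0
    have k4 : 40 * (C₀ * (Ci + 1) * ε * U) ≤ ys * U := by
      have h1 : (C₀ : ℝ) * (Ci + 1) * ε ≤ (C₀ + 1) * (Ci + 1) * ε := by
        refine mul_le_mul_of_nonneg_right (mul_le_mul_of_nonneg_right (by linarith only)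
          (by linarith only [hCi])) hε0.le
      have h2 := mul_le_mul_of_nonneg_right h1 hU0
      have h3 := mul_le_mul_of_nonneg_right hεC hU0
      have h4 : 40 * ((C₀ + 1) * (Ci + 1)) * ε * U = 40 * ((C₀ + 1) * (Ci + 1) * ε * U) := by ring
      linarith only [h2, h3, h4]
    have k5 : (C₀ : ℝ) * ((Ci + 1) + 2) ≤ (C₀ + 1) * (Ci + 4) := by nlinarith
    have k6 : 8 * ((C₀ : ℝ) + 1) * (Ci + 4) + 8 * C + 8 ≤ ys * U := by linarith only [hU2]
    have k7 : ys / 8 * U = ys * U / 8 := by ring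
    linarith only [k1, k2, k3, k4, k5, k6, k7, y2, hC1, hysU]
  have syU : ys * U ≤ U / 8 := by
    have := mul_le_mul_of_nonneg_right hys1 hU0
    linarith only [this]
  have sIy : 4 * (sI : ℝ) ≤ ys * U := by
    have k4 : 40 * ((Ci + 1) * ε * U) ≤ ys * U := by
      have h1 : 1 * ((Ci : ℝ) + 1) * ε ≤ (C₀ + 1) * (Ci + 1) * ε :=
        mul_le_mul_of_nonneg_right (mul_le_mul_of_nonneg_right (by linarith only [hC0])
          (by linarith only [hCi])) hε0.le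
      have h2 := mul_le_mul_of_nonneg_right h1 hU0
      have h3 := mul_le_mul_of_nonneg_right hεC hU0
      have h4 : 40 * ((C₀ + 1) * (Ci + 1)) * ε * U = 40 * ((C₀ + 1) * (Ci + 1) * ε * U) := by ring
      linarith only [h2, h3, h4]
    have k5 : 8 * (((Ci : ℝ) + 4)) ≤ ys * U := by
      have : 1 * ((Ci : ℝ) + 4) ≤ (C₀ + 1) * (Ci + 4) :=
        mul_le_mul_of_nonneg_right (by linarith only [hC0]) (by linarith only [hCi])
      linarith only [this, hU2, hC1]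
    have k6 : ((Ci : ℝ) + 1) * (5 * (ε * U) + 1) = 5 * ((Ci + 1) * ε * U) + (Ci + 1) := by ring
    linarith only [sI2, k4, k5, k6]
  have hbU0 : (0 : ℝ) ≤ b := by linarith only [hb2']
  -- the floors of the radii
  have fA : ∀ k < 2 * k₁ + 2, ((⌊AA k * J⌋₊ : ℕ) : ℝ) ≤ AA k * J ∧ AA k * J - 1 ≤ ⌊AA k * J⌋₊ :=
    fun k hk => ⟨Nat.floor_le (mul_nonneg (by linarith only [hWWt k hk, hWA k hk, ht0, hq]) hJ0), by
      linarith only [Nat.lt_floor_add_one (AA k * J)]⟩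
  have AAJ : ∀ k ≤ 2 * k₁, AA k * J = tJ + (k * ν) * U := fun k hk => by
    rw [AAk k hk, htJ, hU]
    ring
  have gl : ∀ k < 2 * k₁ + 2, ∀ l ≤ 2, ((⌊(L l (AA k) (WW k) - d k l) * J⌋₊ : ℕ) : ℝ) ≤
      L l (AA k) (WW k) * J ∧
      L l (AA k) (WW k) * J - ε * U - 1 ≤ ⌊(L l (AA k) (WW k) - d k l) * J⌋₊ := fun k hk l hl => by
    have h1 := hd k hk l hl
    have h2 := recG_low R (i := l) (by omega) (a := AA k) (w := WW k)
      (by linarith only [hWWt k hk, ht0, hq]) (hWA k hk) (by linarith only [hA2 k hk, ht1, hq])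
    rw [← sJ]
    exact fl_lvl (by linarith only [h2, hWWt k hk, hWA k hk, ht0, hq]) h1.1.le h1.2.1
  have lJ : ∀ x y z : ℝ, |x - y| ≤ z → x * J ≤ y * J + z * J ∧ y * J - z * J ≤ x * J := by
    intro x y z h
    have h1 := abs_le.1 h
    have h2 := mul_le_mul_of_nonneg_right (show x ≤ y + z by linarith only [h1.2]) hJ0
    have h3 := mul_le_mul_of_nonneg_right (show y - z ≤ x by linarith only [h1.1]) hJ0
    constructor
    · linarith only [h2]
    · linarith only [h3]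
  have pw : ∀ {x y : ℕ}, x ≤ y → (2 : ℝ) ^ x ≤ 2 ^ y := fun h => pow_le_pow_right₀ (by norm_num) h
  obtain ⟨W, hW⟩ : ∃ W : ℕ, W = ⌊AA 0 * J⌋₊ := ⟨_, rfl⟩
  obtain ⟨A', hA'⟩ : ∃ A' : ℕ → ℕ, A' = fun k => ⌊AA k * J⌋₊ := ⟨_, rfl⟩
  obtain ⟨g', hg'⟩ : ∃ g' : ℕ → ℕ → ℕ, g' = fun k l => ⌊(L l (AA k) (WW k) - d k l) * J⌋₊ :=
    ⟨_, rfl⟩
  obtain ⟨E', hE'⟩ : ∃ E' : ℕ, E' = ⌊(Eb 2 + s) * J⌋₊ := ⟨_, rfl⟩
  obtain ⟨e1, he1⟩ : ∃ e1 : ℕ, e1 = ⌊e₂ 2 * J⌋₊ := ⟨_, rfl⟩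
  obtain ⟨e1', he1'⟩ : ∃ e1' : ℕ, e1' = sI + ⌊Eb 2 * J⌋₊ := ⟨_, rfl⟩
  obtain ⟨p, hp⟩ : ∃ p : ℕ, p = ⌊(L 2 (AA k₁) (WW k₁) + γ * q) * J⌋₊ := ⟨_, rfl⟩
  obtain ⟨τg, hτg⟩ : ∃ τg : ℕ, τg = ⌊(2 * (σ - b) - 4 * ε) * U⌋₊ := ⟨_, rfl⟩
  have I' : Inc F c D' (2 * k₁) W sI v A' (fun _ => E') g' B Gn Hn pP pH := by
    rw [hW, hA', hg', hE', hv]
    exact inc_mono I le_rfl sIC
  have hgr' : ∀ ω, B ω → ∀ b : Option (Fin n) → ℝ, |b none - F.t ω| ≤ 1 / 2 ^ W →
      |b (some (c 0)) - F.x ω (c 0)| ≤ 1 / 2 ^ W →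
      |eval b (pderiv (some (c 0)) (pP (ptr F J ω) 1))| ≤ 2 ^ e1' := by
    intro ω hω b hb0 hb1
    rw [hW] at hb0 hb1
    refine (hgr ω hω b hb0 hb1).trans (pw ?_)
    rw [he1']
    exact Nat.add_le_add_right sIC _
  have hR1 : AA (2 * k₁ + 1) ≤ AA (2 * k₁) ∧ WW (2 * k₁ + 1) ≤ WW (2 * k₁) := by
    rw [AAl, AAN, WWl, WWN]
    exact ⟨le_rfl, by linarith only [hq]⟩
  have hR0 : AA 0 ≤ AA k₁ ∧ WW 0 ≤ WW k₁ := by
    rw [WA k₁ (by omega), AA1, AA0, WW0]
    exact ⟨by linarith only [hq], by linarith only [hq]⟩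
  have hWeq : ⌊WW (2 * k₁ + 1) * J⌋₊ = W := by rw [WWl, hW, AA0]
  have htwo := Ls.two (2 * k₁ + 1) (by omega) (2 * k₁) (by omega) hR1
  have huni := Ls.uni 0 (by omega) k₁ (by omega) hR0
  have hnd := (Ls.nod (2 * k₁ + 1) (by omega)).top
  rw [hWeq] at htwo
  -- the numbers
  have fA' : ∀ k < 2 * k₁ + 2, (A' k : ℝ) ≤ AA k * J ∧ AA k * J - 1 ≤ A' k := by
    rw [hA']
    exact fA
  have fA0 := fA' 0 (by omega)
  have fAk := fA' k₁ (by omega)
  have fAN := fA' (2 * k₁) (by omega)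
  rw [AAJ 0 (Nat.zero_le _), I'.A0] at fA0
  have e0 : ((0 : ℕ) : ℝ) * ν * U = 0 := by push_cast; ring
  rw [e0, add_zero] at fA0
  rw [AAJ k₁ (by omega), hkν, one_mul] at fAk
  have e2 : (((2 * k₁ : ℕ) : ℝ) * ν) * U = 2 * U := by
    push_cast
    rw [mul_assoc (2 : ℝ), hkν, mul_one]
  rw [AAJ (2 * k₁) le_rfl, e2] at fAN
  have LL0 : ∀ k ≤ 2 * k₁, L 0 (AA k) (WW k) * J ≤ tJ + (k * ν) * U + ε * U ∧
      tJ + (k * ν) * U - ε * U ≤ L 0 (AA k) (WW k) * J := fun k hk => by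
    have h1 := lJ _ _ _ (l0 k hk)
    rw [AAJ k hk, ← hs, sJ] at h1
    rw [WA k hk]
    exact h1
  have LL1 : ∀ k ≤ 2 * k₁, L 1 (AA k) (WW k) * J ≤ L 1 t t * J + (k * ν) * U + ε * U ∧
      L 1 t t * J + (k * ν) * U - ε * U ≤ L 1 (AA k) (WW k) * J := fun k hk => by
    have h1 := lJ (L 1 (AA k) (AA k)) (L 1 t t + (AA k - t)) (ε * q) (by
      rw [show L 1 (AA k) (AA k) - (L 1 t t + (AA k - t)) =
        L 1 (AA k) (AA k) - L 1 t t - (AA k - t) by ring]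
      exact l1 k hk)
    have h2 : (L 1 t t + (AA k - t)) * J = L 1 t t * J + (k * ν) * U := by
      rw [AAk k hk, hU]
      ring
    rw [h2, ← hs, sJ] at h1
    rw [WA k hk]
    exact h1
  have LL2 : ∀ k ≤ 2 * k₁, L 2 (AA k) (WW k) * J ≤ L 2 t t * J + σ * ((k * ν) * U) + ε * U ∧
      L 2 t t * J + σ * ((k * ν) * U) - ε * U ≤ L 2 (AA k) (WW k) * J := fun k hk => by
    have h1 := lJ (L 2 (AA k) (AA k)) (L 2 t t + σ * (AA k - t)) (ε * q) (by
      rw [show L 2 (AA k) (AA k) - (L 2 t t + σ * (AA k - t)) =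
        L 2 (AA k) (AA k) - L 2 t t - σ * (AA k - t) by ring]
      exact l2 k hk)
    have h2 : (L 2 t t + σ * (AA k - t)) * J = L 2 t t * J + σ * ((k * ν) * U) := by
      rw [AAk k hk, hU]
      ring
    rw [h2, ← hs, sJ] at h1
    rw [WA k hk]
    exact h1
  have g00 := gl 0 (by omega) 0 (by norm_num)
  have g01 := gl 0 (by omega) 1 (by norm_num)
  have g02 := gl 0 (by omega) 2 le_rfl
  have gk0 := gl k₁ (by omega) 0 (by norm_num)
  have gk1 := gl k₁ (by omega) 1 (by norm_num)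
  have gS := gl (2 * k₁ + 1) (by omega) 2 le_rfl
  have a0 := LL0 0 (Nat.zero_le _)
  have ak0 := LL0 k₁ (by omega)
  have ak1 := LL1 k₁ (by omega)
  have ak2 := LL2 k₁ (by omega)
  have aN2 := LL2 (2 * k₁) le_rfl
  rw [e0] at a0
  rw [hkν, one_mul] at ak0 ak1 ak2
  rw [e2] at aN2
  have hEJ : (0 : ℝ) ≤ (Eb 2 + s) * J := by positivity
  have hEJ' : (0 : ℝ) ≤ Eb 2 * J := by positivity
  have hEf : (E' : ℝ) ≤ Eb 2 * J + ε * U := by
    rw [hE', ← sJ]
    linarith only [Nat.floor_le hEJ]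
  have hsta' : L 2 (t + 2 * q) (t + 2 * q) * J ≤ L 2 (t + 2 * q) t * J + ε * U := by
    have h1 := hsta (t + 2 * q) t (by linarith only [hKq0, hq]) (by linarith only [hq])
      (by linarith only [hKq0, hq])
    have h2 := mul_le_mul_of_nonneg_right h1 hJ0
    rw [← hs] at h2
    rw [← sJ]
    linarith only [h2]
  have N := nni_num (b := b) (E := E) (N := 2 * k₁) (U := U) (tJ := tJ) (σ := σ) (γ := γ) (ε := ε)
    (ys := ys) (K' := σ + 5) (eB := Eb 2 * J) (L1 := L 1 t t * J) (L2 := L 2 t t * J) (W := W)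
    (Ak := A' k₁) (AN := A' (2 * k₁)) (y := y) (s := sI) (p := p) (τg := τg) (e0 := E') (ek := E')
    (e1 := e1) (e1' := e1') (gS := g' (2 * k₁ + 1) 2) (g00 := g' 0 0) (g01 := g' 0 1)
    (g02 := g' 0 2) (gk0 := g' k₁ 0) (gk1 := g' k₁ 1) (A := A') (g2 := fun k => g' k 2)
    (x := fun k => k * ν) hb2' hγ0 hγ1 hγ2 hε0 hεγ hys0 hysγ le_rfl
    (by linarith only [hU1, hk₁0]) hU0 y1 sI1 (by linarith only [sIy, syU, hU0]) fA0.1 fA0.2
    fAk.2 fAk.1 fAN.2 fAN.1 (fun k hk => (hxk k hk).1) (fun k hk => by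
      have h1 := (fA' k (by omega)).1
      rw [AAJ k hk] at h1
      exact h1) I'.AW (fun k hk => by
      have h1 := (gl k (by omega) 2 le_rfl).2
      have h2 := (LL2 k hk).2
      rw [hg']
      beta_reduce
      linarith only [h1, h2]) (by
      rw [hg']
      beta_reduce
      linarith only [g00.1, a0.1]) (by
      rw [hg']
      beta_reduce
      linarith only [gk0.2, ak0.2]) (by
      have h1 := g01.1
      rw [AA0, WW0] at h1
      rw [hg']
      beta_reduce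
      rw [AA0, WW0]
      exact h1) (by
      have h1 := g01.2
      rw [AA0, WW0] at h1
      rw [hg']
      beta_reduce
      rw [AA0, WW0]
      exact h1) (by
      rw [htJ]
      exact mul_le_mul_of_nonneg_right htL hJ0) (by
      rw [hg']
      beta_reduce
      linarith only [gk1.2, ak1.2]) (by
      have h1 := g02.1
      rw [AA0, WW0] at h1
      rw [hg']
      beta_reduce
      rw [AA0, WW0]
      exact h1) (by
      have h1 := g02.2
      rw [AA0, WW0] at h1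
      rw [hg']
      beta_reduce
      rw [AA0, WW0]
      exact h1) (by
      have h1 := gS.2
      have h2 := aN2.2
      rw [AAN, WWN] at h2
      rw [AAl, WWl] at h1
      rw [hg']
      beta_reduce
      rw [AAl, WWl]
      linarith only [h1, h2, hsta']) (by
      have h1 := Nat.floor_le (show 0 ≤ (L 2 (AA k₁) (WW k₁) + γ * q) * J from
        mul_nonneg (by
          have h2 := recG_low R (i := 2) (by omega) (a := AA k₁) (w := WW k₁)
            (by linarith only [hWWt k₁ (by omega), ht0, hq]) (hWA k₁ (by omega))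
            (by linarith only [hA2 k₁ (by omega), ht1, hq])
          linarith only [h2, hWWt k₁ (by omega), hWA k₁ (by omega), ht0, hq, hγq]) hJ0)
      rw [← hp] at h1
      have h2 : (L 2 (AA k₁) (WW k₁) + γ * q) * J = L 2 (AA k₁) (WW k₁) * J + γ * U := by
        rw [hU]
        ring
      have h3 : (σ + ε + γ) * U = σ * U + ε * U + γ * U := by ring
      linarith only [h1, h2, h3, ak2.1]) hEf hEf (by
      rw [he1']
      push_cast
      linarith only [Nat.floor_le hEJ']) (by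
      rw [he1']
      exact Nat.le_add_right _ _) (by
      have h1 := Nat.lt_floor_add_one (e₂ 2 * J)
      rw [← he1] at h1
      have h2 := mul_le_mul_of_nonneg_right R2.Ebe.le hJ0
      have h3 : (Eb 2 + 3 * (σ + 5) * q) * J = Eb 2 * J + 3 * ((σ + 5) * U) := by rw [hU]; ring
      linarith only [h1, h2, h3]) hτg (by
      rw [hA']
      refine Nat.floor_le_floor (mul_le_mul_of_nonneg_right ?_ hJ0)
      rw [AA1, AAN]
      linarith only [hq])
  obtain ⟨n1, n2, n3, n4, n5, n6, n7, n8, n9, n10, n11, n12, n13, n14, n15, n16, n17⟩ := N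
  have hWt : (W : ℝ) ≤ t * J := by
    rw [← htJ]
    exact fA0.1
  obtain ⟨X, hX⟩ : ∃ X : ℝ, X = ys * U := ⟨_, rfl⟩
  have hX8 : 8 * (C + 1) ≤ X := by
    have h1 : 0 ≤ ((C₀ : ℝ) + 1) * (Ci + 4) := by positivity
    rw [hX]
    linarith only [hU2, h1]
  have hXl : X / 2 ≤ X * Real.log 2 := by
    have h1 : X * (1 / 2) ≤ X * Real.log 2 :=
      mul_le_mul_of_nonneg_left hl2''.le (by linarith only [hX8, hC1])
    linarith only [h1]
  have hyl : (X - 1) * Real.log 2 ≤ y * Real.log 2 :=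
    mul_le_mul_of_nonneg_right (by rw [hX]; exact y2) hl2.le
  have key : C * (τ * J + 1) ≤ y * Real.log 2 := by
    have h1 : C * (τ * J) = X * Real.log 2 / 4 := by
      rw [hτ, hX, hU]
      field_simp
    linarith only [h1, hXl, hyl, hX8, hC1, hl2', hl2]
  have hY : ((sI : ℝ) + 1) * Real.log 2 + ys * q / 16 * J ≤ y * Real.log 2 := by
    have h1 : ys * q / 16 * J = X / 16 := by
      rw [hX, hU]
      ring
    have h2 : ((sI : ℝ) + 1) * Real.log 2 ≤ (X / 4 + 1) * Real.log 2 :=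
      mul_le_mul_of_nonneg_right (by rw [hX]; linarith only [sIy]) hl2.le
    linarith only [h1, h2, hXl, hyl, hX8, hC1, hl2', hl2]
  obtain ⟨dd, hdd⟩ : ∃ dd : ℕ, dd = y + (A' (2 * k₁) - W) + τg + 1 := ⟨_, rfl⟩
  rw [← hdd] at n16 n17
  have r1 := mul_le_mul_of_nonneg_right hroom1.le hJ0
  have r2 : (L 1 t t + Eb 2 + 3 * (σ + 5) * q) * J =
      L 1 t t * J + Eb 2 * J + 3 * ((σ + 5) * U) := by rw [hU]; ring
  have r3 := mul_le_mul_of_nonneg_right R.t1.le hJ0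
  have r4 : (t + (σ + 5) * q) * J = tJ + (σ + 5) * U := by rw [hU, htJ]; ring
  obtain ⟨B₂, hB₂, hP₂, hPB, hI⟩ := hpos B c (2 * k₁) W sI v dd y e1' A' (fun _ => E') g' Gn Hn pP
    pH hBA hBP I' hWt hgr' hY (nat_le_re (by
      push_cast
      linarith only [n16, r1, r2])) (nat_le_re (by
      push_cast
      linarith only [n17, r3, r4]))
  have hPB₂ : 0 < Pe F.p B₂ := by linarith only [hPB, hP₂]
  have hAB₂ : Pe F.p A₀ ≤ 4 * K₁ * Pe F.p B₂ := by
    have h1 : K₁ * Pe F.p B ≤ K₁ * (4 * Pe F.p B₂) :=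
      mul_le_mul_of_nonneg_left (by linarith only [hP₂]) hK₁.le
    linarith only [hBP, h1]
  have hB₂A : Sub B₂ A₀ := fun ω hω => hBA ω (hB₂ ω hω)
  have hexp : Real.exp (C * (τ * J + 1)) ≤ 2 ^ y := by
    have h1 : (2 : ℝ) ^ y = Real.exp (y * Real.log 2) := by
      rw [mul_comm, Real.exp_mul, Real.exp_log (by norm_num), Real.rpow_natCast]
    rw [h1]
    exact Real.exp_le_exp.2 key
  have hCy' : C ≤ 2 ^ y := by
    refine le_trans ?_ hexp
    have h1 := Real.add_one_le_exp (C * (τ * J + 1))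
    have h2 : 0 ≤ C * (τ * J) := by positivity
    linarith only [h1, h2]
  have hyJ : C * (τ * J + 1) ≤ ((J : ℝ) - W) * Real.log 2 := by
    refine key.trans (mul_le_mul_of_nonneg_right ?_ hl2.le)
    have h1 := mul_le_mul_of_nonneg_right ht1.le hJ0
    have h2 : (t + 7 * q) * J = t * J + 7 * U := by rw [hU]; ring
    linarith only [h1, h2, hWt, y1, syU, hU0]
  obtain ⟨B₃, G₃, H₃, hB₃, hP₃, hch⟩ := hev F B₂ hPB₂ (c := c) (W := W) (s := sI) (v := v)
    (gS := g' (2 * k₁ + 1) 2) (k₁ := k₁) (y := y) (t := τg) (p := p) (d := dd) (e₁ := e1)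
    (e₁' := e1') (θ := τ * J) (A := A') (e := fun _ => E') (g := g') (G := Gn) (H := Hn)
    (pP := pP) (pH := pH) (US := fun S => Hn (2 * k₁ + 1) S 2)
    (yt := yp F c W (g' 0 1) (fun y => pP y 1)) (inc_lss I' hB₂) (nat_le_re (by
      push_cast
      linarith only [sI1, hU1, hbU0, mul_nonneg hε0.le hU0])) (by omega) hpH
    (fun S => (hnd.degH S 2).trans hDD) (fun S => hnd.depH S 2) (fun ω hω b' hb' => by
      rw [hg', hA'] at hb'
      have h1 := htwo ω (hB₂ ω hω) 2 le_rfl b' hb'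
      rw [hg']
      exact h1.trans (div_le_div_of_nonneg_right (pw sIs) (by positivity)))
    (fun ω hω l hl b' hb' => by
      rw [hg', hA'] at hb'
      have h1 := huni ω (hB₂ ω hω) l (by omega) b' hb'
      rw [hg']
      exact h1.trans (div_le_div_of_nonneg_right (pw sIs) (by positivity)))
    (fun l hl => nat_le_re (by
      have h1 := (gl 0 (by omega) l (by omega)).1
      have h2 := (gl k₁ (by omega) l (by omega)).2
      have h3 := mul_le_mul_of_nonneg_right ((R.lawL l (by omega)).mono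
        (by linarith only [hWWt 0 (by omega), ht0, hq]) (hWA 0 (by omega)) hR0.1 hR0.2
        (hWA k₁ (by omega)) (by linarith only [hA2 k₁ (by omega), ht1, hq])) hJ0
      rw [hg']
      push_cast
      linarith only [h1, h2, h3, sI1, hU1, hk₁0, hbU0]))
    (fun ω hω => hgr' ω (hB₂ ω hω)) hI hCy' (by positivity)
    (hTm B₂ hB₂A hAB₂ hPB₂) hyJ hexp hCy n1 n2 (by
      rw [hA']
      refine Nat.floor_le_floor (mul_le_mul_of_nonneg_right ?_ hJ0)
      rw [AA1, AAN]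
      linarith only [hq]) n3 n4 n5 (le_of_eq hdd.symm) n6 n7 n8 n9 n10 n11 n12
    (fun j hj => by
      have : j = 0 ∨ j = 1 := by omega
      rcases this with rfl | rfl
      · exact n13
      · exact n14) n15
  have hAB₃ : Pe F.p A₀ ≤ 8 * K₁ * Pe F.p B₃ := by
    have h1 : K₁ * Pe F.p B₂ ≤ K₁ * (2 * Pe F.p B₃) :=
      mul_le_mul_of_nonneg_left (by linarith only [hP₃]) hK₁.le
    linarith only [hAB₂, h1]
  have hAkw : A' k₁ ≤ ⌊(w' : ℝ) * J⌋₊ := by
    rw [hA']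
    refine Nat.floor_le_floor (mul_le_mul_of_nonneg_right ?_ hJ0)
    rw [AA1]
    exact hw1.le
  refine hno B₃ (fun ω hω => hB₂A ω (hB₃ ω hω)) hAB₃ (A' k₁) (A' k₁) e1
    (fun j => if j < 2 then g' k₁ j else p) le_rfl hAkw hAkw (le_of_eq he1) (fun l hl => ?_) ?_
    ⟨G₃, H₃, hch⟩
  · have hr := hroomk l hl
    have h1 := mul_le_mul_of_nonneg_right hr.le hJ0
    rcases Nat.lt_or_ge l 2 with h5 | h5
    · simp only [if_pos h5]
      refine nat_le_re ?_
      have h2 := (gl k₁ (by omega) l hl).1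
      rw [WA k₁ (by omega), AA1] at h2
      rw [hg']
      beta_reduce
      rw [WA k₁ (by omega), AA1]
      linarith only [h1, h2]
    · have h6 : l = 2 := by omega
      subst h6
      simp only [lt_irrefl, if_false]
      refine nat_le_re ?_
      rw [hp, WA k₁ (by omega), AA1]
      have h3 := mul_le_mul_of_nonneg_right hroom2.le hJ0
      have h4 : γ * q ≤ 3 * (σ + 5) * q := by
        have h5 : γ * q ≤ (σ + 5) * q := by linarith only [hγq1, hKq0, hq]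
        have h6 : 0 ≤ (σ + 5) * q := by linarith only [hKq0, hq]
        linarith only [h5, h6]
      have h7 := recG_low R (i := 2) (by omega) (a := t + q) (w := t + q)
        (by linarith only [ht0, hq]) le_rfl (by linarith only [ht1, hq])
      have h8 := Nat.floor_le (show 0 ≤ (L 2 (t + q) (t + q) + γ * q) * J from
        mul_nonneg (by linarith only [h7, ht0, hq, hγq]) hJ0)
      have h9 := mul_le_mul_of_nonneg_right (show L 2 (t + q) (t + q) + γ * q ≤ 1 by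
        linarith only [hroom2, h4, hEb0]) hJ0
      linarith only [h8, h9]
  · simp only [lt_irrefl, if_false]
    refine add_le_add ?_ hAkw
    rw [hp, WA k₁ (by omega), AA1]
    refine Nat.floor_le_floor (mul_le_mul_of_nonneg_right ?_ hJ0)
    linarith only [hbet, hγq]

end Pool.STB77
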