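import Pool.Agent.H77.STB.Nde
import Pool.Agent.H87.GEN.Stg

/-!
# Balls and a static node in a class

`nod_cls`: from the nodes `NodD` at the pairs `(α k, α k)`, `k ≤ N`, and `(α N, α 0)`: on one large
event the nodes and the comparisons `BlS`.
-/

set_option autoImplicit false

namespace Pool.STB77

open Finset Real MvPolynomial
open Pool.Agent.H49.Ent Pool.Agent.H32.Dense Pool.STK Pool.KA Pool.KSAT Pool.K2S Pool.PB Pool.S6C
open Pool.GEN Pool.CHT Pool.NVX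
open Pool.FLF (Fam.sub)
open Pool.Z3 (Nod NodS nods_all share_ex)
open Pool.SHR (NodD)

variable {m : ℕ}

/-- All large parts. -/
theorem bas_lrg {S : PCl m} {Φ : Stat m} (h : Bas S Φ) (K₁ : ℝ) :
    Bas S (fun J F A => ∀ B : F.Ω → Prop, Sub B A → Pe F.p A ≤ K₁ * Pe F.p B → Φ J F B) := by
  obtain ⟨τ, hτ, J₁, h⟩ := h
  obtain ⟨J₂, hJ₂⟩ := exists_nat_ge (Real.log (max K₁ 1) / (τ / 2))
  refine ⟨τ / 2, by linarith, max J₁ J₂, fun J hJ F A hA B hBA hB => ?_⟩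
  refine h J ((le_max_left _ _).trans hJ) F B ?_
  have h0 : (0 : ℝ) < max K₁ 1 := lt_max_of_lt_right one_pos
  have h1 : Real.log (max K₁ 1) ≤ τ / 2 * J := by
    have h2 : Real.log (max K₁ 1) / (τ / 2) ≤ J :=
      hJ₂.trans (by exact_mod_cast (le_max_right _ _).trans hJ)
    rw [div_le_iff₀ (by linarith)] at h2
    linarith
  have h3 : max K₁ 1 ≤ Real.exp (τ / 2 * J) := by
    rw [← Real.log_le_iff_le_exp h0]
    exact h1
  have hB0 : 0 ≤ Pe F.p B := Pe_nonneg F.isLaw B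
  have h4 : Real.exp (-(τ / 2 * J)) * Pe F.p A ≤ Pe F.p B := by
    rw [Real.exp_neg]
    rw [inv_mul_le_iff₀ (Real.exp_pos _)]
    refine hB.trans ?_
    exact mul_le_mul_of_nonneg_right ((le_max_left _ _).trans h3) hB0
  have h5 := S.res (by linarith : (0 : ℝ) ≤ τ / 2) hA hBA h4
  rwa [add_halves] at h5

/-- Larger degrees. -/
theorem nodD_up {S : PCl m} {c : ℕ → Fin m} {r D D' : ℕ} {β : ℕ → ℝ → ℝ → ℝ} {e E ϱ a w : ℝ}
    (h : NodD S c r D β e E ϱ a w) (hD : D ≤ D') : NodD S c r D' β e E ϱ a w := by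
  refine ⟨h.1.trans hD, fun Dr η σ hη hσ hϱ => ?_⟩
  obtain ⟨K₁, d, ψ, h1, h2, h3, h4⟩ := h.2 Dr η σ hη hσ hϱ
  refine ⟨K₁, d, ψ, h1, h2, h3, Bas.mono 0 h4 ?_⟩
  rintro J - F A ⟨B, k1, k2, T, TH, k3⟩
  exact ⟨B, k1, k2, T, TH, k3.lst.mono le_rfl (fun _ => hD) le_rfl le_rfl,
    k3.top.mono le_rfl (fun _ => hD) le_rfl le_rfl, k3.rlY⟩

/-- The radii and the windows of the list. -/
noncomputable def aaN (N : ℕ) (α : ℕ → ℝ) (i : ℕ) : ℝ := if i ≤ N then α i else α N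

/-- The windows of the list. -/
noncomputable def wwN (N : ℕ) (α : ℕ → ℝ) (i : ℕ) : ℝ := if i ≤ N then α i else α 0

/-- **Balls and a static node in a class.** -/
theorem nod_cls {S : PCl m} {c : ℕ → Fin m} {r D N : ℕ} {β : ℕ → ℝ → ℝ → ℝ} {e E ϱ : ℝ}
    {α : ℕ → ℝ} (hS : TmH S) (hc : Set.InjOn c (Set.Iio (r + 1))) (hα0 : 0 ≤ α 0)
    (hαm : ∀ k < N, α k ≤ α (k + 1)) (hα1 : α N < 1)
    (hN : ∀ k ≤ N, NodD S c r D β e E ϱ (α k) (α k)) (hNS : NodD S c r D β e E ϱ (α N) (α 0)) :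
    ∀ (Dr : ℕ) (η s : ℝ), 0 < η → 0 < s → s ≤ ϱ →
    ∃ (K₁ : ℝ) (d : ℕ → ℕ → ℝ) (ψ : ℝ), 0 < K₁ ∧ 0 < ψ ∧
      (∀ k ≤ N + 1, ∀ l ≤ r, 0 < d k l ∧ d k l ≤ s) ∧
      Bas S (fun J F A => ∃ (B : F.Ω → Prop) (G : ℕ → PtT F → ℕ → MvPolynomial (Option (Fin m)) ℝ)
        (H : ℕ → LnT F → ℕ → MvPolynomial (Option (Fin m)) ℝ)
        (GS : PtT F → ℕ → MvPolynomial (Option (Fin m)) ℝ)
        (HS : LnT F → ℕ → MvPolynomial (Option (Fin m)) ℝ), Sub B A ∧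
        Pe F.p A ≤ K₁ * Pe F.p B ∧
        (∀ k ≤ N, Nod F c r D Dr ⌊α k * J⌋₊ ⌊α k * J⌋₊ ⌊e * J⌋₊ ⌊(E + s) * J⌋₊
          (fun l => ⌊(β l (α k) (α k) - d k l) * J⌋₊) ⌊η * J⌋₊ ⌊(1 - ϱ) * J⌋₊
          ⌊(1 - (E + ϱ)) * J⌋₊ (Real.exp (-(ψ * J))) B (G k) (H k)) ∧
        Nod F c r D Dr ⌊α N * J⌋₊ ⌊α 0 * J⌋₊ ⌊e * J⌋₊ ⌊(E + s) * J⌋₊
          (fun l => ⌊(β l (α N) (α 0) - d (N + 1) l) * J⌋₊) ⌊η * J⌋₊ ⌊(1 - ϱ) * J⌋₊
          ⌊(1 - (E + ϱ)) * J⌋₊ (Real.exp (-(ψ * J))) B GS HS ∧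
        BlS F c (r + 1) D N ⌊s * J⌋₊ (fun k => ⌊α k * J⌋₊) (fun _ => ⌊(E + s) * J⌋₊)
          (fun k l => ⌊(β l (α k) (α k) - d k l) * J⌋₊) ⌊(E + s) * J⌋₊
          (fun l => ⌊(β l (α N) (α 0) - d (N + 1) l) * J⌋₊) B G H GS HS) := by
  classical
  intro Dr η s hη hs hsϱ
  have hD := (hN 0 (Nat.zero_le N)).1
  obtain ⟨C, C₁, hC₁, hfam⟩ := bls_fam m D (r + 1) N hD
  have hC0 : (0 : ℝ) ≤ C := Nat.cast_nonneg C
  have hC₁0 : 0 < C₁ := by linarith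
  have hl2 : 0 < Real.log 2 := Real.log_pos one_lt_two
  have hαN : ∀ k ≤ N, α k ≤ α N := by
    intro k hk
    have key : ∀ j, k + j ≤ N → α k ≤ α (k + j) := by
      intro j
      induction j with
      | zero => exact fun _ => le_rfl
      | succ j ih => exact fun hj => (ih (by omega)).trans (hαm (k + j) (by omega))
    have h1 := key (N - k) (by omega)
    rwa [Nat.add_sub_cancel' hk] at h1
  have hα0' : ∀ k ≤ N, α 0 ≤ α k := by
    intro k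
    induction k with
    | zero => exact fun _ => le_rfl
    | succ k ih => exact fun hk => (ih (by omega)).trans (hαm k (by omega))
  have hαnn : ∀ k ≤ N, 0 ≤ α k := fun k hk => hα0.trans (hα0' k hk)
  -- the small numbers
  obtain ⟨η', hη'⟩ : ∃ η', η' = min η (s / (8 * (C + 1))) := ⟨_, rfl⟩
  have hη0 : 0 < η' := by rw [hη']; exact lt_min hη (by positivity)
  have hη1 : η' ≤ η := by rw [hη']; exact min_le_left _ _
  have hη2 : C * η' ≤ s / 8 := by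
    have h1 : η' ≤ s / (8 * (C + 1)) := by rw [hη']; exact min_le_right _ _
    calc C * η' ≤ (C + 1) * (s / (8 * (C + 1))) := mul_le_mul (by linarith) h1 hη0.le (by linarith)
      _ = s / 8 := by field_simp
  obtain ⟨ε, hε⟩ : ∃ ε, ε = min (s / (8 * (C + 1) * C₁)) ((1 - α N) * Real.log 2 / (2 * C₁)) :=
    ⟨_, rfl⟩
  have hε0 : 0 < ε := by
    rw [hε]
    exact lt_min (by positivity) (div_pos (mul_pos (by linarith) hl2) (by positivity))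
  have hε1 : C * (C₁ * ε) ≤ s / 8 := by
    have h1 : ε ≤ s / (8 * (C + 1) * C₁) := by rw [hε]; exact min_le_left _ _
    calc C * (C₁ * ε) ≤ (C + 1) * (C₁ * (s / (8 * (C + 1) * C₁))) :=
          mul_le_mul (by linarith) (mul_le_mul_of_nonneg_left h1 hC₁0.le) (by positivity)
            (by linarith)
      _ = s / 8 := by field_simp
  have hε2 : C₁ * ε ≤ (1 - α N) * Real.log 2 / 2 := by
    have h1 : ε ≤ (1 - α N) * Real.log 2 / (2 * C₁) := by rw [hε]; exact min_le_right _ _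
    calc C₁ * ε ≤ C₁ * ((1 - α N) * Real.log 2 / (2 * C₁)) :=
          mul_le_mul_of_nonneg_left h1 hC₁0.le
      _ = _ := by field_simp
  obtain ⟨Dr', hDr'⟩ : ∃ Dr', Dr' = max Dr D := ⟨_, rfl⟩
  have hDr1 : Dr ≤ Dr' := by rw [hDr']; exact le_max_left _ _
  have hDr2 : D ≤ Dr' := by rw [hDr']; exact le_max_right _ _
  -- the nodes
  have hnod : ∀ i, ∃ (K₁ : ℝ) (d : ℕ → ℝ) (ψ : ℝ), i < N + 2 → 0 < K₁ ∧ 0 < ψ ∧
      (∀ l ≤ r, 0 < d l ∧ d l ≤ s ∧ d l < aaN N α i) ∧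
      Bas S (fun J F A => ∃ B : F.Ω → Prop, Sub B A ∧ Pe F.p A ≤ K₁ * Pe F.p B ∧
        NodS c r D Dr' (fun l => β l (aaN N α i) (wwN N α i)) d (aaN N α i) (wwN N α i) e (E + s)
          η' ϱ (E + ϱ) ψ J F B) := by
    intro i
    by_cases hi : i < N + 2
    · have h1 : NodD S c r D β e E ϱ (aaN N α i) (wwN N α i) := by
        unfold aaN wwN
        split_ifs with h
        · exact hN i h
        · exact hNS
      obtain ⟨K₁, d, ψ, h2⟩ := h1.2 Dr' η' s hη0 hs hsϱ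
      exact ⟨K₁, d, ψ, fun _ => h2⟩
    · exact ⟨1, fun _ => 1, 1, fun h => absurd h hi⟩
  choose K₁ d ψ hnod using hnod
  obtain ⟨μ, hμ, hμψ⟩ := fin_pos (N + 2) (f := ψ) fun i hi => (hnod i hi).2.1
  obtain ⟨K₂, hK₂, hall⟩ := nods_all (S := S) (c := c) (r := r) (D := fun _ => D)
    (Dr := fun _ => Dr') (β := fun i l => β l (aaN N α i) (wwN N α i)) (d := d)
    (a := aaN N α) (w := wwN N α) (e := fun _ => e) (E := fun _ => E + s) (η := fun _ => η')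
    (μ := fun _ => ϱ) (μT := fun _ => E + ϱ) (ψ := ψ) (ψ' := fun _ => μ / 2) (N + 2)
    (fun i hi => by have := hμψ i hi; show μ / 2 < ψ i; linarith)
    (fun i hi => ⟨K₁ i, (hnod i hi).1, (hnod i hi).2.2.2⟩)
  obtain ⟨Kf, hKf⟩ : ∃ Kf : ℝ, Kf = (2 ^ (r + 1 + 1)) ^ (2 * N + 2) := ⟨_, rfl⟩
  have hKf0 : 0 < Kf := by rw [hKf]; positivity
  obtain ⟨J₀, hJ₀⟩ := share_ex (ψ := μ / 4) (κ := 1 / (2 ^ (r + 1) * Kf)) (by positivity)
    (by positivity)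
  obtain ⟨J₁, hJ₁⟩ := exists_nat_ge ((2 * C * (C₁ + 2) + 2) / (s / 2))
  obtain ⟨J₂, hJ₂⟩ := exists_nat_ge (C₁ / ((1 - α N) * Real.log 2 / 2))
  have hT := bas_lrg (hS.2 ε hε0) (K₂ * Kf)
  have hpos : Bas S (fun J F A => 0 < Pe F.p A) :=
    ⟨1, one_pos, 0, fun J _ F A hA => hS.1 1 J F A hA⟩
  refine ⟨K₂ * Kf, d, μ / 4, mul_pos hK₂ hKf0, by positivity, fun k hk l hl => ?_, ?_⟩
  · have h1 := (hnod k (by omega)).2.2.1 l hl
    exact ⟨h1.1, h1.2.1⟩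
  refine Bas.mono (max J₀ (max J₁ J₂)) ((hall.and hT).and hpos) ?_
  rintro J hJ F A ⟨⟨⟨B, k1, k2, k3⟩, hTm⟩, hA⟩
  have hJ0 : (0 : ℝ) ≤ J := Nat.cast_nonneg J
  have hJJ₀ : J₀ ≤ J := (le_max_left _ _).trans hJ
  have hJJ₁ : (J₁ : ℝ) ≤ J := by
    exact_mod_cast ((le_max_left _ _).trans (le_max_right _ _)).trans hJ
  have hJJ₂ : (J₂ : ℝ) ≤ J := by
    exact_mod_cast ((le_max_right _ _).trans (le_max_right _ _)).trans hJ
  have hp := Pe_nonneg F.isLaw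
  have hB0 : 0 < Pe F.p B := by
    by_contra hcon
    have h1 : Pe F.p B = 0 := le_antisymm (not_lt.1 hcon) (hp B)
    rw [h1, mul_zero] at k2
    linarith
  have hex : ∀ i, ∃ (T : PtT F → ℕ → MvPolynomial (Option (Fin m)) ℝ)
      (TH : LnT F → ℕ → MvPolynomial (Option (Fin m)) ℝ), i < N + 2 →
      Nod F c r D Dr' ⌊aaN N α i * J⌋₊ ⌊wwN N α i * J⌋₊ ⌊e * J⌋₊ ⌊(E + s) * J⌋₊
        (fun l => ⌊(β l (aaN N α i) (wwN N α i) - d i l) * J⌋₊) ⌊η' * J⌋₊ ⌊(1 - ϱ) * J⌋₊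
        ⌊(1 - (E + ϱ)) * J⌋₊ (Real.exp (-(μ / 2 * J))) B T TH := by
    intro i
    by_cases hi : i < N + 2
    · obtain ⟨T, TH, h⟩ := k3 i hi
      exact ⟨T, TH, fun _ => h⟩
    · exact ⟨fun _ _ => 0, fun _ _ => 0, fun h => absurd h hi⟩
  choose T TH hT' using hex
  have hnk : ∀ k ≤ N, Nod F c r D Dr' ⌊α k * J⌋₊ ⌊α k * J⌋₊ ⌊e * J⌋₊ ⌊(E + s) * J⌋₊
        (fun l => ⌊(β l (α k) (α k) - d k l) * J⌋₊) ⌊η' * J⌋₊ ⌊(1 - ϱ) * J⌋₊
        ⌊(1 - (E + ϱ)) * J⌋₊ (Real.exp (-(μ / 2 * J))) B (T k) (TH k) := by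
    intro k hk
    have h1 := hT' k (by omega)
    have e1 : aaN N α k = α k := if_pos hk
    have e2 : wwN N α k = α k := if_pos hk
    rw [e1, e2] at h1
    exact h1
  have hnS : Nod F c r D Dr' ⌊α N * J⌋₊ ⌊α 0 * J⌋₊ ⌊e * J⌋₊ ⌊(E + s) * J⌋₊
        (fun l => ⌊(β l (α N) (α 0) - d (N + 1) l) * J⌋₊) ⌊η' * J⌋₊ ⌊(1 - ϱ) * J⌋₊
        ⌊(1 - (E + ϱ)) * J⌋₊ (Real.exp (-(μ / 2 * J))) B (T (N + 1)) (TH (N + 1)) := by
    have h1 := hT' (N + 1) (by omega)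
    have e1 : aaN N α (N + 1) = α N := if_neg (by omega)
    have e2 : wwN N α (N + 1) = α 0 := if_neg (by omega)
    rw [e1, e2] at h1
    exact h1
  have hfl : ∀ {x y : ℝ}, x ≤ y → ⌊x * J⌋₊ ≤ ⌊y * J⌋₊ := fun h =>
    Nat.floor_le_floor (mul_le_mul_of_nonneg_right h hJ0)
  have hflJ : ∀ k ≤ N, ⌊α k * J⌋₊ ≤ J := fun k hk => by
    refine Nat.floor_le_of_le ?_
    have h1 : α k ≤ 1 := (hαN k hk).trans hα1.le
    nlinarith
  obtain ⟨s', hs'⟩ : ∃ s' : ℕ, s' = ⌈C₁ * (ε * J + 1)⌉₊ := ⟨_, rfl⟩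
  have hs'1 : C₁ * (ε * J + 1) ≤ s' := by rw [hs']; exact Nat.le_ceil _
  have hs'2 : (s' : ℝ) ≤ C₁ * (ε * J + 1) + 1 := by
    rw [hs']
    exact (Nat.ceil_lt_add_one (by positivity)).le
  have hnum : C * (⌊η' * J⌋₊ + s' + 1) ≤ ⌊s * J⌋₊ := by
    refine Nat.le_floor ?_
    push_cast
    have h1 : (⌊η' * (J : ℝ)⌋₊ : ℝ) ≤ η' * J := Nat.floor_le (by positivity)
    have h2 : (2 * C * (C₁ + 2) + 2) ≤ s / 2 * J := by
      have h3 := hJ₁.trans hJJ₁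
      rw [div_le_iff₀ (by positivity)] at h3
      linarith
    calc (C : ℝ) * (⌊η' * (J : ℝ)⌋₊ + s' + 1) ≤ C * (η' * J + (C₁ * (ε * J + 1) + 1) + 1) :=
          mul_le_mul_of_nonneg_left (by linarith) hC0
      _ = (C * η') * J + (C * (C₁ * ε)) * J + C * (C₁ + 2) := by ring
      _ ≤ s / 8 * J + s / 8 * J + C * (C₁ + 2) := by
          have h3 := mul_le_mul_of_nonneg_right hη2 hJ0
          have h4 := mul_le_mul_of_nonneg_right hε1 hJ0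
          linarith
      _ ≤ s * J := by
          have h5 : 0 ≤ C * (C₁ + 2) := by positivity
          have h6 : 0 ≤ s * J := by positivity
          linarith
  have hκ1 : Real.exp (-(μ / 2 * J)) * (2 ^ (r + 1) * (2 ^ (r + 1 + 1)) ^ (2 * N + 2)) ≤ 1 := by
    rw [← hKf]
    have h2 := hJ₀ J hJJ₀
    have h4 : Real.exp (-(μ / 2 * J)) ≤ Real.exp (-(μ / 4 * J)) := by
      refine Real.exp_le_exp.2 ?_
      have : 0 ≤ μ * J := by positivity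
      linarith
    have h5 := h4.trans h2
    rw [le_div_iff₀ (by positivity)] at h5
    exact h5
  have hCJ1 : C₁ * (ε * J + 1) ≤ ((J : ℝ) - (⌊α N * (J : ℝ)⌋₊ : ℕ)) * Real.log 2 := by
    have h1 : C₁ ≤ (1 - α N) * Real.log 2 / 2 * J := by
      have h3 := hJ₂.trans hJJ₂
      have h4 : 0 < (1 - α N) * Real.log 2 / 2 := by
        have := mul_pos (sub_pos.2 hα1) hl2
        linarith
      rw [div_le_iff₀ h4] at h3
      linarith
    have h2 : (⌊α N * (J : ℝ)⌋₊ : ℝ) ≤ α N * J :=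
      Nat.floor_le (mul_nonneg (hαnn N le_rfl) hJ0)
    calc C₁ * (ε * J + 1) = C₁ * ε * J + C₁ := by ring
      _ ≤ (1 - α N) * Real.log 2 / 2 * J + (1 - α N) * Real.log 2 / 2 * J :=
          add_le_add (mul_le_mul_of_nonneg_right hε2 hJ0) h1
      _ = (J - α N * J) * Real.log 2 := by ring
      _ ≤ _ := mul_le_mul_of_nonneg_right (by linarith) hl2.le
  obtain ⟨B', l1, l2, l3⟩ := hfam (F := F) (c := c) (A := fun k => ⌊α k * J⌋₊)
    (e := fun _ => ⌊(E + s) * J⌋₊) (g := fun k l => ⌊(β l (α k) (α k) - d k l) * J⌋₊)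
    (eS := ⌊(E + s) * J⌋₊) (h := ⌊η' * J⌋₊) (s := ⌊s * J⌋₊) (s' := s')
    (gS := fun l => ⌊(β l (α N) (α 0) - d (N + 1) l) * J⌋₊) (κ := Real.exp (-(μ / 2 * J)))
    (θ := ε * J) (B := B) (G := T) (H := TH) (GS := T (N + 1)) (HS := TH (N + 1)) hB0 hc hflJ
    (fun k hk => hfl (hαm k hk)) (fun k hk => hfl (hα0' k hk)) (fun k hk => hfl (hαN k hk))
    (fun k hk => (hnk k hk).top) hnS.top
    (fun k hk => (hnk k hk).rlF.mono hDr2 le_rfl) hκ1 (by positivity)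
    (fun B' hB' hP hB'0 => hTm B' (fun ω hω => k1 ω (hB' ω hω)) (k2.trans (by
      rw [mul_assoc]
      refine mul_le_mul_of_nonneg_left ?_ hK₂.le
      rw [hKf]
      exact hP)) hB'0) hCJ1 hs'1 hnum
  · rw [← hKf] at l2
    refine ⟨B', T, TH, T (N + 1), TH (N + 1), fun ω hω => k1 ω (l1 ω hω), ?_, fun k hk => ?_, ?_,
      l3⟩
    · calc Pe F.p A ≤ K₂ * Pe F.p B := k2
        _ ≤ K₂ * (Kf * Pe F.p B') := mul_le_mul_of_nonneg_left l2 hK₂.le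
        _ = _ := by ring
    · have h1 := (hnk k hk).sub (κ₁ := 1 / Kf) (κ₂ := Real.exp (-(μ / 4 * J))) l1 (by
        rw [one_div, inv_mul_le_iff₀ hKf0]
        exact l2) (Real.exp_pos _).le ?_
      · exact ⟨h1.lst, h1.top, h1.rlY.mono hDr1 (hfl hη1) le_rfl⟩
      · have h2 := hJ₀ J hJJ₀
        have h3 : (1 : ℝ) / (2 ^ (r + 1) * Kf) ≤ 1 / Kf := by
          refine one_div_le_one_div_of_le hKf0 (le_mul_of_one_le_left hKf0.le ?_)
          exact one_le_pow₀ (by norm_num)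
        calc Real.exp (-(μ / 2 * J)) = Real.exp (-(μ / 4 * J)) * Real.exp (-(μ / 4 * J)) := by
              rw [← Real.exp_add]
              congr 1
              ring
          _ ≤ _ := mul_le_mul_of_nonneg_left (h2.trans h3) (Real.exp_pos _).le
    · have h1 := hnS.sub (κ₁ := 1 / Kf) (κ₂ := Real.exp (-(μ / 4 * J))) l1 (by
        rw [one_div, inv_mul_le_iff₀ hKf0]
        exact l2) (Real.exp_pos _).le ?_
      · exact ⟨h1.lst, h1.top, h1.rlY.mono hDr1 (hfl hη1) le_rfl⟩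
      · have h2 := hJ₀ J hJJ₀
        have h3 : (1 : ℝ) / (2 ^ (r + 1) * Kf) ≤ 1 / Kf := by
          refine one_div_le_one_div_of_le hKf0 (le_mul_of_one_le_left hKf0.le ?_)
          exact one_le_pow₀ (by norm_num)
        calc Real.exp (-(μ / 2 * J)) = Real.exp (-(μ / 4 * J)) * Real.exp (-(μ / 4 * J)) := by
              rw [← Real.exp_add]
              congr 1
              ring
          _ ≤ _ := mul_le_mul_of_nonneg_left (h2.trans h3) (Real.exp_pos _).le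

end Pool.STB77
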