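import Pool.Agent.H77.STB.Nlf
import Pool.Agent.H77.STB.Ndc

/-!
# A list of nodes in a class

`nls_cls`: from the weak nodes `NodF` at the pairs `(AA k, WW k)`, `k < M`: on one large event the
nodes, the comparisons of their labels for all comparable pairs, and the own boxes of the balls.
-/

set_option autoImplicit false

namespace Pool.STB77

open Finset Real MvPolynomial
open Pool.Agent.H49.Ent Pool.Agent.H32.Dense Pool.STK Pool.KA Pool.KSAT Pool.K2S Pool.PB Pool.S6C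
open Pool.GEN Pool.CHT Pool.NVX
open Pool.FLF (Fam.sub)
open Pool.Z3 (share_ex bas_all)

variable {m : ℕ}

/-- Larger bounds. -/
theorem relf_h {J : ℕ} {F : Fam m J} {c : ℕ → Fin m} {i a w : ℕ} {g : ℕ → ℕ} {D h h' : ℕ} {κ : ℝ}
    {B₀ : F.Ω → Prop} {G : PtT F → ℕ → MvPolynomial (Option (Fin m)) ℝ}
    (hR : RelvF F c i a w g D h κ B₀ G) (hh : h ≤ h') : RelvF F c i a w g D h' κ B₀ G := by
  intro B' hB hP Dx Dl M h1 h2 h3 h4 hM h5 h6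
  obtain ⟨B'', k1, k2, k3⟩ := hR B' hB hP Dx Dl M h1 h2 h3 h4 hM h5 h6
  exact ⟨B'', k1, k2, fun ω hω b hb => (k3 ω hω b hb).trans
    (mul_le_mul_of_nonneg_right (pow_le_pow_right₀ (by norm_num) hh) hM.le)⟩

/-- **A weak node of a class**, real numbers in units of `J`. -/
def NodWS (c : ℕ → Fin m) (r D Dr : ℕ) (β d : ℕ → ℝ) (a w e E η ψ : ℝ) : Stat m :=
  fun J F B => ∃ (T : PtT F → ℕ → MvPolynomial (Option (Fin m)) ℝ)
    (TH : LnT F → ℕ → MvPolynomial (Option (Fin m)) ℝ),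
    NodW F c r D Dr ⌊a * J⌋₊ ⌊w * J⌋₊ ⌊e * J⌋₊ ⌊E * J⌋₊ (fun l => ⌊(β l - d l) * J⌋₊) ⌊η * J⌋₊
      (Real.exp (-(ψ * J))) B T TH

/-- Smaller events. -/
theorem NodWS.sub {c : ℕ → Fin m} {r D Dr : ℕ} {β d : ℕ → ℝ} {a w e E η ψ ψ' κ₁ : ℝ} {J : ℕ}
    {F : Fam m J} {B B' : F.Ω → Prop} (h : NodWS c r D Dr β d a w e E η ψ J F B)
    (hB : Sub B' B) (hP : κ₁ * Pe F.p B ≤ Pe F.p B') (hκ : Real.exp (-((ψ - ψ') * J)) ≤ κ₁) :
    NodWS c r D Dr β d a w e E η ψ' J F B' := by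
  obtain ⟨T, TH, h⟩ := h
  refine ⟨T, TH, h.sub hB hP (Real.exp_pos _).le ?_⟩
  calc Real.exp (-(ψ * J)) = Real.exp (-(ψ' * J)) * Real.exp (-((ψ - ψ') * J)) := by
        rw [← Real.exp_add]
        congr 1
        ring
    _ ≤ _ := mul_le_mul_of_nonneg_left hκ (Real.exp_pos _).le

/-- **Finitely many weak nodes on one event.** -/
theorem nodw_all {S : PCl m} {c : ℕ → Fin m} {r D Dr : ℕ} {β d : ℕ → ℕ → ℝ}
    {a w ψ ψ' : ℕ → ℝ} {e E η : ℝ} (N : ℕ) (hψ : ∀ i < N, ψ' i < ψ i)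
    (h : ∀ i < N, ∃ K : ℝ, 0 < K ∧ Bas S (fun J F A => ∃ B : F.Ω → Prop, Sub B A ∧
      Pe F.p A ≤ K * Pe F.p B ∧
      NodWS c r D Dr (β i) (d i) (a i) (w i) e E η (ψ i) J F B)) :
    ∃ K : ℝ, 0 < K ∧ Bas S (fun J F A => ∃ B : F.Ω → Prop, Sub B A ∧
      Pe F.p A ≤ K * Pe F.p B ∧ ∀ i < N,
      NodWS c r D Dr (β i) (d i) (a i) (w i) e E η (ψ' i) J F B) := by
  obtain ⟨K, hK, h1⟩ := bas_all (S := S)
    (Φ := fun i J F B => i < N ∧ NodWS c r D Dr (β i) (d i) (a i) (w i) e E η (ψ i) J F B)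
    (Φ' := fun i J F B => NodWS c r D Dr (β i) (d i) (a i) (w i) e E η (ψ' i) J F B)
    (fun i κ hκ => by
      by_cases hi : i < N
      · obtain ⟨J₀, hJ₀⟩ := share_ex (sub_pos.2 (hψ i hi)) hκ
        exact ⟨J₀, fun J hJ F B B' h1 h2 h3 => h1.2.sub h2 h3 (hJ₀ J hJ)⟩
      · exact ⟨0, fun J _ F B B' h1 => absurd h1.1 hi⟩) N (fun i hi => by
      obtain ⟨K, hK, h1⟩ := h i hi
      refine ⟨K, hK, Bas.mono 0 h1 ?_⟩
      rintro J - F A ⟨B, k1, k2, k3⟩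
      exact ⟨B, k1, k2, hi, k3⟩)
  exact ⟨K, hK, h1⟩

/-- **A list of nodes in a class.** -/
theorem nls_cls {S : PCl m} {c : ℕ → Fin m} {r D : ℕ} {β : ℕ → ℝ → ℝ → ℝ} {e E : ℝ}
    (hS : TmH S) (hc : Set.InjOn c (Set.Iio (r + 1))) (M : ℕ) (AA WW : ℕ → ℝ)
    (hW0 : ∀ k < M, 0 ≤ WW k) (hWA : ∀ k < M, WW k ≤ AA k) (hA1 : ∀ k < M, AA k < 1)
    (hmon : ∀ j < M, ∀ k < M, AA j ≤ AA k → WW j ≤ WW k →
      β r (AA j) (WW j) ≤ β r (AA k) (WW k))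
    (hN : ∀ k < M, NodF S c r D β e E (AA k) (WW k)) :
    ∀ (Dr : ℕ) (η s : ℝ), 0 < η → 0 < s →
    ∃ (K₁ : ℝ) (d : ℕ → ℕ → ℝ) (ψ : ℝ), 0 < K₁ ∧ 0 < ψ ∧
      (∀ k < M, ∀ l ≤ r, 0 < d k l ∧ d k l ≤ s ∧ d k l < AA k) ∧
      Bas S (fun J F A => ∃ (B : F.Ω → Prop) (G : ℕ → PtT F → ℕ → MvPolynomial (Option (Fin m)) ℝ)
        (H : ℕ → LnT F → ℕ → MvPolynomial (Option (Fin m)) ℝ), Sub B A ∧
        Pe F.p A ≤ K₁ * Pe F.p B ∧
        Nls F c r D Dr M ⌊s * J⌋₊ (fun j k => AA j ≤ AA k ∧ WW j ≤ WW k) (fun k => ⌊AA k * J⌋₊)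
          (fun k => ⌊WW k * J⌋₊) ⌊e * J⌋₊ ⌊(E + s) * J⌋₊
          (fun k l => ⌊(β l (AA k) (WW k) - d k l) * J⌋₊) ⌊η * J⌋₊ (Real.exp (-(ψ * J)))
          B G H) := by
  classical
  intro Dr η s hη hs
  rcases Nat.eq_zero_or_pos M with hM | hM
  · subst hM
    refine ⟨1, fun _ _ => 0, 1, one_pos, one_pos, fun k hk => absurd hk (Nat.not_lt_zero k),
      1, one_pos, 0, fun J _ F A _ => ⟨A, fun _ _ _ => 0, fun _ _ _ => 0, fun _ h => h,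
      by rw [one_mul], fun k hk => absurd hk (Nat.not_lt_zero k),
      fun k hk => absurd hk (Nat.not_lt_zero k), fun k hk => absurd hk (Nat.not_lt_zero k),
      fun k hk => absurd hk (Nat.not_lt_zero k), fun k hk => absurd hk (Nat.not_lt_zero k)⟩⟩
  have hD := (hN 0 hM).1
  obtain ⟨C, C₁, hC₁, hfam⟩ := nls_fam m D r M hD
  have hC0 : (0 : ℝ) ≤ C := Nat.cast_nonneg C
  have hC₁0 : 0 < C₁ := by linarith
  have hl2 : 0 < Real.log 2 := Real.log_pos one_lt_two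
  -- the largest radius
  obtain ⟨α, hα0, hα1, hαA⟩ : ∃ α : ℝ, 0 ≤ α ∧ α < 1 ∧ ∀ k < M, AA k ≤ α := by
    obtain ⟨μ, hμ, h⟩ := fin_pos M (f := fun k => 1 - AA k) fun k hk => by
      have := hA1 k hk
      linarith
    refine ⟨1 - min μ 1, by linarith [min_le_right μ 1], by
      have : 0 < min μ 1 := lt_min hμ one_pos
      linarith, fun k hk => ?_⟩
    have h1 : μ ≤ 1 - AA k := h k hk
    have h2 := min_le_left μ 1
    linarith
  -- the small numbers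
  obtain ⟨η', hη'⟩ : ∃ η', η' = min η (s / (8 * (C + 1))) := ⟨_, rfl⟩
  have hη0 : 0 < η' := by rw [hη']; exact lt_min hη (by positivity)
  have hη1 : η' ≤ η := by rw [hη']; exact min_le_left _ _
  have hη2 : C * η' ≤ s / 8 := by
    have h1 : η' ≤ s / (8 * (C + 1)) := by rw [hη']; exact min_le_right _ _
    calc C * η' ≤ (C + 1) * (s / (8 * (C + 1))) := mul_le_mul (by linarith) h1 hη0.le (by linarith)
      _ = s / 8 := by field_simp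
  obtain ⟨σ, hσ⟩ : ∃ σ, σ = min s (s / (8 * (C + 1))) := ⟨_, rfl⟩
  have hσ0 : 0 < σ := by rw [hσ]; exact lt_min hs (by positivity)
  have hσ1 : σ ≤ s := by rw [hσ]; exact min_le_left _ _
  have hσ2 : C * σ ≤ s / 8 := by
    have h1 : σ ≤ s / (8 * (C + 1)) := by rw [hσ]; exact min_le_right _ _
    calc C * σ ≤ (C + 1) * (s / (8 * (C + 1))) := mul_le_mul (by linarith) h1 hσ0.le (by linarith)
      _ = s / 8 := by field_simp
  obtain ⟨ε, hε⟩ : ∃ ε, ε = min (s / (8 * (C + 1) * C₁)) ((1 - α) * Real.log 2 / (2 * C₁)) :=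
    ⟨_, rfl⟩
  have hε0 : 0 < ε := by
    rw [hε]
    exact lt_min (by positivity) (div_pos (mul_pos (by linarith) hl2) (by positivity))
  have hε1 : C * (C₁ * ε) ≤ s / 8 := by
    have h1 : ε ≤ s / (8 * (C + 1) * C₁) := by rw [hε]; exact min_le_left _ _
    calc C * (C₁ * ε) ≤ (C + 1) * (C₁ * (s / (8 * (C + 1) * C₁))) :=
          mul_le_mul (by linarith) (mul_le_mul_of_nonneg_left h1 hC₁0.le) (by positivity)
            (by linarith)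
      _ = s / 8 := by field_simp
  have hε2 : C₁ * ε ≤ (1 - α) * Real.log 2 / 2 := by
    have h1 : ε ≤ (1 - α) * Real.log 2 / (2 * C₁) := by rw [hε]; exact min_le_right _ _
    calc C₁ * ε ≤ C₁ * ((1 - α) * Real.log 2 / (2 * C₁)) :=
          mul_le_mul_of_nonneg_left h1 hC₁0.le
      _ = _ := by field_simp
  obtain ⟨Dr', hDr'⟩ : ∃ Dr', Dr' = max Dr D := ⟨_, rfl⟩
  have hDr1 : Dr ≤ Dr' := by rw [hDr']; exact le_max_left _ _
  have hDr2 : D ≤ Dr' := by rw [hDr']; exact le_max_right _ _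
  -- the nodes
  have hnod : ∀ i, ∃ (K₁ : ℝ) (d : ℕ → ℝ) (ψ : ℝ), i < M → 0 < K₁ ∧ 0 < ψ ∧
      (∀ l ≤ r, 0 < d l ∧ d l ≤ σ ∧ d l < AA i) ∧
      Bas S (fun J F A => ∃ B : F.Ω → Prop, Sub B A ∧ Pe F.p A ≤ K₁ * Pe F.p B ∧
        NodWS c r D Dr' (fun l => β l (AA i) (WW i)) d (AA i) (WW i) e (E + σ) η' ψ J F B) := by
    intro i
    by_cases hi : i < M
    · obtain ⟨K₁, d, ψ, h1, h2, h3, h4⟩ := (hN i hi).2 Dr' η' σ hη0 hσ0
      refine ⟨K₁, d, ψ, fun _ => ⟨h1, h2, h3, Bas.mono 0 h4 ?_⟩⟩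
      rintro J - F A ⟨B, T, TH, k1, k2, k3⟩
      exact ⟨B, k1, k2, T, TH, k3⟩
    · exact ⟨1, fun _ => 1, 1, fun h => absurd h hi⟩
  choose K₁ d ψ hnod using hnod
  obtain ⟨μ, hμ, hμψ⟩ := fin_pos M (f := ψ) fun i hi => (hnod i hi).2.1
  obtain ⟨K₂, hK₂, hall⟩ := nodw_all (S := S) (c := c) (r := r) (D := D) (Dr := Dr')
    (β := fun i l => β l (AA i) (WW i)) (d := d) (a := AA) (w := WW) (e := e) (E := E + σ)
    (η := η') (ψ := ψ) (ψ' := fun _ => μ / 2) M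
    (fun i hi => by have := hμψ i hi; show μ / 2 < ψ i; linarith)
    (fun i hi => ⟨K₁ i, (hnod i hi).1, (hnod i hi).2.2.2⟩)
  obtain ⟨Kf, hKf⟩ : ∃ Kf : ℝ, Kf = (2 ^ (r + 1)) ^ (M * M + M) := ⟨_, rfl⟩
  have hKf0 : 0 < Kf := by rw [hKf]; positivity
  obtain ⟨J₀, hJ₀⟩ := share_ex (ψ := μ / 4) (κ := 1 / (2 ^ (r + 1) * Kf)) (by positivity)
    (by positivity)
  obtain ⟨J₁, hJ₁⟩ := exists_nat_ge ((2 * C * (C₁ + 3) + 2) / (s / 2))
  obtain ⟨J₂, hJ₂⟩ := exists_nat_ge (C₁ / ((1 - α) * Real.log 2 / 2))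
  have hT := bas_lrg (hS.2 ε hε0) (K₂ * Kf)
  have hpos : Bas S (fun J F A => 0 < Pe F.p A) :=
    ⟨1, one_pos, 0, fun J _ F A hA => hS.1 1 J F A hA⟩
  refine ⟨K₂ * Kf, d, μ / 4, mul_pos hK₂ hKf0, by positivity, fun k hk l hl => ?_, ?_⟩
  · have h1 := (hnod k hk).2.2.1 l hl
    exact ⟨h1.1, h1.2.1.trans hσ1, h1.2.2⟩
  refine Bas.mono (max J₀ (max J₁ J₂)) ((hall.and hT).and hpos) ?_
  rintro J hJ F A ⟨⟨⟨B, k1, k2, k3⟩, hTm⟩, hA⟩
  have hJ0 : (0 : ℝ) ≤ J := Nat.cast_nonneg J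
  have hJJ₀ : J₀ ≤ J := (le_max_left _ _).trans hJ
  have hJJ₁ : (J₁ : ℝ) ≤ J := by
    exact_mod_cast ((le_max_left _ _).trans (le_max_right _ _)).trans hJ
  have hJJ₂ : (J₂ : ℝ) ≤ J := by
    exact_mod_cast ((le_max_right _ _).trans (le_max_right _ _)).trans hJ
  have hp := Pe_nonneg F.isLaw
  have hB0 : 0 < Pe F.p B := by
    by_contra hcon
    have h1 : Pe F.p B = 0 := le_antisymm (not_lt.1 hcon) (hp B)
    rw [h1, mul_zero] at k2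
    linarith
  have hfl : ∀ {x y : ℝ}, x ≤ y → ⌊x * J⌋₊ ≤ ⌊y * J⌋₊ := fun h =>
    Nat.floor_le_floor (mul_le_mul_of_nonneg_right h hJ0)
  have hex : ∀ i, ∃ (T : PtT F → ℕ → MvPolynomial (Option (Fin m)) ℝ)
      (TH : LnT F → ℕ → MvPolynomial (Option (Fin m)) ℝ), i < M →
      NodW F c r D Dr' ⌊AA i * J⌋₊ ⌊WW i * J⌋₊ ⌊e * J⌋₊ ⌊(E + s) * J⌋₊
        (fun l => ⌊(β l (AA i) (WW i) - d i l) * J⌋₊) ⌊η' * J⌋₊ (Real.exp (-(μ / 2 * J)))
        B T TH := by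
    intro i
    by_cases hi : i < M
    · obtain ⟨T, TH, h⟩ := k3 i hi
      exact ⟨T, TH, fun _ => ⟨h.lst, h.top.mono le_rfl (fun _ => le_rfl) le_rfl
        (hfl (by linarith)), h.rlF⟩⟩
    · exact ⟨fun _ _ => 0, fun _ _ => 0, fun h => absurd h hi⟩
  choose T TH hT' using hex
  have hflJ : ⌊α * J⌋₊ ≤ J := by
    refine Nat.floor_le_of_le ?_
    nlinarith
  obtain ⟨s', hs'⟩ : ∃ s' : ℕ, s' = ⌈C₁ * (ε * J + 1)⌉₊ := ⟨_, rfl⟩
  have hs'1 : C₁ * (ε * J + 1) ≤ s' := by rw [hs']; exact Nat.le_ceil _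
  have hs'2 : (s' : ℝ) ≤ C₁ * (ε * J + 1) + 1 := by
    rw [hs']
    exact (Nat.ceil_lt_add_one (by positivity)).le
  have hnum : C * (⌊η' * J⌋₊ + (⌊σ * J⌋₊ + 1) + s' + 1) ≤ ⌊s * J⌋₊ := by
    refine Nat.le_floor ?_
    push_cast
    have h1 : (⌊η' * (J : ℝ)⌋₊ : ℝ) ≤ η' * J := Nat.floor_le (by positivity)
    have h1' : (⌊σ * (J : ℝ)⌋₊ : ℝ) ≤ σ * J := Nat.floor_le (by positivity)
    have h2 : (2 * C * (C₁ + 3) + 2) ≤ s / 2 * J := by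
      have h3 := hJ₁.trans hJJ₁
      rw [div_le_iff₀ (by positivity)] at h3
      linarith
    calc (C : ℝ) * (⌊η' * (J : ℝ)⌋₊ + (⌊σ * (J : ℝ)⌋₊ + 1) + s' + 1) ≤
          C * (η' * J + (σ * J + 1) + (C₁ * (ε * J + 1) + 1) + 1) :=
          mul_le_mul_of_nonneg_left (by linarith) hC0
      _ = (C * η') * J + (C * σ) * J + (C * (C₁ * ε)) * J + C * (C₁ + 3) := by ring
      _ ≤ s / 8 * J + s / 8 * J + s / 8 * J + C * (C₁ + 3) := by
          have h3 := mul_le_mul_of_nonneg_right hη2 hJ0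
          have h4 := mul_le_mul_of_nonneg_right hε1 hJ0
          have h5 := mul_le_mul_of_nonneg_right hσ2 hJ0
          linarith
      _ ≤ s * J := by
          have h5 : 0 ≤ C * (C₁ + 3) := by positivity
          have h6 : 0 ≤ s * J := by positivity
          linarith
  have hκ1 : Real.exp (-(μ / 2 * J)) * (2 ^ (r + 1)) ^ (M * M + M + 1) ≤ 1 := by
    have h2 := hJ₀ J hJJ₀
    have h4 : Real.exp (-(μ / 2 * J)) ≤ Real.exp (-(μ / 4 * J)) := by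
      refine Real.exp_le_exp.2 ?_
      have : 0 ≤ μ * J := by positivity
      linarith
    have h5 := h4.trans h2
    rw [le_div_iff₀ (by positivity)] at h5
    rw [pow_succ, ← hKf, mul_comm Kf]
    exact h5
  have hκ2 : Real.exp (-(μ / 2 * J)) * (2 ^ (r + 1)) ^ (M * M + M) ≤
      Real.exp (-(μ / 4 * J)) := by
    rw [← hKf]
    have h2 := hJ₀ J hJJ₀
    have h3 : (1 : ℝ) / (2 ^ (r + 1) * Kf) ≤ 1 / Kf := by
      refine one_div_le_one_div_of_le hKf0 (le_mul_of_one_le_left hKf0.le ?_)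
      exact one_le_pow₀ (by norm_num)
    calc Real.exp (-(μ / 2 * J)) * Kf =
          Real.exp (-(μ / 4 * J)) * (Real.exp (-(μ / 4 * J)) * Kf) := by
          rw [← mul_assoc, ← Real.exp_add]
          congr 2
          ring
      _ ≤ Real.exp (-(μ / 4 * J)) * (1 / Kf * Kf) :=
          mul_le_mul_of_nonneg_left (mul_le_mul_of_nonneg_right (h2.trans h3) hKf0.le)
            (Real.exp_pos _).le
      _ = _ := by rw [one_div, inv_mul_cancel₀ hKf0.ne', mul_one]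
  have hCJ1 : C₁ * (ε * J + 1) ≤ ((J : ℝ) - (⌊α * (J : ℝ)⌋₊ : ℕ)) * Real.log 2 := by
    have h1 : C₁ ≤ (1 - α) * Real.log 2 / 2 * J := by
      have h3 := hJ₂.trans hJJ₂
      have h4 : 0 < (1 - α) * Real.log 2 / 2 := by
        have := mul_pos (sub_pos.2 hα1) hl2
        linarith
      rw [div_le_iff₀ h4] at h3
      linarith
    have h2 : (⌊α * (J : ℝ)⌋₊ : ℝ) ≤ α * J := Nat.floor_le (mul_nonneg hα0 hJ0)
    calc C₁ * (ε * J + 1) = C₁ * ε * J + C₁ := by ring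
      _ ≤ (1 - α) * Real.log 2 / 2 * J + (1 - α) * Real.log 2 / 2 * J :=
          add_le_add (mul_le_mul_of_nonneg_right hε2 hJ0) h1
      _ = (J - α * J) * Real.log 2 := by ring
      _ ≤ _ := mul_le_mul_of_nonneg_right (by linarith) hl2.le
  have hgx : ∀ j < M, ∀ k < M, AA j ≤ AA k ∧ WW j ≤ WW k →
      ⌊(β r (AA j) (WW j) - d j r) * J⌋₊ ≤
        ⌊(β r (AA k) (WW k) - d k r) * J⌋₊ + (⌊σ * J⌋₊ + 1) := by
    intro j hj k hk hjk
    have h1 := hmon j hj k hk hjk.1 hjk.2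
    have h2 := (hnod j hj).2.2.1 r le_rfl
    have h3 := (hnod k hk).2.2.1 r le_rfl
    rcases le_or_gt 0 ((β r (AA j) (WW j) - d j r) * J) with h4 | h4
    · have h5 := Nat.floor_le h4
      have h6 := Nat.lt_floor_add_one ((β r (AA k) (WW k) - d k r) * (J : ℝ))
      have h7 := Nat.lt_floor_add_one (σ * (J : ℝ))
      have h8 : (β r (AA j) (WW j) - d j r) * J ≤ (β r (AA k) (WW k) - d k r) * J + σ * J := by
        rw [← add_mul]
        exact mul_le_mul_of_nonneg_right (by linarith) hJ0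
      have h9 : ((⌊(β r (AA j) (WW j) - d j r) * J⌋₊ : ℕ) : ℝ) <
          ((⌊(β r (AA k) (WW k) - d k r) * J⌋₊ + (⌊σ * J⌋₊ + 1) + 1 : ℕ) : ℝ) := by
        push_cast
        linarith
      have h10 : ⌊(β r (AA j) (WW j) - d j r) * J⌋₊ <
        ⌊(β r (AA k) (WW k) - d k r) * J⌋₊ + (⌊σ * J⌋₊ + 1) + 1 := by exact_mod_cast h9
      omega
    · rw [Nat.floor_of_nonpos h4.le]
      exact Nat.zero_le _
  obtain ⟨B', l1, l2, l3⟩ := hfam (F := F) (c := c)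
    (R := fun j k => AA j ≤ AA k ∧ WW j ≤ WW k) (a := fun k => ⌊AA k * J⌋₊)
    (w := fun k => ⌊WW k * J⌋₊) (e := ⌊e * J⌋₊) (E := ⌊(E + s) * J⌋₊) (Dr := Dr')
    (g := fun k l => ⌊(β l (AA k) (WW k) - d k l) * J⌋₊) (h := ⌊η' * J⌋₊) (x := ⌊σ * J⌋₊ + 1)
    (s := ⌊s * J⌋₊) (s' := s') (Aₘ := ⌊α * J⌋₊) (κ := Real.exp (-(μ / 2 * J)))
    (κ₁ := Real.exp (-(μ / 4 * J))) (θ := ε * J) (B := B) (G := T) (H := TH) hB0 hc
    (fun k hk => hfl (hαA k hk)) (fun k hk => hfl (hWA k hk)) hflJ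
    (fun j hj k hk hjk => ⟨hfl hjk.1, hfl hjk.2, hgx j hj k hk hjk⟩) hDr2 hT' (Real.exp_pos _).le
    (Real.exp_pos _).le hκ1 hκ2 (by positivity)
    (fun B' hB' hP hB'0 => hTm B' (fun ω hω => k1 ω (hB' ω hω)) (k2.trans (by
      rw [mul_assoc]
      refine mul_le_mul_of_nonneg_left ?_ hK₂.le
      rw [hKf]
      exact hP)) hB'0) hCJ1 hs'1 hnum
  rw [← hKf] at l2
  refine ⟨B', T, TH, fun ω hω => k1 ω (l1 ω hω), ?_, fun k hk => ?_, l3.uni, l3.two, l3.own, l3.ow⟩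
  · calc Pe F.p A ≤ K₂ * Pe F.p B := k2
      _ ≤ K₂ * (Kf * Pe F.p B') := mul_le_mul_of_nonneg_left l2 hK₂.le
      _ = _ := by ring
  · have h1 := l3.nod k hk
    exact ⟨h1.lst, h1.top, relf_h (h1.rlF.mono hDr1 le_rfl) (hfl hη1)⟩

end Pool.STB77
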