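import Pool.Agent.H77.STB.Nin
import Pool.Agent.H77.STB.Nlc

/-!
# Balls and static nodes in a class, with closed polynomials

`inc_tgt`: a closed polynomial near a label of any target over the two first coordinates. `inc_cls`:
the list of nodes of a class, with `Inc` for the balls of the list.
-/

set_option autoImplicit false

namespace Pool.STB77

open Finset Real MvPolynomial
open Pool.Agent.H49.Ent Pool.Agent.H32.Dense Pool.STK Pool.KA Pool.KSAT Pool.K2S Pool.PB Pool.S6C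
open Pool.GEN Pool.CHT Pool.NVX
open Pool.STB (V3 Po Bx)
open Pool.Z3 (share_ex)

variable {m J : ℕ}

/-- Larger bounds. -/
theorem Nls.mono {F : Fam m J} {c : ℕ → Fin m} {r D Dr M s : ℕ} {R : ℕ → ℕ → Prop} {a w : ℕ → ℕ}
    {e E : ℕ} {g : ℕ → ℕ → ℕ} {h : ℕ} {κ : ℝ} {B : F.Ω → Prop}
    {G : ℕ → PtT F → ℕ → MvPolynomial (Option (Fin m)) ℝ}
    {H : ℕ → LnT F → ℕ → MvPolynomial (Option (Fin m)) ℝ}
    (L : Nls F c r D Dr M s R a w e E g h κ B G H) {s' : ℕ} (hs : s ≤ s') :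
    Nls F c r D Dr M s' R a w e E g h κ B G H := by
  have dv : ∀ {x : ℝ} {k : ℕ}, x ≤ 2 ^ s / 2 ^ k → x ≤ 2 ^ s' / 2 ^ k :=
    fun h => h.trans (div_le_div_of_nonneg_right (pow_le_pow_right₀ (by norm_num) hs)
      (by positivity))
  exact ⟨L.nod, fun j hj k hk hR ω hω l hl b hb => dv (L.uni j hj k hk hR ω hω l hl b hb),
    fun j hj k hk hR ω hω l hl b hb => dv (L.two j hj k hk hR ω hω l hl b hb),
    fun k hk h ω hω l hl t ht => dv (L.own k hk h ω hω l hl t ht),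
    fun k hk ω hω l hl t ht => dv (L.ow k hk ω hω l hl t ht)⟩

/-- **A closed polynomial near a label of any target** over the two first coordinates. -/
theorem inc_tgt (D : ℕ) : ∃ C D' : ℕ, ∀ {m J : ℕ} {F : Fam m J} {c : ℕ → Fin m} {N W s v : ℕ}
    {A : ℕ → ℕ} {e : ℕ → ℕ} {g : ℕ → ℕ → ℕ} {B : F.Ω → Prop}
    {G : ℕ → PtT F → ℕ → MvPolynomial (Option (Fin m)) ℝ}
    {H : ℕ → LnT F → ℕ → MvPolynomial (Option (Fin m)) ℝ}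
    {pP : PtT F → ℕ → MvPolynomial (Option (Fin m)) ℝ}
    {pH : LnT F → ℕ → MvPolynomial (Option (Fin m)) ℝ} {xP : PtT F → ℝ} {xH : LnT F → ℝ}
    {QP : PtT F → MvPolynomial (Option (Fin m)) ℝ}
    {QH : LnT F → MvPolynomial (Option (Fin m)) ℝ} {M : ℝ},
    Inc F c D N W s v A e g B G H pP pH → W ≤ g 0 0 + s → (∀ S, DepC c 1 (pH S 1)) →
    (∀ ω, B ω → xP (ptr F J ω) = xH (slam F W ω)) →
    (∀ ω, B ω → |xP (ptr F J ω) - 2 ^ W * F.x ω (c 0)| ≤ 2 ^ s) →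
    (∀ y, (QP y).totalDegree ≤ D) → (∀ S, (QH S).totalDegree ≤ D) → (∀ y, DepC c 2 (QP y)) →
    (∀ S, DepC c 2 (QH S)) → 0 < M →
    (∀ ω, B ω → ∀ b, NBx c (G 0 (ptr F J ω)) (g 0) (A 0) (F.t ω) 2 b →
      |eval b (QP (ptr F J ω)) - eval b (QH (slam F (A 0) ω))| ≤ M) →
    ∃ (B' : F.Ω → Prop) (zP : PtT F → MvPolynomial (Option (Fin m)) ℝ)
      (zH : LnT F → MvPolynomial (Option (Fin m)) ℝ), Sub B' B ∧
      (1 - 1 / 8) * Pe F.p B ≤ Pe F.p B' ∧ (∀ y, (zP y).totalDegree ≤ D') ∧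
      (∀ S, (zH S).totalDegree ≤ D') ∧ (∀ y, DepC c 2 (zP y)) ∧ (∀ S, DepC c 2 (zH S)) ∧
      (∀ ω, B' ω → zP (ptr F J ω) = zH (slam F W ω)) ∧
      ∀ ω, B' ω → ∀ b, NBx c (G 0 (ptr F J ω)) (g 0) (A 0) (F.t ω) 2 b →
        |eval b (zP (ptr F J ω)) - eval b (QP (ptr F J ω))| ≤ 2 ^ (C * (s + 1)) * M := by
  obtain ⟨C, D', h⟩ := cls_tgt 3 D (by norm_num)
  refine ⟨C, D', ?_⟩
  intro m J F c N W s v A e g B G H pP pH xP xH QP QH M I hWg hpH hx hxn hQd hRd hQe hRe hM hQR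
  have h0 := I.A0
  have ok0 := I.ok 0 (Nat.zero_le N)
  have own0 := I.own 0 (Nat.zero_le N)
  have n0 := I.n0 0 (Nat.zero_le N)
  have pn := I.pn
  have hJ := I.AJ 0 (Nat.zero_le N)
  rw [h0] at ok0 own0 n0 pn hQR hJ ⊢
  exact h (F := F) (c := c) (W := W) (e := e 0) (s := s) (g := g 0) (B := B) (G := G 0)
    (H := H 0) (xP := xP) (xH := xH) (pP := fun y => pP y 1) (pH := fun S => pH S 1) (QP := QP)
    (QH := QH) (M := M) (I.inj.mono fun x (hx : x < 2) => show x < 3 by omega) hJ ok0 own0 hWg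
    n0 (fun y => I.pd y 1) (fun S => I.hd S 1) (fun y => I.pe y 1) hpH hx hxn
    (fun ω hω => I.pc ω hω 1) (fun ω hω b hb => pn ω hω 1 one_pos (by norm_num) b hb) hQd hRd hQe
    hRe hM hQR

/-- **Balls and static nodes in a class**, with closed polynomials of the window of the first ball. -/
theorem inc_cls (D : ℕ) : ∃ C D' : ℕ, D ≤ D' ∧ ∀ {m : ℕ} {S : PCl m} {c : ℕ → Fin m} {r : ℕ}
    {β : ℕ → ℝ → ℝ → ℝ} {e E : ℝ} (_ : 2 ≤ r) (_ : TmH S) (_ : Set.InjOn c (Set.Iio (r + 1)))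
    (M : ℕ) (AA WW : ℕ → ℝ) (_ : ∀ k < M, 0 ≤ WW k) (_ : ∀ k < M, WW k ≤ AA k)
    (_ : ∀ k < M, AA k < 1) (_ : ∀ j < M, ∀ k < M, AA j ≤ AA k → WW j ≤ WW k →
      β r (AA j) (WW j) ≤ β r (AA k) (WW k))
    (_ : ∀ k < M, NodF S c r D β e E (AA k) (WW k)) (N : ℕ) (ι : ℕ → ℕ) (_ : ∀ k ≤ N, ι k < M)
    (_ : ∀ k ≤ N, WW (ι k) = AA (ι k)) (_ : ∀ k < N, AA (ι k) ≤ AA (ι (k + 1))) (v s₀ : ℝ)
    (_ : ∀ k < N, AA (ι (k + 1)) ≤ AA (ι k) + v) (_ : 0 ≤ s₀)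
    (_ : ∀ k ≤ N, β 0 (AA (ι k)) (WW (ι k)) ≤ AA (ι k) + s₀)
    (_ : AA (ι 0) ≤ β 0 (AA (ι 0)) (WW (ι 0)) + s₀) (_ : AA (ι 0) ≤ β 1 (AA (ι 0)) (WW (ι 0)))
    (_ : ∀ k ≤ N, β 1 (AA (ι k)) (WW (ι k)) ≤
      β 1 (AA (ι 0)) (WW (ι 0)) + (AA (ι k) - AA (ι 0)) + s₀)
    (_ : ∀ k ≤ N, β 1 (AA (ι 0)) (WW (ι 0)) + (AA (ι k) - AA (ι 0)) ≤
      β 1 (AA (ι k)) (WW (ι k)) + s₀) (Dr : ℕ) (η s : ℝ), 0 < η → 0 < s →
    ∃ (K₁ : ℝ) (d : ℕ → ℕ → ℝ) (ψ : ℝ), 0 < K₁ ∧ 0 < ψ ∧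
      (∀ k < M, ∀ l ≤ r, 0 < d k l ∧ d k l ≤ s ∧ d k l < AA k) ∧
      Bas S (fun J F A => ∃ (B : F.Ω → Prop) (G : ℕ → PtT F → ℕ → MvPolynomial (Option (Fin m)) ℝ)
        (H : ℕ → LnT F → ℕ → MvPolynomial (Option (Fin m)) ℝ) (xP : PtT F → ℝ) (xH : LnT F → ℝ)
        (pP : PtT F → ℕ → MvPolynomial (Option (Fin m)) ℝ)
        (pH : LnT F → ℕ → MvPolynomial (Option (Fin m)) ℝ), Sub B A ∧
        Pe F.p A ≤ K₁ * Pe F.p B ∧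
        Nls F c r D Dr M ⌊s * J⌋₊ (fun j k => AA j ≤ AA k ∧ WW j ≤ WW k) (fun k => ⌊AA k * J⌋₊)
          (fun k => ⌊WW k * J⌋₊) ⌊e * J⌋₊ ⌊(E + s) * J⌋₊
          (fun k l => ⌊(β l (AA k) (WW k) - d k l) * J⌋₊) ⌊η * J⌋₊ (Real.exp (-(ψ * J)))
          B G H ∧
        Inc F c D' N ⌊AA (ι 0) * J⌋₊ (C * (⌊(s₀ + 3 * s) * J⌋₊ + 1)) (⌊v * J⌋₊ + 1)
          (fun k => ⌊AA (ι k) * J⌋₊) (fun _ => ⌊(E + s) * J⌋₊)
          (fun k l => ⌊(β l (AA (ι k)) (WW (ι k)) - d (ι k) l) * J⌋₊) B (fun k => G (ι k))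
          (fun k => H (ι k)) pP pH ∧
        ⌊AA (ι 0) * J⌋₊ ≤ ⌊(β 0 (AA (ι 0)) (WW (ι 0)) - d (ι 0) 0) * J⌋₊ +
          C * (⌊(s₀ + 3 * s) * J⌋₊ + 1) ∧
        (∀ S l, DepC c l (pH S l)) ∧
        (∀ ω, B ω → xP (ptr F J ω) = xH (slam F ⌊AA (ι 0) * J⌋₊ ω)) ∧
        (∀ ω, B ω → |xP (ptr F J ω) - 2 ^ ⌊AA (ι 0) * J⌋₊ * F.x ω (c 0)| ≤
          2 ^ (C * (⌊(s₀ + 3 * s) * J⌋₊ + 1))) ∧
        ∀ ω, B ω → ∀ b : Option (Fin m) → ℝ, |b none - F.t ω| ≤ 1 / 2 ^ ⌊AA (ι 0) * J⌋₊ →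
          |b (some (c 0)) - F.x ω (c 0)| ≤ 1 / 2 ^ ⌊AA (ι 0) * J⌋₊ →
          |eval b (pderiv (some (c 0)) (pP (ptr F J ω) 1))| ≤
            2 ^ (C * (⌊(s₀ + 3 * s) * J⌋₊ + 1) + ⌊e * J⌋₊)) := by
  obtain ⟨C, D', hC1, hDD, hinc⟩ := inc_nls D
  refine ⟨C, D', hDD, ?_⟩
  intro m S c r β e E hr hS hc M AA WW hW0 hWA hA1 hmon hN N ι hι haw ham v s₀ hav hs₀ hn0 hn0'
    hg1 hn1 hn1' Dr η s hη hs
  obtain ⟨K₁, d, ψ, hK₁, hψ, hd, hbas⟩ := nls_cls hS hc M AA WW hW0 hWA hA1 hmon hN Dr η s hη hs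
  obtain ⟨J₀, hJ₀⟩ := share_ex (ψ := ψ / 2) (κ := 1 / 2) (half_pos hψ) (by norm_num)
  obtain ⟨J₁, hJ₁⟩ := exists_nat_ge (4 / s)
  refine ⟨K₁ * 2, d, ψ / 2, by positivity, half_pos hψ, hd, Bas.mono (max J₀ J₁) hbas ?_⟩
  rintro J hJ F A ⟨B, G, H, k1, k2, L⟩
  have hJ0 : (0 : ℝ) ≤ J := Nat.cast_nonneg J
  have hJJ₀ : J₀ ≤ J := (le_max_left _ _).trans hJ
  have hsJ : 4 ≤ s * J := by
    have h1 : 4 / s ≤ J := hJ₁.trans (by exact_mod_cast (le_max_right _ _).trans hJ)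
    rw [div_le_iff₀ hs] at h1
    linarith
  obtain ⟨n, hn⟩ : ∃ n, n = ⌊(s₀ + 3 * s) * J⌋₊ := ⟨_, rfl⟩
  have hn' : (s₀ + 3 * s) * J < n + 1 := by rw [hn]; exact Nat.lt_floor_add_one _
  have hs₀J : 0 ≤ s₀ * J := mul_nonneg hs₀ hJ0
  have hsn : ⌊s * J⌋₊ ≤ n := by
    rw [hn]
    exact Nat.floor_le_floor (mul_le_mul_of_nonneg_right (by linarith) hJ0)
  have hfl : ∀ {x y : ℝ}, x ≤ y → ⌊x * J⌋₊ ≤ ⌊y * J⌋₊ := fun h =>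
    Nat.floor_le_floor (mul_le_mul_of_nonneg_right h hJ0)
  have hle : ∀ (u v : ℝ) (k : ℕ), u ≤ v + (k - 1) → ⌊u⌋₊ ≤ ⌊v⌋₊ + k := by
    intro u v k h
    rcases Nat.eq_zero_or_pos ⌊u⌋₊ with h1 | h1
    · omega
    · have h2 : ((⌊u⌋₊ : ℕ) : ℝ) ≤ u := Nat.floor_le (by
        by_contra h3
        push Not at h3
        rw [Nat.floor_of_nonpos h3.le] at h1
        omega)
      have h3 := Nat.lt_floor_add_one v
      have h4 : ((⌊u⌋₊ : ℕ) : ℝ) < ((⌊v⌋₊ + k : ℕ) : ℝ) := by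
        push_cast
        linarith
      exact (by exact_mod_cast h4 : ⌊u⌋₊ < ⌊v⌋₊ + k).le
  have hM0 : ι 0 < M := hι 0 (Nat.zero_le N)
  have hAA0 : ∀ k ≤ N, AA (ι 0) ≤ AA (ι k) := by
    intro k
    induction k with
    | zero => exact fun _ => le_rfl
    | succ k ih => exact fun hk => (ih (by omega)).trans (ham k (by omega))
  have hα0 : ∀ k ≤ N, 0 ≤ AA (ι k) := fun k hk =>
    (hW0 _ (hι k hk)).trans (hWA _ (hι k hk))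
  have hAJ : ∀ k ≤ N, ⌊AA (ι k) * J⌋₊ ≤ J := fun k hk => by
    refine Nat.floor_le_of_le ?_
    have h1 := hA1 _ (hι k hk)
    nlinarith
  have dk : ∀ k ≤ N, ∀ l ≤ r, 0 < d (ι k) l ∧ d (ι k) l ≤ s ∧ d (ι k) l < AA (ι k) :=
    fun k hk => hd _ (hι k hk)
  -- the differences of the radii
  have hsub : ∀ k ≤ N, (AA (ι k) - AA (ι 0)) * J - 1 ≤
      ((⌊AA (ι k) * J⌋₊ - ⌊AA (ι 0) * J⌋₊ : ℕ) : ℝ) ∧
      ((⌊AA (ι k) * J⌋₊ - ⌊AA (ι 0) * J⌋₊ : ℕ) : ℝ) ≤ (AA (ι k) - AA (ι 0)) * J + 1 := by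
    intro k hk
    rw [Nat.cast_sub (hfl (hAA0 k hk))]
    have h1 := Nat.floor_le (mul_nonneg (hα0 k hk) hJ0)
    have h2 := Nat.lt_floor_add_one (AA (ι k) * (J : ℝ))
    have h3 := Nat.floor_le (mul_nonneg (hα0 0 (Nat.zero_le N)) hJ0)
    have h4 := Nat.lt_floor_add_one (AA (ι 0) * (J : ℝ))
    rw [sub_mul]
    constructor <;> linarith
  have g0 : ∀ k ≤ N, ⌊(β 0 (AA (ι k)) (WW (ι k)) - d (ι k) 0) * J⌋₊ ≤ ⌊AA (ι k) * J⌋₊ + n := by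
    intro k hk
    refine hle _ _ n ?_
    have h1 : (β 0 (AA (ι k)) (WW (ι k)) - d (ι k) 0) * J ≤ (AA (ι k) + s₀) * J :=
      mul_le_mul_of_nonneg_right (by linarith [hn0 k hk, (dk k hk 0 (Nat.zero_le r)).1]) hJ0
    rw [add_mul] at h1
    rw [add_mul] at hn'
    linarith
  have g0' : ⌊AA (ι 0) * J⌋₊ ≤ ⌊(β 0 (AA (ι 0)) (WW (ι 0)) - d (ι 0) 0) * J⌋₊ + n := by
    refine hle _ _ n ?_
    have h1 : AA (ι 0) * J ≤ (β 0 (AA (ι 0)) (WW (ι 0)) - d (ι 0) 0) * J + (s₀ + s) * J := by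
      rw [← add_mul]
      exact mul_le_mul_of_nonneg_right
        (by linarith [hn0', (dk 0 (Nat.zero_le N) 0 (Nat.zero_le r)).2.1]) hJ0
    rw [add_mul s₀] at h1
    rw [add_mul] at hn'
    linarith
  have g1g : ⌊AA (ι 0) * J⌋₊ ≤ ⌊(β 1 (AA (ι 0)) (WW (ι 0)) - d (ι 0) 1) * J⌋₊ + n := by
    refine hle _ _ n ?_
    have h1 : AA (ι 0) * J ≤ (β 1 (AA (ι 0)) (WW (ι 0)) - d (ι 0) 1) * J + (s₀ + s) * J := by
      rw [← add_mul]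
      exact mul_le_mul_of_nonneg_right
        (by linarith [hg1, (dk 0 (Nat.zero_le N) 1 (by omega)).2.1]) hJ0
    rw [add_mul s₀] at h1
    rw [add_mul] at hn'
    linarith
  have g1 : ∀ k ≤ N, ⌊(β 1 (AA (ι k)) (WW (ι k)) - d (ι k) 1) * J⌋₊ ≤
      ⌊(β 1 (AA (ι 0)) (WW (ι 0)) - d (ι 0) 1) * J⌋₊ + (⌊AA (ι k) * J⌋₊ - ⌊AA (ι 0) * J⌋₊) +
        n := by
    intro k hk
    rw [add_assoc]
    refine hle _ _ _ ?_
    have h1 : (β 1 (AA (ι k)) (WW (ι k)) - d (ι k) 1) * J ≤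
        (β 1 (AA (ι 0)) (WW (ι 0)) - d (ι 0) 1) * J + (AA (ι k) - AA (ι 0)) * J +
          (s₀ + s) * J := by
      rw [← add_mul, ← add_mul]
      exact mul_le_mul_of_nonneg_right (by linarith [hn1 k hk, (dk k hk 1 (by omega)).1,
        (dk 0 (Nat.zero_le N) 1 (by omega)).2.1]) hJ0
    have h2 := (hsub k hk).1
    rw [Nat.cast_add]
    rw [add_mul s₀] at h1
    rw [add_mul] at hn'
    linarith
  have g1' : ∀ k ≤ N, ⌊(β 1 (AA (ι 0)) (WW (ι 0)) - d (ι 0) 1) * J⌋₊ +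
      (⌊AA (ι k) * J⌋₊ - ⌊AA (ι 0) * J⌋₊) ≤
        ⌊(β 1 (AA (ι k)) (WW (ι k)) - d (ι k) 1) * J⌋₊ + n := by
    intro k hk
    have h0 : 0 ≤ (β 1 (AA (ι 0)) (WW (ι 0)) - d (ι 0) 1) * J :=
      mul_nonneg (by linarith [(dk 0 (Nat.zero_le N) 1 (by omega)).2.2]) hJ0
    have h1 : (β 1 (AA (ι 0)) (WW (ι 0)) - d (ι 0) 1) * J + (AA (ι k) - AA (ι 0)) * J ≤
        (β 1 (AA (ι k)) (WW (ι k)) - d (ι k) 1) * J + (s₀ + s) * J := by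
      rw [← add_mul, ← add_mul]
      exact mul_le_mul_of_nonneg_right (by linarith [hn1' k hk, (dk k hk 1 (by omega)).2.1,
        (dk 0 (Nat.zero_le N) 1 (by omega)).1]) hJ0
    have h2 := (hsub k hk).2
    have h3 := Nat.floor_le h0
    have h4 := Nat.lt_floor_add_one ((β 1 (AA (ι k)) (WW (ι k)) - d (ι k) 1) * (J : ℝ))
    have h5 : ((⌊(β 1 (AA (ι 0)) (WW (ι 0)) - d (ι 0) 1) * J⌋₊ +
      (⌊AA (ι k) * J⌋₊ - ⌊AA (ι 0) * J⌋₊) : ℕ) : ℝ) ≤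
        ((⌊(β 1 (AA (ι k)) (WW (ι k)) - d (ι k) 1) * J⌋₊ + n : ℕ) : ℝ) := by
      rw [Nat.cast_add, Nat.cast_add]
      rw [add_mul s₀] at h1
      rw [add_mul] at hn'
      linarith
    exact_mod_cast h5
  obtain ⟨B', xP, xH, pP, pH, l1, l2, l3, l4, l5, l6, l7⟩ := hinc (N := N) (v := ⌊v * J⌋₊ + 1)
    (ι := ι) hr hc (L.mono hsn) hι (fun k hk => by rw [haw k hk]) (fun k hk => ⟨ham k hk, by
      rw [haw k hk.le, haw (k + 1) hk]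
      exact ham k hk⟩) hAJ (fun k hk => hfl (ham k hk)) (fun k hk => by
      have h1 : AA (ι (k + 1)) * J ≤ AA (ι k) * J + v * J := by
        rw [← add_mul]
        exact mul_le_mul_of_nonneg_right (hav k hk) hJ0
      have h2 := Nat.floor_le (mul_nonneg (hα0 (k + 1) hk) hJ0)
      have h3 := Nat.lt_floor_add_one (AA (ι k) * (J : ℝ))
      have h4 := Nat.lt_floor_add_one (v * (J : ℝ))
      have h5 : ((⌊AA (ι (k + 1)) * J⌋₊ : ℕ) : ℝ) <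
          ((⌊AA (ι k) * J⌋₊ + (⌊v * J⌋₊ + 1) + 1 : ℕ) : ℝ) := by
        push_cast
        linarith
      have h6 : ⌊AA (ι (k + 1)) * J⌋₊ < ⌊AA (ι k) * J⌋₊ + (⌊v * J⌋₊ + 1) + 1 := by
        exact_mod_cast h5
      omega) g0 g0' g1g g1 g1'
  have e2 : n ≤ C * (n + 1) := by
    calc n ≤ 1 * (n + 1) := by omega
      _ ≤ C * (n + 1) := Nat.mul_le_mul_right _ hC1
  rw [← hn]
  refine ⟨B', G, H, xP, xH, pP, pH, fun ω hω => k1 ω (l1 ω hω), ?_, ?_, l3, ?_, l4, l5, l6, l7⟩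
  · calc Pe F.p A ≤ K₁ * Pe F.p B := k2
      _ ≤ K₁ * (2 * Pe F.p B') := mul_le_mul_of_nonneg_left l2 hK₁.le
      _ = _ := by ring
  · refine L.sub l1 (κ₁ := 1 / 2) (by linarith) (Real.exp_pos _).le ?_
    have h1 := hJ₀ J hJJ₀
    calc Real.exp (-(ψ * J)) = Real.exp (-(ψ / 2 * J)) * Real.exp (-(ψ / 2 * J)) := by
          rw [← Real.exp_add]
          congr 1
          ring
      _ ≤ _ := mul_le_mul_of_nonneg_left h1 (Real.exp_pos _).le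
  · exact g0'.trans (Nat.add_le_add_left e2 _)

end Pool.STB77
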