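import Pool.Agent.H77.STB.Nn4
import Pool.Agent.H65.STB.Grz
import Pool.Agent.H82.STB.Ibx

/-!
# The label of a static third place with a gain, at a ball inside the list

`grd_p2`: the gradients of the closed polynomial of the third place on the boxes of all balls.
`nni_inc`: the label of the third place with a gain, from the list of balls.
-/

set_option autoImplicit false

namespace Pool.STB77

open Finset Real MvPolynomial
open Pool.Agent.H49.Ent Pool.Agent.H32.Dense Pool.STK Pool.KA Pool.KSAT Pool.K2S Pool.PB Pool.S6C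
open Pool.GEN Pool.CHT Pool.NVX
open Pool.STB (V3 Po Bx lm lm_nonneg)
open Pool.STB65
open Pool.STB82 (yv yp hgP)
open Pool.FLF (Fam.sub)
open Pool.PB.Trl (rt)

/-- A larger degree. -/
theorem inpF_deg {m J : ℕ} {F : Fam m J} {B : F.Ω → Prop} {W₀ N K K' b : ℕ} {Y : ℝ} {y : F.Ω → V3}
    {e : ℕ → ℕ} {f : ℕ → PtT F → Po} {f' : ℕ → LnT F → Po} {kf : LnT F → Po}
    (h : InpF F B W₀ N K b Y y e f f' kf) (hK : K ≤ K') : InpF F B W₀ N K' b Y y e f f' kf :=
  ⟨fun j p => (h.fd j p).trans hK, fun s => (h.kd s).trans hK, h.em, h.f0, h.ch, h.nr,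
    fun j s => (h.fd' j s).trans hK, h.agr⟩

/-- **The gradients of the closed polynomial of the third place** on the boxes of the balls. -/
theorem grd_p2 (D : ℕ) : ∃ C : ℕ, ∀ {m J : ℕ} {F : Fam m J} {c : ℕ → Fin m} {N W s v k : ℕ}
    {A : ℕ → ℕ} {e : ℕ → ℕ} {g : ℕ → ℕ → ℕ} {B : F.Ω → Prop}
    {G : ℕ → PtT F → ℕ → MvPolynomial (Option (Fin m)) ℝ}
    {H : ℕ → LnT F → ℕ → MvPolynomial (Option (Fin m)) ℝ}
    {pP : PtT F → ℕ → MvPolynomial (Option (Fin m)) ℝ}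
    {pH : LnT F → ℕ → MvPolynomial (Option (Fin m)) ℝ} {ω : F.Ω} {l : ℕ},
    Inc F c D N W s v A e g B G H pP pH → k ≤ N →
    (∀ ω, B ω → ∀ l < 3, ∀ b, NBx c (G k (ptr F J ω)) (g k) (A k) (F.t ω) l b →
      |eval b (G k (ptr F J ω) l) - eval b (G 0 (ptr F J ω) l)| ≤ 2 ^ s / 2 ^ g 0 l) →
    (∀ l < 3, g 0 l ≤ g k l + s) → B ω → l < 2 → ∀ b,
    NBx c (G k (ptr F J ω)) (g k) (A k) (F.t ω) 2 b →
    |eval b (pderiv (some (c l)) (pP (ptr F J ω) 2))| ≤
      2 ^ (C * (s + 1) + e 0 + nlp (g 0) l 2) := by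
  obtain ⟨C₁, hgrd⟩ := grd_box D 3
  obtain ⟨c₀, D₁, hD₁, hdil⟩ := nbx_dil 3 (fun _ => D)
  refine ⟨C₁ + c₀ + 2 * D₁ + 2, ?_⟩
  intro m J F c N W s v k A e g B G H pP pH ω l I hk hu hg hω hl b hb
  have pw : ∀ {x y : ℕ}, x ≤ y → (2 : ℝ) ^ x ≤ 2 ^ y := fun h => pow_le_pow_right₀ (by norm_num) h
  have ok0 := I.ok 0 (Nat.zero_le N)
  have hWk : A 0 ≤ A k := by
    rw [I.A0]
    exact I.AmW hk
  have hinj : Set.InjOn c (Set.Iio 2) := I.inj.mono fun x (hx : x < 2) => show x < 3 by omega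
  obtain ⟨T, hT⟩ : ∃ T, T = (Finset.Icc l 2).sup (g 0) := ⟨_, rfl⟩
  have hTg : g 0 2 ≤ T := by
    rw [hT]
    exact Finset.le_sup (f := g 0) (Finset.mem_Icc.2 ⟨by omega, le_rfl⟩)
  have hn : nlp (g 0) l 2 = T - g 0 2 := by rw [hT]; rfl
  -- the bound at the first ball
  have h0 : ∀ b, NBx c (G 0 (ptr F J ω)) (g 0) (A 0) (F.t ω) 2 b →
      |eval b (pderiv (some (c l)) (pP (ptr F J ω) 2))| ≤
        2 ^ (C₁ + s + 1 + e 0 + nlp (g 0) l 2) := by
    intro b hb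
    have h1 := ok0.lip ω hω 2 (by norm_num) b hb l hl
    have h2 := hgrd (c := c) (i := 2) (l := l) (a := A 0) (e := e 0) (T := T) (g := g 0)
      (t := F.t ω) (G := G 0 (ptr F J ω)) (Q := pP (ptr F J ω) 2 - G 0 (ptr F J ω) 2)
      (M := 2 ^ s / 2 ^ g 0 2) (by norm_num) hl hinj (ok0.degG _) (ok0.depG _)
      (fun j hj1 hj2 => by
        rw [hT]
        exact Finset.le_sup (f := g 0) (Finset.mem_Icc.2 ⟨hj1, by omega⟩))
      (fun j hj1 hj2 b' hb' => ok0.lip ω hω j (by omega) b' hb' l hj2)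
      (fun x y hn hb => by rw [map_sub, map_sub, I.pe _ 2 x y hn hb, ok0.depG _ 2 x y hn hb])
      ((totalDegree_sub _ _).trans (max_le (I.pd _ _) (ok0.degG _ _))) (by positivity)
      (fun b' hb' => by
        rw [map_sub]
        exact I.pn ω hω 2 (by norm_num) (by norm_num) b' hb') b hb
    rw [map_sub, map_sub] at h2
    have e1 : eval b (pderiv (some (c l)) (pP (ptr F J ω) 2)) =
        (eval b (pderiv (some (c l)) (pP (ptr F J ω) 2)) -
          eval b (pderiv (some (c l)) (G 0 (ptr F J ω) 2))) +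
        eval b (pderiv (some (c l)) (G 0 (ptr F J ω) 2)) := by ring
    rw [e1]
    refine (abs_add_le _ _).trans ((add_le_add h2 h1).trans ?_)
    have h3 : (2 : ℝ) ^ (C₁ + e 0 + T) * (2 ^ s / 2 ^ g 0 2) = 2 ^ (C₁ + e 0 + s + nlp (g 0) l 2) := by
      rw [← mul_div_assoc, ← pow_add, div_eq_iff (by positivity), ← pow_add]
      congr 1
      omega
    rw [h3]
    calc (2 : ℝ) ^ (C₁ + e 0 + s + nlp (g 0) l 2) + 2 ^ (e 0 + nlp (g 0) l 2) ≤
        2 ^ (C₁ + e 0 + s + nlp (g 0) l 2) + 2 ^ (C₁ + e 0 + s + nlp (g 0) l 2) :=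
          add_le_add le_rfl (pw (by omega))
      _ = 2 ^ (C₁ + e 0 + s + nlp (g 0) l 2 + 1) := by ring
      _ ≤ _ := pw (by omega)
  -- the dilation
  have h1 := hdil (c := c) (i := 2) (G := G 0 (ptr F J ω))
    (Q := pderiv (some (c l)) (pP (ptr F J ω) 2)) (g := g 0) (a := A 0) (t := F.t ω)
    (M := 2 ^ (C₁ + s + 1 + e 0 + nlp (g 0) l 2)) (2 * s + 1) (by norm_num) hinj (ok0.degG _)
    (ok0.depG _) ((I.pe _ 2).pderiv l)
    (Pool.KS3.SML.totalDegree_pderiv_le _ _ D ((I.pd _ _).trans (Nat.le_succ _))) (by positivity)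
    h0 b (hb.1.trans (inv_mono hWk)) fun j hj => by
      have k1 := hb.2 j hj
      have k2 := hu ω hω j (by omega) b (hb.mono le_rfl hj.le)
      have k3 := hg j (by omega)
      have e1 : b (some (c j)) - eval b (G 0 (ptr F J ω) j) =
          (b (some (c j)) - eval b (G k (ptr F J ω) j)) +
          (eval b (G k (ptr F J ω) j) - eval b (G 0 (ptr F J ω) j)) := by ring
      rw [e1]
      refine (abs_add_le _ _).trans ((add_le_add k1 k2).trans ?_)
      have k4 : (1 : ℝ) / 2 ^ g k j ≤ 2 ^ s / 2 ^ g 0 j := by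
        rw [div_le_div_iff₀ (by positivity) (by positivity), one_mul, ← pow_add]
        exact pw (by omega)
      calc (1 : ℝ) / 2 ^ g k j + 2 ^ s / 2 ^ g 0 j ≤ 2 ^ s / 2 ^ g 0 j + 2 ^ s / 2 ^ g 0 j :=
            add_le_add k4 le_rfl
        _ = 2 ^ (s + 1) / 2 ^ g 0 j := by ring
        _ ≤ _ := div_le_div_of_nonneg_right (pw (by omega)) (by positivity)
  refine h1.trans ?_
  rw [← pow_add]
  refine pw ?_
  nlinarith [Nat.zero_le (C₁ * s), Nat.zero_le (c₀ * s), Nat.zero_le (D₁ * s)]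

/-- **The label of a static third place with a gain** `t`, at the ball `k₁` of the list. -/
theorem nni_inc (m D b : ℕ) (hD : 1 ≤ D) : ∃ C₀ E D' : ℕ, ∀ N : ℕ, ∃ C : ℝ, 1 ≤ C ∧
    ∀ {J : ℕ} (F : Fam m J) (B : F.Ω → Prop) (hB : 0 < Pe F.p B) {c : ℕ → Fin m}
      {W s v gS k₁ y t p d e₁ e₁' : ℕ} {θ : ℝ} {A : ℕ → ℕ} {e : ℕ → ℕ} {g : ℕ → ℕ → ℕ}
      {G : ℕ → PtT F → ℕ → MvPolynomial (Option (Fin m)) ℝ}
      {H : ℕ → LnT F → ℕ → MvPolynomial (Option (Fin m)) ℝ}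
      {pP : PtT F → ℕ → MvPolynomial (Option (Fin m)) ℝ}
      {pH : LnT F → ℕ → MvPolynomial (Option (Fin m)) ℝ}
      {US : LnT F → MvPolynomial (Option (Fin m)) ℝ} {yt : PtT F → V3},
      Inc F c D N W s v A e g B G H pP pH → N ≤ s → k₁ ≤ N → (∀ S l, DepC c l (pH S l)) →
      (∀ S, (US S).totalDegree ≤ D) → (∀ S, DepC c 2 (US S)) →
      (∀ ω, B ω → ∀ b', NBx c (G N (ptr F J ω)) (g N) (A N) (F.t ω) 2 b' →
        |eval b' (US (slam F W ω)) - eval b' (G N (ptr F J ω) 2)| ≤ 2 ^ s / 2 ^ gS) →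
      (∀ ω, B ω → ∀ l < 3, ∀ b, NBx c (G k₁ (ptr F J ω)) (g k₁) (A k₁) (F.t ω) l b →
        |eval b (G k₁ (ptr F J ω) l) - eval b (G 0 (ptr F J ω) l)| ≤ 2 ^ s / 2 ^ g 0 l) →
      (∀ l < 3, g 0 l ≤ g k₁ l + s) →
      (∀ ω, B ω → ∀ b' : Option (Fin m) → ℝ, |b' none - F.t ω| ≤ 1 / 2 ^ W →
        |b' (some (c 0)) - F.x ω (c 0)| ≤ 1 / 2 ^ W →
        |eval b' (pderiv (some (c 0)) (pP (ptr F J ω) 1))| ≤ 2 ^ e₁') →
      InpP F B W d 0 0 (D + 1) (2 ^ y) (yv F c W (g 0 1) (fun S => pH S 1)) yt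
        (hgP c W (g 0 1) (fun S => pH S 1)) →
      C ≤ 2 ^ y → 0 ≤ θ → (Fam.sub F B hB).Tm θ → C * (θ + 1) ≤ ((J : ℝ) - W) * Real.log 2 →
      Real.exp (C * (θ + 1)) ≤ 2 ^ y → C₀ * (s + v + 1) ≤ y → A k₁ ≤ g k₁ 0 + s → W ≤ g 0 1 + e₁' →
      A k₁ ≤ A N → (∀ k ≤ N, g 0 2 + b * (A k - W) ≤ g k 2 + s) →
      g 0 2 + y + b * (A N - W) + t ≤ y + gS → t ≤ b * (A N - W) →
      y + (A N - W) + t + 1 ≤ d → 2 ≤ A N - W → y + 2 ≤ A k₁ - W →
      y + p + 2 ≤ g 0 2 + b * (A N - W) →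
      E * y + (b + 1) * y + p + 2 ≤ g 0 2 + (b + 1) * (A k₁ - W) →
      E * y + b * y + p + 2 ≤ g 0 2 + b * (A k₁ - W) + t →
      y + e 0 + 1 ≤ e₁ → e k₁ ≤ e₁ → (∀ j < 2, y + e 0 + 1 + g 0 j + p ≤ e₁ + g k₁ j + g 0 2) →
      E * y + g 0 1 + e₁' + 3 + p ≤ g 0 2 + e₁ + g k₁ 1 →
      ∃ (B' : F.Ω → Prop) (G' : PtT F → ℕ → MvPolynomial (Option (Fin m)) ℝ)
        (H' : LnT F → ℕ → MvPolynomial (Option (Fin m)) ℝ), Sub B' B ∧
        Pe F.p B / 2 ≤ Pe F.p B' ∧ ChOK F c 3 (fun _ => D') (A k₁) (A k₁) e₁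
          (fun j => if j < 2 then g k₁ j else p) B' G' H' := by
  obtain ⟨Cg, hgrd⟩ := grd_p2 D
  obtain ⟨Cb, hbox⟩ := Pool.STB82.inc_box D
  obtain ⟨Cu, Ku, hu⟩ := u_inpx D b
  obtain ⟨K, hK⟩ : ∃ K, K = (D + 1) + Ku + b := ⟨_, rfl⟩
  obtain ⟨E, hlab⟩ := nni_lab m K b D (by omega) (by omega) hD
  refine ⟨Cg + Cb + Cu, E, D + K * (K * K) * D, fun N => ?_⟩
  obtain ⟨C, hC, hlab⟩ := hlab N
  refine ⟨C, hC, ?_⟩
  intro J F B hB c W s v gS k₁ y t p d e₁ e₁' θ A e g G H pP pH US yt I hNs hk₁ hpH hUd hUe hus hun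
    hg0 hpg hI hCy hθ hTm hJ hexp hy hgk hWg hkN hb hn1 hn1' hn2 hn3 hn4 hn5 hn6 hn7 hn8 hn8' hn9 hn10
  have pw : ∀ {x y : ℕ}, x ≤ y → (2 : ℝ) ^ x ≤ 2 ^ y := fun h => pow_le_pow_right₀ (by norm_num) h
  have y1 : Cg * (s + 1) ≤ y := by
    refine le_trans ?_ hy
    nlinarith [Nat.zero_le (Cg * v), Nat.zero_le (Cb * (s + v + 1)), Nat.zero_le (Cu * (s + v + 1))]
  have y2 : Cb * (s + v + 1) ≤ y := by
    refine le_trans ?_ hy
    nlinarith [Nat.zero_le (Cg * (s + v + 1)), Nat.zero_le (Cu * (s + v + 1))]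
  have y3 : Cu * (s + v + 1) ≤ y := by
    refine le_trans ?_ hy
    nlinarith [Nat.zero_le (Cg * (s + v + 1)), Nat.zero_le (Cb * (s + v + 1))]
  have hWk := I.AmW hk₁
  have hkJ := I.AJ k₁ hk₁
  have e1 : (1 / 2 ^ (A N - W) : ℝ) ^ b = 1 / 2 ^ (b * (A N - W)) := by
    rw [one_div_pow, ← pow_mul, mul_comm]
  obtain ⟨f, f', kf, hin, hval, hnear⟩ := hu I hNs hUd hUe hus hb (by omega)
  have hin' := inpF_deg (inpF_up hin (pw y3)) (show Ku ≤ K by omega)
  have hWJ : W ≤ J := hWk.trans hkJ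
  obtain ⟨B', G', H', h1, h2, h3⟩ := hlab F B hB (c := c) (i := 2) (W₀ := W) (W := A k₁)
    (g1 := g 0 1) (g₃ := g 0 2) (e₁' := e₁') (s := y) (t := t) (p := p) (e₁ := e₁) (Y := 2 ^ y)
    (θ := θ) (η := 2 ^ y / 2 ^ d) (Ev := 2 ^ y * (1 / 2 ^ (A N - W)) ^ b)
    (Pv := fun q => pP q 1) (Pl := fun S => pH S 1) (yt := yt)
    (h := hgP c W (g 0 1) (fun S => pH S 1)) (e := fun k => A k - W) (f := f) (f' := f') (kf := kf)
    (TP := fun q => pP q 2) (TH := fun S => pH (cos F W (A k₁) S) 2) (Gc := G k₁) (Hc := H k₁)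
    (gc := g k₁) (LT := fun l => 2 ^ (Cg * (s + 1) + e 0 + nlp (g 0) l 2)) I.inj le_rfl
    (by norm_num) hWk hkJ hWg hin' (fun S j => (hI.hd S j).trans (by omega)) (fun S => rfl) hI.yh
    hI.vel hCy hθ hTm hJ hexp (fun ω hω r hr => (hnear ω hω r hr).trans (by
      rw [e1, mul_one_div, ← mul_div_assoc, ← pow_add, div_div, ← pow_add,
        div_le_div_iff₀ (by positivity) (by positivity), ← pow_add, ← pow_add]
      exact pw (by omega))) (fun ω hω => by
      intro j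
      have k1 := hI.vis ω hω j
      rw [Nat.zero_mul, add_zero] at k1
      exact k1) (by positivity) (by
      rw [← mul_div_assoc, ← pow_succ', div_le_div_iff₀ (by positivity) (by positivity), one_mul,
        ← pow_add]
      exact pw (by omega)) hn3 (by
      rw [div_mul_eq_mul_div, ← pow_add, div_le_div_iff₀ (by positivity) (by positivity), one_mul,
        ← pow_add]
      exact pw (by omega)) (fun q => I.pd q 1) (fun S => I.hd S 1) (fun q => I.pe q 1)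
    (fun S => hpH S 1) (fun ω hω => I.pc ω hω 1) hpg (fun q => I.pd q 2) (fun S => I.hd _ 2)
    (fun q => I.pe q 2) (fun S => hpH _ 2) (fun ω hω => by
      show pP (ptr F J ω) 2 = pH (cos F W (A k₁) (slam F (A k₁) ω)) 2
      rw [cos_slam F hWk hkJ]
      exact I.pc ω hω 2) (fun ω hω => (hval N le_rfl ω hω).trans
        (mul_le_mul_of_nonneg_right (pw y3) (by positivity)))
    ((I.ok k₁ hk₁).mono (by norm_num) (fun _ => le_rfl) le_rfl hn8')
    (fun ω hω b' hb' => (hbox I hNs hk₁ hω le_rfl (by omega) hgk hb').1.trans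
      (div_le_div_of_nonneg_right (pw y2) (by positivity)))
    (fun ω hω b' hb' => (hbox I hNs hk₁ hω le_rfl (by omega) hgk hb').2.trans
      (div_le_div_of_nonneg_right (pw y2) (by positivity)))
    (fun ω hω b' hb' l hl => hgrd I hk₁ hun hg0 hω hl b' hb') (by
      rw [div_le_div_iff₀ (by positivity) (by positivity), one_mul, ← pow_add]
      exact pw (by omega)) (by
      have k1 : (4 : ℝ) = 2 ^ 2 := by norm_num
      rw [k1, ← mul_div_assoc, ← pow_add, div_le_one (by positivity)]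
      exact pw (by omega)) (by
      rw [e1]
      have q1 : (2 : ℝ) ^ y * (1 / 2 ^ (b * (A N - W))) / 2 ^ g 0 2 ≤ 1 / 2 ^ (p + 2) := by
        rw [mul_one_div, div_div, ← pow_add, div_le_div_iff₀ (by positivity) (by positivity),
          one_mul, ← pow_add]
        exact pw (by omega)
      have q2 : (2 : ℝ) ^ y * (1 / 2 ^ (b * (A N - W))) / 2 ^ t / 2 ^ g 0 2 ≤ 1 / 2 ^ (p + 2) := by
        rw [mul_one_div, div_div, div_div, ← pow_add, ← pow_add,
          div_le_div_iff₀ (by positivity) (by positivity), one_mul, ← pow_add]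
        exact pw (by omega)
      have q3 : (2 ^ y : ℝ) ^ E * (2 ^ y / 2 ^ (A k₁ - W)) ^ (b + 1) / 2 ^ g 0 2 ≤
          1 / 2 ^ (p + 2) := by
        rw [div_pow, ← pow_mul, ← pow_mul, ← pow_mul, ← mul_div_assoc, ← pow_add, div_div,
          ← pow_add, div_le_div_iff₀ (by positivity) (by positivity), one_mul, ← pow_add]
        refine pw ?_
        nlinarith
      have q4 : (2 ^ y : ℝ) ^ E * ((2 ^ y / 2 ^ (A k₁ - W)) ^ b / 2 ^ t) / 2 ^ g 0 2 ≤
          1 / 2 ^ (p + 2) := by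
        rw [div_pow, ← pow_mul, ← pow_mul, ← pow_mul, div_div, ← pow_add, ← mul_div_assoc,
          ← pow_add, div_div, ← pow_add, div_le_div_iff₀ (by positivity) (by positivity), one_mul,
          ← pow_add]
        refine pw ?_
        nlinarith
      rw [add_div, add_div, mul_add, add_div]
      have q5 : (1 : ℝ) / 2 ^ p = 1 / 2 ^ (p + 2) + 1 / 2 ^ (p + 2) + (1 / 2 ^ (p + 2) +
          1 / 2 ^ (p + 2)) := by
        rw [pow_add]
        field_simp
        norm_num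
      rw [q5]
      exact add_le_add (add_le_add q1 q2) (add_le_add q3 q4)) (fun l hl => by
      have hsub : ∀ j, l ≤ j → j < 2 → g k₁ j - p ≤
          nlp (fun j => if j < 2 then g k₁ j else p) l 2 := by
        intro j hj1 hj2
        have k1 := Finset.le_sup (f := fun j => if j < 2 then g k₁ j else p)
          (Finset.mem_Icc.2 ⟨hj1, hj2.le⟩)
        unfold nlp
        simp only [if_pos hj2] at k1
        simp only [lt_irrefl, if_false]
        omega
      have hn0 : nlp (g 0) l 2 + (y + e 0 + 1) ≤ e₁ +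
          nlp (fun j => if j < 2 then g k₁ j else p) l 2 := by
        unfold nlp
        have k2 : (Finset.Icc l 2).sup (g 0) ≤ g 0 2 + (e₁ +
            nlp (fun j => if j < 2 then g k₁ j else p) l 2 - (y + e 0 + 1)) := by
          refine Finset.sup_le fun j hj => ?_
          rw [Finset.mem_Icc] at hj
          rcases Nat.lt_or_ge j 2 with h5 | h5
          · have k3 := hsub j hj.1 h5
            have k4 := hn9 j h5
            omega
          · have k5 : j = 2 := by omega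
            rw [k5]
            omega
        unfold nlp at k2
        omega
      have k6 := hsub 1 (by omega) (by norm_num)
      obtain ⟨X, hX⟩ : ∃ X, X = e₁ + nlp (fun j => if j < 2 then g k₁ j else p) l 2 := ⟨_, rfl⟩
      rw [← hX] at hn0 ⊢
      have k7 : (2 : ℝ) ^ (Cg * (s + 1) + e 0 + nlp (g 0) l 2) ≤ 2 ^ (X - 1) := pw (by omega)
      have k8 : 3 * ((2 ^ y : ℝ) ^ E / 2 ^ g 0 2 * lm (g 0 1) e₁' l) ≤ 2 ^ (X - 1) := by
        have k9 : lm (g 0 1) e₁' l ≤ 2 ^ (g 0 1 + e₁') := by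
          unfold lm
          split_ifs
          · exact le_rfl
          · exact pw (by omega)
          · positivity
        calc 3 * ((2 ^ y : ℝ) ^ E / 2 ^ g 0 2 * lm (g 0 1) e₁' l) ≤
            2 ^ 2 * ((2 ^ y : ℝ) ^ E / 2 ^ g 0 2 * 2 ^ (g 0 1 + e₁')) := by
              refine mul_le_mul (by norm_num) (mul_le_mul_of_nonneg_left k9 (by positivity))
                (mul_nonneg (by positivity) (lm_nonneg _ _ _)) (by norm_num)
          _ ≤ _ := by
              rw [← pow_mul, div_mul_eq_mul_div, ← pow_add, ← mul_div_assoc, ← pow_add,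
                div_le_iff₀ (by positivity), ← pow_add]
              refine pw ?_
              have : y * E = E * y := mul_comm _ _
              omega
      calc _ ≤ (2 : ℝ) ^ (X - 1) + 2 ^ (X - 1) := add_le_add k7 k8
        _ = 2 ^ (X - 1 + 1) := by ring
        _ ≤ 2 ^ X := pw (by omega))
  exact ⟨B', G', H', h1, h2, h3⟩

end Pool.STB77
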