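import Pool.Agent.H36.KBX.Coef
import Pool.Agent.H65.STB.Rnd

/-!
# Rounding of polynomials with a shift

`rdo`: the coefficients rounded to a grid with a shift. `cub_co`: the coefficients of a polynomial
bounded on the unit cube. `rnd_pol`: near polynomials have equal roundings off an event of small
share.
-/

set_option autoImplicit false

namespace Pool.STB77

open Finset Real MvPolynomial
open Pool.Agent.H49.Ent Pool.Agent.H32.Dense Pool.STK Pool.KA Pool.K2S
open Pool.Agent.H36.KBX (bx mem_bx support_bx coef_bound eval_bound)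

/-- The coefficients rounded to the grid `U ℤ` with the shifts `θ`. -/
noncomputable def rdo (n K : ℕ) (U : ℝ) (θ : (Fin n →₀ ℕ) → ℝ) (P : MvPolynomial (Fin n) ℝ) :
    MvPolynomial (Fin n) ℝ :=
  ∑ α ∈ bx n K, monomial α (U * ⌊coeff α P / U + θ α⌋)

theorem rdo_congr {n K : ℕ} {U : ℝ} {θ : (Fin n →₀ ℕ) → ℝ} {P Q : MvPolynomial (Fin n) ℝ}
    (h : ∀ α ∈ bx n K, ⌊coeff α P / U + θ α⌋ = ⌊coeff α Q / U + θ α⌋) :
    rdo n K U θ P = rdo n K U θ Q := by
  unfold rdo
  refine Finset.sum_congr rfl fun α hα => ?_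
  rw [h α hα]

theorem rdo_deg (n K : ℕ) (U : ℝ) (θ : (Fin n →₀ ℕ) → ℝ) (P : MvPolynomial (Fin n) ℝ) :
    (rdo n K U θ P).totalDegree ≤ n * K := by
  classical
  unfold rdo
  refine (totalDegree_finsetSum _ _).trans (Finset.sup_le fun α hα => ?_)
  refine (totalDegree_monomial_le _ _).trans ?_
  rw [Finsupp.sum_fintype _ _ fun _ => rfl]
  refine (Finset.sum_le_sum fun i _ => (mem_bx.1 hα) i).trans ?_
  rw [Finset.sum_const, Finset.card_univ, Fintype.card_fin, smul_eq_mul]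

theorem rdo_coeff (n K : ℕ) (U : ℝ) (θ : (Fin n →₀ ℕ) → ℝ) (P : MvPolynomial (Fin n) ℝ)
    (α : Fin n →₀ ℕ) : coeff α (rdo n K U θ P) =
      if α ∈ bx n K then U * ⌊coeff α P / U + θ α⌋ else 0 := by
  classical
  unfold rdo
  rw [coeff_sum]
  simp only [coeff_monomial]
  rw [Finset.sum_ite_eq']

/-- The rounded polynomial is near. -/
theorem rdo_near {n K : ℕ} {U : ℝ} (hU : 0 < U) {θ : (Fin n →₀ ℕ) → ℝ}
    (hθ : ∀ α, 0 ≤ θ α ∧ θ α ≤ 1) {P : MvPolynomial (Fin n) ℝ} (hP : P.totalDegree ≤ K)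
    (hn : 1 ≤ n) {ρ : ℝ} (hρ : 1 ≤ ρ) {y : Fin n → ℝ} (hy : ∀ i, |y i| ≤ ρ) :
    |eval y P - eval y (rdo n K U θ P)| ≤
      (bx n (n * K)).card * (U * ρ ^ (n * (n * K))) := by
  classical
  rw [← map_sub]
  refine eval_bound _ ?_ U ρ hρ ?_ y hy
  · refine (totalDegree_sub _ _).trans (max_le (hP.trans ?_) (rdo_deg _ _ _ _ _))
    exact Nat.le_mul_of_pos_left K hn
  · intro α
    rw [coeff_sub, rdo_coeff]
    split_ifs with h
    · have h1 := Int.floor_le (coeff α P / U + θ α)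
      have h2 := Int.lt_floor_add_one (coeff α P / U + θ α)
      have e1 : coeff α P - U * ⌊coeff α P / U + θ α⌋ =
          U * (coeff α P / U - ⌊coeff α P / U + θ α⌋) := by
        field_simp
      rw [e1, abs_mul, abs_of_pos hU]
      refine mul_le_of_le_one_right hU.le ?_
      have h3 := hθ α
      rw [abs_le]
      constructor
      · linarith [h3.2]
      · linarith [h3.1]
    · have h1 : coeff α P = 0 := by
        by_contra hc
        exact h (support_bx P hP (mem_support_iff.2 hc))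
      rw [h1, sub_zero, abs_zero]
      exact hU.le

/-- The coefficients of a polynomial bounded on the unit cube. -/
theorem cub_co (n K : ℕ) : ∃ C : ℝ, 1 ≤ C ∧ ∀ (P : MvPolynomial (Fin n) ℝ) (M : ℝ),
    P.totalDegree ≤ K → (∀ b : Fin n → ℝ, (∀ i, 0 ≤ b i ∧ b i ≤ 1) → |eval b P| ≤ M) →
    ∀ s, |coeff s P| ≤ C * M := by
  obtain ⟨B, hB0, hB⟩ := coef_bound n K
  refine ⟨B * ((bx n K).card * (B * 3 ^ (n * K))) + 1, by
    have : 0 ≤ B * ((bx n K).card * (B * 3 ^ (n * K))) := by positivity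
    linarith, ?_⟩
  intro P M hP hM
  have hM0 : 0 ≤ M := (abs_nonneg _).trans (hM (fun _ => 0) fun _ => ⟨le_rfl, zero_le_one⟩)
  set f : Fin n → MvPolynomial (Fin n) ℝ := fun i => C (1 / 2) + C (1 / 2) * X i with hf
  set Q := bind₁ f P with hQ
  have hev : ∀ y, eval y Q = eval (fun i => 1 / 2 + 1 / 2 * y i) P := by
    intro y
    rw [hQ, eval, eval₂Hom_bind₁]
    congr 1
    congr 1
    funext i
    simp [hf]
  have hfd : ∀ i, (f i).totalDegree ≤ 1 := by
    intro i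
    refine (totalDegree_add _ _).trans (max_le ?_ ?_)
    · rw [totalDegree_C]
      exact Nat.zero_le _
    · refine (totalDegree_mul _ _).trans ?_
      rw [totalDegree_C, totalDegree_X]
  have hQd : Q.totalDegree ≤ K := by
    classical
    rw [hQ, ← aeval_eq_bind₁, aeval_def, eval₂_eq]
    refine (totalDegree_finsetSum _ _).trans (Finset.sup_le fun s hs => ?_)
    refine (totalDegree_mul _ _).trans ?_
    have h1 : (algebraMap ℝ (MvPolynomial (Fin n) ℝ) (coeff s P)).totalDegree = 0 :=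
      totalDegree_C _
    rw [h1, zero_add]
    refine (totalDegree_finsetProd _ _).trans ?_
    refine le_trans ?_ ((le_totalDegree hs).trans hP)
    rw [Finsupp.sum]
    refine Finset.sum_le_sum fun i _ => ?_
    exact (totalDegree_pow _ _).trans ((Nat.mul_le_mul_left _ (hfd i)).trans (by rw [mul_one]))
  have hQM : ∀ y : Fin n → ℝ, (∀ i, |y i| ≤ 1) → |eval y Q| ≤ M := by
    intro y hy
    rw [hev]
    refine hM _ fun i => ?_
    have := abs_le.1 (hy i)
    constructor <;> linarith only [this, this.1, this.2]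
  have h1 := hB Q M hQd hQM
  have h2 : ∀ y : Fin n → ℝ, (∀ i, |y i| ≤ 1) →
      |eval y P| ≤ (bx n K).card * (B * M * 3 ^ (n * K)) := by
    intro y hy
    have h3 := eval_bound Q hQd (B * M) 3 (by norm_num) h1
      (fun i => 2 * y i - 1) (fun i => by
        have := abs_le.1 (hy i)
        rw [abs_le]
        constructor <;> linarith only [this, this.1, this.2])
    rw [hev] at h3
    have e : (fun i => 1 / 2 + 1 / 2 * (2 * y i - 1)) = y := by
      funext i
      ring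
    rw [e] at h3
    exact h3
  intro s
  refine (hB P _ hP h2 s).trans ?_
  have e1 : B * ((bx n K).card * (B * M * 3 ^ (n * K))) =
      B * ((bx n K).card * (B * 3 ^ (n * K))) * M := by ring
  rw [e1, add_mul, one_mul]
  linarith

/-- **Rounding of near polynomials**: equal off an eighth of the event. -/
theorem rnd_pol (n K : ℕ) : ∃ C : ℝ, 1 ≤ C ∧ ∀ {Ω : Type} [Fintype Ω] {p : Ω → ℝ}
    (_ : ∀ ω, 0 ≤ p ω) (B : Ω → Prop) (PG PH : Ω → MvPolynomial (Fin n) ℝ) (M : ℝ), 0 < M →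
    (∀ ω, (PG ω).totalDegree ≤ K) → (∀ ω, (PH ω).totalDegree ≤ K) →
    (∀ ω, B ω → ∀ y : Fin n → ℝ, (∀ i, 0 ≤ y i ∧ y i ≤ 1) →
      |eval y (PG ω) - eval y (PH ω)| ≤ M) →
    ∃ θ : (Fin n →₀ ℕ) → ℝ, (∀ α, 0 ≤ θ α ∧ θ α ≤ 1) ∧ (1 - 1 / 8) * Pe p B ≤
      Pe p (fun ω => B ω ∧ rdo n K (C * M) θ (PG ω) = rdo n K (C * M) θ (PH ω)) := by
  obtain ⟨C, hC, hco⟩ := cub_co n K
  obtain ⟨N, hN⟩ : ∃ N : ℕ, N = (bx n K).card := ⟨_, rfl⟩
  refine ⟨C * (16 * (N + 1)), by nlinarith [Nat.cast_nonneg (α := ℝ) N], ?_⟩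
  intro Ω _ p hp B PG PH M hM hGd hHd hGH
  have hC0 : 0 < C := by linarith
  have hN0 : (0 : ℝ) ≤ N := Nat.cast_nonneg N
  obtain ⟨U, hU⟩ : ∃ U : ℝ, U = C * (16 * (N + 1)) * M := ⟨_, rfl⟩
  have hU0 : 0 < U := by rw [hU]; positivity
  rw [← hU]
  obtain ⟨θ, hθ, hPe⟩ := Pool.STB65.rnd_all hp B (bx n K) (fun α ω => coeff α (PG ω) / U)
    (fun α ω => coeff α (PH ω) / U) (ε := 1 / (16 * (N + 1))) (ε' := 1 / (8 * (N + 1)))
    (one_div_lt_one_div_of_lt (by positivity) (by linarith)) (fun α _ ω hω => by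
      rw [← sub_div, ← coeff_sub, abs_div, abs_of_pos hU0]
      have h1 := hco (PG ω - PH ω) M ((totalDegree_sub _ _).trans (max_le (hGd ω) (hHd ω)))
        (fun y hy => by rw [map_sub]; exact hGH ω hω y hy) α
      rw [div_le_div_iff₀ hU0 (by positivity), one_mul, hU]
      calc |coeff α (PG ω - PH ω)| * (16 * (N + 1)) ≤ C * M * (16 * (N + 1)) :=
            mul_le_mul_of_nonneg_right h1 (by positivity)
        _ = _ := by ring)
  refine ⟨θ, hθ, ?_⟩
  refine le_trans ?_ (hPe.trans ?_)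
  · rw [← hN]
    refine mul_le_mul_of_nonneg_right ?_ (by
      unfold Pe law
      refine Finset.sum_nonneg fun ω _ => ?_
      split_ifs
      exacts [hp ω, le_rfl])
    have h1 : (N : ℝ) * (1 / (8 * (N + 1))) ≤ 1 / 8 := by
      rw [mul_one_div, div_le_div_iff₀ (by positivity) (by norm_num)]
      linarith
    linarith
  · classical
    rw [Pe_eq, Pe_eq]
    refine Finset.sum_le_sum fun ω _ => ?_
    by_cases h1 : B ω ∧ ∀ i ∈ bx n K, ⌊coeff i (PG ω) / U + θ i⌋ = ⌊coeff i (PH ω) / U + θ i⌋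
    · rw [if_pos h1, if_pos ⟨h1.1, rdo_congr h1.2⟩]
    · rw [if_neg h1]
      split_ifs
      exacts [hp ω, le_rfl]

end Pool.STB77
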