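import Pool.Agent.H77.STB.Vth
import Pool.Agent.H77.STB.Rdp

/-!
# Closed polynomials of a window

`cls_one`: a closed position of `c 0` and a closed polynomial of `c 1`. `cls_tgt`: a closed polynomial
near a target over `c 0`, `c 1`. `cls_pol`: closed polynomials of `c 1` and `c 2`.
-/

set_option autoImplicit false

namespace Pool.STB77

open Finset Real MvPolynomial
open Pool.Agent.H49.Ent Pool.Agent.H32.Dense Pool.STK Pool.KA Pool.KSAT Pool.K2S Pool.PB Pool.S6C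
open Pool.GEN Pool.CHT Pool.NVX
open Pool.STB (V3 Po Bx)
open Pool.STB65 (trs eval_trs deg_trs)
open Pool.Agent.H36.KBX (bx)
open Pool.PB.Trl (rt rt_mem t_rt)

variable {m J : ℕ}

/-! ### Closed coordinates -/

/-- The shift of the first coordinate. -/
noncomputable def sh1 (X : ℝ) : V3 := fun i => if i = 1 then X else 0

/-- The polynomial `Q` in the closed coordinates. -/
noncomputable def npl (c : ℕ → Fin m) (W g T : ℕ) (X : ℝ)
    (P Q : MvPolynomial (Option (Fin m)) ℝ) : Po := trs (sh1 X) (vpl c W g T P Q)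

theorem npl_eval (c : ℕ → Fin m) (W g T : ℕ) (X : ℝ) (P Q : MvPolynomial (Option (Fin m)) ℝ)
    (z : V3) : eval z (npl c W g T X P Q) = eval (vpt c W g T P (z + sh1 X)) Q := by
  unfold npl
  rw [eval_trs, vpl_eval]

theorem npl_deg (c : ℕ → Fin m) (W g T : ℕ) (X : ℝ) {P Q : MvPolynomial (Option (Fin m)) ℝ}
    {D : ℕ} (hP : P.totalDegree ≤ D) (hQ : Q.totalDegree ≤ D) :
    (npl c W g T X P Q).totalDegree ≤ D * (D + 1) :=
  (deg_trs _ _).trans (vpl_deg c W g T hP hQ)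

/-- The closed coordinates. -/
noncomputable def bkv (c : ℕ → Fin m) (W T : ℕ) (X : ℝ) (R : MvPolynomial (Option (Fin m)) ℝ) :
    Fin 3 → MvPolynomial (Option (Fin m)) ℝ := fun i =>
  if i = 0 then C (2 ^ W) * MvPolynomial.X none - C (T : ℝ) else
    if i = 1 then C (2 ^ W) * MvPolynomial.X (some (c 0)) - C X else R

/-- The polynomial `Q` of the closed coordinates. -/
noncomputable def bkp (c : ℕ → Fin m) (W T : ℕ) (X : ℝ) (R : MvPolynomial (Option (Fin m)) ℝ)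
    (Q : Po) : MvPolynomial (Option (Fin m)) ℝ := bind₁ (bkv c W T X R) Q

/-- The closed coordinates of a point. -/
noncomputable def bkz (c : ℕ → Fin m) (W T : ℕ) (X : ℝ) (R : MvPolynomial (Option (Fin m)) ℝ)
    (b : Option (Fin m) → ℝ) : V3 := fun i => eval b (bkv c W T X R i)

theorem bkp_eval (c : ℕ → Fin m) (W T : ℕ) (X : ℝ) (R : MvPolynomial (Option (Fin m)) ℝ) (Q : Po)
    (b : Option (Fin m) → ℝ) : eval b (bkp c W T X R Q) = eval (bkz c W T X R b) Q :=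
  eval_bnd _ _ _

theorem bkz_zero (c : ℕ → Fin m) (W T : ℕ) (X : ℝ) (R : MvPolynomial (Option (Fin m)) ℝ)
    (b : Option (Fin m) → ℝ) : bkz c W T X R b 0 = 2 ^ W * b none - T := by
  show eval b (C (2 ^ W) * MvPolynomial.X none - C (T : ℝ)) = _
  rw [map_sub, map_mul, eval_C, eval_C, eval_X]

theorem bkz_one (c : ℕ → Fin m) (W T : ℕ) (X : ℝ) (R : MvPolynomial (Option (Fin m)) ℝ)
    (b : Option (Fin m) → ℝ) : bkz c W T X R b 1 = 2 ^ W * b (some (c 0)) - X := by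
  show eval b (C (2 ^ W) * MvPolynomial.X (some (c 0)) - C X) = _
  rw [map_sub, map_mul, eval_C, eval_C, eval_X]

theorem bkz_two (c : ℕ → Fin m) (W T : ℕ) (X : ℝ) (R : MvPolynomial (Option (Fin m)) ℝ)
    (b : Option (Fin m) → ℝ) : bkz c W T X R b 2 = eval b R := rfl

theorem bkp_deg (c : ℕ → Fin m) (W T : ℕ) (X : ℝ) {R : MvPolynomial (Option (Fin m)) ℝ} {Q : Po}
    {D K : ℕ} (hR : R.totalDegree ≤ D) (hQ : Q.totalDegree ≤ K) :
    (bkp c W T X R Q).totalDegree ≤ K * (D + 1) := by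
  refine (deg_bnd _ (K := D + 1) (fun i => ?_) Q).trans (Nat.mul_le_mul_right _ hQ)
  have h1 : ∀ (x y : ℝ) (o : Option (Fin m)),
      (C x * MvPolynomial.X o - C y : MvPolynomial (Option (Fin m)) ℝ).totalDegree ≤ D + 1 := by
    intro x y o
    refine (totalDegree_sub _ _).trans (max_le ?_ ?_)
    · refine (totalDegree_mul _ _).trans ?_
      rw [totalDegree_C, totalDegree_X]
      omega
    · rw [totalDegree_C]
      exact Nat.zero_le _
  unfold bkv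
  split_ifs
  · exact h1 _ _ _
  · exact h1 _ _ _
  · omega

/-- The third closed coordinate. -/
noncomputable def thr (c : ℕ → Fin m) (g : ℕ) (P : MvPolynomial (Option (Fin m)) ℝ) :
    MvPolynomial (Option (Fin m)) ℝ := C (2 ^ g) * (MvPolynomial.X (some (c 1)) - P)

theorem thr_deg (c : ℕ → Fin m) (g : ℕ) {P : MvPolynomial (Option (Fin m)) ℝ} {D : ℕ}
    (hP : P.totalDegree ≤ D) : (thr c g P).totalDegree ≤ D + 1 := by
  unfold thr
  refine (totalDegree_mul _ _).trans ?_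
  rw [totalDegree_C, zero_add]
  refine (totalDegree_sub _ _).trans (max_le ?_ (by omega))
  rw [totalDegree_X]
  omega

theorem thr_eval (c : ℕ → Fin m) (g : ℕ) (P : MvPolynomial (Option (Fin m)) ℝ)
    (b : Option (Fin m) → ℝ) : eval b (thr c g P) = 2 ^ g * (b (some (c 1)) - eval b P) := by
  unfold thr
  rw [map_mul, map_sub, eval_C, eval_X]

/-- The point with the closed coordinates of `b` agrees with `b`. -/
theorem back_one {c : ℕ → Fin m} {W g T : ℕ} {X : ℝ} {P R Q : MvPolynomial (Option (Fin m)) ℝ}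
    (hQ : DepC c 1 Q) (b : Option (Fin m) → ℝ) :
    eval (bkz c W T X R b) (npl c W g T X P Q) = eval b Q := by
  rw [npl_eval]
  have h2 : (2 : ℝ) ^ W ≠ 0 := by positivity
  refine hQ _ _ ?_ fun l hl => ?_
  · rw [vpt_none, Pi.add_apply, bkz_zero]
    show ((T : ℝ) + (2 ^ W * b none - T + (sh1 X) 0)) / 2 ^ W = _
    have : sh1 X 0 = 0 := by
      unfold sh1
      rw [if_neg (by decide)]
    rw [this]
    field_simp
    ring
  · have : l = 0 := by omega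
    subst this
    rw [vpt_zero, Pi.add_apply, bkz_one]
    have : sh1 X 1 = X := by
      unfold sh1
      rw [if_pos rfl]
    rw [this]
    field_simp
    ring

theorem back_two {c : ℕ → Fin m} (hc : Set.InjOn c (Set.Iio 2)) {W g T : ℕ} {X : ℝ}
    {P Q : MvPolynomial (Option (Fin m)) ℝ} (hP : DepC c 1 P)
    (hQ : DepC c 2 Q) (b : Option (Fin m) → ℝ) :
    eval (bkz c W T X (thr c g P) b) (npl c W g T X P Q) = eval b Q := by
  rw [npl_eval]
  have h2 : (2 : ℝ) ^ W ≠ 0 := by positivity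
  have h3 : (2 : ℝ) ^ g ≠ 0 := by positivity
  have hn : vpt c W g T P (bkz c W T X (thr c g P) b + sh1 X) none = b none := by
    rw [vpt_none, Pi.add_apply, bkz_zero]
    have : sh1 X 0 = 0 := by
      unfold sh1
      rw [if_neg (by decide)]
    rw [this]
    field_simp
    ring
  have h0 : vpt c W g T P (bkz c W T X (thr c g P) b + sh1 X) (some (c 0)) = b (some (c 0)) := by
    rw [vpt_zero, Pi.add_apply, bkz_one]
    have : sh1 X 1 = X := by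
      unfold sh1
      rw [if_pos rfl]
    rw [this]
    field_simp
    ring
  refine hQ _ _ hn fun l hl => ?_
  interval_cases l
  · exact h0
  · rw [vpt_one hc W g T hP]
    have h4 : eval (vpt c W g T P (bkz c W T X (thr c g P) b + sh1 X)) P = eval b P := by
      refine hP _ _ hn fun l hl => ?_
      have : l = 0 := by omega
      subst this
      exact h0
    rw [h4, Pi.add_apply, bkz_two, thr_eval]
    have : sh1 X 2 = 0 := by
      unfold sh1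
      rw [if_neg (by decide)]
    rw [this]
    field_simp
    ring

/-! ### The boxes -/

section Box

variable {F : Fam m J} {c : ℕ → Fin m} {W s n : ℕ} {g : ℕ → ℕ} {B : F.Ω → Prop}
    {G : PtT F → ℕ → MvPolynomial (Option (Fin m)) ℝ}

/-- A point of the closed unit cube near the sample. -/
theorem cub_pt (hW : W ≤ J) (hgW : g 0 ≤ W + s) (hG : ∀ y, DepC c 0 (G y 0))
    (hown : ∀ ω, B ω → ∀ t, |t - F.t ω| ≤ 1 / 2 ^ W →
      |opt F ω t (some (c 0)) - eval (opt F ω t) (G (ptr F J ω) 0)| ≤ 2 ^ s / 2 ^ g 0)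
    {ω : F.Ω} (hω : B ω) {X : ℝ} (hX : |X - 2 ^ W * F.x ω (c 0)| ≤ 2 ^ n) (g₁ : ℕ)
    (P : MvPolynomial (Option (Fin m)) ℝ) {z : V3} (hz : ∀ i, 0 ≤ z i ∧ z i ≤ 1) :
    |vpt c W g₁ (slam F W ω).2.2 P (z + sh1 X) none - F.t ω| ≤ 1 / 2 ^ W ∧
    |vpt c W g₁ (slam F W ω).2.2 P (z + sh1 X) (some (c 0)) -
      eval (vpt c W g₁ (slam F W ω).2.2 P (z + sh1 X)) (G (ptr F J ω) 0)| ≤
        2 ^ (n + s + 2) / 2 ^ g 0 := by
  obtain ⟨b, hb⟩ : ∃ b, b = vpt c W g₁ (slam F W ω).2.2 P (z + sh1 X) := ⟨_, rfl⟩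
  rw [← hb]
  have h2W : (0 : ℝ) < 2 ^ W := by positivity
  have hn : |b none - F.t ω| ≤ 1 / 2 ^ W := by
    rw [hb, vpt_none, t_rt F hW ω, ← sub_div, abs_div, abs_of_pos h2W]
    refine div_le_div_of_nonneg_right ?_ h2W.le
    have h1 := rt_mem F W ω
    have h2 := hz 0
    have h3 : (z + sh1 X) 0 = z 0 := by
      show z 0 + (if (0 : Fin 3) = 1 then X else 0) = z 0
      rw [if_neg (by decide), add_zero]
    rw [h3, abs_le]
    constructor <;> linarith [h1.1, h1.2, h2.1, h2.2]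
  refine ⟨hn, ?_⟩
  have hx : |b (some (c 0)) - F.x ω (c 0)| ≤ 2 ^ (n + 1) / 2 ^ W := by
    have h3 : (z + sh1 X) 1 = z 1 + X := by
      show z 1 + (if (1 : Fin 3) = 1 then X else 0) = z 1 + X
      rw [if_pos rfl]
    have e1 : b (some (c 0)) - F.x ω (c 0) = (z 1 + (X - 2 ^ W * F.x ω (c 0))) / 2 ^ W := by
      rw [hb, vpt_zero, h3]
      field_simp
      ring
    rw [e1, abs_div, abs_of_pos h2W]
    refine div_le_div_of_nonneg_right ?_ h2W.le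
    refine (abs_add_le _ _).trans ?_
    have h4 : |z 1| ≤ 1 := by
      rw [abs_of_nonneg (hz 1).1]
      exact (hz 1).2
    have h5 : (1 : ℝ) ≤ 2 ^ n := one_le_pow₀ (by norm_num)
    rw [pow_succ]
    linarith
  have h1 := hown ω hω (b none) hn
  have h2 : eval b (G (ptr F J ω) 0) = eval (opt F ω (b none)) (G (ptr F J ω) 0) :=
    hG _ _ _ (opt_none F ω _).symm fun l hl => absurd hl (Nat.not_lt_zero l)
  rw [h2]
  rw [opt_some] at h1
  have h3 : |(b none - F.t ω) * F.d ω (c 0)| ≤ 1 / 2 ^ W := by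
    rw [abs_mul]
    calc |b none - F.t ω| * |F.d ω (c 0)| ≤ 1 / 2 ^ W * 1 :=
          mul_le_mul hn (F.dir ω (c 0)) (abs_nonneg _) (by positivity)
      _ = _ := mul_one _
  have h4 : (1 : ℝ) / 2 ^ W ≤ 2 ^ s / 2 ^ g 0 := by
    rw [div_le_div_iff₀ (by positivity) (by positivity), one_mul, ← pow_add]
    exact pow_le_pow_right₀ (by norm_num) (by omega)
  have e1 : b (some (c 0)) - eval (opt F ω (b none)) (G (ptr F J ω) 0) =
      (b (some (c 0)) - F.x ω (c 0)) - (b none - F.t ω) * F.d ω (c 0) +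
      (F.x ω (c 0) + (b none - F.t ω) * F.d ω (c 0) -
        eval (opt F ω (b none)) (G (ptr F J ω) 0)) := by ring
  rw [e1]
  refine (abs_add_le _ _).trans ?_
  have h5 := abs_sub (b (some (c 0)) - F.x ω (c 0)) ((b none - F.t ω) * F.d ω (c 0))
  have h6 : (2 : ℝ) ^ (n + 1) / 2 ^ W ≤ 2 ^ (n + 1) * (2 ^ s / 2 ^ g 0) := by
    rw [div_eq_mul_one_div]
    exact mul_le_mul_of_nonneg_left h4 (by positivity)
  have h7 : (1 : ℝ) ≤ 2 ^ (n + 1) / 2 := by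
    rw [pow_succ, mul_div_assoc, div_self (by norm_num), mul_one]
    exact one_le_pow₀ (by norm_num)
  have h8 : (0 : ℝ) ≤ 2 ^ s / 2 ^ g 0 := by positivity
  have e2 : (2 : ℝ) ^ (n + s + 2) / 2 ^ g 0 = 2 * 2 ^ (n + 1) * (2 ^ s / 2 ^ g 0) := by
    have : n + s + 2 = (n + 1) + s + 1 := by omega
    rw [this, pow_succ, pow_add 2 (n + 1) s]
    ring
  rw [e2]
  have h9 : (2 : ℝ) * (2 ^ s / 2 ^ g 0) ≤ 2 ^ (n + 1) * (2 ^ s / 2 ^ g 0) :=
    mul_le_mul_of_nonneg_right (by linarith) h8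
  linarith

/-- The closed coordinates of a point of the natural box. -/
theorem nbx_pt (hW : W ≤ J) (hWg : W ≤ g 0 + s) (hG : ∀ y, DepC c 0 (G y 0))
    (hown : ∀ ω, B ω → ∀ t, |t - F.t ω| ≤ 1 / 2 ^ W →
      |opt F ω t (some (c 0)) - eval (opt F ω t) (G (ptr F J ω) 0)| ≤ 2 ^ s / 2 ^ g 0)
    {ω : F.Ω} (hω : B ω) {X : ℝ} (hX : |X - 2 ^ W * F.x ω (c 0)| ≤ 2 ^ n)
    {b : Option (Fin m) → ℝ} (hn : |b none - F.t ω| ≤ 1 / 2 ^ W)
    (h0 : |b (some (c 0)) - eval b (G (ptr F J ω) 0)| ≤ 1 / 2 ^ g 0) :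
    |2 ^ W * b none - (slam F W ω).2.2| ≤ 2 ^ 1 ∧
    |2 ^ W * b (some (c 0)) - X| ≤ 2 ^ (n + 2 * s + 3) := by
  have h2W : (0 : ℝ) < 2 ^ W := by positivity
  constructor
  · have h1 := rt_mem F W ω
    have e1 : (2 : ℝ) ^ W * b none - (slam F W ω).2.2 = 2 ^ W * (b none - F.t ω) + rt F W ω := by
      rw [t_rt F hW ω]
      field_simp
      ring
    rw [e1]
    have h2 : |2 ^ W * (b none - F.t ω)| ≤ 1 := by
      rw [abs_mul, abs_of_pos h2W]
      calc 2 ^ W * |b none - F.t ω| ≤ 2 ^ W * (1 / 2 ^ W) := mul_le_mul_of_nonneg_left hn h2W.le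
        _ = 1 := by field_simp
    refine (abs_add_le _ _).trans ?_
    rw [abs_of_nonneg h1.1]
    have := h1.2
    have e2 : (2 : ℝ) ^ 1 = 2 := pow_one 2
    rw [e2]
    linarith
  · have h1 := hown ω hω (b none) hn
    have h2 : eval b (G (ptr F J ω) 0) = eval (opt F ω (b none)) (G (ptr F J ω) 0) :=
      hG _ _ _ (opt_none F ω _).symm fun l hl => absurd hl (Nat.not_lt_zero l)
    rw [h2] at h0
    rw [opt_some] at h1
    have h3 : |(b none - F.t ω) * F.d ω (c 0)| ≤ 1 / 2 ^ W := by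
      rw [abs_mul]
      calc |b none - F.t ω| * |F.d ω (c 0)| ≤ 1 / 2 ^ W * 1 :=
            mul_le_mul hn (F.dir ω (c 0)) (abs_nonneg _) (by positivity)
        _ = _ := mul_one _
    have h4 : (1 : ℝ) / 2 ^ g 0 ≤ 2 ^ s / 2 ^ W := by
      rw [div_le_div_iff₀ (by positivity) (by positivity), one_mul, ← pow_add]
      exact pow_le_pow_right₀ (by norm_num) (by omega)
    have e1 : 2 ^ W * b (some (c 0)) - X = 2 ^ W * ((b (some (c 0)) -
        eval (opt F ω (b none)) (G (ptr F J ω) 0)) - (F.x ω (c 0) + (b none - F.t ω) * F.d ω (c 0) -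
        eval (opt F ω (b none)) (G (ptr F J ω) 0)) + (b none - F.t ω) * F.d ω (c 0)) -
        (X - 2 ^ W * F.x ω (c 0)) := by ring
    rw [e1]
    refine (abs_sub _ _).trans ?_
    have h5 : |(b (some (c 0)) - eval (opt F ω (b none)) (G (ptr F J ω) 0)) -
        (F.x ω (c 0) + (b none - F.t ω) * F.d ω (c 0) -
        eval (opt F ω (b none)) (G (ptr F J ω) 0)) + (b none - F.t ω) * F.d ω (c 0)| ≤
        2 ^ s / 2 ^ W + 2 ^ s * (2 ^ s / 2 ^ W) + 1 / 2 ^ W := by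
      refine (abs_add_le _ _).trans (add_le_add ((abs_sub _ _).trans (add_le_add ?_ ?_)) h3)
      · exact h0.trans h4
      · refine h1.trans ?_
        rw [div_eq_mul_one_div]
        exact mul_le_mul_of_nonneg_left h4 (by positivity)
    rw [abs_mul, abs_of_pos h2W]
    have h6 : 2 ^ W * |(b (some (c 0)) - eval (opt F ω (b none)) (G (ptr F J ω) 0)) -
        (F.x ω (c 0) + (b none - F.t ω) * F.d ω (c 0) -
        eval (opt F ω (b none)) (G (ptr F J ω) 0)) + (b none - F.t ω) * F.d ω (c 0)| ≤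
        2 ^ s + 2 ^ s * 2 ^ s + 1 := by
      refine (mul_le_mul_of_nonneg_left h5 h2W.le).trans (le_of_eq ?_)
      field_simp
    have h7 : (1 : ℝ) ≤ 2 ^ s := one_le_pow₀ (by norm_num)
    have h8 : (1 : ℝ) ≤ 2 ^ n := one_le_pow₀ (by norm_num)
    have h9 : (2 : ℝ) ^ s ≤ 2 ^ s * 2 ^ s := le_mul_of_one_le_left (by positivity) h7
    have h10 : (1 : ℝ) ≤ 2 ^ s * 2 ^ s := h7.trans h9
    have h11 : (2 : ℝ) ^ s * 2 ^ s ≤ 2 ^ n * (2 ^ s * 2 ^ s) :=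
      le_mul_of_one_le_left (by positivity) h8
    have h12 : (2 : ℝ) ^ n ≤ 2 ^ n * (2 ^ s * 2 ^ s) := le_mul_of_one_le_right (by positivity) h10
    have e2 : (2 : ℝ) ^ (n + 2 * s + 3) = 8 * (2 ^ n * (2 ^ s * 2 ^ s)) := by
      have : n + 2 * s + 3 = n + s + s + 3 := by omega
      rw [this, pow_add, pow_add, pow_add]
      ring
    rw [e2]
    linarith

end Box

/-! ### The closed position and the closed polynomial of `c 1` -/

/-- The closed position from a label of `c 0`. -/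
noncomputable def posX (W T : ℕ) (U θ : ℝ) (Q : MvPolynomial (Option (Fin m)) ℝ) : ℝ :=
  U * ⌊2 ^ W * eval (fun _ => (T : ℝ) / 2 ^ W) Q / U + θ⌋

theorem posX_near (W T : ℕ) {U θ : ℝ} (hU : 0 < U) (h0 : 0 ≤ θ) (h1 : θ ≤ 1)
    (Q : MvPolynomial (Option (Fin m)) ℝ) :
    |posX W T U θ Q - 2 ^ W * eval (fun _ => (T : ℝ) / 2 ^ W) Q| ≤ U := by
  unfold posX
  have h2 := Int.floor_le (2 ^ W * eval (fun _ => (T : ℝ) / 2 ^ W) Q / U + θ)
  have h3 := Int.lt_floor_add_one (2 ^ W * eval (fun _ => (T : ℝ) / 2 ^ W) Q / U + θ)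
  have e1 : U * ⌊2 ^ W * eval (fun _ => (T : ℝ) / 2 ^ W) Q / U + θ⌋ -
      2 ^ W * eval (fun _ => (T : ℝ) / 2 ^ W) Q =
      U * (⌊2 ^ W * eval (fun _ => (T : ℝ) / 2 ^ W) Q / U + θ⌋ -
        2 ^ W * eval (fun _ => (T : ℝ) / 2 ^ W) Q / U) := by
    field_simp
  rw [e1, abs_mul, abs_of_pos hU]
  refine mul_le_of_le_one_right hU.le ?_
  rw [abs_le]
  constructor <;> linarith

/-- The time of the left end of the window. -/
def tmT (J W : ℕ) {F : Fam m J} (y : PtT F) : ℕ := y.2.1 / 2 ^ (J - W)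

theorem Pe_sub_le {Ω : Type} [Fintype Ω] {p : Ω → ℝ} (hp : ∀ ω, 0 ≤ p ω) {A B : Ω → Prop}
    (h : ∀ ω, A ω → B ω) : Pe p A ≤ Pe p B := by
  classical
  rw [Pe_eq, Pe_eq]
  refine Finset.sum_le_sum fun ω _ => ?_
  by_cases h1 : A ω
  · rw [if_pos h1, if_pos (h ω h1)]
  · rw [if_neg h1]
    split_ifs
    exacts [hp ω, le_rfl]

/-- **A closed position of `c 0` and a closed polynomial of `c 1`.** -/
theorem cls_one (r D : ℕ) (hr : 2 ≤ r) : ∃ C D' : ℕ, ∀ {m J : ℕ} {F : Fam m J} {c : ℕ → Fin m}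
    {W e s : ℕ} {g : ℕ → ℕ} {B : F.Ω → Prop} {G : PtT F → ℕ → MvPolynomial (Option (Fin m)) ℝ}
    {H : LnT F → ℕ → MvPolynomial (Option (Fin m)) ℝ}, Set.InjOn c (Set.Iio 2) → W ≤ J →
    ChOK F c r (fun _ => D) W W e g B G H →
    (∀ ω, B ω → ∀ t, |t - F.t ω| ≤ 1 / 2 ^ W →
      |opt F ω t (some (c 0)) - eval (opt F ω t) (G (ptr F J ω) 0)| ≤ 2 ^ s / 2 ^ g 0) →
    W ≤ g 0 + s → g 0 ≤ W + s →
    ∃ (B' : F.Ω → Prop) (xP : PtT F → ℝ) (xH : LnT F → ℝ)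
      (pP : PtT F → MvPolynomial (Option (Fin m)) ℝ)
      (pH : LnT F → MvPolynomial (Option (Fin m)) ℝ), Sub B' B ∧
      (1 - 1 / 8) * ((1 - 1 / 8) * Pe F.p B) ≤ Pe F.p B' ∧ (∀ y, (pP y).totalDegree ≤ D') ∧
      (∀ S, (pH S).totalDegree ≤ D') ∧ (∀ y, DepC c 1 (pP y)) ∧ (∀ S, DepC c 1 (pH S)) ∧
      (∀ ω, B' ω → xP (ptr F J ω) = xH (slam F W ω)) ∧
      (∀ ω, B' ω → |xP (ptr F J ω) - 2 ^ W * F.x ω (c 0)| ≤ 2 ^ (2 * s + 5)) ∧
      (∀ ω, B' ω → pP (ptr F J ω) = pH (slam F W ω)) ∧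
      ∀ ω, B' ω → ∀ b, NBx c (G (ptr F J ω)) g W (F.t ω) 1 b →
        |eval b (pP (ptr F J ω)) - eval b (G (ptr F J ω) 1)| ≤ 2 ^ (C * (s + 1)) / 2 ^ g 1 := by
  classical
  obtain ⟨c₀, D₁, hD₁, hdil⟩ := nbx_dil 2 (fun _ => D)
  obtain ⟨K, hK⟩ : ∃ K, K = D * (D + 1) := ⟨_, rfl⟩
  obtain ⟨C₁, hC₁, hrnd⟩ := rnd_pol 3 K
  obtain ⟨N, hN⟩ : ∃ N, N = (bx 3 (3 * K)).card := ⟨_, rfl⟩
  obtain ⟨k₁, hk₁⟩ := pow_unbounded_of_one_lt (N * C₁) (one_lt_two (α := ℝ))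
  obtain ⟨E, hE⟩ : ∃ E, E = 3 * (3 * K) := ⟨_, rfl⟩
  refine ⟨k₁ + c₀ + 10 * D₁ + 13 * E, 3 * K, ?_⟩
  intro m J F c W e s g B G H hc hW hok hown hWg hgW
  have pw : ∀ {x y : ℕ}, x ≤ y → (2 : ℝ) ^ x ≤ 2 ^ y := fun h => pow_le_pow_right₀ (by norm_num) h
  have hp : ∀ ω, 0 ≤ F.p ω := F.isLaw.nonneg
  have h2W : (0 : ℝ) < 2 ^ W := by positivity
  have hG0 : ∀ y, DepC c 0 (G y 0) := fun y => hok.depG y 0
  -- the position
  obtain ⟨U₀, hU₀⟩ : ∃ U₀ : ℝ, U₀ = 16 * 2 ^ s := ⟨_, rfl⟩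
  have hU0 : 0 < U₀ := by rw [hU₀]; positivity
  have htm : ∀ ω, |((slam F W ω).2.2 : ℝ) / 2 ^ W - F.t ω| ≤ 1 / 2 ^ W := by
    intro ω
    have h1 := rt_mem F W ω
    rw [t_rt F hW ω, ← sub_div, abs_div, abs_of_pos h2W]
    refine div_le_div_of_nonneg_right ?_ h2W.le
    rw [abs_le]
    constructor <;> linarith [h1.1, h1.2]
  have hv : ∀ ω, B ω → |2 ^ W * eval (fun _ => ((slam F W ω).2.2 : ℝ) / 2 ^ W)
      (G (ptr F J ω) 0) - 2 ^ W * eval (fun _ => ((slam F W ω).2.2 : ℝ) / 2 ^ W)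
      (H (slam F W ω) 0)| ≤ 2 ^ s := by
    intro ω hω
    rw [← mul_sub, abs_mul, abs_of_pos h2W]
    have h1 := hok.agr ω hω 0 (by omega) (fun _ => ((slam F W ω).2.2 : ℝ) / 2 ^ W)
      ⟨htm ω, fun l hl => absurd hl (Nat.not_lt_zero l)⟩
    calc 2 ^ W * |eval (fun _ => ((slam F W ω).2.2 : ℝ) / 2 ^ W) (G (ptr F J ω) 0) -
          eval (fun _ => ((slam F W ω).2.2 : ℝ) / 2 ^ W) (H (slam F W ω) 0)| ≤
          2 ^ W * (1 / 2 ^ g 0) := mul_le_mul_of_nonneg_left h1 h2W.le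
      _ ≤ 2 ^ s := by
          rw [mul_one_div, div_le_iff₀ (by positivity), ← pow_add]
          exact pw (by omega)
  have hvx : ∀ ω, B ω → |2 ^ W * eval (fun _ => ((slam F W ω).2.2 : ℝ) / 2 ^ W)
      (G (ptr F J ω) 0) - 2 ^ W * F.x ω (c 0)| ≤ 2 ^ (2 * s + 1) := by
    intro ω hω
    obtain ⟨t₀, ht₀⟩ : ∃ t₀ : ℝ, t₀ = ((slam F W ω).2.2 : ℝ) / 2 ^ W := ⟨_, rfl⟩
    have h0 := htm ω
    rw [← ht₀] at h0 ⊢
    have h1 := hown ω hω t₀ h0
    have h2 : eval (fun _ => t₀) (G (ptr F J ω) 0) = eval (opt F ω t₀) (G (ptr F J ω) 0) :=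
      hG0 _ _ _ (opt_none F ω _).symm fun l hl => absurd hl (Nat.not_lt_zero l)
    rw [h2, ← mul_sub, abs_mul, abs_of_pos h2W]
    rw [opt_some] at h1
    have h3 : |(t₀ - F.t ω) * F.d ω (c 0)| ≤ 1 / 2 ^ W := by
      rw [abs_mul]
      calc |t₀ - F.t ω| * |F.d ω (c 0)| ≤ 1 / 2 ^ W * 1 :=
            mul_le_mul h0 (F.dir ω (c 0)) (abs_nonneg _) (by positivity)
        _ = _ := mul_one _
    have e1 : eval (opt F ω t₀) (G (ptr F J ω) 0) - F.x ω (c 0) =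
        (t₀ - F.t ω) * F.d ω (c 0) - (F.x ω (c 0) + (t₀ - F.t ω) * F.d ω (c 0) -
          eval (opt F ω t₀) (G (ptr F J ω) 0)) := by ring
    rw [e1]
    have h4 := (abs_sub ((t₀ - F.t ω) * F.d ω (c 0)) (F.x ω (c 0) + (t₀ - F.t ω) * F.d ω (c 0) -
          eval (opt F ω t₀) (G (ptr F J ω) 0))).trans (add_le_add h3 h1)
    refine (mul_le_mul_of_nonneg_left h4 h2W.le).trans ?_
    have h5 : (2 : ℝ) ^ W * (2 ^ s / 2 ^ g 0) ≤ 2 ^ (2 * s) := by
      rw [mul_div_assoc', div_le_iff₀ (by positivity), ← pow_add, ← pow_add]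
      exact pw (by omega)
    have h6 : (1 : ℝ) ≤ 2 ^ (2 * s) := one_le_pow₀ (by norm_num)
    have e2 : (2 : ℝ) ^ W * (1 / 2 ^ W + 2 ^ s / 2 ^ g 0) = 1 + 2 ^ W * (2 ^ s / 2 ^ g 0) := by
      field_simp
    rw [e2, pow_succ]
    linarith
  obtain ⟨θ₀, hθ₀, hPe₀⟩ := Pool.STB65.rnd_all (ι := Unit) hp B {()}
    (fun _ ω => 2 ^ W * eval (fun _ => ((slam F W ω).2.2 : ℝ) / 2 ^ W) (G (ptr F J ω) 0) / U₀)
    (fun _ ω => 2 ^ W * eval (fun _ => ((slam F W ω).2.2 : ℝ) / 2 ^ W) (H (slam F W ω) 0) / U₀)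
    (ε := 1 / 16) (ε' := 1 / 8) (by norm_num) (fun _ _ ω hω => by
      rw [← sub_div, abs_div, abs_of_pos hU0, div_le_iff₀ hU0, hU₀]
      refine (hv ω hω).trans (le_of_eq ?_)
      ring)
  obtain ⟨xP, hxP⟩ : ∃ xP : PtT F → ℝ, xP = fun y => posX W (tmT J W y) U₀ (θ₀ ()) (G y 0) :=
    ⟨_, rfl⟩
  obtain ⟨xH, hxH⟩ : ∃ xH : LnT F → ℝ, xH = fun S => posX W S.2.2 U₀ (θ₀ ()) (H S 0) :=
    ⟨_, rfl⟩
  obtain ⟨B₁, hB₁⟩ : ∃ B₁ : F.Ω → Prop, B₁ = fun ω => B ω ∧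
    xP (ptr F J ω) = xH (slam F W ω) := ⟨_, rfl⟩
  have hB1 : (1 - 1 / 8) * Pe F.p B ≤ Pe F.p B₁ := by
    rw [Finset.card_singleton, Nat.cast_one, one_mul] at hPe₀
    refine hPe₀.trans (Pe_sub_le hp fun ω hω => ?_)
    rw [hB₁]
    refine ⟨hω.1, ?_⟩
    rw [hxP, hxH]
    show U₀ * _ = U₀ * _
    have h1 := hω.2 () (Finset.mem_singleton_self _)
    have h2 : tmT J W (ptr F J ω) = (slam F W ω).2.2 := rfl
    rw [h2, h1]
  have hxn : ∀ ω, B ω → |xP (ptr F J ω) - 2 ^ W * F.x ω (c 0)| ≤ 2 ^ (2 * s + 5) := by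
    intro ω hω
    have h1 : |xP (ptr F J ω) - 2 ^ W * eval (fun _ => ((slam F W ω).2.2 : ℝ) / 2 ^ W)
        (G (ptr F J ω) 0)| ≤ U₀ := by
      rw [hxP]
      exact posX_near W (slam F W ω).2.2 hU0 (hθ₀ ()).1 (hθ₀ ()).2 (G (ptr F J ω) 0)
    have h2 := hvx ω hω
    have h3 := (abs_sub_le (xP (ptr F J ω)) (2 ^ W * eval (fun _ => ((slam F W ω).2.2 : ℝ) / 2 ^ W)
        (G (ptr F J ω) 0)) (2 ^ W * F.x ω (c 0))).trans (add_le_add h1 h2)
    refine h3.trans ?_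
    rw [hU₀]
    have h4 : (2 : ℝ) ^ s ≤ 2 ^ (2 * s) := pw (by omega)
    rw [pow_add 2 (2 * s) 5, pow_succ]
    have h5 : (0 : ℝ) ≤ 2 ^ (2 * s) := by positivity
    norm_num
    linarith
  -- the polynomial
  obtain ⟨M, hM⟩ : ∃ M : ℝ, M = 2 ^ (c₀ + (2 * s + 5 + s + 2) * D₁) * (1 / 2 ^ g 1) := ⟨_, rfl⟩
  have hM0 : 0 < M := by rw [hM]; positivity
  obtain ⟨NP, hNP⟩ : ∃ NP : PtT F → Po, NP = fun y =>
    npl c W 0 (tmT J W y) (xP y) 0 (G y 1) := ⟨_, rfl⟩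
  obtain ⟨NH, hNH⟩ : ∃ NH : LnT F → Po, NH = fun S => npl c W 0 S.2.2 (xH S) 0 (H S 1) :=
    ⟨_, rfl⟩
  have hz0 : (0 : MvPolynomial (Option (Fin m)) ℝ).totalDegree ≤ D := by
    rw [totalDegree_zero]
    exact Nat.zero_le _
  have hNPd : ∀ y, (NP y).totalDegree ≤ K := fun y => by
    rw [hNP, hK]
    exact npl_deg _ _ _ _ _ hz0 (hok.degG y 1)
  have hNHd : ∀ S, (NH S).totalDegree ≤ K := fun S => by
    rw [hNH, hK]
    exact npl_deg _ _ _ _ _ hz0 (hok.degH S 1)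
  obtain ⟨θ, hθ, hPe₁⟩ := hrnd hp B₁ (fun ω => NP (ptr F J ω)) (fun ω => NH (slam F W ω)) M hM0
    (fun ω => hNPd _) (fun ω => hNHd _) (fun ω hω y hy => by
      rw [hB₁] at hω
      show |eval y (NP (ptr F J ω)) - eval y (NH (slam F W ω))| ≤ M
      rw [hNP, hNH]
      show |eval y (npl c W 0 (slam F W ω).2.2 (xP (ptr F J ω)) 0 (G (ptr F J ω) 1)) -
        eval y (npl c W 0 (slam F W ω).2.2 (xH (slam F W ω)) 0 (H (slam F W ω) 1))| ≤ M
      rw [← hω.2, npl_eval, npl_eval, ← map_sub, hM]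
      obtain ⟨k1, k2⟩ := cub_pt (n := 2 * s + 5) hW hgW hG0 hown hω.1 (hxn ω hω.1) 0
        (0 : MvPolynomial (Option (Fin m)) ℝ) hy
      exact hdil (c := c) (i := 1) (G := G (ptr F J ω)) (Q := G (ptr F J ω) 1 - H (slam F W ω) 1)
        (g := g) (a := W) (t := F.t ω) (M := 1 / 2 ^ g 1) (2 * s + 5 + s + 2) (by norm_num)
        (hc.mono fun x (hx : x < 1) => show x < 2 by omega) (hok.degG _) (hok.depG _)
        (fun b b' hn hb => by rw [map_sub, map_sub, hok.depG _ 1 b b' hn hb,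
          hok.depH _ 1 b b' hn hb])
        ((totalDegree_sub _ _).trans (max_le (hok.degG _ _) (hok.degH _ _))) (by positivity)
        (fun b hb => by rw [map_sub]; exact hok.agr ω hω.1 1 (by omega) b hb) _ k1
        (fun l hl => by
          have : l = 0 := by omega
          subst this
          exact k2))
  obtain ⟨U, hU⟩ : ∃ U : ℝ, U = C₁ * M := ⟨_, rfl⟩
  have hUpos : 0 < U := by rw [hU]; exact mul_pos (by linarith) hM0
  rw [← hU] at hPe₁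
  obtain ⟨pP, hpP⟩ : ∃ pP : PtT F → MvPolynomial (Option (Fin m)) ℝ, pP = fun y =>
    bkp c W (tmT J W y) (xP y) 0 (rdo 3 K U θ (NP y)) := ⟨_, rfl⟩
  obtain ⟨pH, hpH⟩ : ∃ pH : LnT F → MvPolynomial (Option (Fin m)) ℝ, pH = fun S =>
    bkp c W S.2.2 (xH S) 0 (rdo 3 K U θ (NH S)) := ⟨_, rfl⟩
  have hdep : ∀ (T : ℕ) (X : ℝ) (Q : Po), DepC c 1 (bkp c W T X 0 Q) := by
    intro T X Q b b' hn hb
    rw [bkp_eval, bkp_eval]
    congr 1
    congr 1
    funext i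
    fin_cases i
    · show bkz c W T X 0 b 0 = bkz c W T X 0 b' 0
      rw [bkz_zero, bkz_zero, hn]
    · show bkz c W T X 0 b 1 = bkz c W T X 0 b' 1
      rw [bkz_one, bkz_one, hb 0 one_pos]
    · show bkz c W T X 0 b 2 = bkz c W T X 0 b' 2
      rw [bkz_two, bkz_two, map_zero, map_zero]
  have hdeg : ∀ (T : ℕ) (X : ℝ) (Q : Po), (bkp c W T X 0 (rdo 3 K U θ Q)).totalDegree ≤
      3 * K := by
    intro T X Q
    refine (bkp_deg (D := 0) (K := 3 * K) c W T X ?_ (rdo_deg _ _ _ _ _)).trans ?_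
    · rw [totalDegree_zero]
    · omega
  refine ⟨fun ω => B₁ ω ∧ rdo 3 K U θ (NP (ptr F J ω)) = rdo 3 K U θ (NH (slam F W ω)), xP, xH,
    pP, pH, fun ω hω => ?_, ?_, fun y => ?_, fun S => ?_, fun y => ?_, fun S => ?_, fun ω hω => ?_,
    fun ω hω => ?_, fun ω hω => ?_, fun ω hω b hb => ?_⟩
  · have := hω.1
    rw [hB₁] at this
    exact this.1
  · exact (mul_le_mul_of_nonneg_left hB1 (by norm_num)).trans hPe₁
  · rw [hpP]
    exact hdeg _ _ _
  · rw [hpH]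
    exact hdeg _ _ _
  · rw [hpP]
    exact hdep _ _ _
  · rw [hpH]
    exact hdep _ _ _
  · have := hω.1
    rw [hB₁] at this
    exact this.2
  · have := hω.1
    rw [hB₁] at this
    exact hxn ω this.1
  · have h1 := hω.1
    rw [hB₁] at h1
    rw [hpP, hpH]
    show bkp c W (slam F W ω).2.2 (xP (ptr F J ω)) 0 _ = bkp c W (slam F W ω).2.2 _ 0 _
    rw [h1.2, hω.2]
  · have h1 := hω.1
    rw [hB₁] at h1
    have hωB := h1.1
    rw [hpP]
    show |eval b (bkp c W (slam F W ω).2.2 (xP (ptr F J ω)) 0 (rdo 3 K U θ (NP (ptr F J ω)))) - _| ≤ _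
    rw [bkp_eval, ← back_one (W := W) (g := 0) (T := (slam F W ω).2.2) (X := xP (ptr F J ω))
      (P := 0) (R := 0) (hok.depG (ptr F J ω) 1) b]
    have e1 : NP (ptr F J ω) = npl c W 0 (slam F W ω).2.2 (xP (ptr F J ω)) 0 (G (ptr F J ω) 1) := by
      rw [hNP]
      rfl
    rw [← e1, abs_sub_comm]
    obtain ⟨k1, k2⟩ := nbx_pt (n := 2 * s + 5) hW hWg hG0 hown hωB (hxn ω hωB) hb.1 (hb.2 0 one_pos)
    obtain ⟨ρ, hρ⟩ : ∃ ρ : ℝ, ρ = 2 ^ (2 * s + 5 + 2 * s + 3) := ⟨_, rfl⟩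
    have hρ1 : 1 ≤ ρ := by rw [hρ]; exact one_le_pow₀ (by norm_num)
    have h3 := rdo_near (n := 3) (K := K) hUpos hθ (hNPd (ptr F J ω)) (by norm_num) hρ1
      (y := bkz c W (slam F W ω).2.2 (xP (ptr F J ω)) 0 b) (fun i => by
        fin_cases i
        · show |bkz c W (slam F W ω).2.2 (xP (ptr F J ω)) 0 b 0| ≤ ρ
          rw [bkz_zero, hρ]
          exact k1.trans (pw (by omega))
        · show |bkz c W (slam F W ω).2.2 (xP (ptr F J ω)) 0 b 1| ≤ ρ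
          rw [bkz_one, hρ]
          exact k2
        · show |bkz c W (slam F W ω).2.2 (xP (ptr F J ω)) 0 b 2| ≤ ρ
          rw [bkz_two, map_zero, abs_zero]
          linarith)
    refine h3.trans ?_
    rw [← hN, ← hE, hρ, hU, hM, ← pow_mul]
    have h4 : (N : ℝ) * (C₁ * (2 ^ (c₀ + (2 * s + 5 + s + 2) * D₁) * (1 / 2 ^ g 1)) *
        2 ^ ((2 * s + 5 + 2 * s + 3) * E)) = N * C₁ * 2 ^ (c₀ + (2 * s + 5 + s + 2) * D₁ +
          (2 * s + 5 + 2 * s + 3) * E) / 2 ^ g 1 := by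
      rw [pow_add 2 (c₀ + (2 * s + 5 + s + 2) * D₁)]
      ring
    rw [h4]
    refine div_le_div_of_nonneg_right ?_ (by positivity)
    refine (mul_le_mul_of_nonneg_right hk₁.le (by positivity)).trans ?_
    rw [← pow_add]
    exact pw (by nlinarith [Nat.zero_le (k₁ * s), Nat.zero_le (c₀ * s), Nat.zero_le (D₁ * s),
      Nat.zero_le (E * s)])

end Pool.STB77
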