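import Pool.Agent.H77.STB.Clp

/-!
# A closed polynomial near a target

`cls_tgt`: a target over `c 0`, `c 1` (a visible and a closed polynomial which are near on the natural
box) has a closed polynomial near it. `cls_pol`: closed polynomials of `c 1` and `c 2`.
-/

set_option autoImplicit false

namespace Pool.STB77

open Finset Real MvPolynomial
open Pool.Agent.H49.Ent Pool.Agent.H32.Dense Pool.STK Pool.KA Pool.KSAT Pool.K2S Pool.PB Pool.S6C
open Pool.GEN Pool.CHT Pool.NVX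
open Pool.STB (V3 Po Bx)
open Pool.STB65 (trs eval_trs deg_trs)
open Pool.Agent.H36.KBX (bx)
open Pool.PB.Trl (rt rt_mem t_rt)

variable {m J : ℕ}

/-- The closed cylinder: the third closed coordinate of a point of the closed cube. -/
theorem vpt_cub_one {c : ℕ → Fin m} (hc : Set.InjOn c (Set.Iio 2)) (W g T : ℕ) (X : ℝ)
    {P : MvPolynomial (Option (Fin m)) ℝ} (hP : DepC c 1 P) (z : V3) :
    vpt c W g T P (z + sh1 X) (some (c 1)) = eval (vpt c W g T P (z + sh1 X)) P + z 2 / 2 ^ g := by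
  rw [vpt_one hc W g T hP]
  have h1 : (z + sh1 X) 2 = z 2 := by
    show z 2 + (if (2 : Fin 3) = 1 then X else 0) = z 2
    rw [if_neg (by decide), add_zero]
  rw [h1]

/-- **A closed polynomial near a target over `c 0`, `c 1`.** -/
theorem cls_tgt (r D : ℕ) (hr : 2 ≤ r) : ∃ C D' : ℕ, ∀ {m J : ℕ} {F : Fam m J} {c : ℕ → Fin m}
    {W e s : ℕ} {g : ℕ → ℕ} {B : F.Ω → Prop} {G : PtT F → ℕ → MvPolynomial (Option (Fin m)) ℝ}
    {H : LnT F → ℕ → MvPolynomial (Option (Fin m)) ℝ} {xP : PtT F → ℝ} {xH : LnT F → ℝ}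
    {pP : PtT F → MvPolynomial (Option (Fin m)) ℝ} {pH : LnT F → MvPolynomial (Option (Fin m)) ℝ}
    {QP : PtT F → MvPolynomial (Option (Fin m)) ℝ} {QH : LnT F → MvPolynomial (Option (Fin m)) ℝ}
    {M : ℝ}, Set.InjOn c (Set.Iio 2) → W ≤ J → ChOK F c r (fun _ => D) W W e g B G H →
    (∀ ω, B ω → ∀ t, |t - F.t ω| ≤ 1 / 2 ^ W →
      |opt F ω t (some (c 0)) - eval (opt F ω t) (G (ptr F J ω) 0)| ≤ 2 ^ s / 2 ^ g 0) →
    W ≤ g 0 + s → g 0 ≤ W + s → (∀ y, (pP y).totalDegree ≤ D) → (∀ S, (pH S).totalDegree ≤ D) →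
    (∀ y, DepC c 1 (pP y)) → (∀ S, DepC c 1 (pH S)) →
    (∀ ω, B ω → xP (ptr F J ω) = xH (slam F W ω)) →
    (∀ ω, B ω → |xP (ptr F J ω) - 2 ^ W * F.x ω (c 0)| ≤ 2 ^ s) →
    (∀ ω, B ω → pP (ptr F J ω) = pH (slam F W ω)) →
    (∀ ω, B ω → ∀ b, NBx c (G (ptr F J ω)) g W (F.t ω) 1 b →
      |eval b (pP (ptr F J ω)) - eval b (G (ptr F J ω) 1)| ≤ 2 ^ s / 2 ^ g 1) →
    (∀ y, (QP y).totalDegree ≤ D) → (∀ S, (QH S).totalDegree ≤ D) → (∀ y, DepC c 2 (QP y)) →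
    (∀ S, DepC c 2 (QH S)) → 0 < M →
    (∀ ω, B ω → ∀ b, NBx c (G (ptr F J ω)) g W (F.t ω) 2 b →
      |eval b (QP (ptr F J ω)) - eval b (QH (slam F W ω))| ≤ M) →
    ∃ (B' : F.Ω → Prop) (zP : PtT F → MvPolynomial (Option (Fin m)) ℝ)
      (zH : LnT F → MvPolynomial (Option (Fin m)) ℝ), Sub B' B ∧
      (1 - 1 / 8) * Pe F.p B ≤ Pe F.p B' ∧ (∀ y, (zP y).totalDegree ≤ D') ∧
      (∀ S, (zH S).totalDegree ≤ D') ∧ (∀ y, DepC c 2 (zP y)) ∧ (∀ S, DepC c 2 (zH S)) ∧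
      (∀ ω, B' ω → zP (ptr F J ω) = zH (slam F W ω)) ∧
      ∀ ω, B' ω → ∀ b, NBx c (G (ptr F J ω)) g W (F.t ω) 2 b →
        |eval b (zP (ptr F J ω)) - eval b (QP (ptr F J ω))| ≤ 2 ^ (C * (s + 1)) * M := by
  classical
  obtain ⟨c₀, D₁, hD₁, hdil⟩ := nbx_dil 3 (fun _ => D)
  obtain ⟨K, hK⟩ : ∃ K, K = D * (D + 1) := ⟨_, rfl⟩
  obtain ⟨C₁, hC₁, hrnd⟩ := rnd_pol 3 K
  obtain ⟨N, hN⟩ : ∃ N, N = (bx 3 (3 * K)).card := ⟨_, rfl⟩
  obtain ⟨k₁, hk₁⟩ := pow_unbounded_of_one_lt (N * C₁) (one_lt_two (α := ℝ))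
  obtain ⟨E, hE⟩ : ∃ E, E = 3 * (3 * K) := ⟨_, rfl⟩
  -- dilations: `n₂ = c₀ + (2 s + 2) D₁ + s + 1` for the cube
  refine ⟨k₁ + c₀ + (c₀ + 4 * D₁ + 2) * D₁ + 8 * E, 3 * K * (D + 1 + 1), ?_⟩
  intro m J F c W e s g B G H xP xH pP pH QP QH M hc hW hok hown hWg hgW hpd hhd hpe hhe hx hxn
    hpc hpn hQd hRd hQe hRe hM0 hQR
  have pw : ∀ {x y : ℕ}, x ≤ y → (2 : ℝ) ^ x ≤ 2 ^ y := fun h => pow_le_pow_right₀ (by norm_num) h
  have hp : ∀ ω, 0 ≤ F.p ω := F.isLaw.nonneg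
  have hG0 : ∀ y, DepC c 0 (G y 0) := fun y => hok.depG y 0
  obtain ⟨n₂, hn₂⟩ : ∃ n₂, n₂ = c₀ + (s + s + 2) * D₁ + s + 1 := ⟨_, rfl⟩
  obtain ⟨M', hM'⟩ : ∃ M' : ℝ, M' = 2 ^ (c₀ + n₂ * D₁) * M := ⟨_, rfl⟩
  have hM'0 : 0 < M' := by rw [hM']; positivity
  obtain ⟨NP, hNP⟩ : ∃ NP : PtT F → Po, NP = fun y =>
    npl c W (g 1) (tmT J W y) (xP y) (pP y) (QP y) := ⟨_, rfl⟩
  obtain ⟨NH, hNH⟩ : ∃ NH : LnT F → Po, NH = fun S =>
    npl c W (g 1) S.2.2 (xH S) (pH S) (QH S) := ⟨_, rfl⟩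
  have hNPd : ∀ y, (NP y).totalDegree ≤ K := fun y => by
    rw [hNP, hK]
    exact npl_deg _ _ _ _ _ (hpd y) (hQd y)
  have hNHd : ∀ S, (NH S).totalDegree ≤ K := fun S => by
    rw [hNH, hK]
    exact npl_deg _ _ _ _ _ (hhd S) (hRd S)
  obtain ⟨θ, hθ, hPe₁⟩ := hrnd hp B (fun ω => NP (ptr F J ω)) (fun ω => NH (slam F W ω)) M' hM'0
    (fun ω => hNPd _) (fun ω => hNHd _) (fun ω hω y hy => by
      show |eval y (NP (ptr F J ω)) - eval y (NH (slam F W ω))| ≤ M'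
      rw [hNP, hNH]
      show |eval y (npl c W (g 1) (slam F W ω).2.2 (xP (ptr F J ω)) (pP (ptr F J ω))
          (QP (ptr F J ω))) -
        eval y (npl c W (g 1) (slam F W ω).2.2 (xH (slam F W ω)) (pH (slam F W ω))
          (QH (slam F W ω)))| ≤ M'
      rw [← hx ω hω, ← hpc ω hω, npl_eval, npl_eval, ← map_sub, hM']
      obtain ⟨k1, k2⟩ := cub_pt (n := s) hW hgW hG0 hown hω (hxn ω hω) (g 1)
        (pP (ptr F J ω)) hy
      obtain ⟨b, hb⟩ : ∃ b, b = vpt c W (g 1) (slam F W ω).2.2 (pP (ptr F J ω))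
        (y + sh1 (xP (ptr F J ω))) := ⟨_, rfl⟩
      have hb1 : b (some (c 1)) = eval b (pP (ptr F J ω)) + y 2 / 2 ^ g 1 := by
        rw [hb]
        exact vpt_cub_one hc W (g 1) _ _ (hpe _) y
      rw [← hb] at k1 k2 ⊢
      have k3 := hdil (c := c) (i := 1) (G := G (ptr F J ω)) (Q := pP (ptr F J ω) -
          G (ptr F J ω) 1) (g := g) (a := W) (t := F.t ω) (M := 2 ^ s / 2 ^ g 1) (s + s + 2)
        (by norm_num)
        (hc.mono fun x (hx : x < 1) => show x < 2 by omega) (hok.degG _) (hok.depG _)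
        (fun b b' hn hb => by rw [map_sub, map_sub, hok.depG _ 1 b b' hn hb, hpe _ b b' hn hb])
        ((totalDegree_sub _ _).trans (max_le (hpd _) (hok.degG _ _))) (by positivity)
        (fun b hb => by rw [map_sub]; exact hpn ω hω b hb) b k1
        (fun l hl => by
          have : l = 0 := by omega
          subst this
          exact k2)
      rw [map_sub] at k3
      have k4 : |b (some (c 1)) - eval b (G (ptr F J ω) 1)| ≤ 2 ^ n₂ / 2 ^ g 1 := by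
        have e1 : b (some (c 1)) - eval b (G (ptr F J ω) 1) =
            (eval b (pP (ptr F J ω)) - eval b (G (ptr F J ω) 1)) + y 2 / 2 ^ g 1 := by
          rw [hb1]
          ring
        rw [e1]
        refine (abs_add_le _ _).trans ?_
        have h1 : |y 2 / 2 ^ g 1| ≤ 1 / 2 ^ g 1 := by
          rw [abs_div, abs_of_pos (by positivity : (0:ℝ) < 2 ^ g 1), abs_of_nonneg (hy 2).1]
          exact div_le_div_of_nonneg_right (hy 2).2 (by positivity)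
        have h2 : (2 : ℝ) ^ (c₀ + (s + s + 2) * D₁) * (2 ^ s / 2 ^ g 1) + 1 / 2 ^ g 1 ≤
            2 ^ n₂ / 2 ^ g 1 := by
          rw [mul_div_assoc', ← add_div, hn₂]
          refine div_le_div_of_nonneg_right ?_ (by positivity)
          rw [← pow_add, pow_succ]
          have h3 : (1 : ℝ) ≤ 2 ^ (c₀ + (s + s + 2) * D₁ + s) := one_le_pow₀ (by norm_num)
          linarith
        linarith
      exact hdil (c := c) (i := 2) (G := G (ptr F J ω)) (Q := QP (ptr F J ω) - QH (slam F W ω))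
        (g := g) (a := W) (t := F.t ω) (M := M) n₂ (by norm_num) hc (hok.degG _) (hok.depG _)
        (fun b b' hn hb => by rw [map_sub, map_sub, hQe _ b b' hn hb, hRe _ b b' hn hb])
        ((totalDegree_sub _ _).trans (max_le (hQd _) (hRd _))) hM0.le
        (fun b hb => by rw [map_sub]; exact hQR ω hω b hb) _ k1
        (fun l hl => by
          interval_cases l
          · refine k2.trans (div_le_div_of_nonneg_right (pw ?_) (by positivity))
            rw [hn₂]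
            nlinarith
          · exact k4))
  obtain ⟨U, hU⟩ : ∃ U : ℝ, U = C₁ * M' := ⟨_, rfl⟩
  have hUpos : 0 < U := by rw [hU]; exact mul_pos (by linarith) hM'0
  rw [← hU] at hPe₁
  obtain ⟨zP, hzP⟩ : ∃ zP : PtT F → MvPolynomial (Option (Fin m)) ℝ, zP = fun y =>
    bkp c W (tmT J W y) (xP y) (thr c (g 1) (pP y)) (rdo 3 K U θ (NP y)) := ⟨_, rfl⟩
  obtain ⟨zH, hzH⟩ : ∃ zH : LnT F → MvPolynomial (Option (Fin m)) ℝ, zH = fun S =>
    bkp c W S.2.2 (xH S) (thr c (g 1) (pH S)) (rdo 3 K U θ (NH S)) := ⟨_, rfl⟩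
  have hdep : ∀ (T : ℕ) (X : ℝ) (P : MvPolynomial (Option (Fin m)) ℝ) (Q : Po), DepC c 1 P →
      DepC c 2 (bkp c W T X (thr c (g 1) P) Q) := by
    intro T X P Q hP b b' hn hb
    rw [bkp_eval, bkp_eval]
    congr 1
    congr 1
    funext i
    fin_cases i
    · show bkz c W T X _ b 0 = bkz c W T X _ b' 0
      rw [bkz_zero, bkz_zero, hn]
    · show bkz c W T X _ b 1 = bkz c W T X _ b' 1
      rw [bkz_one, bkz_one, hb 0 (by norm_num)]
    · show bkz c W T X _ b 2 = bkz c W T X _ b' 2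
      rw [bkz_two, bkz_two, thr_eval, thr_eval, hb 1 (by norm_num),
        hP b b' hn fun l hl => hb l (by omega)]
  have hdeg : ∀ (T : ℕ) (X : ℝ) (P : MvPolynomial (Option (Fin m)) ℝ) (Q : Po),
      P.totalDegree ≤ D → (bkp c W T X (thr c (g 1) P) (rdo 3 K U θ Q)).totalDegree ≤
      3 * K * (D + 1 + 1) := fun T X P Q hP =>
    bkp_deg c W T X (thr_deg c (g 1) hP) (rdo_deg _ _ _ _ _)
  refine ⟨fun ω => B ω ∧ rdo 3 K U θ (NP (ptr F J ω)) = rdo 3 K U θ (NH (slam F W ω)), zP, zH,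
    fun ω hω => hω.1, hPe₁, fun y => ?_, fun S => ?_, fun y => ?_, fun S => ?_, fun ω hω => ?_,
    fun ω hω b hb => ?_⟩
  · rw [hzP]
    exact hdeg _ _ _ _ (hpd y)
  · rw [hzH]
    exact hdeg _ _ _ _ (hhd S)
  · rw [hzP]
    exact hdep _ _ _ _ (hpe y)
  · rw [hzH]
    exact hdep _ _ _ _ (hhe S)
  · rw [hzP, hzH]
    show bkp c W (slam F W ω).2.2 (xP (ptr F J ω)) _ _ = bkp c W (slam F W ω).2.2 _ _ _
    rw [hx ω hω.1, hpc ω hω.1, hω.2]
  · have hωB := hω.1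
    rw [hzP]
    show |eval b (bkp c W (slam F W ω).2.2 (xP (ptr F J ω)) (thr c (g 1) (pP (ptr F J ω)))
      (rdo 3 K U θ (NP (ptr F J ω)))) - _| ≤ _
    rw [bkp_eval, ← back_two hc (W := W) (g := g 1) (T := (slam F W ω).2.2)
      (X := xP (ptr F J ω)) (hpe (ptr F J ω)) (hQe (ptr F J ω)) b]
    have e1 : NP (ptr F J ω) = npl c W (g 1) (slam F W ω).2.2 (xP (ptr F J ω)) (pP (ptr F J ω))
        (QP (ptr F J ω)) := by
      rw [hNP]
      rfl
    rw [← e1, abs_sub_comm]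
    obtain ⟨k1, k2⟩ := nbx_pt (n := s) hW hWg hG0 hown hωB (hxn ω hωB) hb.1
      (hb.2 0 (by norm_num))
    obtain ⟨ρ, hρ⟩ : ∃ ρ : ℝ, ρ = 2 ^ (s + 2 * s + 3) := ⟨_, rfl⟩
    have hρ1 : 1 ≤ ρ := by rw [hρ]; exact one_le_pow₀ (by norm_num)
    have k3 : |2 ^ g 1 * (b (some (c 1)) - eval b (pP (ptr F J ω)))| ≤ ρ := by
      have h1 := hb.2 1 (by norm_num)
      have h2 := hpn ω hωB b ⟨hb.1, fun l hl => hb.2 l (by omega)⟩
      have e2 : b (some (c 1)) - eval b (pP (ptr F J ω)) = (b (some (c 1)) -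
          eval b (G (ptr F J ω) 1)) - (eval b (pP (ptr F J ω)) - eval b (G (ptr F J ω) 1)) := by
        ring
      rw [abs_mul, abs_of_pos (by positivity : (0:ℝ) < 2 ^ g 1), e2]
      have h3 := (abs_sub (b (some (c 1)) - eval b (G (ptr F J ω) 1))
        (eval b (pP (ptr F J ω)) - eval b (G (ptr F J ω) 1))).trans (add_le_add h1 h2)
      refine (mul_le_mul_of_nonneg_left h3 (by positivity)).trans ?_
      have e3 : (2 : ℝ) ^ g 1 * (1 / 2 ^ g 1 + 2 ^ s / 2 ^ g 1) = 1 + 2 ^ s := by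
        field_simp
      rw [e3, hρ]
      have h4 : (1 : ℝ) ≤ 2 ^ s := one_le_pow₀ (by norm_num)
      have h5 : (2 : ℝ) ^ (s + 1) ≤ 2 ^ (s + 2 * s + 3) := pw (by omega)
      rw [pow_succ] at h5
      linarith
    have h3 := rdo_near (n := 3) (K := K) hUpos hθ (hNPd (ptr F J ω)) (by norm_num) hρ1
      (y := bkz c W (slam F W ω).2.2 (xP (ptr F J ω)) (thr c (g 1) (pP (ptr F J ω))) b)
      (fun i => by
        fin_cases i
        · show |bkz c W (slam F W ω).2.2 (xP (ptr F J ω)) _ b 0| ≤ ρ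
          rw [bkz_zero, hρ]
          exact k1.trans (pw (by omega))
        · show |bkz c W (slam F W ω).2.2 (xP (ptr F J ω)) _ b 1| ≤ ρ
          rw [bkz_one, hρ]
          exact k2
        · show |bkz c W (slam F W ω).2.2 (xP (ptr F J ω)) _ b 2| ≤ ρ
          rw [bkz_two, thr_eval]
          exact k3)
    refine h3.trans ?_
    rw [← hN, ← hE, hρ, hU, hM', ← pow_mul]
    have h4 : (N : ℝ) * (C₁ * (2 ^ (c₀ + n₂ * D₁) * M) * 2 ^ ((s + 2 * s + 3) * E)) =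
        N * C₁ * 2 ^ (c₀ + n₂ * D₁ + (s + 2 * s + 3) * E) * M := by
      rw [pow_add 2 (c₀ + n₂ * D₁)]
      ring
    rw [h4]
    refine mul_le_mul_of_nonneg_right ?_ hM0.le
    refine (mul_le_mul_of_nonneg_right hk₁.le (by positivity)).trans ?_
    rw [← pow_add]
    refine pw ?_
    have h5 : n₂ ≤ (c₀ + 4 * D₁ + 2) * (s + 1) := by
      rw [hn₂]
      nlinarith [Nat.zero_le (c₀ * s), Nat.zero_le (D₁ * s)]
    have h6 : n₂ * D₁ ≤ (c₀ + 4 * D₁ + 2) * D₁ * (s + 1) := by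
      calc n₂ * D₁ ≤ (c₀ + 4 * D₁ + 2) * (s + 1) * D₁ := Nat.mul_le_mul_right _ h5
        _ = _ := by ring
    have h7 : (s + 2 * s + 3) * E ≤ 8 * E * (s + 1) := by nlinarith [Nat.zero_le (E * s)]
    have h8 : k₁ + c₀ ≤ (k₁ + c₀) * (s + 1) := Nat.le_mul_of_pos_right _ (by omega)
    calc k₁ + (c₀ + n₂ * D₁ + (s + 2 * s + 3) * E) = (k₁ + c₀) + n₂ * D₁ +
          (s + 2 * s + 3) * E := by ring
      _ ≤ (k₁ + c₀) * (s + 1) + (c₀ + 4 * D₁ + 2) * D₁ * (s + 1) + 8 * E * (s + 1) :=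
          add_le_add (add_le_add h8 h6) h7
      _ = _ := by ring

end Pool.STB77
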