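import Pool.Agent.H77.STB.Vso

/-!
# Closed polynomials along the own line

`own_pol`: closed polynomials of a window, small at the samples, are small on the own line in the
whole window. `own_vis`: the same for the visible labels of a ball.
-/

set_option autoImplicit false

namespace Pool.STB77

open Finset Real MvPolynomial
open Pool.Agent.H49.Ent Pool.Agent.H32.Dense Pool.STK Pool.KA Pool.KSAT Pool.K2S Pool.PB Pool.S6C
open Pool.GEN Pool.CHT Pool.NVX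
open Pool.FLF (Fam.sub)
open Pool.PB.Trl (rt rt_mem t_rt)

variable {m J : ℕ}

/-- **Closed polynomials along the own line**, in the whole window. -/
theorem own_pol (m D n : ℕ) : ∃ (C : ℕ) (C₁ : ℝ), 1 ≤ C₁ ∧ ∀ {J : ℕ} {F : Fam m J}
    {w s : ℕ} {θ : ℝ} {B : F.Ω → Prop} {Q : ℕ → LnT F → MvPolynomial (Option (Fin m)) ℝ}
    {M : ℕ → ℝ} (hB : 0 < Pe F.p B), w ≤ J → (∀ i < n, ∀ S, (Q i S).totalDegree ≤ D) →
    (∀ i < n, 0 < M i) → (∀ ω, B ω → ∀ i < n, |eval (bt F ω) (Q i (slam F w ω))| ≤ M i) →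
    (Fam.sub F B hB).Tm θ → 0 ≤ θ → C₁ * (θ + 1) ≤ ((J : ℝ) - w) * Real.log 2 →
    C₁ * (θ + 1) ≤ s → ∃ B' : F.Ω → Prop, Sub B' B ∧ Pe F.p B / 2 ≤ Pe F.p B' ∧
      ∀ ω, B' ω → ∀ i < n, ∀ t, |t - F.t ω| ≤ 1 / 2 ^ w →
        |eval (opt F ω t) (Q i (slam F w ω))| ≤ 2 ^ (s + C) * M i := by
  obtain ⟨C₁, hC₁, hrem⟩ := Pool.D2R.rem_fam m D n
  obtain ⟨C₂, hC₂, hlip⟩ := lip_pt D
  obtain ⟨k₂, hk₂⟩ := pow_unbounded_of_one_lt C₂ (one_lt_two (α := ℝ))
  refine ⟨k₂, 2 * C₁, by linarith, ?_⟩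
  intro J F w s θ B Q M hB hwJ hQd hM hQM hTm hθ hCJ hCs
  have hθ1 : 0 ≤ θ + 1 := by linarith
  have hC1θ : 0 ≤ C₁ * (θ + 1) := mul_nonneg (by linarith) hθ1
  have hCJ' : C₁ * (θ + 1) ≤ ((J : ℝ) - w) * Real.log 2 := by linarith
  have hexp : Real.exp (C₁ * (θ + 1)) ≤ 2 ^ s := by
    have h1 : C₁ * (θ + 1) ≤ s * Real.log 2 := by
      have h2 : (1 : ℝ) / 2 ≤ Real.log 2 := by
        have := Real.log_two_gt_d9
        linarith
      have h3 : (s : ℝ) * (1 / 2) ≤ s * Real.log 2 :=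
        mul_le_mul_of_nonneg_left h2 (Nat.cast_nonneg s)
      linarith
    calc Real.exp (C₁ * (θ + 1)) ≤ Real.exp (s * Real.log 2) := Real.exp_le_exp.2 h1
      _ = 2 ^ s := by rw [mul_comm, Real.exp_mul, Real.exp_log (by norm_num), Real.rpow_natCast]
  obtain ⟨q, hq⟩ : ∃ q : ℕ → LnT F → Polynomial ℝ, q = fun i S =>
      MvPolynomial.aeval (lnp w (S.1, ((), S.2.2))) (Q i S) := ⟨_, rfl⟩
  have hqd : ∀ i < n, ∀ S, (q i S).natDegree ≤ D := by
    intro i hi S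
    rw [hq]
    exact Pool.KBX.natDegree_aeval_le _ _ (fun o => lnp_deg _ _ o) (hQd i hi S)
  have hqe : ∀ i ω τ, (q i (slam F w ω)).eval τ =
      eval (opt F ω ((((slam F w ω).2.2 : ℝ) + τ) / 2 ^ w)) (Q i (slam F w ω)) := by
    intro i ω τ
    rw [hq]
    show (MvPolynomial.aeval (lnp w ((slam F w ω).1, ((), (slam F w ω).2.2)))
      (Q i (slam F w ω))).eval τ = _
    rw [Pool.KBX.eval_aeval_poly]
    congr 2
    funext o
    exact lnp_eval F w ω τ o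
  obtain ⟨B', hB'B, hB'P, hB'⟩ := hrem J F B hB w q M θ hwJ hqd hM hθ hTm hCJ'
    (fun ω hω i hi => by
      rw [hqe, ← t_rt F hwJ]
      have e0 : opt F ω (F.t ω) = bt F ω := by
        unfold opt
        rw [sub_self, zero_smul, add_zero]
      rw [e0]
      exact hQM ω hω i hi)
  refine ⟨B', hB'B, hB'P, fun ω hω i hi t ht => ?_⟩
  obtain ⟨τ, hτ⟩ : ∃ τ : ℝ, τ = 2 ^ w * t - (slam F w ω).2.2 := ⟨_, rfl⟩
  have h2a : (0 : ℝ) < 2 ^ w := by positivity
  have hτ1 : (((slam F w ω).2.2 : ℝ) + τ) / 2 ^ w = t := by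
    rw [hτ]
    field_simp
    ring
  have hrt : τ - rt F w ω = 2 ^ w * (t - F.t ω) := by
    rw [t_rt F hwJ ω, hτ]
    field_simp
    ring
  have hτ2 : |τ| ≤ 2 := by
    have h1 := rt_mem F w ω
    have h2 : |τ - rt F w ω| ≤ 1 := by
      rw [hrt, abs_mul, abs_of_pos h2a]
      calc 2 ^ w * |t - F.t ω| ≤ 2 ^ w * (1 / 2 ^ w) := mul_le_mul_of_nonneg_left ht h2a.le
        _ = 1 := by field_simp
    have h3 := abs_le.1 h2
    rw [abs_le]
    constructor <;> linarith [h1.1, h1.2]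
  have h1 := (hlip (q i (slam F w ω)) (Real.exp (C₁ * (θ + 1)) * M i) (hqd i hi _)
    (fun τ hτ => hB' ω hω i hi τ hτ)).2 τ hτ2
  rw [hqe, hτ1] at h1
  have hMi := (hM i hi).le
  refine h1.trans ?_
  calc C₂ * (Real.exp (C₁ * (θ + 1)) * M i) ≤ C₂ * (2 ^ s * M i) :=
        mul_le_mul_of_nonneg_left (mul_le_mul_of_nonneg_right hexp hMi) (by linarith)
    _ ≤ 2 ^ k₂ * (2 ^ s * M i) := mul_le_mul_of_nonneg_right hk₂.le (by positivity)
    _ = _ := by rw [pow_add]; ring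

/-- **The visible labels of a ball along the own line**, from the closed ones. -/
theorem own_vis (D r : ℕ) : ∃ C : ℕ, ∀ {m J : ℕ} {F : Fam m J} {c : ℕ → Fin m} {a e s : ℕ}
    {g : ℕ → ℕ} {B : F.Ω → Prop} {G : PtT F → ℕ → MvPolynomial (Option (Fin m)) ℝ}
    {H : LnT F → ℕ → MvPolynomial (Option (Fin m)) ℝ}, Set.InjOn c (Set.Iio r) →
    ChOK F c r (fun _ => D) a a e g B G H → ∀ ω, B ω →
    (∀ l < r, ∀ t, |t - F.t ω| ≤ 1 / 2 ^ a →
      |opt F ω t (some (c l)) - eval (opt F ω t) (H (slam F a ω) l)| ≤ 2 ^ s / 2 ^ g l) →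
    ∀ l < r, ∀ t, |t - F.t ω| ≤ 1 / 2 ^ a →
      |opt F ω t (some (c l)) - eval (opt F ω t) (G (ptr F J ω) l)| ≤
        2 ^ (C * (s + 1)) / 2 ^ g l := by
  obtain ⟨c₀, D₁, hD₁, hdil⟩ := nbx_dil (r + 1) (fun _ => D)
  refine ⟨(c₀ + 2) * (D₁ + 2) ^ r, ?_⟩
  intro m J F c a e s g B G H hc hL ω hωB hcl
  have pw : ∀ {x y : ℕ}, x ≤ y → (2 : ℝ) ^ x ≤ 2 ^ y := fun h => pow_le_pow_right₀ (by norm_num) h
  -- the exponents
  obtain ⟨X, hX⟩ : ∃ X : ℕ → ℕ, X = fun l => (c₀ + 2) * (s + 1) * ((D₁ + 2) ^ l - 1) :=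
    ⟨_, rfl⟩
  have hX0 : X 0 = 0 := by rw [hX]; simp
  have hXs : ∀ l, c₀ + X l * D₁ + s + 1 + X l ≤ X (l + 1) := by
    intro l
    rw [hX]
    obtain ⟨T, hT⟩ : ∃ T, T = (D₁ + 2) ^ l - 1 := ⟨_, rfl⟩
    have h1 : 1 ≤ (D₁ + 2) ^ l := Nat.one_le_pow _ _ (by omega)
    have h2 : (D₁ + 2) ^ (l + 1) - 1 = T * (D₁ + 2) + (D₁ + 1) := by
      have h3 : (D₁ + 2) ^ l = T + 1 := by omega
      rw [pow_succ, h3, add_mul, one_mul]
      omega
    show c₀ + (c₀ + 2) * (s + 1) * ((D₁ + 2) ^ l - 1) * D₁ + s + 1 +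
      (c₀ + 2) * (s + 1) * ((D₁ + 2) ^ l - 1) ≤
        (c₀ + 2) * (s + 1) * ((D₁ + 2) ^ (l + 1) - 1)
    rw [h2, ← hT]
    obtain ⟨Z, hZ⟩ : ∃ Z, Z = (c₀ + 2) * (s + 1) := ⟨_, rfl⟩
    have h4 : c₀ + s + 1 ≤ Z := by
      rw [hZ]
      nlinarith
    rw [← hZ]
    have h5 : Z ≤ Z * (D₁ + 1) := Nat.le_mul_of_pos_right _ (by omega)
    calc c₀ + Z * T * D₁ + s + 1 + Z * T = (c₀ + s + 1) + (Z * T * D₁ + Z * T) := by ring
      _ ≤ Z * (D₁ + 1) + (Z * T * D₁ + 2 * (Z * T)) := by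
          have h6 : 0 ≤ Z * T := Nat.zero_le _
          omega
      _ = Z * (T * (D₁ + 2) + (D₁ + 1)) := by ring
  -- the visible labels
  have key : ∀ l ≤ r, ∀ j < l, ∀ t, |t - F.t ω| ≤ 1 / 2 ^ a →
      |opt F ω t (some (c j)) - eval (opt F ω t) (G (ptr F J ω) j)| ≤ 2 ^ X l / 2 ^ g j := by
    intro l
    induction l with
    | zero => intro _ j hj; exact absurd hj (Nat.not_lt_zero j)
    | succ l ih =>
      intro hl j hj t ht
      have ih' := ih (by omega)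
      rcases Nat.lt_succ_iff_lt_or_eq.1 hj with h0 | h0
      · refine (ih' j h0 t ht).trans (div_le_div_of_nonneg_right (pw ?_) (by positivity))
        have := hXs l
        omega
      · subst h0
        have h2 := hdil (c := c) (i := j) (G := G (ptr F J ω))
          (Q := G (ptr F J ω) j - H (slam F a ω) j) (g := g) (a := a) (t := F.t ω)
          (M := 1 / 2 ^ g j) (X j) (by omega)
          (hc.mono fun x (hx : x < j) => show x < r by omega) (hL.degG _) (hL.depG _)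
          (fun b b' hn hb => by rw [map_sub, map_sub, hL.depG _ j b b' hn hb,
            hL.depH _ j b b' hn hb])
          ((totalDegree_sub _ _).trans (max_le (hL.degG _ _) (hL.degH _ _))) (by positivity)
          (fun b hb => by rw [map_sub]; exact hL.agr ω hωB j (by omega) b hb) (opt F ω t)
          (by rw [opt_none]; exact ht) (fun i hi => ih' i hi t ht)
        rw [map_sub] at h2
        have h3 := hcl j (by omega) t ht
        have e1 : opt F ω t (some (c j)) - eval (opt F ω t) (G (ptr F J ω) j) =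
            (opt F ω t (some (c j)) - eval (opt F ω t) (H (slam F a ω) j)) -
            (eval (opt F ω t) (G (ptr F J ω) j) - eval (opt F ω t) (H (slam F a ω) j)) := by ring
        rw [e1]
        refine (abs_sub _ _).trans ?_
        have h4 : (2 : ℝ) ^ s / 2 ^ g j + 2 ^ (c₀ + X j * D₁) * (1 / 2 ^ g j) ≤
            2 ^ X (j + 1) / 2 ^ g j := by
          rw [mul_one_div, ← add_div]
          refine div_le_div_of_nonneg_right ?_ (by positivity)
          have h5 := hXs j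
          have h6 : (2 : ℝ) ^ s ≤ 2 ^ (c₀ + X j * D₁ + s) := pw (by omega)
          have h7 : (2 : ℝ) ^ (c₀ + X j * D₁) ≤ 2 ^ (c₀ + X j * D₁ + s) := pw (by omega)
          have h8 : (2 : ℝ) ^ (c₀ + X j * D₁ + s + 1) ≤ 2 ^ X (j + 1) := pw (by omega)
          rw [pow_succ] at h8
          linarith
        linarith
  intro l hl t ht
  refine (key r le_rfl l hl t ht).trans (div_le_div_of_nonneg_right (pw ?_) (by positivity))
  rw [hX]
  calc (c₀ + 2) * (s + 1) * ((D₁ + 2) ^ r - 1) ≤ (c₀ + 2) * (s + 1) * (D₁ + 2) ^ r :=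
        Nat.mul_le_mul_left _ (Nat.sub_le _ _)
    _ = _ := by ring

/-- **The closed labels of a node along the own line**, in the whole window. -/
theorem own_win (m D r : ℕ) : ∃ (C : ℕ) (C₁ : ℝ), 1 ≤ C₁ ∧ ∀ {J : ℕ} {F : Fam m J}
    {c : ℕ → Fin m} {a w e s : ℕ} {g : ℕ → ℕ} {θ : ℝ} {B : F.Ω → Prop}
    {G : PtT F → ℕ → MvPolynomial (Option (Fin m)) ℝ}
    {H : LnT F → ℕ → MvPolynomial (Option (Fin m)) ℝ} (hB : 0 < Pe F.p B), w ≤ J →
    ChOK F c r (fun _ => D) a w e g B G H → (Fam.sub F B hB).Tm θ → 0 ≤ θ →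
    C₁ * (θ + 1) ≤ ((J : ℝ) - w) * Real.log 2 → C₁ * (θ + 1) ≤ s →
    ∃ B' : F.Ω → Prop, Sub B' B ∧ Pe F.p B / 2 ≤ Pe F.p B' ∧
      ∀ ω, B' ω → ∀ l < r, ∀ t, |t - F.t ω| ≤ 1 / 2 ^ w →
        |opt F ω t (some (c l)) - eval (opt F ω t) (H (slam F w ω) l)| ≤
          2 ^ (s + C) / 2 ^ g l := by
  obtain ⟨C, C₁, hC₁, h⟩ := own_pol m (max D 1) r
  refine ⟨C + 1, C₁, hC₁, ?_⟩
  intro J F c a w e s g θ B G H hB hwJ hL hTm hθ hCJ hCs
  obtain ⟨B', h1, h2, h3⟩ := h (Q := fun l S => X (some (c l)) - H S l)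
    (M := fun l => 2 / 2 ^ g l) hB hwJ (fun l _ S => (totalDegree_sub _ _).trans (max_le
      ((totalDegree_X _).le.trans (le_max_right _ _)) ((hL.degH S l).trans (le_max_left _ _))))
    (fun l _ => by positivity) (fun ω hω l hl => by
      rw [map_sub, eval_X]
      have h1 := hL.pos ω hω l hl
      have h2 := hL.agr ω hω l hl (bt F ω) ⟨by
        show |F.t ω - F.t ω| ≤ _
        rw [sub_self, abs_zero]
        positivity, fun j hj => hL.pos ω hω j (hj.trans hl)⟩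
      have e1 : bt F ω (some (c l)) - eval (bt F ω) (H (slam F w ω) l) =
          (F.x ω (c l) - eval (bt F ω) (G (ptr F J ω) l)) +
          (eval (bt F ω) (G (ptr F J ω) l) - eval (bt F ω) (H (slam F w ω) l)) := by
        show F.x ω (c l) - _ = _
        ring
      rw [e1]
      refine (abs_add_le _ _).trans ?_
      have e2 : (2 : ℝ) / 2 ^ g l = 1 / 2 ^ g l + 1 / 2 ^ g l := by ring
      rw [e2]
      exact add_le_add h1 h2) hTm hθ hCJ hCs
  refine ⟨B', h1, h2, fun ω hω l hl t ht => ?_⟩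
  have h4 := h3 ω hω l hl t ht
  rw [map_sub, eval_X] at h4
  refine h4.trans (le_of_eq ?_)
  rw [← add_assoc, pow_succ]
  ring

end Pool.STB77
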