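import Pool.Agent.H77.STB.Nwd
import Pool.Agent.H77.STB.Nde
import Pool.Agent.H77.STB.Own

/-!
# A list of nodes on one event, family form

`uni_tgt`: the labels of a coarse chain with a target on the natural boxes of a fine chain, if there
are no relations between the coordinates of the list. `nls_fam`: a list of nodes.
-/

set_option autoImplicit false

namespace Pool.STB77

open Finset Real MvPolynomial
open Pool.Agent.H49.Ent Pool.Agent.H32.Dense Pool.STK Pool.KA Pool.KSAT Pool.K2S Pool.PB Pool.S6C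
open Pool.GEN Pool.CHT Pool.NVX
open Pool.FLF (Fam.sub)
open Pool.PB.Trl (rt rt_mem t_rt)

variable {m J : ℕ}

/-- **The boxes of the coarse chain** contain the boxes of the fine one. -/
theorem mov_box (D r : ℕ) (hD : 1 ≤ D) : ∃ C : ℕ, ∀ {m J : ℕ} {F : Fam m J} {c : ℕ → Fin m}
    {a w a' w' e e' h : ℕ} {g g' : ℕ → ℕ} {κ κ' : ℝ} {B₀ B' : F.Ω → Prop}
    {T G : PtT F → ℕ → MvPolynomial (Option (Fin m)) ℝ}
    {TH H : LnT F → ℕ → MvPolynomial (Option (Fin m)) ℝ}, Set.InjOn c (Set.Iio r) →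
    a ≤ a' → w ≤ w' → w' ≤ J → RelvF F c r a' w' g' D h κ B₀ T → Sub B' B₀ →
    κ' * Pe F.p B₀ ≤ Pe F.p B' → κ * 2 ^ r ≤ κ' → ChOK F c r (fun _ => D) a' w' e' g' B' T TH →
    ChOK F c r (fun _ => D) a w e g B' G H →
    ∃ B : F.Ω → Prop, Sub B B' ∧ Pe F.p B' ≤ 2 ^ r * Pe F.p B ∧
      (∀ ω, B ω → ∀ l < r, ∀ b, NBx c (T (ptr F J ω)) g' a' (F.t ω) l b →
        |eval b (T (ptr F J ω) l) - eval b (G (ptr F J ω) l)| ≤ 2 ^ (C * (h + 1)) / 2 ^ g l) ∧
      ∀ ω, B ω → ∀ l ≤ r, ∀ b, NBx c (T (ptr F J ω)) g' a' (F.t ω) l b →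
        ∀ j < l, |b (some (c j)) - eval b (G (ptr F J ω) j)| ≤ 2 ^ (C * (h + 1)) / 2 ^ g j := by
  obtain ⟨C₁, hmv⟩ := Pool.Z3.move_any D r hD
  refine ⟨C₁, ?_⟩
  intro m J F c a w a' w' e e' h g g' κ κ' B₀ B' T G TH H hc haa hww hw' hR hB hP hκ hT hG
  have hGw := chok_win hG haa hww hw'
  obtain ⟨B, k1, k2, k3⟩ := hmv (c' := c) (s := r) (i := r) le_rfl (fun j hj => ⟨j, hj, rfl⟩) hc
    hR hB hP hκ hGw
  refine ⟨B, k1, ?_, fun ω hω l hl b hb => ?_, fun ω hω l hl b hb j hj => ?_⟩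
  · rw [div_le_iff₀ (by positivity)] at k2
    linarith
  · obtain ⟨b', m1, m2, m3, m4⟩ := Pool.ISO.nbx_ext hc (hT.depG (ptr F J ω)) hl.le hb
    have h1 := k3 ω hω b' m1 l hl
    rw [m4 l le_rfl hl, hT.depG _ l b' b m2 m3, hG.depG _ l b' b m2 m3] at h1
    exact h1
  · obtain ⟨b', m1, m2, m3, m4⟩ := Pool.ISO.nbx_ext hc (hT.depG (ptr F J ω)) hl hb
    have h3 := k3 ω hω b' m1 j (hj.trans_le hl)
    rw [m3 j hj, hG.depG _ j b' b m2 fun i hi => m3 i (hi.trans hj)] at h3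
    exact h3

/-- **Two chains with a target.** -/
theorem uni_tgt (D r : ℕ) (hD : 1 ≤ D) : ∃ C : ℕ, ∀ {m J : ℕ} {F : Fam m J} {c : ℕ → Fin m}
    {a w a' w' e e' h x : ℕ} {g g' : ℕ → ℕ} {κ κ' : ℝ} {B₀ B' : F.Ω → Prop}
    {T G : PtT F → ℕ → MvPolynomial (Option (Fin m)) ℝ}
    {TH H : LnT F → ℕ → MvPolynomial (Option (Fin m)) ℝ}, Set.InjOn c (Set.Iio (r + 1)) →
    a ≤ a' → w ≤ w' → w' ≤ J → RelvF F c r a' w' g' D h κ B₀ T → Sub B' B₀ → 0 ≤ κ →
    κ' * Pe F.p B₀ ≤ Pe F.p B' → κ * 2 ^ (r + 1) ≤ κ' →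
    ChOK F c (r + 1) (fun _ => D) a' w' e' g' B' T TH →
    ChOK F c (r + 1) (fun _ => D) a w e g B' G H → g r ≤ g' r + x →
    ∃ B : F.Ω → Prop, Sub B B' ∧ Pe F.p B' ≤ 2 ^ (r + 1) * Pe F.p B ∧
      (∀ ω, B ω → ∀ l ≤ r, ∀ b, NBx c (T (ptr F J ω)) g' a' (F.t ω) l b →
        |eval b (T (ptr F J ω) l) - eval b (G (ptr F J ω) l)| ≤
          2 ^ (C * (h + x + 1)) / 2 ^ g l) ∧
      ∀ ω, B ω → ∀ l ≤ r, ∀ b, NBx c (T (ptr F J ω)) g' a' (F.t ω) l b →
        |eval b (H (slam F w ω) l) - eval b (T (ptr F J ω) l)| ≤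
          2 ^ (C * (h + x + 1)) / 2 ^ g l := by
  obtain ⟨C₁, hmv⟩ := mov_box D r hD
  obtain ⟨c₀, D₁, hD₁, hdil⟩ := nbx_dil (r + 2) (fun _ => D)
  refine ⟨C₁ + c₀ + C₁ * D₁ + 4, ?_⟩
  intro m J F c a w a' w' e e' h x g g' κ κ' B₀ B' T G TH H hc haa hww hw' hR hB hκ0 hP hκ hT hG hgx
  have pw : ∀ {x y : ℕ}, x ≤ y → (2 : ℝ) ^ x ≤ 2 ^ y := fun h => pow_le_pow_right₀ (by norm_num) h
  have hcr : Set.InjOn c (Set.Iio r) := hc.mono fun y (hy : y < r) => show y < r + 1 by omega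
  have hTr : ChOK F c r (fun _ => D) a' w' e' g' B' T TH :=
    hT.mono (Nat.le_succ r) (fun _ => le_rfl) le_rfl le_rfl
  have hGr : ChOK F c r (fun _ => D) a w e g B' G H :=
    hG.mono (Nat.le_succ r) (fun _ => le_rfl) le_rfl le_rfl
  have hκr : κ * 2 ^ r ≤ κ' := by
    refine le_trans ?_ hκ
    rw [pow_succ]
    have : 0 ≤ κ * 2 ^ r := by positivity
    linarith
  obtain ⟨B₁, k1, k2, k3, k4⟩ := hmv hcr haa hww hw' hR hB hP hκr hTr hGr
  obtain ⟨Z, hZ⟩ : ∃ Z, Z = c₀ + C₁ * (h + 1) * D₁ := ⟨_, rfl⟩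
  -- the closed labels of the coarse chain on the boxes of the fine one
  have hcl : ∀ ω, B₁ ω → ∀ l ≤ r, ∀ b, NBx c (T (ptr F J ω)) g' a' (F.t ω) l b →
      |eval b (H (slam F w ω) l) - eval b (G (ptr F J ω) l)| ≤ 2 ^ Z / 2 ^ g l := by
    intro ω hω l hl b hb
    have h3 := hdil (c := c) (i := l) (G := G (ptr F J ω)) (Q := H (slam F w ω) l -
        G (ptr F J ω) l) (g := g) (a := a) (t := F.t ω) (M := 1 / 2 ^ g l) (C₁ * (h + 1))
      (by omega) (hc.mono fun y (hy : y < l) => show y < r + 1 by omega) (hG.degG _) (hG.depG _)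
      (fun b b' hn hb => by rw [map_sub, map_sub, hG.depH _ l b b' hn hb,
        hG.depG _ l b b' hn hb])
      ((totalDegree_sub _ _).trans (max_le (hG.degH _ _) (hG.degG _ _))) (by positivity)
      (fun b hb => by
        rw [map_sub, abs_sub_comm]
        exact hG.agr ω (k1 ω hω) l (by omega) b hb) b (hb.1.trans (inv_mono haa))
      (fun j hj => k4 ω hω l hl b hb j hj)
    rw [map_sub] at h3
    refine h3.trans (le_of_eq ?_)
    rw [hZ, mul_one_div]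
  -- the target
  obtain ⟨Mr, hMr⟩ : ∃ Mr : ℝ, Mr = 2 ^ (Z + x + 1) / 2 ^ g r := ⟨_, rfl⟩
  have hM0 : 0 < Mr := by rw [hMr]; positivity
  have hgi : (1 : ℝ) / 2 ^ g' r ≤ 2 ^ x / 2 ^ g r := by
    rw [div_le_div_iff₀ (by positivity) (by positivity), one_mul, ← pow_add]
    exact pw (by omega)
  have h2M : (2 : ℝ) ^ x / 2 ^ g r + 2 ^ Z / 2 ^ g r ≤ Mr := by
    rw [hMr, ← add_div]
    refine div_le_div_of_nonneg_right ?_ (by positivity)
    have h1 : (2 : ℝ) ^ x ≤ 2 ^ (Z + x) := pw (by omega)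
    have h2 : (2 : ℝ) ^ Z ≤ 2 ^ (Z + x) := pw (by omega)
    rw [pow_succ]
    linarith
  have h1Z : (1 : ℝ) / 2 ^ g r ≤ 2 ^ Z / 2 ^ g r :=
    div_le_div_of_nonneg_right (one_le_pow₀ (by norm_num)) (by positivity)
  obtain ⟨B₂, l1, l2, l3⟩ := hR B₁ (fun ω hω => hB ω (k1 ω hω)) (by
      have h1 : κ * 2 ^ r * Pe F.p B₀ ≤ 2 ^ r * Pe F.p B₁ :=
        ((mul_le_mul_of_nonneg_right hκr (Pe_nonneg F.isLaw _)).trans hP).trans k2
      have h2 : (0 : ℝ) < 2 ^ r := by positivity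
      nlinarith) (fun y => T y r - G y r) (fun S => TH S r - H (cos F w w' S) r) Mr
    (fun y => (totalDegree_sub _ _).trans (max_le (hT.degG y r) (hG.degG y r)))
    (fun S => (totalDegree_sub _ _).trans (max_le (hT.degH S r) (hG.degH _ r)))
    (fun y b b' hn hb => by rw [map_sub, map_sub, hT.depG y r b b' hn hb, hG.depG y r b b' hn hb])
    (fun S b b' hn hb => by rw [map_sub, map_sub, hT.depH S r b b' hn hb, hG.depH _ r b b' hn hb])
    hM0 (fun ω hω => by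
      rw [map_sub]
      have h1 := hT.pos ω (k1 ω hω) r (Nat.lt_succ_self r)
      have h2 := hG.pos ω (k1 ω hω) r (Nat.lt_succ_self r)
      have e1 : eval (bt F ω) (T (ptr F J ω) r) - eval (bt F ω) (G (ptr F J ω) r) =
          (F.x ω (c r) - eval (bt F ω) (G (ptr F J ω) r)) -
          (F.x ω (c r) - eval (bt F ω) (T (ptr F J ω) r)) := by ring
      rw [e1]
      refine (abs_sub _ _).trans ?_
      linarith)
    (fun ω hω b hb => by
      rw [map_sub, map_sub]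
      have h1 := hT.agr ω (k1 ω hω) r (Nat.lt_succ_self r) b hb
      have h2 := hcl ω hω r le_rfl b hb
      rw [cos_slam F hww hw' ω]
      have e1 : eval b (T (ptr F J ω) r) - eval b (G (ptr F J ω) r) -
          (eval b (TH (slam F w' ω) r) - eval b (H (slam F w ω) r)) =
          (eval b (T (ptr F J ω) r) - eval b (TH (slam F w' ω) r)) +
          (eval b (H (slam F w ω) r) - eval b (G (ptr F J ω) r)) := by ring
      rw [e1]
      refine (abs_add_le _ _).trans ?_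
      linarith)
  -- the exponents
  obtain ⟨C, hC⟩ : ∃ C, C = C₁ + c₀ + C₁ * D₁ + 4 := ⟨_, rfl⟩
  have hZC : Z + x + 2 + h ≤ C * (h + x + 1) ∧ C₁ * (h + 1) + Z + 1 ≤ C * (h + x + 1) := by
    rw [hZ, hC]
    have e1 : (C₁ + c₀ + C₁ * D₁ + 4) * (h + x + 1) = C₁ * (h + 1) + C₁ * x + c₀ * (h + x + 1) +
        C₁ * (h + 1) * D₁ + C₁ * D₁ * x + 4 * (h + x + 1) := by ring
    have e2 : c₀ ≤ c₀ * (h + x + 1) := Nat.le_mul_of_pos_right _ (by omega)
    rw [e1]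
    constructor <;> omega
  rw [← hC]
  have hr2 : ∀ ω, B₂ ω → ∀ b, NBx c (T (ptr F J ω)) g' a' (F.t ω) r b →
      |eval b (T (ptr F J ω) r) - eval b (G (ptr F J ω) r)| ≤ 2 ^ (Z + x + 1 + h) / 2 ^ g r := by
    intro ω hω b hb
    have h1 := l3 ω hω b hb
    rw [map_sub] at h1
    refine h1.trans (le_of_eq ?_)
    rw [hMr, pow_add 2 (Z + x + 1) h]
    ring
  refine ⟨B₂, fun ω hω => k1 ω (l1 ω hω), ?_, fun ω hω l hl b hb => ?_,
    fun ω hω l hl b hb => ?_⟩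
  · have h1 : Pe F.p B₁ ≤ 2 * Pe F.p B₂ := by linarith
    calc Pe F.p B' ≤ 2 ^ r * Pe F.p B₁ := k2
      _ ≤ 2 ^ r * (2 * Pe F.p B₂) := mul_le_mul_of_nonneg_left h1 (by positivity)
      _ = _ := by rw [pow_succ]; ring
  · rcases Nat.lt_or_ge l r with hlr | hlr
    · refine (k3 ω (l1 ω hω) l hlr b hb).trans (div_le_div_of_nonneg_right (pw ?_) (by positivity))
      have := hZC.2
      omega
    · have : l = r := by omega
      subst this
      refine (hr2 ω hω b hb).trans (div_le_div_of_nonneg_right (pw ?_) (by positivity))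
      have := hZC.1
      omega
  · have h1 := hcl ω (l1 ω hω) l hl b hb
    have e1 : eval b (H (slam F w ω) l) - eval b (T (ptr F J ω) l) =
        (eval b (H (slam F w ω) l) - eval b (G (ptr F J ω) l)) -
        (eval b (T (ptr F J ω) l) - eval b (G (ptr F J ω) l)) := by ring
    rw [e1]
    refine (abs_sub _ _).trans ?_
    rcases Nat.lt_or_ge l r with hlr | hlr
    · refine (add_le_add h1 (k3 ω (l1 ω hω) l hlr b hb)).trans ?_
      rw [← add_div]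
      refine div_le_div_of_nonneg_right ?_ (by positivity)
      have h4 : (2 : ℝ) ^ Z ≤ 2 ^ (C₁ * (h + 1) + Z) := pw (by omega)
      have h5 : (2 : ℝ) ^ (C₁ * (h + 1)) ≤ 2 ^ (C₁ * (h + 1) + Z) := pw (by omega)
      have h6 : (2 : ℝ) ^ (C₁ * (h + 1) + Z + 1) ≤ 2 ^ (C * (h + x + 1)) := pw hZC.2
      rw [pow_succ] at h6
      linarith
    · have : l = r := by omega
      subst this
      refine (add_le_add h1 (hr2 ω hω b hb)).trans ?_
      rw [← add_div]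
      refine div_le_div_of_nonneg_right ?_ (by positivity)
      have h4 : (2 : ℝ) ^ Z ≤ 2 ^ (Z + x + 1 + h) := pw (by omega)
      have h6 : (2 : ℝ) ^ (Z + x + 1 + h + 1) ≤ 2 ^ (C * (h + x + 1)) := pw (by
        have := hZC.1
        omega)
      rw [pow_succ] at h6
      linarith

/-- **A list of nodes on one event**, family form. -/
theorem nls_fam (m D r M : ℕ) (hD : 1 ≤ D) : ∃ (C : ℕ) (C₁ : ℝ), 1 ≤ C₁ ∧ ∀ {J : ℕ}
    {F : Fam m J} {c : ℕ → Fin m} {R : ℕ → ℕ → Prop} {a w : ℕ → ℕ} {e E Dr : ℕ} {g : ℕ → ℕ → ℕ}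
    {h x s s' Aₘ : ℕ} {κ κ₁ θ : ℝ} {B : F.Ω → Prop}
    {G : ℕ → PtT F → ℕ → MvPolynomial (Option (Fin m)) ℝ}
    {H : ℕ → LnT F → ℕ → MvPolynomial (Option (Fin m)) ℝ}, 0 < Pe F.p B →
    Set.InjOn c (Set.Iio (r + 1)) → (∀ k < M, a k ≤ Aₘ) → (∀ k < M, w k ≤ a k) → Aₘ ≤ J →
    (∀ j < M, ∀ k < M, R j k → a j ≤ a k ∧ w j ≤ w k ∧ g j r ≤ g k r + x) → D ≤ Dr →
    (∀ k < M, NodW F c r D Dr (a k) (w k) e E (g k) h κ B (G k) (H k)) → 0 ≤ κ → 0 ≤ κ₁ →
    κ * (2 ^ (r + 1)) ^ (M * M + M + 1) ≤ 1 → κ * (2 ^ (r + 1)) ^ (M * M + M) ≤ κ₁ → 0 ≤ θ →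
    (∀ B', Sub B' B → Pe F.p B ≤ (2 ^ (r + 1)) ^ (M * M + M) * Pe F.p B' →
      ∀ hB : 0 < Pe F.p B', (Fam.sub F B' hB).Tm θ) →
    C₁ * (θ + 1) ≤ ((J : ℝ) - Aₘ) * Real.log 2 → C₁ * (θ + 1) ≤ s' →
    C * (h + x + s' + 1) ≤ s →
    ∃ B' : F.Ω → Prop, Sub B' B ∧ Pe F.p B ≤ (2 ^ (r + 1)) ^ (M * M + M) * Pe F.p B' ∧
      Nls F c r D Dr M s R a w e E g h κ₁ B' G H := by
  classical
  obtain ⟨Cu, hu⟩ := uni_tgt D r hD
  obtain ⟨Cw, C₁, hC₁, ho⟩ := own_win m D (r + 1)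
  obtain ⟨Cv, hv⟩ := own_vis D (r + 1)
  obtain ⟨Co, hCo⟩ : ∃ Co, Co = Cw + 1 + Cv * (Cw + 1) := ⟨_, rfl⟩
  refine ⟨Cu + Co, C₁, hC₁, ?_⟩
  intro J F c R a w e E Dr g h x s s' Aₘ κ κ₁ θ B G H hB0 hc haA hwa hAJ hR hDr hnod hκ0 hκ₁ hκ hκ2
    hθ hTm hCJ hCs hs
  obtain ⟨K, hK⟩ : ∃ K : ℝ, K = 2 ^ (r + 1) := ⟨_, rfl⟩
  have hK1 : 1 ≤ K := by rw [hK]; exact one_le_pow₀ (by norm_num)
  have hK2 : 2 ≤ K := by
    rw [hK, pow_succ]
    have : (1 : ℝ) ≤ 2 ^ r := one_le_pow₀ (by norm_num)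
    linarith
  obtain ⟨n, hn⟩ : ∃ n, n = M * M + M := ⟨_, rfl⟩
  rw [← hK, ← hn] at hκ2 hTm ⊢
  rw [← hK, ← hn] at hκ
  have hp := Pe_nonneg F.isLaw
  have pw : ∀ {x y : ℕ}, x ≤ y → (2 : ℝ) ^ x ≤ 2 ^ y := fun h => pow_le_pow_right₀ (by norm_num) h
  have dv : ∀ {x : ℝ} {a b k : ℕ}, x ≤ 2 ^ a / 2 ^ k → a ≤ b → x ≤ 2 ^ b / 2 ^ k :=
    fun h hab => h.trans (div_le_div_of_nonneg_right (pw hab) (by positivity))
  have s1 : Cu * (h + x + 1) ≤ s := by
    refine le_trans ?_ hs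
    calc Cu * (h + x + 1) ≤ (Cu + Co) * (h + x + 1) := Nat.mul_le_mul_right _ (by omega)
      _ ≤ _ := Nat.mul_le_mul_left _ (by omega)
  have s2 : Co * (s' + 1) ≤ s := by
    refine le_trans ?_ hs
    calc Co * (s' + 1) ≤ (Cu + Co) * (s' + 1) := Nat.mul_le_mul_right _ (by omega)
      _ ≤ _ := Nat.mul_le_mul_left _ (by omega)
  obtain ⟨P1, hP1⟩ : ∃ P1 : ℕ → ℕ → (F.Ω → Prop) → Prop, P1 = fun j k B' =>
      R j k → (∀ ω, B' ω → ∀ l ≤ r, ∀ b, NBx c (G k (ptr F J ω)) (g k) (a k) (F.t ω) l b →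
        |eval b (G k (ptr F J ω) l) - eval b (G j (ptr F J ω) l)| ≤ 2 ^ s / 2 ^ g j l) ∧
      ∀ ω, B' ω → ∀ l ≤ r, ∀ b, NBx c (G k (ptr F J ω)) (g k) (a k) (F.t ω) l b →
        |eval b (H j (slam F (w j) ω) l) - eval b (G k (ptr F J ω) l)| ≤ 2 ^ s / 2 ^ g j l :=
    ⟨_, rfl⟩
  have s3 : s' + Cw ≤ s ∧ Cv * (s' + Cw + 1) ≤ s := by
    have e1 : Co * (s' + 1) = s' + 1 + Cw * (s' + 1) + Cv * (Cw + 1) * (s' + 1) := by
      rw [hCo]
      ring
    have e2 : Cw ≤ Cw * (s' + 1) := Nat.le_mul_of_pos_right _ (by omega)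
    have e3 : Cv * (s' + Cw + 1) ≤ Cv * (Cw + 1) * (s' + 1) := by
      rw [mul_assoc]
      exact Nat.mul_le_mul_left _ (by nlinarith)
    constructor <;> omega
  obtain ⟨P2, hP2⟩ : ∃ P2 : ℕ → (F.Ω → Prop) → Prop, P2 = fun k B' =>
      (a k = w k → ∀ ω, B' ω → ∀ l ≤ r, ∀ t, |t - F.t ω| ≤ 1 / 2 ^ a k →
        |opt F ω t (some (c l)) - eval (opt F ω t) (G k (ptr F J ω) l)| ≤ 2 ^ s / 2 ^ g k l) ∧
      ∀ ω, B' ω → ∀ l ≤ r, ∀ t, |t - F.t ω| ≤ 1 / 2 ^ w k →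
        |opt F ω t (some (c l)) - eval (opt F ω t) (H k (slam F (w k) ω) l)| ≤
          2 ^ s / 2 ^ g k l := ⟨_, rfl⟩
  have hpos : ∀ B', Pe F.p B ≤ K ^ n * Pe F.p B' → 0 < Pe F.p B' := by
    intro B' h1
    by_contra hcon
    have h2 : Pe F.p B' = 0 := le_antisymm (not_lt.1 hcon) (hp B')
    rw [h2, mul_zero] at h1
    linarith
  obtain ⟨B', k1, k2, k3⟩ := fin_ev (p := F.p) B n hK1 hp
    (fun i B' => if i < M * M then P1 (i / M) (i % M) B' else P2 (i - M * M) B')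
    (fun i B₁ B₂ hB h => by
      by_cases h1 : i < M * M
      · rw [if_pos h1] at h ⊢
        rw [hP1] at h ⊢
        exact fun h2 => ⟨fun ω hω => (h h2).1 ω (hB ω hω), fun ω hω => (h h2).2 ω (hB ω hω)⟩
      · rw [if_neg h1] at h ⊢
        rw [hP2] at h ⊢
        exact ⟨fun h2 ω hω => h.1 h2 ω (hB ω hω), fun ω hω => h.2 ω (hB ω hω)⟩)
    (fun i hi B' hB' hP => by
      have hκ' : κ * 2 ^ (r + 1) ≤ 1 / K ^ n := by
        rw [le_div_iff₀ (by positivity), ← hK]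
        calc κ * K * K ^ n = κ * K ^ (n + 1) := by rw [pow_succ]; ring
          _ ≤ 1 := hκ
      have hP' : 1 / K ^ n * Pe F.p B ≤ Pe F.p B' := by
        rw [one_div, inv_mul_le_iff₀ (by positivity)]
        exact hP
      by_cases h1 : i < M * M
      · have hM : 0 < M := by
          by_contra hcon
          have : M = 0 := by omega
          rw [this] at h1
          omega
        have hj : i / M < M := Nat.div_lt_of_lt_mul h1
        have hk : i % M < M := Nat.mod_lt _ hM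
        simp only [if_pos h1]
        by_cases hRjk : R (i / M) (i % M)
        · obtain ⟨r1, r2, r3⟩ := hR _ hj _ hk hRjk
          have hJ' : w (i % M) ≤ J := ((hwa _ hk).trans (haA _ hk)).trans hAJ
          obtain ⟨B'', m1, m2, m3, m4⟩ := hu hc r1 r2 hJ'
            ((hnod _ hk).rlF.mono hDr le_rfl) hB' hκ0 hP' hκ' ((hnod _ hk).top.sub hB')
            ((hnod _ hj).top.sub hB') r3
          refine ⟨B'', m1, by rw [hK]; exact m2, ?_⟩
          rw [hP1]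
          exact fun _ => ⟨fun ω hω l hl b hb => dv (m3 ω hω l hl b hb) s1,
            fun ω hω l hl b hb => dv (m4 ω hω l hl b hb) s1⟩
        · refine ⟨B', fun _ h => h, le_mul_of_one_le_left (hp _) hK1, ?_⟩
          rw [hP1]
          exact fun h => absurd h hRjk
      · simp only [if_neg h1]
        have hk : i - M * M < M := by omega
        obtain ⟨k, hk'⟩ : ∃ k, k = i - M * M := ⟨_, rfl⟩
        rw [← hk'] at hk ⊢
        have hB'0 := hpos B' hP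
        have hwiJ : w k ≤ Aₘ := (hwa _ hk).trans (haA _ hk)
        have hAiJ : ((w k : ℕ) : ℝ) ≤ Aₘ := by exact_mod_cast hwiJ
        have hl2 : 0 < Real.log 2 := Real.log_pos one_lt_two
        have htop := (hnod _ hk).top.sub hB'
        obtain ⟨B'', m1, m2, m3⟩ := ho (s := s') hB'0 (hwiJ.trans hAJ) htop
          (hTm B' hB' hP hB'0) hθ (hCJ.trans (mul_le_mul_of_nonneg_right (by linarith) hl2.le))
          hCs
        refine ⟨B'', m1, ?_, ?_⟩
        · have h4 := mul_le_mul_of_nonneg_right hK2 (hp B'')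
          linarith
        · rw [hP2]
          refine ⟨fun haw ω hω l hl t ht => ?_, fun ω hω l hl t ht =>
            dv (m3 ω hω l (by omega) t ht) s3.1⟩
          have htop' : ChOK F c (r + 1) (fun _ => D) (a k) (a k) E (g k) B'' (G k) (H k) := by
            have h2 := htop.sub m1
            rwa [← haw] at h2
          have h5 := hv hc htop' ω hω (s := s' + Cw) (fun l hl t ht => by
            rw [haw] at ht ⊢
            exact m3 ω hω l hl t ht)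
          exact dv (h5 l (by omega) t ht) s3.2)
  have hpair : ∀ j < M, ∀ k < M, P1 j k B' := by
    intro j hj k hk
    have h1 : j * M + k < M * M := by
      calc j * M + k < j * M + M := by omega
        _ = (j + 1) * M := by ring
        _ ≤ M * M := Nat.mul_le_mul_right _ hj
    have h2 := k3 (j * M + k) (by omega)
    have e1 : (j * M + k) / M = j := by
      rw [mul_comm j M, Nat.mul_add_div (by omega), Nat.div_eq_of_lt hk, add_zero]
    have e2 : (j * M + k) % M = k := by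
      rw [mul_comm j M, Nat.mul_add_mod, Nat.mod_eq_of_lt hk]
    simp only [if_pos h1, e1, e2] at h2
    exact h2
  have hown : ∀ k < M, P2 k B' := by
    intro k hk
    have h2 := k3 (M * M + k) (by omega)
    simp only [if_neg (show ¬ M * M + k < M * M by omega), Nat.add_sub_cancel_left] at h2
    exact h2
  refine ⟨B', k1, k2, fun k hk => (hnod k hk).sub k1 (κ₁ := 1 / K ^ n) ?_ hκ₁ ?_,
    fun j hj k hk hRjk => ?_, fun j hj k hk hRjk => ?_, fun k hk => ?_, fun k hk => ?_⟩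
  · rw [one_div, inv_mul_le_iff₀ (by positivity)]
    exact k2
  · rw [mul_one_div, le_div_iff₀ (by positivity)]
    exact hκ2
  · have h1 := hpair j hj k hk
    rw [hP1] at h1
    exact (h1 hRjk).1
  · have h1 := hpair j hj k hk
    rw [hP1] at h1
    exact (h1 hRjk).2
  · have h1 := hown k hk
    rw [hP2] at h1
    exact h1.1
  · have h1 := hown k hk
    rw [hP2] at h1
    exact h1.2

end Pool.STB77
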