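import Pool.Agent.H65.STB.Knt

/-!
# The visible Taylor polynomial of a static target

`ka_van`: the transversal truncation of a polynomial has the same derivatives on the line, up to the
order of the truncation. `tay_cmp`: the Taylor polynomial of a near polynomial at a near point is near
a natural polynomial.
-/

set_option autoImplicit false

namespace Pool.STB77

open Finset Real MvPolynomial
open Pool.STB (V3 Po Bx Hb hom_smul)
open Pool.STB65

/-! ### The transversal components -/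

theorem tsc_tsc (s x : ℝ) (q : V3) : tsc x (tsc s q) = tsc (s * x) q := by
  funext i
  by_cases h : i = 0
  · subst h
    simp [tsc]
  · simp only [tsc, if_neg h]
    ring

/-- The transversal components are homogeneous. -/
theorem thc_tsc {P : Po} {K : ℕ} (h : P.totalDegree ≤ K) (n : ℕ) (s : ℝ) (q : V3) :
    eval (tsc s q) (thc K n P) = s ^ n * eval q (thc K n P) := by
  have e : tln P (tsc s q) = (tln P q).comp (Polynomial.C s * Polynomial.X) := by
    refine Polynomial.funext fun x => ?_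
    rw [eval_tln, Polynomial.eval_comp, Polynomial.eval_mul, Polynomial.eval_C, Polynomial.eval_X,
      eval_tln, tsc_tsc]
  rw [thc_coeff h, thc_coeff h, e, Polynomial.comp_C_mul_X_coeff, mul_comm]

/-- A polynomial is bounded on a box. -/
theorem bd_box (P : Po) (R : ℝ) : ∃ M : ℝ, 0 ≤ M ∧ ∀ q, Bx R q → |eval q P| ≤ M := by
  obtain ⟨M, hM⟩ := (isCompact_univ_pi fun _ : Fin 3 => isCompact_Icc (a := -R)
    (b := R)).exists_bound_of_continuousOn (f := fun q : V3 => eval q P)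
    (MvPolynomial.continuous_eval P).continuousOn
  refine ⟨max M 0, le_max_right _ _, fun q hq => ?_⟩
  have h1 := hM q (Set.mem_univ_pi.2 fun i => abs_le.1 (hq i))
  rw [Real.norm_eq_abs] at h1
  exact h1.trans (le_max_left _ _)

/-- Small at a point to a high order. -/
theorem hc_zero {K b : ℕ} {P : Po} (hP : P.totalDegree ≤ K) {M : ℝ}
    (hM : ∀ ρ : ℝ, 0 < ρ → ρ ≤ 1 → ∀ r, Bx ρ r → |eval r P| ≤ M * ρ ^ (b + 1)) :
    ∀ n ≤ b, ∀ q, eval q (homogeneousComponent n P) = 0 := by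
  obtain ⟨C, hC, hc⟩ := hc_le K
  intro n hn q
  by_contra hne
  obtain ⟨v, hv⟩ : ∃ v, v = |eval q (homogeneousComponent n P)| := ⟨_, rfl⟩
  have hpos : 0 < v := hv ▸ abs_pos.2 hne
  obtain ⟨R, hR⟩ : ∃ R : ℝ, R = 1 + ∑ i, |q i| := ⟨_, rfl⟩
  have hs0 : 0 ≤ ∑ i, |q i| := Finset.sum_nonneg fun i _ => abs_nonneg _
  have hR1 : 1 ≤ R := by rw [hR]; linarith
  have hq : Bx R q := fun i => by
    have h1 := Finset.single_le_sum (f := fun i => |q i|) (fun i _ => abs_nonneg _)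
      (Finset.mem_univ i)
    have h2 : |q i| ≤ ∑ i, |q i| := h1
    rw [hR]
    linarith
  have hM0 : 0 ≤ M := by
    have h1 := hM 1 one_pos le_rfl 0 fun i => by simp
    rw [one_pow, mul_one] at h1
    exact (abs_nonneg _).trans h1
  obtain ⟨U, hU⟩ : ∃ U : ℝ, U = C * M * R ^ n := ⟨_, rfl⟩
  have hU0 : 0 ≤ U := by rw [hU]; positivity
  obtain ⟨ρ, hρ⟩ : ∃ ρ, ρ = min 1 (v / (2 * (U + 1))) := ⟨_, rfl⟩
  have hρ0 : 0 < ρ := by
    rw [hρ]
    exact lt_min one_pos (by positivity)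
  have hρ1 : ρ ≤ 1 := by rw [hρ]; exact min_le_left _ _
  have hρ2 : ρ ≤ v / (2 * (U + 1)) := by rw [hρ]; exact min_le_right _ _
  have h1 := hc P (M * ρ ^ (b + 1)) ρ R hP hρ0 (by linarith) (hM ρ hρ0 hρ1) n q hq
  rw [← hv] at h1
  obtain ⟨k, hk⟩ : ∃ k, b + 1 = n + (k + 1) := ⟨b - n, by omega⟩
  have e1 : C * (M * ρ ^ (b + 1)) * (R / ρ) ^ n = U * ρ ^ (k + 1) := by
    rw [hk, pow_add, hU, div_pow]
    have : ρ ^ n ≠ 0 := pow_ne_zero _ hρ0.ne'
    field_simp
  have e2 : ρ ^ (k + 1) ≤ ρ := by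
    calc ρ ^ (k + 1) = ρ ^ k * ρ := pow_succ _ _
      _ ≤ 1 * ρ := mul_le_mul_of_nonneg_right (pow_le_one₀ hρ0.le hρ1) hρ0.le
      _ = ρ := one_mul ρ
  rw [e1] at h1
  have h2 : U * ρ ^ (k + 1) ≤ U * (v / (2 * (U + 1))) :=
    mul_le_mul_of_nonneg_left (e2.trans hρ2) hU0
  have h3 : U * (v / (2 * (U + 1))) < v := by
    rw [mul_div_assoc', div_lt_iff₀ (by positivity)]
    nlinarith
  linarith

/-- **The truncation has the same derivatives on the line.** -/
theorem ka_van {K' K₂ b : ℕ} {hs : Fin 3 → Polynomial ℝ} {k : Po} {τ : ℝ} (h0 : hs 0 = Polynomial.X)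
    (hb : b ≤ K') (hQ : (shp hs k).totalDegree ≤ K')
    (hd : (k - ka K' b hs k).totalDegree ≤ K₂) :
    ∀ n ≤ b, ∀ q, eval q (homogeneousComponent n (trs (lp hs τ) (k - ka K' b hs k))) = 0 := by
  classical
  -- the slope of the line
  obtain ⟨L, hL⟩ : ∃ L : ℝ, ∀ j x, |x| ≤ 1 → |ash hs τ j x| ≤ L * |x| := by
    have h1 : ∀ j, ∃ L : ℝ, ∀ t ∈ Set.Icc (τ - 1) (τ + 1),
        |(Polynomial.derivative (hs j)).eval t| ≤ L := by
      intro j
      obtain ⟨M, hM⟩ := (isCompact_Icc (a := τ - 1) (b := τ + 1)).exists_bound_of_continuousOn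
        (f := fun t => (Polynomial.derivative (hs j)).eval t)
        (Polynomial.continuous _).continuousOn
      exact ⟨M, fun t ht => by
        have := hM t ht
        rwa [Real.norm_eq_abs] at this⟩
    choose L hL using h1
    refine ⟨∑ j, |L j|, fun j x hx => ?_⟩
    have hx' := abs_le.1 hx
    have h2 := pol_lip (hs j) (hL j) (x := τ) (y := τ + x) ⟨by linarith, by linarith⟩
      ⟨by linarith [hx'.1], by linarith [hx'.2]⟩
    rw [add_sub_cancel_left] at h2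
    refine h2.trans (mul_le_mul_of_nonneg_right ?_ (abs_nonneg _))
    have h3 := Finset.single_le_sum (f := fun j => |L j|) (fun i _ => abs_nonneg _)
      (Finset.mem_univ j)
    exact (le_abs_self _).trans h3
  have hL0 : 0 ≤ L := by
    have := hL 0 1 (by simp)
    rw [abs_one, mul_one] at this
    exact (abs_nonneg _).trans this
  obtain ⟨R, hR⟩ : ∃ R : ℝ, R = 1 + L + (|τ| + 1) := ⟨_, rfl⟩
  choose M hM0 hM using fun n => bd_box (thc K' n (shp hs k)) R
  refine hc_zero ((deg_trs _ _).trans hd) (M := ∑ n ∈ range (K' - b), M (b + 1 + n)) ?_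
  intro ρ hρ0 hρ1 r hr
  obtain ⟨η, hη⟩ : ∃ η, η = psi τ (ash hs τ 1) (ash hs τ 2) r := ⟨_, rfl⟩
  have e1 : eval r (trs (lp hs τ) (k - ka K' b hs k)) =
      ∑ n ∈ range (K' - b), eval η (thc K' (b + 1 + n) (shp hs k)) := by
    rw [eval_trs, map_sub, add_comm r, frame_k h0, frame_ka h0, ← hη, sum_thc hQ, eval_trl,
      show K' + 1 = (b + 1) + (K' - b) by omega, Finset.sum_range_add]
    ring
  have hr0 : |r 0| ≤ ρ := hr 0
  have ha : ∀ j, |ash hs τ j (r 0)| ≤ L * ρ := fun j =>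
    (hL j (r 0) (hr0.trans hρ1)).trans (mul_le_mul_of_nonneg_left hr0 hL0)
  obtain ⟨η', hη'⟩ : ∃ η' : V3, η' = fun i => if i = 0 then η 0 else η i / ρ := ⟨_, rfl⟩
  have e2 : η = tsc ρ η' := by
    funext i
    rw [hη']
    by_cases h : i = 0
    · subst h
      simp [tsc]
    · simp only [tsc, if_neg h]
      field_simp
  have e3 : Bx R η' := by
    have h4 : η 0 = τ + r 0 := by rw [hη]; simp [psi]
    have h5 : η 1 = r 1 - ash hs τ 1 (r 0) := by rw [hη]; simp [psi]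
    have h6 : η 2 = r 2 - ash hs τ 2 (r 0) := by rw [hη]; simp [psi]
    have h7 : ∀ x a : ℝ, |x| ≤ ρ → |a| ≤ L * ρ → |(x - a) / ρ| ≤ R := by
      intro x a hx ha
      rw [abs_div, abs_of_pos hρ0, div_le_iff₀ hρ0]
      have h8 := abs_sub x a
      have h9 : 0 ≤ |τ| := abs_nonneg τ
      rw [hR]
      nlinarith
    intro i
    rw [hη']
    fin_cases i
    · show |if (0 : Fin 3) = 0 then η 0 else η 0 / ρ| ≤ R
      rw [if_pos rfl, h4, hR]
      have := abs_add_le τ (r 0)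
      linarith
    · show |if (1 : Fin 3) = 0 then η 0 else η 1 / ρ| ≤ R
      rw [if_neg (by decide), h5]
      exact h7 _ _ (hr 1) (ha 1)
    · show |if (2 : Fin 3) = 0 then η 0 else η 2 / ρ| ≤ R
      rw [if_neg (by decide), h6]
      exact h7 _ _ (hr 2) (ha 2)
  rw [e1, Finset.sum_mul]
  refine (Finset.abs_sum_le_sum_abs _ _).trans (Finset.sum_le_sum fun n _ => ?_)
  rw [e2, thc_tsc hQ, abs_mul, abs_of_nonneg (by positivity), mul_comm]
  refine mul_le_mul (hM _ _ e3) ?_ (by positivity) (hM0 _)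
  exact pow_le_pow_of_le_one hρ0.le hρ1 (by omega)

/-! ### Taylor polynomials -/

/-- The terms of high order. -/
theorem tail_le (K b : ℕ) (hb : b ≤ K) : ∃ C : ℝ, 1 ≤ C ∧ ∀ (P : Po) (M r ρ : ℝ),
    P.totalDegree ≤ K → 0 < r → 0 < ρ → ρ ≤ r → (∀ q, Bx r q → |eval q P| ≤ M) → ∀ q, Bx ρ q →
      |eval q P - eval q (low (b + 1) P)| ≤ C * M * (ρ / r) ^ (b + 1) := by
  obtain ⟨C, hC, hc⟩ := hc_le K
  have hK0 : (0 : ℝ) ≤ K := Nat.cast_nonneg K
  refine ⟨(K + 1) * C, by nlinarith, fun P M r ρ hP hr hρ hρr hM q hq => ?_⟩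
  have hM0 : 0 ≤ M := (abs_nonneg _).trans (hM 0 fun i => by simpa using hr.le)
  have e1 : eval q P - eval q (low (b + 1) P) =
      ∑ n ∈ range (K - b), eval q (homogeneousComponent (b + 1 + n) P) := by
    rw [sum_hc P hP, eval_low, show K + 1 = (b + 1) + (K - b) by omega, Finset.sum_range_add]
    ring
  have h1 : ρ / r ≤ 1 := (div_le_one hr).2 hρr
  have h0 : 0 ≤ ρ / r := by positivity
  rw [e1]
  refine (Finset.abs_sum_le_sum_abs _ _).trans ?_
  have h2 : ∀ n ∈ range (K - b), |eval q (homogeneousComponent (b + 1 + n) P)| ≤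
      C * M * (ρ / r) ^ (b + 1) := fun n _ =>
    (hc P M r ρ hP hr hρ hM _ q hq).trans (mul_le_mul_of_nonneg_left
      (pow_le_pow_of_le_one h0 h1 (by omega)) (by positivity))
  refine (Finset.sum_le_sum h2).trans ?_
  rw [Finset.sum_const, card_range, nsmul_eq_mul]
  have h3 : ((K - b : ℕ) : ℝ) ≤ K + 1 := by
    have : K - b ≤ K + 1 := by omega
    exact_mod_cast this
  calc ((K - b : ℕ) : ℝ) * (C * M * (ρ / r) ^ (b + 1)) ≤
      (K + 1) * (C * M * (ρ / r) ^ (b + 1)) := mul_le_mul_of_nonneg_right h3 (by positivity)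
    _ = _ := by ring

/-- The terms of low order. -/
theorem low_le (K b : ℕ) : ∃ C : ℝ, 1 ≤ C ∧ ∀ (P : Po) (M r ρ : ℝ),
    P.totalDegree ≤ K → 0 < r → r ≤ ρ → (∀ q, Bx r q → |eval q P| ≤ M) → ∀ q, Bx ρ q →
      |eval q (low (b + 1) P)| ≤ C * M * (ρ / r) ^ b := by
  obtain ⟨C, hC, hc⟩ := hc_le K
  have hb0 : (0 : ℝ) ≤ b := Nat.cast_nonneg b
  refine ⟨(b + 1) * C, by nlinarith, fun P M r ρ hP hr hrρ hM q hq => ?_⟩
  have hM0 : 0 ≤ M := (abs_nonneg _).trans (hM 0 fun i => by simpa using hr.le)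
  have h1 : 1 ≤ ρ / r := by rwa [le_div_iff₀ hr, one_mul]
  rw [eval_low]
  refine (Finset.abs_sum_le_sum_abs _ _).trans ?_
  have h2 : ∀ n ∈ range (b + 1), |eval q (homogeneousComponent n P)| ≤ C * M * (ρ / r) ^ b :=
    fun n hn => (hc P M r ρ hP hr (by linarith) hM _ q hq).trans (mul_le_mul_of_nonneg_left
      (pow_le_pow_right₀ h1 (Nat.lt_succ_iff.1 (mem_range.1 hn))) (by positivity))
  refine (Finset.sum_le_sum h2).trans (le_of_eq ?_)
  rw [Finset.sum_const, card_range, nsmul_eq_mul]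
  push_cast
  ring

/-- **The Taylor polynomial of a near polynomial at a near point.** `Kt`: a natural polynomial, `k`
has the same derivatives at `y` up to the order `b`, `f` is near `k` near `y`. -/
theorem tay_cmp (K b : ℕ) (hb : b ≤ K) : ∃ C : ℝ, 1 ≤ C ∧ ∀ (Kt k f : Po) (y x : V3)
    (M M' δ ε η ρ : ℝ), Kt.totalDegree ≤ K → k.totalDegree ≤ K → f.totalDegree ≤ K → 0 < η →
    2 * η ≤ ε → ε ≤ ρ → 4 * ρ ≤ 1 → Bx η (x - y) →
    (∀ r, Bx 1 r → |eval (y + r) Kt| ≤ M) →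
    (∀ r, Bx ε r → |eval (y + r) k - eval (y + r) f| ≤ δ) →
    (∀ r, Bx ε r → |eval (y + r) k - eval (y + r) Kt| ≤ M') →
    (∀ n ≤ b, ∀ q, eval q (homogeneousComponent n (trs y (k - Kt))) = 0) →
    ∀ r, Bx ρ r → |eval (y + r) Kt - eval (y + r - x) (low (b + 1) (trs x f))| ≤
      C * (M * ρ ^ (b + 1) + δ * (ρ / ε) ^ b + M' * (η / ε) * (ρ / ε) ^ b) := by
  obtain ⟨C₁, hC₁, htail⟩ := tail_le K b hb
  obtain ⟨C₂, hC₂, hlow⟩ := low_le K b
  have h4b : (1 : ℝ) ≤ 4 ^ (b + 1) := one_le_pow₀ (by norm_num)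
  refine ⟨C₂ * C₁ * 4 ^ (b + 1), by nlinarith [mul_le_mul hC₂ hC₁ (by norm_num) (by linarith)],
    ?_⟩
  intro Kt k f y x M M' δ ε η ρ hKt hk hf hη hηε hερ hρ hx hM hδ hM' hz r hr
  have hε : 0 < ε := by linarith
  have hρ0 : 0 < ρ := by linarith
  have hM0 : 0 ≤ M := (abs_nonneg _).trans (hM 0 fun i => by simp)
  have hδ0 : 0 ≤ δ := (abs_nonneg _).trans (hδ 0 fun i => by simpa using hε.le)
  have hM'0 : 0 ≤ M' := (abs_nonneg _).trans (hM' 0 fun i => by simpa using hε.le)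
  obtain ⟨z, hzd⟩ : ∃ z, z = y + r - x := ⟨_, rfl⟩
  have hzb : Bx (2 * ρ) z := by
    intro i
    have h1 := hr i
    have h2 := hx i
    rw [Pi.sub_apply] at h2
    have e : z i = r i - (x i - y i) := by
      rw [hzd, Pi.sub_apply, Pi.add_apply]
      ring
    rw [e]
    have := abs_sub (r i) (x i - y i)
    linarith
  have hdeg : ∀ {P Q : Po}, P.totalDegree ≤ K → Q.totalDegree ≤ K → (P - Q).totalDegree ≤ K :=
    fun h1 h2 => (totalDegree_sub _ _).trans (max_le h1 h2)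
  have hpt : ∀ q : V3, q + x = y + (q + (x - y)) := fun q => by abel
  have hbx : ∀ {a : ℝ} {q : V3}, Bx a q → Bx (a + η) (q + (x - y)) := fun hq => bxa hq hx
  -- the natural polynomial
  have k1 : |eval (y + r) Kt - eval z (low (b + 1) (trs x Kt))| ≤ C₁ * M * (4 * ρ) ^ (b + 1) := by
    have h1 := htail (trs x Kt) M (1 / 2) (2 * ρ) ((deg_trs _ _).trans hKt) (by norm_num)
      (by linarith) (by linarith) (fun q hq => by
        rw [eval_trs, hpt]
        exact hM _ (bxm (hbx hq) (by linarith))) z hzb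
    rw [eval_trs] at h1
    have e1 : z + x = y + r := by rw [hzd]; abel
    rw [e1] at h1
    have e2 : 2 * ρ / (1 / 2) = 4 * ρ := by ring
    rwa [e2] at h1
  -- the near polynomial
  have k2 : |eval z (low (b + 1) (trs x (k - f)))| ≤ C₂ * δ * (4 * (ρ / ε)) ^ b := by
    have h1 := hlow (trs x (k - f)) δ (ε / 2) (2 * ρ) ((deg_trs _ _).trans (hdeg hk hf))
      (by linarith) (by linarith) (fun q hq => by
        rw [eval_trs, map_sub, hpt]
        exact hδ _ (bxm (hbx hq) (by linarith))) z hzb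
    have e2 : 2 * ρ / (ε / 2) = 4 * (ρ / ε) := by
      field_simp
      ring
    rwa [e2] at h1
  -- the difference of high order
  have k3 : |eval z (low (b + 1) (trs x (k - Kt)))| ≤
      C₂ * (C₁ * M' * (2 * η / ε) ^ (b + 1)) * (2 * ρ / η) ^ b := by
    refine hlow (trs x (k - Kt)) _ η (2 * ρ) ((deg_trs _ _).trans (hdeg hk hKt)) hη
      (by linarith) (fun q hq => ?_) z hzb
    have h1 := htail (trs y (k - Kt)) M' ε (2 * η) ((deg_trs _ _).trans (hdeg hk hKt)) hε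
      (by linarith) hηε (fun s hs => by
        rw [eval_trs, map_sub, add_comm s]
        exact hM' s hs) (q + (x - y)) (bxm (hbx hq) (by linarith))
    have e3 : eval (q + (x - y)) (low (b + 1) (trs y (k - Kt))) = 0 := by
      rw [eval_low]
      exact Finset.sum_eq_zero fun n hn => hz n (Nat.lt_succ_iff.1 (mem_range.1 hn)) _
    rw [e3, sub_zero, eval_trs] at h1
    rw [eval_trs]
    have e4 : q + (x - y) + y = q + x := by abel
    rwa [e4] at h1
  have e5 : eval z (low (b + 1) (trs x Kt)) - eval z (low (b + 1) (trs x f)) =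
      eval z (low (b + 1) (trs x (k - f))) - eval z (low (b + 1) (trs x (k - Kt))) := by
    rw [trs_sub, trs_sub, low_sub, low_sub, map_sub, map_sub]
    ring
  rw [← hzd]
  have e6 : eval (y + r) Kt - eval z (low (b + 1) (trs x f)) =
      (eval (y + r) Kt - eval z (low (b + 1) (trs x Kt))) +
      (eval z (low (b + 1) (trs x (k - f))) - eval z (low (b + 1) (trs x (k - Kt)))) := by
    rw [← e5]
    ring
  rw [e6]
  refine (abs_add_le _ _).trans ?_
  have k4 := abs_sub (eval z (low (b + 1) (trs x (k - f)))) (eval z (low (b + 1) (trs x (k - Kt))))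
  have a1 : C₁ * M * (4 * ρ) ^ (b + 1) ≤ C₂ * C₁ * 4 ^ (b + 1) * (M * ρ ^ (b + 1)) := by
    rw [mul_pow]
    have : C₁ * M * (4 ^ (b + 1) * ρ ^ (b + 1)) = 1 * (C₁ * 4 ^ (b + 1) * (M * ρ ^ (b + 1))) := by
      ring
    rw [this, show C₂ * C₁ * 4 ^ (b + 1) * (M * ρ ^ (b + 1)) =
      C₂ * (C₁ * 4 ^ (b + 1) * (M * ρ ^ (b + 1))) by ring]
    exact mul_le_mul_of_nonneg_right hC₂ (by positivity)
  have a2 : C₂ * δ * (4 * (ρ / ε)) ^ b ≤ C₂ * C₁ * 4 ^ (b + 1) * (δ * (ρ / ε) ^ b) := by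
    rw [mul_pow]
    have h1 : (4 : ℝ) ^ b ≤ C₁ * 4 ^ (b + 1) := by
      have h2 : (4 : ℝ) ^ b ≤ 4 ^ (b + 1) := pow_le_pow_right₀ (by norm_num) (by omega)
      nlinarith [show (0 : ℝ) < 4 ^ (b + 1) by positivity]
    calc C₂ * δ * (4 ^ b * (ρ / ε) ^ b) = 4 ^ b * (C₂ * (δ * (ρ / ε) ^ b)) := by ring
      _ ≤ (C₁ * 4 ^ (b + 1)) * (C₂ * (δ * (ρ / ε) ^ b)) :=
          mul_le_mul_of_nonneg_right h1 (by positivity)
      _ = _ := by ring
  have a3 : C₂ * (C₁ * M' * (2 * η / ε) ^ (b + 1)) * (2 * ρ / η) ^ b ≤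
      C₂ * C₁ * 4 ^ (b + 1) * (M' * (η / ε) * (ρ / ε) ^ b) := by
    have e7 : (2 * η / ε) ^ (b + 1) * (2 * ρ / η) ^ b =
        2 * 4 ^ b * ((η / ε) * (ρ / ε) ^ b) := by
      rw [pow_succ, div_pow, div_pow, div_pow, mul_pow, mul_pow,
        show (4 : ℝ) ^ b = 2 ^ b * 2 ^ b by rw [← mul_pow]; norm_num]
      have h1 : η ^ b ≠ 0 := pow_ne_zero _ hη.ne'
      have h2 : ε ^ b ≠ 0 := pow_ne_zero _ hε.ne'
      field_simp
    calc C₂ * (C₁ * M' * (2 * η / ε) ^ (b + 1)) * (2 * ρ / η) ^ b =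
        C₂ * C₁ * M' * ((2 * η / ε) ^ (b + 1) * (2 * ρ / η) ^ b) := by ring
      _ = (2 * 4 ^ b) * (C₂ * C₁ * (M' * ((η / ε) * (ρ / ε) ^ b))) := by rw [e7]; ring
      _ ≤ 4 ^ (b + 1) * (C₂ * C₁ * (M' * ((η / ε) * (ρ / ε) ^ b))) := by
          refine mul_le_mul_of_nonneg_right ?_ (by positivity)
          rw [pow_succ]
          linarith [show (0 : ℝ) < 4 ^ b by positivity]
      _ = _ := by ring
  have a4 : C₂ * C₁ * 4 ^ (b + 1) * (M * ρ ^ (b + 1) + δ * (ρ / ε) ^ b +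
      M' * (η / ε) * (ρ / ε) ^ b) = C₂ * C₁ * 4 ^ (b + 1) * (M * ρ ^ (b + 1)) +
      C₂ * C₁ * 4 ^ (b + 1) * (δ * (ρ / ε) ^ b) +
      C₂ * C₁ * 4 ^ (b + 1) * (M' * (η / ε) * (ρ / ε) ^ b) := by ring
  rw [a4]
  linarith

end Pool.STB77
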