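import Pool.Agent.H77.STB.Nn1
import Pool.Agent.H19.STB.RefG

/-!
# The visible Taylor polynomial is near a closed natural polynomial

`vis_tay`: for a static target, the Taylor polynomial of order `b` of the visible label of the last
ball is near a closed natural polynomial; the error is of order `b + 1`, and of order `b` with a gain.
-/

set_option autoImplicit false

namespace Pool.STB77

open Finset Real MvPolynomial
open Pool.Agent.H49.Ent Pool.Agent.H32.Dense Pool.STK Pool.KA Pool.KSAT Pool.K2S Pool.PB Pool.S6C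
open Pool.GEN
open Pool.STB (V3 Po Bx Hb hom_smul)
open Pool.STB65
open Pool.PB.Trl (rt rt_mem)
open Pool.FLF (Fam.sub)

/-- **The visible Taylor polynomial of a static target.** -/
theorem vis_tay (m K b : ℕ) (hK : 1 ≤ K) (hbK : b ≤ K) : ∃ E : ℕ, ∀ N : ℕ, ∃ C : ℝ, 1 ≤ C ∧
    ∀ {J : ℕ} (F : Fam m J) (B : F.Ω → Prop) (hB : 0 < Pe F.p B) (W₀ t : ℕ) (Y θ η : ℝ)
      (y : F.Ω → V3) (yt : PtT F → V3) (h : LnT F → Fin 3 → Polynomial ℝ) (e : ℕ → ℕ)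
      (f : ℕ → PtT F → Po) (f' : ℕ → LnT F → Po) (kf : LnT F → Po),
      InpF F B W₀ N K b Y y e f f' kf → (∀ s j, (h s j).natDegree ≤ K) →
      (∀ s, h s 0 = Polynomial.X) →
      (∀ ω, B ω → ∀ j, y ω j = (h (slam F W₀ ω) j).eval (rt F W₀ ω)) →
      (∀ ω, B ω → ∀ j, ∀ τ ∈ Set.Icc (0 : ℝ) 1,
        |(Polynomial.derivative (h (slam F W₀ ω) j)).eval τ| ≤ Y) →
      W₀ ≤ J → C ≤ Y → 0 ≤ θ → (Fam.sub F B hB).Tm θ →
      C * (θ + 1) ≤ ((J : ℝ) - W₀) * Real.log 2 → Real.exp (C * (θ + 1)) ≤ Y →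
      (∀ ω, B ω → ∀ r, Bx (1 / 2 ^ e N) r → |eval (y ω + r) (kf (slam F W₀ ω)) -
        eval (y ω + r) (f N (ptr F J ω))| ≤ Y * (1 / 2 ^ e N) ^ b / 2 ^ t) →
      (∀ ω, B ω → Bx η (yt (ptr F J ω) - y ω)) → 0 < η → 2 * η ≤ 1 / 2 ^ e N →
      2 ≤ e N → η * 2 ^ e N ≤ 1 / 2 ^ t →
      ∃ B' : F.Ω → Prop, Sub B' B ∧ Pe F.p B / 2 ≤ Pe F.p B' ∧ ∀ ω, B' ω →
        (∀ r, Bx 1 r → |eval (y ω + r)
          (ka (K * K) b (h (slam F W₀ ω)) (kf (slam F W₀ ω)))| ≤ Y ^ E) ∧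
        |eval (y ω) (ka (K * K) b (h (slam F W₀ ω)) (kf (slam F W₀ ω))) -
          eval (y ω) (f N (ptr F J ω))| ≤ Y * (1 / 2 ^ e N) ^ b / 2 ^ t ∧
        (∀ ρ : ℝ, 1 / 2 ^ e N ≤ ρ → 4 * ρ ≤ 1 → ∀ r, Bx ρ r →
          |eval (y ω + r) (ka (K * K) b (h (slam F W₀ ω)) (kf (slam F W₀ ω))) -
          eval (y ω + r - yt (ptr F J ω))
            (low (b + 1) (trs (yt (ptr F J ω)) (f N (ptr F J ω))))| ≤
          Y ^ E * (ρ ^ (b + 1) + ρ ^ b / 2 ^ t)) ∧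
        ∀ j q, Bx 1 q → |eval q (pderiv j (low (b + 1) (trs (yt (ptr F J ω))
          (f N (ptr F J ω)))))| ≤ Y ^ E := by
  obtain ⟨E, hnat⟩ := nat_evE m K b hK hbK
  obtain ⟨K', hK'⟩ : ∃ K', K' = K * K := ⟨_, rfl⟩
  obtain ⟨K₂, hK₂⟩ : ∃ K₂, K₂ = K * (K * K) := ⟨_, rfl⟩
  have hKK' : K ≤ K' := by rw [hK']; nlinarith
  have hKK₂ : K ≤ K₂ := by rw [hK₂]; nlinarith [Nat.mul_le_mul hK hK]
  obtain ⟨C₀, hC₀, hcmp⟩ := tay_cmp K₂ b (hbK.trans hKK₂)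
  obtain ⟨C₃, hC₃, hgr⟩ := grow b
  obtain ⟨C₄, hC₄, hmk⟩ := Pool.STB.mkv b
  refine ⟨E + 6, fun N => ?_⟩
  obtain ⟨C₁, hC₁, hnat⟩ := hnat N
  obtain ⟨C₅, hC₅⟩ : ∃ C₅ : ℝ, C₅ = C₃ * 8 ^ b := ⟨_, rfl⟩
  have h8 : (1 : ℝ) ≤ 8 ^ b := one_le_pow₀ (by norm_num)
  have hC50 : 0 ≤ C₅ := by rw [hC₅]; positivity
  refine ⟨C₁ + C₀ + 3 + C₅ + C₄, by linarith, ?_⟩
  intro J F B hB W₀ t Y θ η y yt h e f f' kf hin hd h0 hy hv hW hCY hθ hTm hJ hexp hnear hyt hη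
    hηε heN hηt
  have hY1 : 1 ≤ Y := by linarith
  have hY0 : 0 ≤ Y := by linarith
  have hCθ : C₁ * (θ + 1) ≤ (C₁ + C₀ + 3 + C₅ + C₄) * (θ + 1) :=
    mul_le_mul_of_nonneg_right (by linarith) (by linarith)
  obtain ⟨B', hB', hP', hall⟩ := hnat F B hB W₀ Y θ y h e f f' kf hin hd h0 hy hv hW
    (by linarith) hθ hTm (by linarith) ((Real.exp_le_exp.2 hCθ).trans hexp)
  refine ⟨B', hB', hP', fun ω hω => ?_⟩
  have hωB := hB' ω hω
  obtain ⟨h1, h2⟩ := hall ω hω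
  obtain ⟨hs, hhs⟩ : ∃ hs, hs = h (slam F W₀ ω) := ⟨_, rfl⟩
  obtain ⟨k, hk⟩ : ∃ k, k = kf (slam F W₀ ω) := ⟨_, rfl⟩
  obtain ⟨fN, hfN⟩ : ∃ fN, fN = f N (ptr F J ω) := ⟨_, rfl⟩
  obtain ⟨x, hx⟩ : ∃ x, x = yt (ptr F J ω) := ⟨_, rfl⟩
  obtain ⟨ε, hε⟩ : ∃ ε : ℝ, ε = 1 / 2 ^ e N := ⟨_, rfl⟩
  have hn := hnear ω hωB
  have hyx := hyt ω hωB
  have h3 := h2 N le_rfl
  rw [← hhs, ← hk] at h1 ⊢
  rw [← hhs, ← hk, ← hfN, ← hε] at h3
  rw [← hk, ← hfN, ← hε] at hn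
  rw [← hx] at hyx ⊢
  rw [← hfN]
  rw [← hε] at hηε ⊢
  obtain ⟨Kt, hKt⟩ : ∃ Kt, Kt = ka (K * K) b hs k := ⟨_, rfl⟩
  have hylp : y ω = lp hs (rt F W₀ ω) := funext fun j => by
    rw [hhs]
    exact hy ω hωB j
  have hkd : k.totalDegree ≤ K := by rw [hk]; exact hin.kd _
  have hfd : fN.totalDegree ≤ K := by rw [hfN]; exact hin.fd N _
  have hhd : ∀ i, (hs i).natDegree ≤ K := fun i => by rw [hhs]; exact hd _ i
  have hKtd : Kt.totalDegree ≤ K₂ := by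
    rw [hKt, hK₂]
    exact deg_ka hK hhd hkd
  have hε0 : 0 < ε := by rw [hε]; positivity
  have hε1 : ε ≤ 1 := by
    rw [hε, div_le_one (by positivity)]
    exact one_le_pow₀ one_le_two
  have hz : ∀ n ≤ b, ∀ q, eval q (homogeneousComponent n (trs (y ω) (k - Kt))) = 0 := by
    rw [hKt, hylp]
    refine ka_van (K₂ := K₂) (by rw [hhs]; exact h0 _) (hbK.trans (by rw [← hK']; exact hKK'))
      (deg_shp hK hhd hkd) ((totalDegree_sub _ _).trans (max_le (hkd.trans hKK₂) ?_))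
    rw [← hKt]
    exact hKtd
  have hb1 : ∀ r, Bx 1 r → |eval (y ω + r) Kt| ≤ Y ^ E := by
    intro r hr
    rw [hKt, hylp]
    exact h1 _ (rt_mem F W₀ ω) r hr
  have hM' : ∀ r, Bx ε r → |eval (y ω + r) k - eval (y ω + r) Kt| ≤ 2 * Y ^ (E + 1) * ε ^ b := by
    intro r hr
    have a1 := hn r hr
    have a2 := h3 r hr
    rw [← hKt] at a2
    have e1 : eval (y ω + r) k - eval (y ω + r) Kt = (eval (y ω + r) k - eval (y ω + r) fN) -
        (eval (y ω + r) Kt - eval (y ω + r) fN) := by ring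
    rw [e1]
    refine (abs_sub _ _).trans ?_
    have a3 : Y * ε ^ b / 2 ^ t ≤ Y * ε ^ b :=
      div_le_self (by positivity) (one_le_pow₀ one_le_two)
    have a4 : Y ^ E ≤ Y ^ (E + 1) := pow_le_pow_right₀ hY1 (by omega)
    have a5 : Y ≤ Y ^ (E + 1) := by
      calc Y = Y ^ 1 := (pow_one Y).symm
        _ ≤ _ := pow_le_pow_right₀ hY1 (by omega)
    have a6 : 0 ≤ ε ^ b := by positivity
    nlinarith
  rw [← hKt]
  have main : ∀ ρ : ℝ, ε ≤ ρ → 4 * ρ ≤ 1 → ∀ r, Bx ρ r →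
      |eval (y ω + r) Kt - eval (y ω + r - x) (low (b + 1) (trs x fN))| ≤
        Y ^ (E + 3) * (ρ ^ (b + 1) + ρ ^ b / 2 ^ t) := by
    intro ρ hερ hρ r hr
    have hρ0 : 0 < ρ := by linarith
    have q1 := hcmp Kt k fN (y ω) x (Y ^ E) (2 * Y ^ (E + 1) * ε ^ b) (Y * ε ^ b / 2 ^ t) ε η ρ
      hKtd (hkd.trans hKK₂) (hfd.trans hKK₂) hη hηε hερ hρ hyx hb1 hn hM' hz r hr
    refine q1.trans ?_
    have hεb : ε ^ b ≠ 0 := pow_ne_zero _ hε0.ne'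
    have e1 : Y * ε ^ b / 2 ^ t * (ρ / ε) ^ b = Y * (ρ ^ b / 2 ^ t) := by
      rw [div_pow]
      field_simp
    have e2 : 2 * Y ^ (E + 1) * ε ^ b * (η / ε) * (ρ / ε) ^ b =
        2 * Y ^ (E + 1) * ((η / ε) * ρ ^ b) := by
      rw [div_pow]
      field_simp
    have e3 : η / ε ≤ 1 / 2 ^ t := by
      rw [hε, div_div_eq_mul_div, div_one]
      exact hηt
    have hρb : 0 ≤ ρ ^ b := by positivity
    have e4 : (η / ε) * ρ ^ b ≤ ρ ^ b / 2 ^ t := by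
      calc (η / ε) * ρ ^ b ≤ 1 / 2 ^ t * ρ ^ b := mul_le_mul_of_nonneg_right e3 hρb
        _ = _ := by ring
    rw [e1, e2]
    obtain ⟨u, hu⟩ : ∃ u, u = ρ ^ b / 2 ^ t := ⟨_, rfl⟩
    obtain ⟨v, hv'⟩ : ∃ v, v = ρ ^ (b + 1) := ⟨_, rfl⟩
    have hu0 : 0 ≤ u := by rw [hu]; positivity
    have hv0 : 0 ≤ v := by rw [hv']; positivity
    rw [← hu] at e4 ⊢
    rw [← hv']
    have a4 : Y ^ E ≤ Y ^ (E + 1) := pow_le_pow_right₀ hY1 (by omega)
    have a5 : Y ≤ Y ^ (E + 1) := by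
      calc Y = Y ^ 1 := (pow_one Y).symm
        _ ≤ _ := pow_le_pow_right₀ hY1 (by omega)
    have a6 : 0 ≤ Y ^ (E + 1) := by positivity
    have s1 : Y ^ E * v + Y * u + 2 * Y ^ (E + 1) * ((η / ε) * ρ ^ b) ≤
        3 * Y ^ (E + 1) * (v + u) := by
      have t1 : Y ^ E * v ≤ Y ^ (E + 1) * v := mul_le_mul_of_nonneg_right a4 hv0
      have t2 : Y * u ≤ Y ^ (E + 1) * u := mul_le_mul_of_nonneg_right a5 hu0
      have t3 : 2 * Y ^ (E + 1) * ((η / ε) * ρ ^ b) ≤ 2 * Y ^ (E + 1) * u :=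
        mul_le_mul_of_nonneg_left e4 (by positivity)
      nlinarith [mul_nonneg a6 hv0, mul_nonneg a6 hu0]
    have s2 : C₀ * 3 ≤ Y * Y := by nlinarith
    calc C₀ * (Y ^ E * v + Y * u + 2 * Y ^ (E + 1) * ((η / ε) * ρ ^ b)) ≤
        C₀ * (3 * Y ^ (E + 1) * (v + u)) := mul_le_mul_of_nonneg_left s1 (by linarith)
      _ = (C₀ * 3) * (Y ^ (E + 1) * (v + u)) := by ring
      _ ≤ (Y * Y) * (Y ^ (E + 1) * (v + u)) := mul_le_mul_of_nonneg_right s2 (by positivity)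
      _ = _ := by rw [show E + 3 = 1 + (1 + (E + 1)) by ring, pow_add Y 1, pow_add Y 1, pow_one]
                  ring
  have hpY : ∀ a c : ℕ, a ≤ c → Y ^ a ≤ Y ^ c := fun a c h => pow_le_pow_right₀ hY1 h
  have hε4 : ε ≤ 1 / 4 := by
    rw [hε]
    have h4 : (2 : ℝ) ^ 2 ≤ 2 ^ e N := pow_le_pow_right₀ one_le_two heN
    rw [div_le_div_iff₀ (by positivity) (by norm_num)]
    linarith
  refine ⟨fun r hr => (hb1 r hr).trans (hpY _ _ (by omega)), ?_, fun ρ h5 h6 r hr =>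
    (main ρ h5 h6 r hr).trans ?_, ?_⟩
  · have hk0 : eval (y ω) k = eval (y ω) Kt := by
      have q1 := sum_hc (trs (y ω) (k - Kt)) (K := K₂) ((deg_trs _ _).trans
        ((totalDegree_sub _ _).trans (max_le (hkd.trans hKK₂) hKtd))) 0
      rw [Finset.sum_eq_zero (fun n _ => ?_), eval_trs, zero_add, map_sub] at q1
      · linarith
      · rcases Nat.eq_zero_or_pos n with h | h
        · subst h
          exact hz 0 (Nat.zero_le _) 0
        · have q2 := hom_smul (homogeneousComponent_isHomogeneous n (trs (y ω) (k - Kt))) 0 0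
          rwa [zero_smul, zero_pow h.ne', zero_mul] at q2
    rw [← hk0]
    have q3 := hn 0 fun i => by simpa using hε0.le
    rwa [add_zero] at q3
  · have hρ0 : 0 < ρ := by linarith
    exact mul_le_mul_of_nonneg_right (hpY _ _ (by omega)) (by positivity)
  · intro j q hq
    have hLd : (low (b + 1) (trs x fN)).totalDegree ≤ b := deg_low (by omega) _
    have c1 : ∀ z, Bx (1 / 8) z → |eval z (low (b + 1) (trs x fN))| ≤ 3 * Y ^ (E + 3) := by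
      intro z hz'
      have hr : Bx (1 / 4) (z + (x - y ω)) := bxm (bxa hz' hyx) (by linarith)
      have c2 := main (1 / 4) hε4 (by norm_num) _ hr
      have c3 := hb1 _ (bxm hr (by norm_num))
      have e7 : y ω + (z + (x - y ω)) - x = z := by abel
      rw [e7] at c2
      have c4 : ((1 : ℝ) / 4) ^ (b + 1) + (1 / 4) ^ b / 2 ^ t ≤ 2 := by
        have d1 : ((1 : ℝ) / 4) ^ (b + 1) ≤ 1 := pow_le_one₀ (by norm_num) (by norm_num)
        have d2 : ((1 : ℝ) / 4) ^ b / 2 ^ t ≤ 1 :=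
          (div_le_self (by positivity) (one_le_pow₀ one_le_two)).trans
            (pow_le_one₀ (by norm_num) (by norm_num))
        linarith
      have c5 := c2.trans (mul_le_mul_of_nonneg_left c4 (by positivity))
      have c6 := hpY E (E + 3) (by omega)
      rw [abs_le] at c5 c3 ⊢
      constructor <;> linarith [c5.1, c5.2, c3.1, c3.2]
    have c7 : ∀ z, Bx 1 z → |eval z (low (b + 1) (trs x fN))| ≤ C₅ * (3 * Y ^ (E + 3)) := by
      intro z hz'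
      have d3 := hgr (low (b + 1) (trs x fN)) (3 * Y ^ (E + 3)) (1 / 8) 1 hLd (by norm_num)
        (by norm_num) c1 z hz'
      have e8 : (1 : ℝ) / (1 / 8) = 8 := by norm_num
      rw [e8] at d3
      refine d3.trans (le_of_eq ?_)
      rw [hC₅]
      ring
    refine (hmk _ _ hLd c7 j q hq).trans ?_
    have s3 : C₄ * (C₅ * (3 * Y ^ (E + 3))) = (C₄ * C₅ * 3) * Y ^ (E + 3) := by ring
    have s4 : C₄ * C₅ * 3 ≤ Y * Y * Y := by
      have d4 : C₄ ≤ Y := by linarith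
      have d5 : C₅ ≤ Y := by linarith
      have d6 : (3 : ℝ) ≤ Y := by linarith
      have d7 : C₄ * C₅ ≤ Y * Y := mul_le_mul d4 d5 hC50 hY0
      exact mul_le_mul d7 d6 (by norm_num) (by positivity)
    rw [s3]
    calc (C₄ * C₅ * 3) * Y ^ (E + 3) ≤ (Y * Y * Y) * Y ^ (E + 3) :=
          mul_le_mul_of_nonneg_right s4 (by positivity)
      _ = _ := by ring

end Pool.STB77
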