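import Pool.Agent.H77.STB.Nn2
import Pool.Agent.H98.STB.Ree
import Pool.Agent.H24.D2.Vis

/-!
# The labels of a static target with a gain

`chok_snoc`: a chain of labels with one more coordinate. `nni_lab`: the label of a static target over
the Taylor polynomial of its visible heights, at a ball of a smaller radius, from the input of the
jets.
-/

set_option autoImplicit false

namespace Pool.STB77

open Finset Real MvPolynomial
open Pool.Agent.H49.Ent Pool.Agent.H32.Dense Pool.STK Pool.KA Pool.KSAT Pool.K2S Pool.PB Pool.S6C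
open Pool.GEN Pool.CHT
open Pool.VIS24 (VPol Nr)
open Pool.STB (V3 Po Bx Hb yq yq_eval0 yq_eval1 yq_eval2 yq_bt yq_deg lm lm_nonneg yq_lm pd_bnd)
open Pool.STB65
open Pool.STB82 (yv)
open Pool.PB.Trl (rt rt_mem)
open Pool.FLF (Fam.sub)

variable {m J : ℕ}

/-- **A chain of labels with one more coordinate.** -/
theorem chok_snoc {F : Fam m J} {c : ℕ → Fin m} {i a w e p K : ℕ} {Kv g : ℕ → ℕ} {B : F.Ω → Prop}
    {G : PtT F → ℕ → MvPolynomial (Option (Fin m)) ℝ}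
    {H : LnT F → ℕ → MvPolynomial (Option (Fin m)) ℝ}
    {Gi : PtT F → MvPolynomial (Option (Fin m)) ℝ} {Hi : LnT F → MvPolynomial (Option (Fin m)) ℝ}
    (hKv : ∀ l, Kv l ≤ K) (hch : ChOK F c i Kv a w e g B G H)
    (hG : VPol F c i K a e p g G B Gi) (hHd : ∀ S, (Hi S).totalDegree ≤ K)
    (hHe : ∀ S, DepC c i (Hi S))
    (hc : ∀ ω, B ω → Nr F c i a p g G ω (Gi (ptr F J ω)) (Hi (slam F w ω))) :
    ChOK F c (i + 1) (fun _ => K) a w e (fun j => if j < i then g j else p) B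
      (fun y j => if j < i then G y j else Gi y) (fun s j => if j < i then H s j else Hi s) := by
  have bx : ∀ {y : PtT F} {t : ℝ} {l : ℕ} {b : Option (Fin m) → ℝ}, l ≤ i →
      NBx c (fun j => if j < i then G y j else Gi y)
        (fun j => if j < i then g j else p) a t l b → NBx c (G y) g a t l b := by
    intro y t l b hl hb
    refine ⟨hb.1, fun j hj => ?_⟩
    have h1 := hb.2 j hj
    simp only [if_pos (show j < i by omega)] at h1
    exact h1
  refine ⟨fun y j => ?_, fun s j => ?_, fun y j => ?_, fun s j => ?_, fun ω hω j hj => ?_,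
    fun ω hω j hj b hb => ?_, fun ω hω j hj b hb l hl => ?_⟩
  · show (if j < i then G y j else Gi y).totalDegree ≤ K
    split_ifs with h
    · exact (hch.degG y j).trans (hKv j)
    · exact hG.deg y
  · show (if j < i then H s j else Hi s).totalDegree ≤ K
    split_ifs with h
    · exact (hch.degH s j).trans (hKv j)
    · exact hHd _
  · show DepC c j (if j < i then G y j else Gi y)
    split_ifs with h
    · exact hch.depG y j
    · exact (hG.dep y).mono (not_lt.1 h)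
  · show DepC c j (if j < i then H s j else Hi s)
    split_ifs with h
    · exact hch.depH s j
    · exact (hHe _).mono (not_lt.1 h)
  · show |F.x ω (c j) - eval (bt F ω) (if j < i then G (ptr F J ω) j else
      Gi (ptr F J ω))| ≤ 1 / 2 ^ (if j < i then g j else p)
    by_cases h : j < i
    · rw [if_pos h, if_pos h]
      exact hch.pos ω hω j h
    · have hji : j = i := by omega
      subst hji
      rw [if_neg h, if_neg h]
      exact hG.pos ω hω
  · have hb' := bx (by omega) hb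
    show |eval b (if j < i then G (ptr F J ω) j else Gi (ptr F J ω)) -
      eval b (if j < i then H (slam F w ω) j else Hi (slam F w ω))| ≤
        1 / 2 ^ (if j < i then g j else p)
    by_cases h : j < i
    · rw [if_pos h, if_pos h, if_pos h]
      exact hch.agr ω hω j h b hb'
    · have hji : j = i := by omega
      subst hji
      rw [if_neg h, if_neg h, if_neg h]
      exact hc ω hω b hb'
  · have hb' := bx (by omega) hb
    show |eval b (pderiv (some (c l)) (if j < i then G (ptr F J ω) j else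
      Gi (ptr F J ω)))| ≤ 2 ^ (e + nlp (fun j => if j < i then g j else p) l j)
    by_cases h : j < i
    · rw [if_pos h]
      refine (hch.lip ω hω j h b hb' l hl).trans (pow_le_pow_right₀ (by norm_num) ?_)
      rw [nlp_congr (g := g) (g' := fun j => if j < i then g j else p) (l := l) (i := j)
        fun x hx => (if_pos (by omega)).symm]
    · have hji : j = i := by omega
      subst hji
      rw [if_neg h]
      exact hG.lip ω hω b hb' l hl

/-- The coordinates of the positions depend on the time and `c 0`, `c 1`. -/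
theorem yq_dep2 (c : ℕ → Fin m) (W g1 T : ℕ) {P : MvPolynomial (Option (Fin m)) ℝ}
    (hP : DepC c 1 P) (j : Fin 3) : DepC c 2 (yq c W g1 T P j) := by
  intro b b' hn hb
  fin_cases j
  · show eval b (yq c W g1 T P 0) = eval b' (yq c W g1 T P 0)
    rw [yq_eval0, yq_eval0, hn]
  · show eval b (yq c W g1 T P 1) = eval b' (yq c W g1 T P 1)
    rw [yq_eval1, yq_eval1, hb 0 (by norm_num)]
  · show eval b (yq c W g1 T P 2) = eval b' (yq c W g1 T P 2)
    rw [yq_eval2, yq_eval2, hb 1 (by norm_num), hP b b' hn fun l hl => hb l (by omega)]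

/-- The closed coordinates of the positions, minus a point. -/
noncomputable def yqx (c : ℕ → Fin m) (W g1 T : ℕ) (P : MvPolynomial (Option (Fin m)) ℝ) (x : V3)
    (j : Fin 3) : MvPolynomial (Option (Fin m)) ℝ := yq c W g1 T P j - C (x j)

/-- The label over a polynomial in the coordinates of the positions. -/
noncomputable def lbx (c : ℕ → Fin m) (W g1 g₃ T : ℕ) (P Tg : MvPolynomial (Option (Fin m)) ℝ)
    (x : V3) (L : Po) : MvPolynomial (Option (Fin m)) ℝ :=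
  Tg + C (1 / 2 ^ g₃) * bind₁ (yqx c W g1 T P x) L

theorem lbx_eval (c : ℕ → Fin m) (W g1 g₃ T : ℕ) (P Tg : MvPolynomial (Option (Fin m)) ℝ)
    (x : V3) (L : Po) (b : Option (Fin m) → ℝ) : eval b (lbx c W g1 g₃ T P Tg x L) =
      eval b Tg + 1 / 2 ^ g₃ * eval ((fun j => eval b (yq c W g1 T P j)) - x) L := by
  unfold lbx
  rw [map_add, map_mul, eval_C, Pool.STB77.eval_bnd]
  congr 3
  congr 1
  funext j
  unfold yqx
  rw [map_sub, eval_C]
  rfl

theorem lbx_deg (c : ℕ → Fin m) (W g1 g₃ T : ℕ) {P Tg : MvPolynomial (Option (Fin m)) ℝ}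
    (x : V3) {L : Po} {D K : ℕ} (hD : 1 ≤ D) (hP : P.totalDegree ≤ D) (hT : Tg.totalDegree ≤ D)
    (hL : L.totalDegree ≤ K) : (lbx c W g1 g₃ T P Tg x L).totalDegree ≤ D + K * D := by
  unfold lbx
  refine (totalDegree_add _ _).trans (max_le (hT.trans (Nat.le_add_right _ _)) ?_)
  refine (totalDegree_mul _ _).trans ?_
  rw [totalDegree_C, zero_add]
  have hj : ∀ j, (yqx c W g1 T P x j).totalDegree ≤ D := by
    intro j
    unfold yqx
    refine (totalDegree_sub _ _).trans (max_le (yq_deg c W g1 T hD hP j) ?_)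
    rw [totalDegree_C]
    exact Nat.zero_le _
  exact (Pool.STB.deg_bnd hj L).trans
    ((Nat.mul_le_mul_right _ hL).trans (Nat.le_add_left _ _))

theorem lbx_dep (c : ℕ → Fin m) (W g1 g₃ T : ℕ) {P Tg : MvPolynomial (Option (Fin m)) ℝ}
    (x : V3) (L : Po) {i : ℕ} (hi : 2 ≤ i) (hP : DepC c 1 P) (hT : DepC c i Tg) :
    DepC c i (lbx c W g1 g₃ T P Tg x L) := by
  intro b b' hn hb
  rw [lbx_eval, lbx_eval, hT b b' hn hb]
  have h1 : (fun j => eval b (yq c W g1 T P j)) = fun j => eval b' (yq c W g1 T P j) := by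
    funext j
    exact (yq_dep2 c W g1 T hP j) b b' hn fun l hl => hb l (by omega)
  rw [h1]

/-- The derivatives of the coordinates, for a small `g1`. -/
theorem yq_pdx (c : ℕ → Fin m) (hc : Set.InjOn c (Set.Iio 3)) (W g1 T : ℕ)
    {P : MvPolynomial (Option (Fin m)) ℝ} (hP : DepC c 1 P) {e : ℕ} {b : Option (Fin m) → ℝ}
    (hW : W ≤ g1 + e)
    (he : |eval b (pderiv (some (c 0)) P)| ≤ 2 ^ e) (j : Fin 3) :
    |eval b (pderiv (some (c 0)) (yq c W g1 T P j))| ≤ 2 ^ (g1 + e) ∧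
    |eval b (pderiv (some (c 1)) (yq c W g1 T P j))| ≤ 2 ^ g1 ∧
    |eval b (pderiv (some (c 2)) (yq c W g1 T P j))| ≤ 0 := by
  have m0 : (0 : ℕ) ∈ Set.Iio 3 := by norm_num
  have m1 : (1 : ℕ) ∈ Set.Iio 3 := by norm_num
  have m2 : (2 : ℕ) ∈ Set.Iio 3 := by norm_num
  have h01 : c 0 ≠ c 1 := fun h => absurd (hc m0 m1 h) (by norm_num)
  have h02 : c 0 ≠ c 2 := fun h => absurd (hc m0 m2 h) (by norm_num)
  have h12 : c 1 ≠ c 2 := fun h => absurd (hc m1 m2 h) (by norm_num)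
  have z1 : eval b (pderiv (some (c 1)) P) = 0 := Pool.CHT.DepC.pd_zero hP (by simp) (fun l hl h => by
    have : l = 0 := by omega
    subst this
    exact h01 (Option.some.inj h).symm) b
  have z2 : eval b (pderiv (some (c 2)) P) = 0 := Pool.CHT.DepC.pd_zero hP (by simp) (fun l hl h => by
    have : l = 0 := by omega
    subst this
    exact h02 (Option.some.inj h).symm) b
  have hp : (2 : ℝ) ^ W ≤ 2 ^ (g1 + e) := pow_le_pow_right₀ one_le_two hW
  have hp0 : (0 : ℝ) < 2 ^ g1 := by positivity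
  have hp1 : (0 : ℝ) < 2 ^ (g1 + e) := by positivity
  have a0 : ∀ l : ℕ, pderiv (some (c l)) (yq c W g1 T P 0) = 0 := fun l => by
    show pderiv (some (c l)) (C (2 ^ W) * X none - C (T : ℝ)) = 0
    rw [map_sub, pderiv_C, pderiv_C_mul, pderiv_X_of_ne (by simp), mul_zero, sub_zero]
  have a1 : ∀ l : ℕ, pderiv (some (c l)) (yq c W g1 T P 1) =
      C (2 ^ W) * pderiv (some (c l)) (X (some (c 0))) := fun l => by
    show pderiv (some (c l)) (C (2 ^ W) * X (some (c 0))) = _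
    rw [pderiv_C_mul]
  have a2 : ∀ l : ℕ, pderiv (some (c l)) (yq c W g1 T P 2) =
      C (2 ^ g1) * (pderiv (some (c l)) (X (some (c 1))) - pderiv (some (c l)) P) := fun l => by
    show pderiv (some (c l)) (C (2 ^ g1) * (X (some (c 1)) - P)) = _
    rw [pderiv_C_mul, map_sub]
  fin_cases j
  · refine ⟨?_, ?_, ?_⟩
    · show |eval b (pderiv (some (c 0)) (yq c W g1 T P 0))| ≤ _
      rw [a0, map_zero, abs_zero]
      positivity
    · show |eval b (pderiv (some (c 1)) (yq c W g1 T P 0))| ≤ _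
      rw [a0, map_zero, abs_zero]
      positivity
    · show |eval b (pderiv (some (c 2)) (yq c W g1 T P 0))| ≤ _
      rw [a0, map_zero, abs_zero]
  · refine ⟨?_, ?_, ?_⟩
    · show |eval b (pderiv (some (c 0)) (yq c W g1 T P 1))| ≤ _
      rw [a1, pderiv_X_self, map_mul, eval_C, map_one, mul_one, abs_of_pos (by positivity)]
      exact hp
    · show |eval b (pderiv (some (c 1)) (yq c W g1 T P 1))| ≤ _
      rw [a1, pderiv_X_of_ne (by simpa using h01), mul_zero, map_zero, abs_zero]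
      positivity
    · show |eval b (pderiv (some (c 2)) (yq c W g1 T P 1))| ≤ _
      rw [a1, pderiv_X_of_ne (by simpa using h02), mul_zero, map_zero, abs_zero]
  · refine ⟨?_, ?_, ?_⟩
    · show |eval b (pderiv (some (c 0)) (yq c W g1 T P 2))| ≤ _
      rw [a2, pderiv_X_of_ne (by simpa using h01.symm), map_mul, eval_C, map_sub, map_zero,
        zero_sub, abs_mul, abs_neg, abs_of_pos hp0, pow_add]
      exact mul_le_mul_of_nonneg_left he hp0.le
    · show |eval b (pderiv (some (c 1)) (yq c W g1 T P 2))| ≤ _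
      rw [a2, pderiv_X_self, map_mul, eval_C, map_sub, map_one, z1, sub_zero, mul_one,
        abs_of_pos hp0]
    · show |eval b (pderiv (some (c 2)) (yq c W g1 T P 2))| ≤ _
      rw [a2, pderiv_X_of_ne (by simpa using h12), map_mul, eval_C, map_sub, map_zero, z2,
        sub_zero, mul_zero, abs_zero]

theorem yq_lmx (c : ℕ → Fin m) (hc : Set.InjOn c (Set.Iio 3)) (W g1 T : ℕ)
    {P : MvPolynomial (Option (Fin m)) ℝ} (hP : DepC c 1 P) {e : ℕ} {b : Option (Fin m) → ℝ}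
    (hW : W ≤ g1 + e)
    (he : |eval b (pderiv (some (c 0)) P)| ≤ 2 ^ e) (j : Fin 3) {l : ℕ} (hl : l < 3) :
    |eval b (pderiv (some (c l)) (yq c W g1 T P j))| ≤ lm g1 e l := by
  have h := yq_pdx c hc W g1 T hP hW he j
  unfold lm
  interval_cases l
  · exact h.1
  · exact h.2.1
  · exact h.2.2

/-- **The label of a static target with a gain.** `TP`, `TH`: the closed part of the target; `f` its
height in closed coordinates; `kf` the height over the line, near the last ball with the gain `t`. -/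
theorem nni_lab (m K b D : ℕ) (hK : 1 ≤ K) (hbK : b ≤ K) (hD : 1 ≤ D) : ∃ E : ℕ, ∀ N : ℕ,
    ∃ C : ℝ, 1 ≤ C ∧ ∀ {J : ℕ} (F : Fam m J) (B : F.Ω → Prop) (hB : 0 < Pe F.p B) {c : ℕ → Fin m}
      {i W₀ W g1 g₃ e₁' s t p e₁ : ℕ} {Y θ η Ev : ℝ}
      {Pv : PtT F → MvPolynomial (Option (Fin m)) ℝ} {Pl : LnT F → MvPolynomial (Option (Fin m)) ℝ}
      {yt : PtT F → V3} {h : LnT F → Fin 3 → Polynomial ℝ} {e : ℕ → ℕ}
      {f : ℕ → PtT F → Po} {f' : ℕ → LnT F → Po} {kf : LnT F → Po}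
      {TP : PtT F → MvPolynomial (Option (Fin m)) ℝ} {TH : LnT F → MvPolynomial (Option (Fin m)) ℝ}
      {Gc : PtT F → ℕ → MvPolynomial (Option (Fin m)) ℝ}
      {Hc : LnT F → ℕ → MvPolynomial (Option (Fin m)) ℝ} {gc : ℕ → ℕ} {LT : ℕ → ℝ},
      Set.InjOn c (Set.Iio 3) → 2 ≤ i → i ≤ 3 → W₀ ≤ W → W ≤ J → W₀ ≤ g1 + e₁' →
      InpF F B W₀ N K b Y (yv F c W₀ g1 Pl) e f f' kf → (∀ s j, (h s j).natDegree ≤ K) →
      (∀ s, h s 0 = Polynomial.X) →
      (∀ ω, B ω → ∀ j, yv F c W₀ g1 Pl ω j = (h (slam F W₀ ω) j).eval (rt F W₀ ω)) →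
      (∀ ω, B ω → ∀ j, ∀ τ ∈ Set.Icc (0 : ℝ) 1,
        |(Polynomial.derivative (h (slam F W₀ ω) j)).eval τ| ≤ Y) →
      C ≤ Y → 0 ≤ θ → (Fam.sub F B hB).Tm θ →
      C * (θ + 1) ≤ ((J : ℝ) - W₀) * Real.log 2 → Real.exp (C * (θ + 1)) ≤ Y →
      (∀ ω, B ω → ∀ r, Bx (1 / 2 ^ e N) r →
        |eval (yv F c W₀ g1 Pl ω + r) (kf (slam F W₀ ω)) -
          eval (yv F c W₀ g1 Pl ω + r) (f N (ptr F J ω))| ≤ Y * (1 / 2 ^ e N) ^ b / 2 ^ t) →
      (∀ ω, B ω → Bx η (yt (ptr F J ω) - yv F c W₀ g1 Pl ω)) → 0 < η → 2 * η ≤ 1 / 2 ^ e N →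
      2 ≤ e N → η * 2 ^ e N ≤ 1 / 2 ^ t →
      (∀ y, (Pv y).totalDegree ≤ D) → (∀ S, (Pl S).totalDegree ≤ D) → (∀ y, DepC c 1 (Pv y)) →
      (∀ S, DepC c 1 (Pl S)) → (∀ ω, B ω → Pv (ptr F J ω) = Pl (slam F W₀ ω)) →
      (∀ ω, B ω → ∀ b' : Option (Fin m) → ℝ, |b' none - F.t ω| ≤ 1 / 2 ^ W₀ →
        |b' (some (c 0)) - F.x ω (c 0)| ≤ 1 / 2 ^ W₀ →
        |eval b' (pderiv (some (c 0)) (Pv (ptr F J ω)))| ≤ 2 ^ e₁') →
      (∀ y, (TP y).totalDegree ≤ D) → (∀ S, (TH S).totalDegree ≤ D) → (∀ y, DepC c i (TP y)) →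
      (∀ S, DepC c i (TH S)) → (∀ ω, B ω → TP (ptr F J ω) = TH (slam F W ω)) →
      (∀ ω, B ω → |eval (yv F c W₀ g1 Pl ω) (f N (ptr F J ω)) -
        2 ^ g₃ * (F.x ω (c i) - eval (bt F ω) (TP (ptr F J ω)))| ≤ Ev) →
      ChOK F c i (fun _ => D) W W e₁ gc B Gc Hc →
      (∀ ω, B ω → ∀ b', NBx c (Gc (ptr F J ω)) gc W (F.t ω) i b' →
        |b' (some (c 0)) - F.x ω (c 0)| ≤ 2 ^ s / 2 ^ W) →
      (∀ ω, B ω → ∀ b', NBx c (Gc (ptr F J ω)) gc W (F.t ω) i b' →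
        |(b' (some (c 1)) - eval b' (Pv (ptr F J ω))) -
          (F.x ω (c 1) - eval (bt F ω) (Pv (ptr F J ω)))| ≤ 2 ^ s / 2 ^ (g1 + (W - W₀))) →
      (∀ ω, B ω → ∀ b', NBx c (Gc (ptr F J ω)) gc W (F.t ω) i b' → ∀ l < i,
        |eval b' (pderiv (some (c l)) (TP (ptr F J ω)))| ≤ LT l) →
      1 / 2 ^ e N ≤ (2 : ℝ) ^ s / 2 ^ (W - W₀) → 4 * ((2 : ℝ) ^ s / 2 ^ (W - W₀)) ≤ 1 →
      (Ev + Y * (1 / 2 ^ e N) ^ b / 2 ^ t + Y ^ E * ((2 ^ s / 2 ^ (W - W₀)) ^ (b + 1) +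
        (2 ^ s / 2 ^ (W - W₀)) ^ b / 2 ^ t)) / 2 ^ g₃ ≤ 1 / 2 ^ p →
      (∀ l < i, LT l + 3 * (Y ^ E / 2 ^ g₃ * lm g1 e₁' l) ≤
        2 ^ (e₁ + nlp (fun j => if j < i then gc j else p) l i)) →
      ∃ (B' : F.Ω → Prop) (G' : PtT F → ℕ → MvPolynomial (Option (Fin m)) ℝ)
        (H' : LnT F → ℕ → MvPolynomial (Option (Fin m)) ℝ), Sub B' B ∧
        Pe F.p B / 2 ≤ Pe F.p B' ∧ ChOK F c (i + 1) (fun _ => D + K * (K * K) * D) W W e₁
          (fun j => if j < i then gc j else p) B' G' H' := by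
  obtain ⟨E, hvt⟩ := vis_tay m K b hK hbK
  refine ⟨E, fun N => ?_⟩
  obtain ⟨C₁, hC₁, hvt⟩ := hvt N
  refine ⟨C₁, hC₁, ?_⟩
  intro J F B hB c i W₀ W g1 g₃ e₁' s t p e₁ Y θ η Ev Pv Pl yt h e f f' kf TP TH Gc Hc gc LT hc hi2
    hi3 hWW hWJ hWg hin hd h0 hy hv hCY hθ hTm hJ hexp hnear hyt hη hηε heN hηt hPd hPld hPp hPlp
    hPc hPl hTd hTHd hTe hTHe hTc hT hch hx0 hx1 hlT hn1 hn2 hn3 hn4
  have hW₀J : W₀ ≤ J := hWW.trans hWJ
  have hY1 : 1 ≤ Y := by linarith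
  obtain ⟨ρ, hρ⟩ : ∃ ρ : ℝ, ρ = 2 ^ s / 2 ^ (W - W₀) := ⟨_, rfl⟩
  rw [← hρ] at hn1 hn2 hn3
  have hρ0 : 0 < ρ := by rw [hρ]; positivity
  obtain ⟨B', hB', hP', hall⟩ := hvt F B hB W₀ t Y θ η (yv F c W₀ g1 Pl) yt h e f f' kf hin hd h0
    hy hv hW₀J hCY hθ hTm hJ hexp hnear hyt hη hηε heN hηt
  obtain ⟨Kt, hKt⟩ : ∃ Kt : LnT F → Po, Kt = fun S => ka (K * K) b (h S) (kf S) := ⟨_, rfl⟩
  obtain ⟨Lv, hLv⟩ : ∃ Lv : PtT F → Po, Lv = fun y => low (b + 1) (trs (yt y) (f N y)) := ⟨_, rfl⟩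
  obtain ⟨Gi, hGi⟩ : ∃ Gi : PtT F → MvPolynomial (Option (Fin m)) ℝ, Gi = fun y =>
      lbx c W₀ g1 g₃ (y.2.1 / 2 ^ (J - W₀)) (Pv y) (TP y) (yt y) (Lv y) := ⟨_, rfl⟩
  obtain ⟨Hi, hHi⟩ : ∃ Hi : LnT F → MvPolynomial (Option (Fin m)) ℝ, Hi = fun S =>
      lbx c W₀ g1 g₃ (cos F W₀ W S).2.2 (Pl (cos F W₀ W S)) (TH S) 0 (Kt (cos F W₀ W S)) :=
    ⟨_, rfl⟩
  have hKtd : ∀ S, (Kt S).totalDegree ≤ K * (K * K) := fun S => by
    rw [hKt]
    exact deg_ka hK (fun i => hd S i) (hin.kd S)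
  have hLvd : ∀ y, (Lv y).totalDegree ≤ K * (K * K) := fun y => by
    rw [hLv]
    refine (deg_low (by omega) _).trans ?_
    have : K * 1 ≤ K * (K * K) := Nat.mul_le_mul_left _ (by nlinarith)
    omega
  have hbox : ∀ ω, B ω → ∀ b', NBx c (Gc (ptr F J ω)) gc W (F.t ω) i b' →
      Bx ρ ((fun j => eval b' (yq c W₀ g1 (slam F W₀ ω).2.2 (Pv (ptr F J ω)) j)) -
        yv F c W₀ g1 Pl ω) := by
    intro ω hω b' hb j
    rw [Pi.sub_apply, ← yq_bt F c hW₀J g1 Pl ω j, ← hPc ω hω, hρ]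
    have p1 : (2 : ℝ) ^ W = 2 ^ W₀ * 2 ^ (W - W₀) := by
      rw [← pow_add, Nat.add_sub_cancel' hWW]
    have p2 : (2 : ℝ) ^ (g1 + (W - W₀)) = 2 ^ g1 * 2 ^ (W - W₀) := pow_add _ _ _
    have p3 : (1 : ℝ) ≤ 2 ^ s := one_le_pow₀ one_le_two
    have hP0 : (0 : ℝ) < 2 ^ (W - W₀) := by positivity
    fin_cases j
    · show |eval b' (yq c W₀ g1 (slam F W₀ ω).2.2 (Pv (ptr F J ω)) 0) -
        eval (bt F ω) (yq c W₀ g1 (slam F W₀ ω).2.2 (Pv (ptr F J ω)) 0)| ≤ _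
      rw [yq_eval0, yq_eval0]
      have e1 : 2 ^ W₀ * b' none - ((slam F W₀ ω).2.2 : ℝ) -
          (2 ^ W₀ * bt F ω none - ((slam F W₀ ω).2.2 : ℝ)) = 2 ^ W₀ * (b' none - F.t ω) := by
        show _ - (2 ^ W₀ * F.t ω - _) = _
        ring
      rw [e1, abs_mul, abs_of_pos (by positivity)]
      calc (2 : ℝ) ^ W₀ * |b' none - F.t ω| ≤ 2 ^ W₀ * (1 / 2 ^ W) :=
            mul_le_mul_of_nonneg_left hb.1 (by positivity)
        _ = 1 / 2 ^ (W - W₀) := by
            rw [p1]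
            field_simp
        _ ≤ 2 ^ s / 2 ^ (W - W₀) := div_le_div_of_nonneg_right p3 hP0.le
    · show |eval b' (yq c W₀ g1 (slam F W₀ ω).2.2 (Pv (ptr F J ω)) 1) -
        eval (bt F ω) (yq c W₀ g1 (slam F W₀ ω).2.2 (Pv (ptr F J ω)) 1)| ≤ _
      rw [yq_eval1, yq_eval1, ← mul_sub, abs_mul, abs_of_pos (show (0 : ℝ) < 2 ^ W₀ by positivity)]
      calc (2 : ℝ) ^ W₀ * |b' (some (c 0)) - bt F ω (some (c 0))| ≤ 2 ^ W₀ * (2 ^ s / 2 ^ W) :=
            mul_le_mul_of_nonneg_left (hx0 ω hω b' hb) (by positivity)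
        _ = 2 ^ s / 2 ^ (W - W₀) := by
            rw [p1]
            field_simp
    · show |eval b' (yq c W₀ g1 (slam F W₀ ω).2.2 (Pv (ptr F J ω)) 2) -
        eval (bt F ω) (yq c W₀ g1 (slam F W₀ ω).2.2 (Pv (ptr F J ω)) 2)| ≤ _
      rw [yq_eval2, yq_eval2, ← mul_sub, abs_mul, abs_of_pos (show (0 : ℝ) < 2 ^ g1 by positivity)]
      calc (2 : ℝ) ^ g1 * |b' (some (c 1)) - eval b' (Pv (ptr F J ω)) -
              (bt F ω (some (c 1)) - eval (bt F ω) (Pv (ptr F J ω)))| ≤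
            2 ^ g1 * (2 ^ s / 2 ^ (g1 + (W - W₀))) :=
            mul_le_mul_of_nonneg_left (hx1 ω hω b' hb) (by positivity)
        _ = 2 ^ s / 2 ^ (W - W₀) := by
            rw [p2]
            field_simp
  have hGie : ∀ ω, ∀ b', eval b' (Gi (ptr F J ω)) = eval b' (TP (ptr F J ω)) + 1 / 2 ^ g₃ *
      eval (yv F c W₀ g1 Pl ω + ((fun j => eval b' (yq c W₀ g1 (slam F W₀ ω).2.2
        (Pv (ptr F J ω)) j)) - yv F c W₀ g1 Pl ω) - yt (ptr F J ω)) (Lv (ptr F J ω)) := by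
    intro ω b'
    rw [hGi]
    show eval b' (lbx c W₀ g1 g₃ ((ptr F J ω).2.1 / 2 ^ (J - W₀)) _ _ _ _) = _
    rw [lbx_eval, add_sub_cancel]
    rfl
  have hHie : ∀ ω, B ω → ∀ b', eval b' (Hi (slam F W ω)) = eval b' (TP (ptr F J ω)) +
      1 / 2 ^ g₃ * eval (yv F c W₀ g1 Pl ω + ((fun j => eval b' (yq c W₀ g1 (slam F W₀ ω).2.2
        (Pv (ptr F J ω)) j)) - yv F c W₀ g1 Pl ω)) (Kt (slam F W₀ ω)) := by
    intro ω hω b'
    rw [hHi]
    show eval b' (lbx c W₀ g1 g₃ (cos F W₀ W (slam F W ω)).2.2 (Pl (cos F W₀ W (slam F W ω)))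
      (TH (slam F W ω)) 0 (Kt (cos F W₀ W (slam F W ω)))) = _
    rw [cos_slam F hWW hWJ, lbx_eval, sub_zero, add_sub_cancel, ← hTc ω hω, ← hPc ω hω]
  have hnn : (0 : ℝ) < 2 ^ g₃ := by positivity
  have hLTn : ∀ ω, B' ω → ∀ b', NBx c (Gc (ptr F J ω)) gc W (F.t ω) i b' →
      |eval (yv F c W₀ g1 Pl ω + ((fun j => eval b' (yq c W₀ g1 (slam F W₀ ω).2.2
        (Pv (ptr F J ω)) j)) - yv F c W₀ g1 Pl ω)) (Kt (slam F W₀ ω)) -
        eval (yv F c W₀ g1 Pl ω + ((fun j => eval b' (yq c W₀ g1 (slam F W₀ ω).2.2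
        (Pv (ptr F J ω)) j)) - yv F c W₀ g1 Pl ω) - yt (ptr F J ω)) (Lv (ptr F J ω))| ≤
        Y ^ E * (ρ ^ (b + 1) + ρ ^ b / 2 ^ t) := by
    intro ω hω b' hb'
    rw [hKt, hLv]
    exact (hall ω hω).2.2.1 ρ hn1 hn2 _ (hbox ω (hB' ω hω) b' hb')
  -- the numbers
  have hEv : ∀ ω, B ω → 0 ≤ Ev := fun ω hω => (abs_nonneg _).trans (hT ω hω)
  have hgain : 0 ≤ Y * (1 / 2 ^ e N) ^ b / 2 ^ t := by positivity
  have hagr : ∀ ω, B ω → Y ^ E * (ρ ^ (b + 1) + ρ ^ b / 2 ^ t) / 2 ^ g₃ ≤ 1 / 2 ^ p := by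
    intro ω hω
    refine le_trans (div_le_div_of_nonneg_right ?_ hnn.le) hn3
    have := hEv ω hω
    linarith
  have hBB : ∀ ω, B' ω → B ω := hB'
  have hbt : ∀ ω, B ω → NBx c (Gc (ptr F J ω)) gc W (F.t ω) i (bt F ω) := fun ω hω =>
    ⟨by
      show |F.t ω - F.t ω| ≤ _
      rw [sub_self, abs_zero]
      positivity, fun l hl => hch.pos ω hω l hl⟩
  have hyq : ∀ ω, B ω → (fun j => eval (bt F ω) (yq c W₀ g1 (slam F W₀ ω).2.2
      (Pv (ptr F J ω)) j)) - yv F c W₀ g1 Pl ω = 0 := by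
    intro ω hω
    rw [sub_eq_zero]
    funext j
    rw [hPc ω hω]
    exact yq_bt F c hW₀J g1 Pl ω j
  have hV : VPol F c i (D + K * (K * K) * D) W e₁ p gc Gc B' Gi := by
    refine ⟨fun y => ?_, fun y => ?_, fun ω hω => ?_, fun ω hω b' hb' l hl => ?_⟩
    · rw [hGi]
      exact lbx_deg c W₀ g1 g₃ _ _ hD (hPd y) (hTd y) (hLvd y)
    · rw [hGi]
      exact lbx_dep c W₀ g1 g₃ _ _ _ hi2 (hPp y) (hTe y)
    · have hωB := hBB ω hω
      have q1 := hLTn ω hω (bt F ω) (hbt ω hωB)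
      have q2 := (hall ω hω).2.1
      have q3 := hT ω hωB
      rw [hGie]
      rw [hyq ω hωB, add_zero] at q1 ⊢
      have q2' : |eval (yv F c W₀ g1 Pl ω) (Kt (slam F W₀ ω)) -
          eval (yv F c W₀ g1 Pl ω) (f N (ptr F J ω))| ≤ Y * (1 / 2 ^ e N) ^ b / 2 ^ t := by
        rw [hKt]
        exact q2
      obtain ⟨kv, hkv⟩ : ∃ kv, kv = eval (yv F c W₀ g1 Pl ω) (Kt (slam F W₀ ω)) := ⟨_, rfl⟩
      obtain ⟨fv, hfv⟩ : ∃ fv, fv = eval (yv F c W₀ g1 Pl ω) (f N (ptr F J ω)) := ⟨_, rfl⟩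
      obtain ⟨lv, hlv⟩ : ∃ lv, lv = eval (yv F c W₀ g1 Pl ω - yt (ptr F J ω))
        (Lv (ptr F J ω)) := ⟨_, rfl⟩
      obtain ⟨xv, hxv⟩ : ∃ xv, xv = F.x ω (c i) - eval (bt F ω) (TP (ptr F J ω)) := ⟨_, rfl⟩
      rw [← hkv, ← hlv] at q1
      rw [← hkv, ← hfv] at q2'
      rw [← hfv, ← hxv] at q3
      rw [← hlv]
      have e1 : F.x ω (c i) - (eval (bt F ω) (TP (ptr F J ω)) + 1 / 2 ^ g₃ * lv) =
          -((fv - 2 ^ g₃ * xv) + (kv - fv) - (kv - lv)) / 2 ^ g₃ := by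
        rw [hxv]
        field_simp
        ring
      rw [e1, abs_div, abs_neg, abs_of_pos hnn]
      refine le_trans (div_le_div_of_nonneg_right ?_ hnn.le) hn3
      refine (abs_sub _ _).trans ?_
      have q4 := abs_add_le (fv - 2 ^ g₃ * xv) (kv - fv)
      linarith
    · have hωB := hBB ω hω
      have hbx := hbox ω hωB b' hb'
      have hyx := hyt ω hωB
      have e1 : pderiv (some (c l)) (Gi (ptr F J ω)) = pderiv (some (c l)) (TP (ptr F J ω)) +
          C (1 / 2 ^ g₃) * pderiv (some (c l)) (bind₁ (yqx c W₀ g1 (slam F W₀ ω).2.2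
            (Pv (ptr F J ω)) (yt (ptr F J ω))) (Lv (ptr F J ω))) := by
        rw [hGi]
        show pderiv (some (c l)) (lbx c W₀ g1 g₃ ((ptr F J ω).2.1 / 2 ^ (J - W₀)) _ _ _ _) = _
        unfold lbx
        rw [map_add, pderiv_C_mul]
        rfl
      have t1 : |b' none - F.t ω| ≤ 1 / 2 ^ W₀ := hb'.1.trans
        (one_div_le_one_div_of_le (by positivity) (pow_le_pow_right₀ one_le_two hWW))
      have t2 : |b' (some (c 0)) - F.x ω (c 0)| ≤ 1 / 2 ^ W₀ := by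
        refine (hx0 ω hωB b' hb').trans ?_
        have p1 : (2 : ℝ) ^ W = 2 ^ W₀ * 2 ^ (W - W₀) := by
          rw [← pow_add, Nat.add_sub_cancel' hWW]
        have p4 : (2 : ℝ) ^ s / 2 ^ (W - W₀) ≤ 1 := by
          rw [hρ] at hn2
          have : (0 : ℝ) ≤ 2 ^ s / 2 ^ (W - W₀) := by positivity
          linarith
        rw [p1, mul_comm, ← div_div]
        exact div_le_div_of_nonneg_right p4 (by positivity)
      have hg := pd_bnd (Q := yqx c W₀ g1 (slam F W₀ ω).2.2 (Pv (ptr F J ω)) (yt (ptr F J ω)))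
        (P := Lv (ptr F J ω)) (b := b') (D := Y ^ E) (Λ := lm g1 e₁' l) (fun j => by
          rw [hLv]
          refine (hall ω hω).2.2.2 j _ ?_
          intro k
          have h1 := hbx k
          have h2 := hyx k
          have e2 : eval b' (yqx c W₀ g1 (slam F W₀ ω).2.2 (Pv (ptr F J ω))
              (yt (ptr F J ω)) k) = ((fun j => eval b' (yq c W₀ g1 (slam F W₀ ω).2.2
                (Pv (ptr F J ω)) j)) - yv F c W₀ g1 Pl ω) k -
                (yt (ptr F J ω) - yv F c W₀ g1 Pl ω) k := by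
            unfold yqx
            rw [map_sub, eval_C, Pi.sub_apply, Pi.sub_apply]
            ring
          show |eval b' (yqx c W₀ g1 (slam F W₀ ω).2.2 (Pv (ptr F J ω)) (yt (ptr F J ω)) k)| ≤ 1
          rw [e2]
          refine (abs_sub _ _).trans ?_
          have h3 : 2 * η ≤ 1 / 4 := hηε.trans (by
            have h4 : (2 : ℝ) ^ 2 ≤ 2 ^ e N := pow_le_pow_right₀ one_le_two heN
            rw [div_le_div_iff₀ (by positivity) (by norm_num)]
            linarith)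
          linarith) (some (c l)) (fun j => by
          unfold yqx
          rw [map_sub, pderiv_C, sub_zero]
          exact yq_lmx c hc W₀ g1 _ (hPp _) hWg (hPl ω hωB b' t1 t2) j (by omega))
      rw [e1, map_add, map_mul, eval_C]
      refine (abs_add_le _ _).trans ((add_le_add (hlT ω hωB b' hb' l hl) ?_).trans (hn4 l hl))
      rw [abs_mul, abs_of_pos (by positivity : (0 : ℝ) < 1 / 2 ^ g₃)]
      calc 1 / 2 ^ g₃ * _ ≤ 1 / 2 ^ g₃ * (3 * (Y ^ E * lm g1 e₁' l)) :=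
            mul_le_mul_of_nonneg_left hg (by positivity)
        _ = 3 * (Y ^ E / 2 ^ g₃ * lm g1 e₁' l) := by ring
  refine ⟨B', _, _, hB', hP', chok_snoc (Kv := fun _ => D) (K := D + K * (K * K) * D)
    (fun _ => Nat.le_add_right _ _) (hch.sub hB') hV (fun S => ?_) (fun S => ?_)
    (Hi := Hi) fun ω hω b' hb' => ?_⟩
  · rw [hHi]
    exact lbx_deg c W₀ g1 g₃ _ _ hD (hPld _) (hTHd S) (hKtd _)
  · rw [hHi]
    exact lbx_dep c W₀ g1 g₃ _ _ _ hi2 (hPlp _) (hTHe S)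
  · rw [hGie, hHie ω (hBB ω hω)]
    have q1 := hLTn ω hω b' hb'
    have e1 : ∀ a x y : ℝ, a + 1 / 2 ^ g₃ * x - (a + 1 / 2 ^ g₃ * y) = -(y - x) / 2 ^ g₃ := by
      intro a x y
      field_simp
      ring
    rw [e1, abs_div, abs_neg, abs_of_pos hnn]
    exact (div_le_div_of_nonneg_right q1 hnn.le).trans (hagr ω (hBB ω hω))

end Pool.STB77
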