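import Pool.Agent.H65.STB.Vn1
import Pool.Agent.H77.STB.Nn3

/-!
# The input of the jets for the third place, with the true precision of the last ball

`u_inpx`: as `u_inp`, with the distance of the closed polynomial and the label of the last ball.
-/

set_option autoImplicit false

namespace Pool.STB77

open Finset Real MvPolynomial
open Pool.Agent.H49.Ent Pool.Agent.H32.Dense Pool.STK Pool.KA Pool.KSAT Pool.K2S Pool.PB Pool.S6C
open Pool.GEN Pool.CHT Pool.NVX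
open Pool.STB (V3 Po Bx)
open Pool.STB65
open Pool.STB82 (yv)

/-- A larger bound. -/
theorem inpF_up {m J : ℕ} {F : Fam m J} {B : F.Ω → Prop} {W₀ N K b : ℕ} {Y Y' : ℝ} {y : F.Ω → V3}
    {e : ℕ → ℕ} {f : ℕ → PtT F → Po} {f' : ℕ → LnT F → Po} {kf : LnT F → Po}
    (h : InpF F B W₀ N K b Y y e f f' kf) (hY : Y ≤ Y') : InpF F B W₀ N K b Y' y e f f' kf :=
  ⟨h.fd, h.kd, fun j hj => ⟨(h.em j hj).1, (h.em j hj).2.trans (mul_le_mul_of_nonneg_right hY
    (by positivity))⟩, fun ω hω r hr => (h.f0 ω hω r hr).trans hY,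
    fun ω hω j hj r hr => (h.ch ω hω j hj r hr).trans (mul_le_mul_of_nonneg_right hY
    (by positivity)), fun ω hω r hr => (h.nr ω hω r hr).trans (mul_le_mul_of_nonneg_right hY
    (by positivity)), h.fd', fun j hj ω hω r hr => (h.agr j hj ω hω r hr).trans
    (mul_le_mul_of_nonneg_right hY (by positivity))⟩

/-- **The input of the jets for `c 2`**, the value at the sample, and the distance at the last ball. -/
theorem u_inpx (D b : ℕ) : ∃ C K : ℕ, ∀ {m J : ℕ} {F : Fam m J} {c : ℕ → Fin m}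
    {N W s v gS : ℕ} {A : ℕ → ℕ} {e : ℕ → ℕ} {g : ℕ → ℕ → ℕ} {B : F.Ω → Prop}
    {G : ℕ → PtT F → ℕ → MvPolynomial (Option (Fin m)) ℝ}
    {H : ℕ → LnT F → ℕ → MvPolynomial (Option (Fin m)) ℝ}
    {pP : PtT F → ℕ → MvPolynomial (Option (Fin m)) ℝ}
    {pH : LnT F → ℕ → MvPolynomial (Option (Fin m)) ℝ}
    {US : LnT F → MvPolynomial (Option (Fin m)) ℝ},
    Inc F c D N W s v A e g B G H pP pH → N ≤ s →
    (∀ S, (US S).totalDegree ≤ D) → (∀ S, DepC c 2 (US S)) →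
    (∀ ω, B ω → ∀ b', NBx c (G N (ptr F J ω)) (g N) (A N) (F.t ω) 2 b' →
      |eval b' (US (slam F W ω)) - eval b' (G N (ptr F J ω) 2)| ≤ 2 ^ s / 2 ^ gS) →
    (∀ k ≤ N, g 0 2 + b * (A k - W) ≤ g k 2 + s) → g 0 2 + b * (A N - W) ≤ gS + s →
    ∃ (f : ℕ → PtT F → Po) (f' : ℕ → LnT F → Po) (kf : LnT F → Po),
      InpF F B W N K b (2 ^ (C * (s + v + 1))) (yv F c W (g 0 1) (fun S => pH S 1))
        (fun k => A k - W) f f' kf ∧
      (∀ k ≤ N, ∀ ω, B ω → |eval (yv F c W (g 0 1) (fun S => pH S 1) ω) (f k (ptr F J ω)) -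
        2 ^ g 0 2 * (F.x ω (c 2) - eval (bt F ω) (pP (ptr F J ω) 2))| ≤
        2 ^ (C * (s + v + 1)) * (1 / 2 ^ (A k - W)) ^ b) ∧
      ∀ ω, B ω → ∀ r, Bx (1 / 2 ^ (A N - W)) r →
        |eval (yv F c W (g 0 1) (fun S => pH S 1) ω + r) (kf (slam F W ω)) -
          eval (yv F c W (g 0 1) (fun S => pH S 1) ω + r) (f N (ptr F J ω))| ≤
        2 ^ g 0 2 * (2 ^ (C * (s + v + 1)) / 2 ^ gS) := by
  obtain ⟨C₂, hin⟩ := vtg D b
  obtain ⟨C₁, hvd⟩ := vdlz D
  refine ⟨(C₂ + 1) * (C₁ + 4), D * (D + 1), ?_⟩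
  intro m J F c N W s v gS A e g B G H pP pH US I hNs hUd hUe hus hg hgS
  have pw : ∀ {x y : ℕ}, x ≤ y → (2 : ℝ) ^ x ≤ 2 ^ y := fun h => pow_le_pow_right₀ (by norm_num) h
  have hWJ : W ≤ J := (I.AmW (Nat.zero_le N)).trans (I.AJ 0 (Nat.zero_le N))
  have hc2 : Set.InjOn c (Set.Iio 2) := I.inj.mono fun x (hx : x < 2) => show x < 3 by omega
  obtain ⟨z, hz⟩ : ∃ z, z = s + v + 1 := ⟨_, rfl⟩
  obtain ⟨S', hS'⟩ : ∃ S', S' = (C₁ + 2) * z := ⟨_, rfl⟩
  have hsS : 2 * s ≤ S' := by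
    rw [hS', hz]
    nlinarith [Nat.zero_le (C₁ * (s + v + 1))]
  have hS1 : C₁ * (s + v + 1) + 2 * s ≤ S' := by
    rw [hS', hz]
    nlinarith [Nat.zero_le (C₁ * (s + v + 1))]
  have I' := inc_mono I le_rfl (show s ≤ S' by omega)
  have nm : ∀ {x y n : ℕ}, x ≤ y + s → n + s ≤ S' → (2 : ℝ) ^ n / 2 ^ y ≤ 2 ^ S' / 2 ^ x := by
    intro x y n hxy hn
    rw [div_le_div_iff₀ (by positivity) (by positivity), ← pow_add, ← pow_add]
    exact pw (by omega)
  have T' : TgV F c D N W S' A g B G pP b (g 0 2) (fun k y => G k y 2) (fun k S => H k S 2) US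
      (fun y => pP y 2) (fun S => pH S 2) := by
    refine ⟨fun k hk y => (I.ok k hk).degG y 2, fun k hk S => (I.ok k hk).degH S 2, hUd,
      fun y => I.pd y 2, fun S => I.hd S 2, fun k hk y => (I.ok k hk).depG y 2,
      fun k hk S => (I.ok k hk).depH S 2, fun y => I.pe y 2, fun ω hω => I.pc ω hω 2, ?_, ?_, ?_, ?_⟩
    · exact fun k hk ω hω b' hb => (I.uni k hk 2 (by norm_num) ω hω b' hb).trans
        (nm (hg k hk.le) (by omega))
    · intro k hk ω hω b' hb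
      refine ((I.ok k hk).agr ω hω 2 (by norm_num) b' hb).trans ?_
      have h1 := nm (n := 0) (hg k hk) (by omega)
      rwa [pow_zero] at h1
    · intro ω hω r hr
      have ok := I.ok N le_rfl
      have h1 := hvd (Q := US (slam F W ω) - G N (ptr F J ω) 2) (M := 2 ^ s / 2 ^ gS) I hNs
        le_rfl hω hr ((totalDegree_sub _ _).trans (max_le (hUd _) (ok.degG _ _)))
        (fun x y hn hb => by rw [map_sub, map_sub, hUe _ x y hn hb, ok.depG _ 2 x y hn hb])
        (by positivity) (fun b' hb => by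
          rw [map_sub]
          exact hus ω hω b' hb)
      rw [map_sub, ← mul_div_assoc, ← pow_add] at h1
      exact h1.trans (nm hgS (by omega))
    · intro ω hω b' hb
      rw [abs_sub_comm]
      exact (I.pn ω hω 2 (by norm_num) (by norm_num) b' hb).trans (nm (by omega) (by omega))
  have hin' := inpF_up (hin I' (hNs.trans (by omega)) T') (pw (show C₂ * (S' + v + 1) ≤
    (C₂ + 1) * (C₁ + 4) * (s + v + 1) by
      rw [hS', ← hz]
      have h1 : v + 1 ≤ z := by omega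
      have h2 : C₂ * ((C₁ + 2) * z + v + 1) ≤ C₂ * ((C₁ + 2) * z + z) :=
        Nat.mul_le_mul_left _ (by omega)
      refine h2.trans ?_
      have h3 : (C₂ + 1) * (C₁ + 4) * z = C₂ * ((C₁ + 2) * z + z) + (C₂ + (C₁ + 4)) * z := by ring
      rw [h3]
      exact Nat.le_add_right _ _))
  refine ⟨_, _, _, hin', fun k hk ω hω => ?_, fun ω hω r hr => ?_⟩
  swap
  · have ok := I.ok N le_rfl
    have h1 := hvd (Q := US (slam F W ω) - G N (ptr F J ω) 2) (M := 2 ^ s / 2 ^ gS) I hNs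
      le_rfl hω hr ((totalDegree_sub _ _).trans (max_le (hUd _) (ok.degG _ _)))
      (fun x y hn hb => by rw [map_sub, map_sub, hUe _ x y hn hb, ok.depG _ 2 x y hn hb])
      (by positivity) (fun b' hb => by
        rw [map_sub]
        exact hus ω hω b' hb)
    have hyv : yv F c W (g 0 1) (fun S => pH S 1) ω = ypt F c W (g 0 1) (pP (ptr F J ω) 1) ω :=
      yv_ypt F c W (g 0 1) (fun S => pH S 1) _ ω (I.pc ω hω 1).symm
    have cas : ∀ x y z : ℝ, x - z - (y - z) = x - y := fun x y z => by ring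
    show |eval (yv F c W (g 0 1) (fun S => pH S 1) ω + r) (tgK F c W (g 0 1) (g 0 2)
      (fun S => pH S 1) (fun S => US S - pH S 2) (slam F W ω)) -
      eval (yv F c W (g 0 1) (fun S => pH S 1) ω + r) (tgP F c W (g 0 1) (g 0 2) (fun y => pP y 1)
      (fun y => G (min N N) y 2 - pP y 2) (ptr F J ω))| ≤ _
    rw [Nat.min_self, hyv, tgP_eval F c W (g 0 1) (g 0 2) (fun y => pP y 1),
      tgK_eval F c W (g 0 1) (g 0 2) (fun S => pH S 1) _ _ ω (I.pc ω hω 1).symm, ← mul_sub,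
      map_sub, ← I.pc ω hω 2, map_sub, cas, ← map_sub, abs_mul,
      abs_of_pos (by positivity : (0 : ℝ) < 2 ^ g 0 2)]
    refine mul_le_mul_of_nonneg_left (h1.trans ?_) (by positivity)
    rw [← mul_div_assoc, ← pow_add]
    refine div_le_div_of_nonneg_right (pw ?_) (by positivity)
    have k1 : z ≤ (C₂ + 1) * z := Nat.le_mul_of_pos_left _ (by omega)
    have k2 : (C₂ + 1) * (C₁ + 4) * z = (C₁ + 4) * ((C₂ + 1) * z) := by ring
    have k3 : (C₁ + 4) * z ≤ (C₁ + 4) * ((C₂ + 1) * z) := Nat.mul_le_mul_left _ k1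
    rw [← hz, k2]
    have k4 : s ≤ z := by omega
    have k5 : (C₁ + 4) * z = C₁ * z + 4 * z := by ring
    omega
  have ok := I.ok k hk
  have e1 : eval (yv F c W (g 0 1) (fun S => pH S 1) ω)
      (tgP F c W (g 0 1) (g 0 2) (fun y => pP y 1) (fun y => G (min k N) y 2 - pP y 2)
        (ptr F J ω)) =
      2 ^ g 0 2 * (eval (bt F ω) (G k (ptr F J ω) 2) - eval (bt F ω) (pP (ptr F J ω) 2)) := by
    have h2 := tgP_eval F c W (g 0 1) (g 0 2) (fun y => pP y 1) (fun y => G k y 2 - pP y 2) ω 0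
    rw [add_zero] at h2
    rw [Nat.min_eq_left hk, yv_ypt F c W (g 0 1) (fun S => pH S 1) (pP (ptr F J ω) 1) ω
      (I.pc ω hω 1).symm, h2, vnr_zr hWJ hc2 (I.pe _ 1) ω (fun x y hn hb => by
        rw [map_sub, map_sub, ok.depG _ 2 x y hn hb, I.pe _ 2 x y hn hb]), map_sub]
  show |eval (yv F c W (g 0 1) (fun S => pH S 1) ω)
      (tgP F c W (g 0 1) (g 0 2) (fun y => pP y 1) (fun y => G (min k N) y 2 - pP y 2)
        (ptr F J ω)) - _| ≤ _
  rw [e1, ← mul_sub, abs_mul, abs_of_pos (by positivity : (0 : ℝ) < 2 ^ g 0 2)]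
  have e2 : eval (bt F ω) (G k (ptr F J ω) 2) - eval (bt F ω) (pP (ptr F J ω) 2) -
      (F.x ω (c 2) - eval (bt F ω) (pP (ptr F J ω) 2)) =
      -(F.x ω (c 2) - eval (bt F ω) (G k (ptr F J ω) 2)) := by ring
  rw [e2, abs_neg]
  have h1 := nm (n := 0) (hg k hk) (by omega)
  rw [pow_zero] at h1
  refine (mul_le_mul_of_nonneg_left ((ok.pos ω hω 2 (by norm_num)).trans h1)
    (by positivity)).trans ?_
  have e3 : (2 : ℝ) ^ g 0 2 * (2 ^ S' / 2 ^ (g 0 2 + b * (A k - W))) =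
      2 ^ S' * (1 / 2 ^ (A k - W)) ^ b := by
    rw [one_div, inv_pow, ← pow_mul, pow_add, Nat.mul_comm (A k - W) b]
    field_simp
  rw [e3]
  refine mul_le_mul_of_nonneg_right (pw ?_) (by positivity)
  rw [hS', ← hz]
  exact Nat.mul_le_mul_right _ (by nlinarith [Nat.zero_le (C₂ * C₁)])

end Pool.STB77
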