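import Pool.Agent.H77.STB.Nn5
import Pool.Agent.H77.STB.Nic
import Pool.Agent.H82.STB.Nrc

/-!
# No static third place with a slope which is no integer: the numbers
-/

set_option autoImplicit false

namespace Pool.STB77

open Finset Real

/-- From real to natural numbers. -/
theorem nat_le_re {a b : ℕ} (h : (a : ℝ) ≤ b) : a ≤ b := by exact_mod_cast h

/-- **The numbers of `nni_inc`.** -/
theorem nni_num {b E N : ℕ} {U tJ σ γ ε ys K' eB L1 L2 : ℝ}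
    {W Ak AN y s p τg e0 ek e1 e1' gS g00 g01 g02 gk0 gk1 : ℕ} {A g2 : ℕ → ℕ} {x : ℕ → ℝ}
    (hb2 : (2 : ℝ) ≤ b) (hγ : 0 < γ) (hγ1 : 4 * γ ≤ σ - b) (hγ2 : 4 * γ ≤ b + 1 - σ) (hε : 0 < ε)
    (hεγ : 6 * ε ≤ γ) (hys : 0 < ys) (hysγ : ((E : ℝ) + b + 2) * ys ≤ γ) (hK' : σ + 5 ≤ K')
    (hU : 2 * (b : ℝ) + 20 ≤ ε * U) (hU0 : 0 ≤ U) (hy : (y : ℝ) ≤ ys * U)
    (hs : 5 * (ε * U) ≤ s) (hs1 : (s : ℝ) ≤ U) (hW : (W : ℝ) ≤ tJ) (hW' : tJ - 1 ≤ W)
    (hAk : tJ + U - 1 ≤ Ak) (hAk' : (Ak : ℝ) ≤ tJ + U) (hAN : tJ + 2 * U - 1 ≤ AN)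
    (hAN' : (AN : ℝ) ≤ tJ + 2 * U) (hx0 : ∀ k ≤ N, 0 ≤ x k) (hA : ∀ k ≤ N, (A k : ℝ) ≤ tJ + x k * U)
    (hAW : ∀ k ≤ N, W ≤ A k) (hg2 : ∀ k ≤ N, L2 + σ * (x k * U) - 2 * (ε * U) - 1 ≤ g2 k)
    (h00 : (g00 : ℝ) ≤ tJ + ε * U) (hk0 : tJ + U - 2 * (ε * U) - 1 ≤ gk0)
    (h01 : (g01 : ℝ) ≤ L1) (h01' : L1 - ε * U - 1 ≤ g01) (htL : tJ ≤ L1)
    (hk1 : L1 + U - 2 * (ε * U) - 1 ≤ gk1) (h02 : (g02 : ℝ) ≤ L2) (h02' : L2 - ε * U - 1 ≤ g02)
    (hgS : L2 + 2 * (σ * U) - 3 * (ε * U) - 1 ≤ gS) (hp : (p : ℝ) ≤ L2 + (σ + ε + γ) * U + 1)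
    (he0 : (e0 : ℝ) ≤ eB + ε * U) (hek : (ek : ℝ) ≤ eB + ε * U) (he1' : (e1' : ℝ) ≤ s + eB)
    (he1s : s ≤ e1') (he1 : eB + 3 * (K' * U) - 1 ≤ e1)
    (hτ : τg = ⌊(2 * (σ - b) - 4 * ε) * U⌋₊) (hAkN : Ak ≤ AN) :
    Ak ≤ gk0 + s ∧ W ≤ g01 + e1' ∧ (∀ k ≤ N, g02 + b * (A k - W) ≤ g2 k + s) ∧
      g02 + y + b * (AN - W) + τg ≤ y + gS ∧ τg ≤ b * (AN - W) ∧ 2 ≤ AN - W ∧ y + 2 ≤ Ak - W ∧
      y + p + 2 ≤ g02 + b * (AN - W) ∧
      E * y + (b + 1) * y + p + 2 ≤ g02 + (b + 1) * (Ak - W) ∧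
      E * y + b * y + p + 2 ≤ g02 + b * (Ak - W) + τg ∧
      y + e0 + 1 ≤ e1 ∧ ek ≤ e1 ∧ y + e0 + 1 + g00 + p ≤ e1 + gk0 + g02 ∧
      y + e0 + 1 + g01 + p ≤ e1 + gk1 + g02 ∧ E * y + g01 + e1' + 3 + p ≤ g02 + e1 + gk1 ∧
      (y + (AN - W) + τg + 1 : ℕ) + (g01 + e1' + 1) ≤ L1 + eB + 3 * (K' * U) ∧
      ((y + (AN - W) + τg + 1 : ℕ) : ℝ) + W ≤ tJ + K' * U := by
  have hγ8 : γ ≤ 1 / 8 := by linarith only [hγ1, hγ2]
  have hE0 : (0 : ℝ) ≤ E := Nat.cast_nonneg _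
  have hbU : 0 ≤ (b : ℝ) * U := mul_nonneg (by linarith only [hb2]) hU0
  have hysU : 0 ≤ ys * U := mul_nonneg hys.le hU0
  have hy0 : (0 : ℝ) ≤ y := Nat.cast_nonneg _
  have y1 : ((E : ℝ) + b + 2) * y ≤ γ * U := by
    calc ((E : ℝ) + b + 2) * y ≤ ((E : ℝ) + b + 2) * (ys * U) :=
          mul_le_mul_of_nonneg_left hy (by linarith only [hE0, hb2])
      _ = ((E : ℝ) + b + 2) * ys * U := by ring
      _ ≤ _ := mul_le_mul_of_nonneg_right hysγ hU0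
  have hEy : 0 ≤ (E : ℝ) * y := mul_nonneg hE0 hy0
  have hby : 2 * (y : ℝ) ≤ b * y := mul_le_mul_of_nonneg_right hb2 hy0
  have y2 : (E : ℝ) * y + b * y + 2 * y ≤ γ * U := by linarith only [y1]
  have hεU : 0 ≤ ε * U := mul_nonneg hε.le hU0
  have eU : 6 * (ε * U) ≤ γ * U := by
    have := mul_le_mul_of_nonneg_right hεγ hU0
    linarith only [this]
  have gU1 : 4 * (γ * U) ≤ σ * U - b * U := by
    have := mul_le_mul_of_nonneg_right hγ1 hU0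
    linarith only [this]
  have gU2 : 4 * (γ * U) ≤ b * U + U - σ * U := by
    have := mul_le_mul_of_nonneg_right hγ2 hU0
    linarith only [this]
  have gU3 : γ * U ≤ U / 8 := by
    have := mul_le_mul_of_nonneg_right hγ8 hU0
    linarith only [this]
  have bU2 : 2 * U ≤ b * U := mul_le_mul_of_nonneg_right hb2 hU0
  have kU : σ * U + 5 * U ≤ K' * U := by
    have := mul_le_mul_of_nonneg_right hK' hU0
    linarith only [this]
  have hpe : (p : ℝ) ≤ L2 + σ * U + ε * U + γ * U + 1 := by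
    have : (σ + ε + γ) * U = σ * U + ε * U + γ * U := by ring
    linarith only [hp, this]
  have hτ0 : 0 ≤ (2 * (σ - b) - 4 * ε) * U := by
    have : (2 * (σ - b) - 4 * ε) * U = 2 * (σ * U - b * U) - 4 * (ε * U) := by ring
    rw [this]
    linarith only [gU1, eU, hεU]
  have t1 : (τg : ℝ) ≤ 2 * (σ * U - b * U) - 4 * (ε * U) := by
    have h1 := Nat.floor_le hτ0
    rw [← hτ] at h1
    have : (2 * (σ - b) - 4 * ε) * U = 2 * (σ * U - b * U) - 4 * (ε * U) := by ring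
    linarith only [h1, this]
  have t2 : 2 * (σ * U - b * U) - 4 * (ε * U) - 1 ≤ τg := by
    have h1 := Nat.lt_floor_add_one ((2 * (σ - b) - 4 * ε) * U)
    rw [← hτ] at h1
    have : (2 * (σ - b) - 4 * ε) * U = 2 * (σ * U - b * U) - 4 * (ε * U) := by ring
    linarith only [h1, this]
  have hWAN : W ≤ AN := nat_le_re (by linarith only [hW, hAN, gU3, eU, hU, hb2])
  have hWAk : W ≤ Ak := nat_le_re (by linarith only [hW, hAk, gU3, eU, hU, hb2])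
  have c1 : ((AN - W : ℕ) : ℝ) = AN - W := Nat.cast_sub hWAN
  have c2 : ((Ak - W : ℕ) : ℝ) = Ak - W := Nat.cast_sub hWAk
  have bAN : (b : ℝ) * ((AN : ℝ) - W) ≤ 2 * (b * U) + b := by
    have : (b : ℝ) * ((AN : ℝ) - W) ≤ b * (2 * U + 1) :=
      mul_le_mul_of_nonneg_left (by linarith only [hAN', hW']) (by linarith only [hb2])
    linarith only [this]
  have bAN' : 2 * (b * U) - b ≤ (b : ℝ) * ((AN : ℝ) - W) := by
    have : (b : ℝ) * (2 * U - 1) ≤ b * ((AN : ℝ) - W) :=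
      mul_le_mul_of_nonneg_left (by linarith only [hAN, hW]) (by linarith only [hb2])
    linarith only [this]
  have bAk' : b * U - b ≤ (b : ℝ) * ((Ak : ℝ) - W) := by
    have : (b : ℝ) * (U - 1) ≤ b * ((Ak : ℝ) - W) :=
      mul_le_mul_of_nonneg_left (by linarith only [hAk, hW]) (by linarith only [hb2])
    linarith only [this]
  refine ⟨nat_le_re ?_, nat_le_re ?_, fun k hk => nat_le_re ?_, nat_le_re ?_, nat_le_re ?_,
    nat_le_re ?_, nat_le_re ?_, nat_le_re ?_, nat_le_re ?_, nat_le_re ?_, nat_le_re ?_,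
    nat_le_re ?_, nat_le_re ?_, nat_le_re ?_, nat_le_re ?_, ?_, ?_⟩
  · push_cast
    linarith only [hAk', hk0, hs, hU, hb2]
  · push_cast
    have : (s : ℝ) ≤ e1' := by exact_mod_cast he1s
    linarith only [hW, h01', htL, hs, hU, hb2, this]
  · push_cast
    rw [Nat.cast_sub (hAW k hk)]
    have h1 := hg2 k hk
    have h2 : (b : ℝ) * ((A k : ℝ) - W) ≤ b * (x k * U + 1) :=
      mul_le_mul_of_nonneg_left (by linarith only [hA k hk, hW']) (by linarith only [hb2])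
    have h3 : (b : ℝ) * (x k * U) ≤ σ * (x k * U) :=
      mul_le_mul_of_nonneg_right (by linarith only [hγ, hγ1]) (mul_nonneg (hx0 k hk) hU0)
    linarith only [h1, h2, h3, h02, hs, hU]
  · push_cast
    rw [c1]
    linarith only [h02, bAN, t1, hgS, hU, hb2]
  · push_cast
    rw [c1]
    linarith only [t1, bAN', gU2, hU, bU2, hb2, eU, hεU, gU3]
  · push_cast
    rw [c1]
    linarith only [hAN, hW, gU3, eU, hU, hb2]
  · push_cast
    rw [c2]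
    linarith only [hAk, hW, gU3, eU, hU, hb2, y2, hby, hEy]
  · push_cast
    rw [c1]
    linarith only [hpe, h02', bAN', hU, hb2, y2, hby, hEy, gU2, gU3, bU2, eU]
  · push_cast
    rw [c2]
    linarith only [hpe, h02', bAk', hU, hb2, y2, hEy, gU2, gU3, eU, hAk, hW]
  · push_cast
    rw [c2]
    linarith only [hpe, h02', bAk', hU, hb2, y2, hEy, hby, gU1, gU3, eU, t2]
  · push_cast
    linarith only [he0, he1, kU, hU, hb2, y2, hby, hEy, gU3, eU, bU2, gU1]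
  · linarith only [hek, he1, kU, hU, hb2, gU3, eU, bU2, gU1]
  · push_cast
    linarith only [he0, he1, kU, hU, hb2, y2, hby, hEy, gU3, eU, h00, hk0, hpe, h02', bU2, gU1]
  · push_cast
    linarith only [he0, he1, kU, hU, hb2, y2, hby, hEy, gU3, eU, h01, hk1, hpe, h02', bU2, gU1]
  · push_cast
    linarith only [he1, he1', kU, hU, hb2, y2, hby, hEy, gU3, eU, h01, hk1, hpe, h02', hs1, bU2,
      gU1]
  · push_cast
    rw [c1]
    linarith only [he1', hAN', hW', hs1, h01, t1, kU, gU2, gU3, eU, hεU, hU, hb2, y2, hby, hEy,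
      bU2, gU1]
  · push_cast
    rw [c1]
    linarith only [hAN', hW', hW, t1, kU, gU2, gU3, eU, hεU, hU, hb2, y2, hby, hEy, bU2, gU1]

end Pool.STB77
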