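import Pool.Agent.H77.STB.Nn7
import Pool.Agent.H65.STB.Ncl

/-!
# The label of a static fourth place with a gain, at a ball inside the list

`nni_inc3`: as `nni_inc`, for the fourth place, from the output `N1O` of the static target.
-/

set_option autoImplicit false

namespace Pool.STB77

open Finset Real MvPolynomial
open Pool.Agent.H49.Ent Pool.Agent.H32.Dense Pool.STK Pool.KA Pool.KSAT Pool.K2S Pool.PB Pool.S6C
open Pool.GEN Pool.CHT Pool.NVX
open Pool.STB (V3 Po Bx lm lm_nonneg)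
open Pool.STB65
open Pool.STB82 (yv yp hgP)
open Pool.FLF (Fam.sub)
open Pool.PB.Trl (rt)

/-- **The label of a static fourth place with a gain** `t`, at the ball `k₁` of the list. -/
theorem nni_inc3 (m D K₀ b : ℕ) (hD : 1 ≤ D) : ∃ C₀ E D' : ℕ, ∀ N : ℕ, ∃ C : ℝ, 1 ≤ C ∧
    ∀ {J : ℕ} (F : Fam m J) (B : F.Ω → Prop) (hB : 0 < Pe F.p B) {c : ℕ → Fin m}
      {W s v e X g₃ gS w k₁ y t p d e₁ : ℕ} {θ : ℝ} {A ee : ℕ → ℕ} {g : ℕ → ℕ → ℕ}
      {G : ℕ → PtT F → ℕ → MvPolynomial (Option (Fin m)) ℝ}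
      {H : ℕ → LnT F → ℕ → MvPolynomial (Option (Fin m)) ℝ}
      {pP : PtT F → ℕ → MvPolynomial (Option (Fin m)) ℝ}
      {pH : LnT F → ℕ → MvPolynomial (Option (Fin m)) ℝ} {xP : PtT F → ℝ} {xH : LnT F → ℝ}
      {Gx zP : PtT F → MvPolynomial (Option (Fin m)) ℝ}
      {Gl zH : LnT F → MvPolynomial (Option (Fin m)) ℝ} {f : ℕ → PtT F → Po}
      {f' : ℕ → LnT F → Po} {kf : LnT F → Po} {yt : PtT F → V3},
      N1O F c D K₀ b N W s v y e X g₃ gS A ee g B G H pP pH xP xH Gx zP zH f f' kf → w ≤ W →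
      (∀ ω, B ω → Gx (ptr F J ω) = Gl (slam F w ω)) →
      (∀ ω, B ω → (Gx (ptr F J ω)).totalDegree ≤ D ∧ DepC c 3 (Gx (ptr F J ω))) → k₁ ≤ N →
      InpP F B W d 0 0 (D + 1) (2 ^ y) (yv F c W (g 0 1) (fun S => pH S 1)) yt
        (hgP c W (g 0 1) (fun S => pH S 1)) →
      C ≤ 2 ^ y → 0 ≤ θ → (Fam.sub F B hB).Tm θ → C * (θ + 1) ≤ ((J : ℝ) - W) * Real.log 2 →
      Real.exp (C * (θ + 1)) ≤ 2 ^ y → C₀ * (s + v + 1) ≤ y → A k₁ ≤ g k₁ 0 + s →
      W ≤ g 0 1 + (s + e) → A k₁ ≤ A N →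
      g₃ + b * (A N - W) + t ≤ gS → t ≤ b * (A N - W) →
      y + (A N - W) + t + 1 ≤ d → 2 ≤ A N - W → y + 2 ≤ A k₁ - W →
      y + p + 2 ≤ g₃ + b * (A N - W) →
      E * y + (b + 1) * y + p + 2 ≤ g₃ + (b + 1) * (A k₁ - W) →
      E * y + b * y + p + 2 ≤ g₃ + b * (A k₁ - W) + t →
      X + 1 ≤ e₁ → ee k₁ ≤ e₁ → (∀ j < 3, X + 1 + g 0 j + p ≤ e₁ + g k₁ j + g₃) →
      E * y + g 0 1 + (s + e) + 3 + p ≤ g₃ + e₁ + g k₁ 1 →
      ∃ (B' : F.Ω → Prop) (G' : PtT F → ℕ → MvPolynomial (Option (Fin m)) ℝ)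
        (H' : LnT F → ℕ → MvPolynomial (Option (Fin m)) ℝ), Sub B' B ∧
        Pe F.p B / 2 ≤ Pe F.p B' ∧ ChOK F c 4 (fun _ => D') (A k₁) (A k₁) e₁
          (fun j => if j < 3 then g k₁ j else p) B' G' H' := by
  classical
  obtain ⟨Cb, hbox⟩ := Pool.STB82.inc_box D
  obtain ⟨K, hK⟩ : ∃ K, K = (D + 1) + K₀ + b := ⟨_, rfl⟩
  obtain ⟨E, hlab⟩ := nni_lab m K b D (by omega) (by omega) hD
  refine ⟨Cb, E, D + K * (K * K) * D, fun N => ?_⟩
  obtain ⟨C, hC, hlab⟩ := hlab N
  refine ⟨C, hC, ?_⟩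
  intro J F B hB c W s v e X g₃ gS w k₁ y t p d e₁ θ A ee g G H pP pH xP xH Gx zP Gl zH f f' kf yt
    O hwW hGc hGd hk₁ hI hCy hθ hTm hJ hexp hy hgk hWg hkN hn1 hn1' hn2 hn3 hn4 hn5 hn6 hn7 hn8
    hn8' hn9 hn10
  have pw : ∀ {x y : ℕ}, x ≤ y → (2 : ℝ) ^ x ≤ 2 ^ y := fun h => pow_le_pow_right₀ (by norm_num) h
  have I := O.inc
  have hWk := I.AmW hk₁
  have hkJ := I.AJ k₁ hk₁
  have hWJ : W ≤ J := hWk.trans hkJ
  have e1 : (1 / 2 ^ (A N - W) : ℝ) ^ b = 1 / 2 ^ (b * (A N - W)) := by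
    rw [one_div_pow, ← pow_mul, mul_comm]
  have hin' := inpF_deg O.inp (show K₀ ≤ K by omega)
  -- the closed part
  obtain ⟨ok, hok⟩ : ∃ ok : MvPolynomial (Option (Fin m)) ℝ → MvPolynomial (Option (Fin m)) ℝ,
      ok = fun Q => if Q.totalDegree ≤ D ∧ DepC c 3 Q then Q else 0 := ⟨_, rfl⟩
  have okd : ∀ Q, (ok Q).totalDegree ≤ D := fun Q => by
    rw [hok]
    show (if Q.totalDegree ≤ D ∧ DepC c 3 Q then Q else 0).totalDegree ≤ D
    split_ifs with h
    · exact h.1
    · rw [totalDegree_zero]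
      exact Nat.zero_le _
  have oke : ∀ Q, DepC c 3 (ok Q) := fun Q => by
    rw [hok]
    show DepC c 3 (if Q.totalDegree ≤ D ∧ DepC c 3 Q then Q else 0)
    split_ifs with h
    · exact h.2
    · intro x y _ _
      rw [map_zero, map_zero]
  have oks : ∀ Q, Q.totalDegree ≤ D ∧ DepC c 3 Q → ok Q = Q := fun Q h => by
    rw [hok]
    show (if Q.totalDegree ≤ D ∧ DepC c 3 Q then Q else 0) = Q
    rw [if_pos h]
  have hdep : ∀ Q, DepC c 2 Q → DepC c 3 Q := fun Q h x y hn hb =>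
    h x y hn fun l hl => hb l (by omega)
  have hTPe : ∀ ω, B ω → ok (Gx (ptr F J ω)) + zP (ptr F J ω) = Gx (ptr F J ω) + zP (ptr F J ω) :=
    fun ω hω => by rw [oks _ (hGd ω hω)]
  obtain ⟨B', G', H', h1, h2, h3⟩ := hlab F B hB (c := c) (i := 3) (W₀ := W) (W := A k₁)
    (g1 := g 0 1) (g₃ := g₃) (e₁' := s + e) (s := y) (t := t) (p := p) (e₁ := e₁) (Y := 2 ^ y)
    (θ := θ) (η := 2 ^ y / 2 ^ d) (Ev := 2 ^ y * (1 / 2 ^ (A N - W)) ^ b)
    (Pv := fun q => pP q 1) (Pl := fun S => pH S 1) (yt := yt)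
    (h := hgP c W (g 0 1) (fun S => pH S 1)) (e := fun k => A k - W) (f := f) (f' := f') (kf := kf)
    (TP := fun q => ok (Gx q) + zP q)
    (TH := fun S => ok (Gl (cos F w (A k₁) S)) + zH (cos F W (A k₁) S)) (Gc := G k₁) (Hc := H k₁)
    (gc := g k₁)
    (LT := fun l => 2 ^ (X + nlp (fun j => if j < 3 then g 0 j else g₃) l 3)) I.inj (by norm_num)
    le_rfl hWk hkJ hWg hin' (fun S j => (hI.hd S j).trans (by omega)) (fun S => rfl) hI.yh
    hI.vel hCy hθ hTm hJ hexp (fun ω hω r hr => (O.near ω hω r hr).trans (by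
      rw [e1, mul_one_div, ← mul_div_assoc, ← pow_add, div_div, ← pow_add,
        div_le_div_iff₀ (by positivity) (by positivity), ← pow_add, ← pow_add]
      exact pw (by omega))) (fun ω hω => by
      intro j
      have k1 := hI.vis ω hω j
      rw [Nat.zero_mul, add_zero] at k1
      exact k1) (by positivity) (by
      rw [← mul_div_assoc, ← pow_succ', div_le_div_iff₀ (by positivity) (by positivity), one_mul,
        ← pow_add]
      exact pw (by omega)) hn3 (by
      rw [div_mul_eq_mul_div, ← pow_add, div_le_div_iff₀ (by positivity) (by positivity), one_mul,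
        ← pow_add]
      exact pw (by omega)) (fun q => I.pd q 1) (fun S => I.hd S 1) (fun q => I.pe q 1)
    (fun S => O.hp S 1) (fun ω hω => I.pc ω hω 1) O.pg
    (fun q => (totalDegree_add _ _).trans (max_le (okd _) (O.zd q)))
    (fun S => (totalDegree_add _ _).trans (max_le (okd _) (O.zd' _)))
    (fun q => fun x y hn hb => by
      rw [map_add, map_add, oke _ x y hn hb, hdep _ (O.ze q) x y hn hb])
    (fun S => fun x y hn hb => by
      rw [map_add, map_add, oke _ x y hn hb, hdep _ (O.ze' _) x y hn hb]) (fun ω hω => by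
      show ok (Gx (ptr F J ω)) + zP (ptr F J ω) =
        ok (Gl (cos F w (A k₁) (slam F (A k₁) ω))) + zH (cos F W (A k₁) (slam F (A k₁) ω))
      rw [cos_slam F hWk hkJ, cos_slam F (hwW.trans hWk) hkJ, hGc ω hω, O.zc ω hω])
    (fun ω hω => by
      show |_ - 2 ^ g₃ * (F.x ω (c 3) - eval (bt F ω) (ok (Gx (ptr F J ω)) + zP (ptr F J ω)))| ≤ _
      rw [hTPe ω hω]
      exact O.val N le_rfl ω hω)
    ((I.ok k₁ hk₁).mono le_rfl (fun _ => le_rfl) le_rfl hn8')
    (fun ω hω b' hb' => (hbox I O.Ns hk₁ hω le_rfl (by omega) hgk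
      (hb'.mono le_rfl (by norm_num))).1.trans
      (div_le_div_of_nonneg_right (pw hy) (by positivity)))
    (fun ω hω b' hb' => (hbox I O.Ns hk₁ hω le_rfl (by omega) hgk
      (hb'.mono le_rfl (by norm_num))).2.trans
      (div_le_div_of_nonneg_right (pw hy) (by positivity)))
    (fun ω hω b' hb' l hl => by
      show |eval b' (pderiv (some (c l)) (ok (Gx (ptr F J ω)) + zP (ptr F J ω)))| ≤ _
      rw [hTPe ω hω]
      exact O.gT k₁ hk₁ ω hω b' hb' l hl) (by
      rw [div_le_div_iff₀ (by positivity) (by positivity), one_mul, ← pow_add]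
      exact pw (by omega)) (by
      have k1 : (4 : ℝ) = 2 ^ 2 := by norm_num
      rw [k1, ← mul_div_assoc, ← pow_add, div_le_one (by positivity)]
      exact pw (by omega)) (by
      rw [e1]
      have q1 : (2 : ℝ) ^ y * (1 / 2 ^ (b * (A N - W))) / 2 ^ g₃ ≤ 1 / 2 ^ (p + 2) := by
        rw [mul_one_div, div_div, ← pow_add, div_le_div_iff₀ (by positivity) (by positivity),
          one_mul, ← pow_add]
        exact pw (by omega)
      have q2 : (2 : ℝ) ^ y * (1 / 2 ^ (b * (A N - W))) / 2 ^ t / 2 ^ g₃ ≤ 1 / 2 ^ (p + 2) := by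
        rw [mul_one_div, div_div, div_div, ← pow_add, ← pow_add,
          div_le_div_iff₀ (by positivity) (by positivity), one_mul, ← pow_add]
        exact pw (by omega)
      have q3 : (2 ^ y : ℝ) ^ E * (2 ^ y / 2 ^ (A k₁ - W)) ^ (b + 1) / 2 ^ g₃ ≤
          1 / 2 ^ (p + 2) := by
        rw [div_pow, ← pow_mul, ← pow_mul, ← pow_mul, ← mul_div_assoc, ← pow_add, div_div,
          ← pow_add, div_le_div_iff₀ (by positivity) (by positivity), one_mul, ← pow_add]
        refine pw ?_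
        nlinarith
      have q4 : (2 ^ y : ℝ) ^ E * ((2 ^ y / 2 ^ (A k₁ - W)) ^ b / 2 ^ t) / 2 ^ g₃ ≤
          1 / 2 ^ (p + 2) := by
        rw [div_pow, ← pow_mul, ← pow_mul, ← pow_mul, div_div, ← pow_add, ← mul_div_assoc,
          ← pow_add, div_div, ← pow_add, div_le_div_iff₀ (by positivity) (by positivity), one_mul,
          ← pow_add]
        refine pw ?_
        nlinarith
      rw [add_div, add_div, mul_add, add_div]
      have q5 : (1 : ℝ) / 2 ^ p = 1 / 2 ^ (p + 2) + 1 / 2 ^ (p + 2) + (1 / 2 ^ (p + 2) +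
          1 / 2 ^ (p + 2)) := by
        rw [pow_add]
        field_simp
        norm_num
      rw [q5]
      exact add_le_add (add_le_add q1 q2) (add_le_add q3 q4)) (fun l hl => by
      have hsub : ∀ j, l ≤ j → j < 3 → g k₁ j - p ≤
          nlp (fun j => if j < 3 then g k₁ j else p) l 3 := by
        intro j hj1 hj2
        have k1 := Finset.le_sup (f := fun j => if j < 3 then g k₁ j else p)
          (Finset.mem_Icc.2 ⟨hj1, hj2.le⟩)
        unfold nlp
        simp only [if_pos hj2] at k1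
        simp only [lt_irrefl, if_false]
        omega
      have hn0 : nlp (fun j => if j < 3 then g 0 j else g₃) l 3 + (X + 1) ≤ e₁ +
          nlp (fun j => if j < 3 then g k₁ j else p) l 3 := by
        have k2 : (Finset.Icc l 3).sup (fun j => if j < 3 then g 0 j else g₃) ≤ g₃ + (e₁ +
            nlp (fun j => if j < 3 then g k₁ j else p) l 3 - (X + 1)) := by
          refine Finset.sup_le fun j hj => ?_
          rw [Finset.mem_Icc] at hj
          rcases Nat.lt_or_ge j 3 with h5 | h5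
          · have k3 := hsub j hj.1 h5
            have k4 := hn9 j h5
            simp only [if_pos h5]
            omega
          · have k5 : j = 3 := by omega
            rw [k5]
            simp only [lt_irrefl, if_false]
            omega
        have k6 : nlp (fun j => if j < 3 then g 0 j else g₃) l 3 =
            (Finset.Icc l 3).sup (fun j => if j < 3 then g 0 j else g₃) - g₃ := by
          unfold nlp
          simp only [lt_irrefl, if_false]
        rw [k6]
        omega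
      obtain ⟨Z, hZ⟩ : ∃ Z, Z = e₁ + nlp (fun j => if j < 3 then g k₁ j else p) l 3 := ⟨_, rfl⟩
      have k8 : 3 * ((2 ^ y : ℝ) ^ E / 2 ^ g₃ * lm (g 0 1) (s + e) l) ≤ 2 ^ (Z - 1) := by
        rcases Nat.lt_or_ge l 2 with h5 | h5
        · have k6 := hsub 1 (by omega) (by norm_num)
          have k9 : lm (g 0 1) (s + e) l ≤ 2 ^ (g 0 1 + (s + e)) := by
            unfold lm
            split_ifs
            · exact le_rfl
            · exact pw (by omega)
            · positivity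
          calc 3 * ((2 ^ y : ℝ) ^ E / 2 ^ g₃ * lm (g 0 1) (s + e) l) ≤
              2 ^ 2 * ((2 ^ y : ℝ) ^ E / 2 ^ g₃ * 2 ^ (g 0 1 + (s + e))) := by
                refine mul_le_mul (by norm_num) (mul_le_mul_of_nonneg_left k9 (by positivity))
                  (mul_nonneg (by positivity) (lm_nonneg _ _ _)) (by norm_num)
            _ ≤ _ := by
                rw [← pow_mul, div_mul_eq_mul_div, ← pow_add, ← mul_div_assoc, ← pow_add,
                  div_le_iff₀ (by positivity), ← pow_add]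
                refine pw ?_
                have : y * E = E * y := mul_comm _ _
                omega
        · have k9 : lm (g 0 1) (s + e) l = 0 := by
            unfold lm
            rw [if_neg (by omega), if_neg (by omega)]
          rw [k9, mul_zero, mul_zero]
          positivity
      rw [← hZ] at hn0 ⊢
      have k7 : (2 : ℝ) ^ (X + nlp (fun j => if j < 3 then g 0 j else g₃) l 3) ≤ 2 ^ (Z - 1) :=
        pw (by omega)
      calc _ ≤ (2 : ℝ) ^ (Z - 1) + 2 ^ (Z - 1) := add_le_add k7 k8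
        _ = 2 ^ (Z - 1 + 1) := by ring
        _ ≤ 2 ^ Z := pw (by omega))
  exact ⟨B', G', H', h1, h2, h3⟩

end Pool.STB77
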