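import Pool.Agent.H77.STB.Nn8

/-!
# No static fourth place with a slope which is no integer

`n1o_void`: the output of the static target at a list of balls, with the gain of a slope which is no
integer, contradicts the threshold of the target.
-/

set_option autoImplicit false

namespace Pool.STB77

open Finset Real MvPolynomial
open Pool.Agent.H49.Ent Pool.Agent.H32.Dense Pool.STK Pool.KA Pool.KSAT Pool.K2S Pool.PB Pool.S6C
open Pool.GEN Pool.CHT Pool.NVX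
open Pool.STB (V3 Po Bx)
open Pool.STB65
open Pool.STB82 (yv yp hgP)
open Pool.FLF (Fam.sub)
open Pool.LBT (ThrOf bas_false)

/-- Larger losses. -/
theorem n1o_s {m J : ℕ} {F : Fam m J} {c : ℕ → Fin m} {D K b N W s s' v y e X g₃ gS : ℕ}
    {A ee : ℕ → ℕ} {g : ℕ → ℕ → ℕ} {B : F.Ω → Prop}
    {G : ℕ → PtT F → ℕ → MvPolynomial (Option (Fin m)) ℝ}
    {H : ℕ → LnT F → ℕ → MvPolynomial (Option (Fin m)) ℝ}
    {pP : PtT F → ℕ → MvPolynomial (Option (Fin m)) ℝ}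
    {pH : LnT F → ℕ → MvPolynomial (Option (Fin m)) ℝ} {xP : PtT F → ℝ} {xH : LnT F → ℝ}
    {Gx zP : PtT F → MvPolynomial (Option (Fin m)) ℝ}
    {zH : LnT F → MvPolynomial (Option (Fin m)) ℝ} {f : ℕ → PtT F → Po} {f' : ℕ → LnT F → Po}
    {kf : LnT F → Po}
    (h : N1O F c D K b N W s v y e X g₃ gS A ee g B G H pP pH xP xH Gx zP zH f f' kf)
    (hs : s ≤ s') : N1O F c D K b N W s' v y e X g₃ gS A ee g B G H pP pH xP xH Gx zP zH f f' kf := by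
  have pw : ∀ {x y : ℕ}, x ≤ y → (2 : ℝ) ^ x ≤ 2 ^ y := fun h => pow_le_pow_right₀ (by norm_num) h
  exact { h with
    inc := inc_mono h.inc le_rfl hs
    Ns := h.Ns.trans hs
    n0' := h.n0'.trans (Nat.add_le_add_left hs _)
    xn := fun ω hω => (h.xn ω hω).trans (pw hs)
    pg := fun ω hω b' h1 h2 => (h.pg ω hω b' h1 h2).trans (pw (Nat.add_le_add_right hs _)) }

/-- **No static fourth place with a slope which is no integer.** -/
theorem n1o_void (m D K b C₀ C : ℕ) (hD : 1 ≤ D) (hb2 : 2 ≤ b) {σ : ℝ} (hσ1 : (b : ℝ) < σ)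
    (hσ2 : σ < b + 1) : ∃ ϰ : ℝ, 0 < ϰ ∧ ϰ ≤ 1 ∧ ∀ {S : PCl m} {θ₂ : ℝ}
    {P₂ : List (Fin m) × Fin m → ℝ → ℝ → ℝ} {c : ℕ → Fin m} {β : ℕ → ℝ → ℝ → ℝ}
    {q t e E x s₀ s v w gam e₂ K₁ : ℝ} {N k₁ : ℕ} {aa ww : ℕ → ℝ} {d : ℕ → ℕ → ℝ} {gS : ℕ → ℕ},
    S.Ne → TmH S → ThrOf (chsys m θ₂) S P₂ → 0 < q → 0 < K₁ → 0 ≤ t → t + (σ + 5) * q < 1 →
    k₁ ≤ N → aa 0 = t → aa k₁ = t + q → aa N = t + 2 * q → ww 0 = t → ww k₁ = t + q → 0 ≤ s₀ → s₀ ≤ ϰ * q → 0 < s →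
    s ≤ ϰ * q → 0 ≤ v → v ≤ ϰ * q → 0 ≤ e → 0 ≤ E → 0 ≤ x → w ≤ t →
    (∀ k ≤ N, ∀ l ≤ 3, 0 < d k l ∧ d k l ≤ s) → (∀ J : ℕ, ⌊gam * J⌋₊ ≤ gS J) →
    β 0 t t ≤ t + s₀ → t + q ≤ β 0 (t + q) (t + q) + s₀ → t ≤ β 1 t t →
    β 1 t t + q ≤ β 1 (t + q) (t + q) + s₀ → β 2 t t ≤ β 2 (t + q) (t + q) + s₀ → 0 ≤ β 2 t t →
    0 ≤ β 3 t t → 0 ≤ β 0 t t → (∀ l ≤ 3, 0 ≤ β l (t + q) (t + q) ∧ β l (t + q) (t + q) ≤ 1) →
    β 3 (t + q) (t + q) ≤ β 3 t t + σ * q + s₀ → β 3 t t + 2 * σ * q ≤ gam + s₀ →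
    β 3 (t + q) (t + q) + q ≤ 1 → max e E + x + (3 * σ + 20) * q ≤ e₂ →
    β 1 t t + max e E + x + (3 * σ + 20) * q ≤ 1 →
    (∀ ε : ℝ, 0 < ε → ∃ δ : ℝ, 0 < δ ∧ ∀ w' : ℝ, t + q ≤ w' → w' ≤ t + q + δ →
      bet P₂ c 3 w' w' ≤ β 3 (t + q) (t + q) + ε) →
    (∀ w' : ℝ, t + q ≤ w' → w' ≤ t + 2 * q → e₂ < θ₂ * w') →
    Bas S (fun J F A => ∃ (B : F.Ω → Prop)
      (Gn : ℕ → PtT F → ℕ → MvPolynomial (Option (Fin m)) ℝ)
      (Hn : ℕ → LnT F → ℕ → MvPolynomial (Option (Fin m)) ℝ)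
      (pP : PtT F → ℕ → MvPolynomial (Option (Fin m)) ℝ)
      (pH : LnT F → ℕ → MvPolynomial (Option (Fin m)) ℝ) (xP : PtT F → ℝ) (xH : LnT F → ℝ)
      (Gx zP : PtT F → MvPolynomial (Option (Fin m)) ℝ)
      (Gl zH : LnT F → MvPolynomial (Option (Fin m)) ℝ) (f : ℕ → PtT F → Po)
      (f' : ℕ → LnT F → Po) (kf : LnT F → Po), Sub B A ∧ Pe F.p A ≤ K₁ * Pe F.p B ∧
      (∀ ω, B ω → Gx (ptr F J ω) = Gl (slam F ⌊w * J⌋₊ ω)) ∧
      (∀ ω, B ω → (Gx (ptr F J ω)).totalDegree ≤ D ∧ DepC c 3 (Gx (ptr F J ω))) ∧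
      N1O F c D K b N ⌊aa 0 * J⌋₊ (C₀ * (⌊(s₀ + 3 * s) * J⌋₊ + 1)) (⌊v * J⌋₊ + 1)
        (C * (⌊(s₀ + 3 * s) * J⌋₊ + ⌊v * J⌋₊ + 1)) ⌊e * J⌋₊
        (C * (⌊(s₀ + 3 * s) * J⌋₊ + ⌊v * J⌋₊ + 1) + max ⌊e * J⌋₊ ⌊(E + s) * J⌋₊ + ⌊x * J⌋₊)
        ⌊(β 3 (aa 0) (ww 0) - d 0 3) * J⌋₊ (gS J) (fun k => ⌊aa k * J⌋₊)
        (fun _ => ⌊(E + s) * J⌋₊) (fun k l => ⌊(β l (aa k) (ww k) - d k l) * J⌋₊) B Gn Hn pP pH
        xP xH Gx zP zH f f' kf) → False := by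
  classical
  obtain ⟨C₁, E', D'', hev⟩ := nni_inc3 m D K b hD
  have hb2' : (2 : ℝ) ≤ b := by exact_mod_cast hb2
  -- the constants
  obtain ⟨γ, hγ⟩ : ∃ γ, γ = min (σ - b) (b + 1 - σ) / 4 := ⟨_, rfl⟩
  have hγ0 : 0 < γ := by
    rw [hγ]
    exact div_pos (lt_min (by linarith) (by linarith)) (by norm_num)
  have hγ1 : 4 * γ ≤ σ - b := by
    rw [hγ]
    linarith [min_le_left (σ - b) (b + 1 - σ)]
  have hγ2 : 4 * γ ≤ b + 1 - σ := by
    rw [hγ]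
    linarith [min_le_right (σ - b) (b + 1 - σ)]
  obtain ⟨ys, hys⟩ : ∃ ys : ℝ, ys = γ / ((E' : ℝ) + b + 2) := ⟨_, rfl⟩
  have hEb : (0 : ℝ) < (E' : ℝ) + b + 2 := by positivity
  have hys0 : 0 < ys := by rw [hys]; positivity
  have hysγ : ((E' : ℝ) + b + 2) * ys ≤ γ := by
    rw [hys]
    field_simp
    exact le_rfl
  have hys1 : ys ≤ 1 / 8 := by
    have h1 : 2 * ys ≤ ((E' : ℝ) + b + 2) * ys :=
      mul_le_mul_of_nonneg_right (by linarith [Nat.cast_nonneg (α := ℝ) E']) hys0.le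
    linarith
  obtain ⟨CC, hCC⟩ : ∃ CC : ℝ, CC = (C₁ + 1) * (C₀ + 2) + C := ⟨_, rfl⟩
  have hCC1 : 2 ≤ CC := by
    have h1 : (1 : ℝ) * 2 ≤ ((C₁ : ℝ) + 1) * (C₀ + 2) :=
      mul_le_mul (by linarith [Nat.cast_nonneg (α := ℝ) C₁])
        (by linarith [Nat.cast_nonneg (α := ℝ) C₀]) (by norm_num) (by positivity)
    rw [hCC]
    linarith [Nat.cast_nonneg (α := ℝ) C]
  obtain ⟨ε, hε⟩ : ∃ ε : ℝ, ε = min (γ / 6) (ys / (64 * CC)) := ⟨_, rfl⟩
  have hε0 : 0 < ε := by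
    rw [hε]
    exact lt_min (by positivity) (by positivity)
  have hεγ : 6 * ε ≤ γ := by
    have : ε ≤ γ / 6 := by rw [hε]; exact min_le_left _ _
    linarith
  have hεC : 64 * CC * ε ≤ ys := by
    have h1 : ε ≤ ys / (64 * CC) := by rw [hε]; exact min_le_right _ _
    rw [le_div_iff₀ (by positivity)] at h1
    linarith
  have hε1 : ε ≤ 1 := by linarith
  refine ⟨ε, hε0, hε1, ?_⟩
  intro S θ₂ P₂ c β q t e E x s₀ s v w gam e₂ K₁ N k₁ aa ww d gS hSn hS hP₂ hq hK₁ ht0 ht1 hk₁ aa0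
    aak aaN ww0 wwk hs₀ hs₀' hs hs' hv hv' he hE hx hwt hd hgS b0 b0' b1 b1' b2 b20 b30 b00 bl b3 hgam b3' he₂
    hroom hrat heθ hN1
  obtain ⟨C', hC', hev⟩ := hev N
  -- the rational window
  obtain ⟨δ, hδ, hrat⟩ := hrat (γ * q / 4) (by positivity)
  obtain ⟨w', hw1, hw2⟩ := exists_rat_btwn (show t + q < min (t + q + δ) (t + 2 * q) from
    lt_min (by linarith) (by linarith))
  have hw3 : (w' : ℝ) ≤ t + q + δ := hw2.le.trans (min_le_left _ _)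
  have hw4 : (w' : ℝ) ≤ t + 2 * q := hw2.le.trans (min_le_right _ _)
  have hbet := hrat w' hw1.le hw3
  have hγq : 0 < γ * q := mul_pos hγ0 hq
  have hγq1 : γ * q ≤ q := mul_le_of_le_one_left hq.le (by linarith)
  have hw0 : (0 : ℝ) < w' := by linarith
  have hσq : 2 * q ≤ (σ + 5) * q := mul_le_mul_of_nonneg_right (by linarith) hq.le
  have hno := no_unif hP₂ c 3 (fun _ => D'') w' w' e₂ (γ * q / 4)
    (by exact_mod_cast hw0.le) le_rfl (by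
      have : (w' : ℝ) ≤ 1 := by linarith
      exact_mod_cast this) (heθ _ hw1.le hw4) (by positivity) (by linarith)
  -- the time
  obtain ⟨τ, hτ⟩ : ∃ τ : ℝ, τ = ys * q * Real.log 2 / (4 * C') := ⟨_, rfl⟩
  have hl2 : 0 < Real.log 2 := Real.log_pos one_lt_two
  have hl2' : Real.log 2 < 1 := by linarith [Real.log_two_lt_d9]
  have hl2'' : 1 / 2 < Real.log 2 := by linarith [Real.log_two_gt_d9]
  have hC1 : 0 < C' := by linarith
  have hτ0 : 0 < τ := by rw [hτ]; positivity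
  have hTm := Pool.V1E.bas_big (hS.2 τ hτ0) (4 * K₁)
  have hposn := inc_pos D hS (ε := ys * q / 16) (w := t) K₁ (by positivity) (by linarith)
  have hno' := Pool.V1E.bas_big hno (8 * K₁)
  -- large numbers
  obtain ⟨J₁, hJ₁⟩ := exists_nat_ge ((2 * (b : ℝ) + 20 + N) / (min ε (s / q) * q))
  obtain ⟨J₂, hJ₂⟩ := exists_nat_ge (8 * (8 * CC + C' + 1) / (ys * q))
  obtain ⟨ρ, hρ⟩ : ∃ ρ : ℝ, ρ = min ε (s / q) * q := ⟨_, rfl⟩
  have hρ0 : 0 < ρ := by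
    rw [hρ]
    exact mul_pos (lt_min hε0 (by positivity)) hq
  have hρε : ρ ≤ ε * q := by
    rw [hρ]
    exact mul_le_mul_of_nonneg_right (min_le_left _ _) hq.le
  have hρs : ρ ≤ s := by
    rw [hρ]
    calc min ε (s / q) * q ≤ s / q * q := mul_le_mul_of_nonneg_right (min_le_right _ _) hq.le
      _ = s := by field_simp
  rw [← hρ] at hJ₁
  refine bas_false hSn (Φ := fun _ _ _ => True) ⟨1, one_pos, 0, fun _ _ _ _ _ => trivial⟩
    (Bas.mono (max J₁ J₂) ((hN1.and hposn).and (hTm.and hno')) ?_)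
  rintro J hJ F A₀ ⟨⟨⟨B, Gn, Hn, pP, pH, xP, xH, Gx, zP, Gl, zH, f, f', kf, hBA, hBP, hGc, hGd, O₀⟩,
    hpos⟩, hTm, hno⟩ -
  clear hN1 hposn
  have hJ1 : (J₁ : ℝ) ≤ J := by exact_mod_cast (le_max_left _ _).trans hJ
  have hJ2 : (J₂ : ℝ) ≤ J := by exact_mod_cast (le_max_right _ _).trans hJ
  have hJ0 : (0 : ℝ) ≤ J := Nat.cast_nonneg J
  obtain ⟨U, hU⟩ : ∃ U : ℝ, U = q * J := ⟨_, rfl⟩
  have hU0 : 0 ≤ U := by rw [hU]; positivity
  have hρJ : 2 * (b : ℝ) + 20 + N ≤ ρ * J := by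
    have h1 := hJ₁.trans hJ1
    rw [div_le_iff₀ hρ0] at h1
    linarith
  have hU1 : ρ * J ≤ ε * U := by
    have := mul_le_mul_of_nonneg_right hρε hJ0
    rw [hU]
    linarith
  have hsJ1 : ρ * J ≤ s * J := mul_le_mul_of_nonneg_right hρs hJ0
  have hU2 : 8 * (8 * CC + C' + 1) ≤ ys * U := by
    have h1 := hJ₂.trans hJ2
    rw [div_le_iff₀ (by positivity)] at h1
    rw [hU]
    linarith
  have sJ : s * J ≤ ε * U := by
    have := mul_le_mul_of_nonneg_right hs' hJ0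
    rw [hU]
    linarith
  have s₀J : s₀ * J ≤ ε * U := by
    have := mul_le_mul_of_nonneg_right hs₀' hJ0
    rw [hU]
    linarith
  have vJ : v * J ≤ ε * U := by
    have := mul_le_mul_of_nonneg_right hv' hJ0
    rw [hU]
    linarith
  have s₀J0 : 0 ≤ s₀ * J := mul_nonneg hs₀ hJ0
  have vJ0 : 0 ≤ v * J := mul_nonneg hv hJ0
  have sJ0 : 0 ≤ s * J := mul_nonneg hs.le hJ0
  have hεU : 0 ≤ ε * U := mul_nonneg hε0.le hU0
  have hN0 : (0 : ℝ) ≤ N := Nat.cast_nonneg _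
  -- the numbers
  obtain ⟨tJ, htJ⟩ : ∃ tJ : ℝ, tJ = t * J := ⟨_, rfl⟩
  have hC₀r : (0 : ℝ) ≤ C₀ := Nat.cast_nonneg _
  have hC₁r : (0 : ℝ) ≤ C₁ := Nat.cast_nonneg _
  have hCr : (0 : ℝ) ≤ C := Nat.cast_nonneg _
  obtain ⟨n3, hn3⟩ : ∃ n3 : ℕ, n3 = ⌊(s₀ + 3 * s) * J⌋₊ := ⟨_, rfl⟩
  have n3u : (n3 : ℝ) ≤ 4 * (ε * U) := by
    have h1 := Nat.floor_le (show 0 ≤ (s₀ + 3 * s) * J by positivity)
    rw [← hn3] at h1
    linarith only [h1, sJ, s₀J]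
  obtain ⟨v3, hv3⟩ : ∃ v3 : ℕ, v3 = ⌊v * J⌋₊ := ⟨_, rfl⟩
  have v3u : (v3 : ℝ) ≤ ε * U := by
    have h1 := Nat.floor_le vJ0
    rw [← hv3] at h1
    linarith only [h1, vJ]
  rw [← hn3, ← hv3] at O₀
  obtain ⟨sI, hsI⟩ : ∃ sI : ℕ, sI = (C₀ + 1) * (n3 + 1) + (⌊5 * (ε * U)⌋₊ + 1) := ⟨_, rfl⟩
  have f5l := Nat.floor_le (show 0 ≤ 5 * (ε * U) by positivity)
  have f5u := Nat.lt_floor_add_one (5 * (ε * U))
  have sI1 : 5 * (ε * U) ≤ sI := by
    rw [hsI]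
    push_cast
    have : 0 ≤ ((C₀ : ℝ) + 1) * (n3 + 1) := by positivity
    linarith only [this, f5u]
  have sI2 : (sI : ℝ) ≤ (C₀ + 2) * (5 * (ε * U) + 1) := by
    rw [hsI]
    push_cast
    have h1 : ((C₀ : ℝ) + 1) * (n3 + 1) ≤ (C₀ + 1) * (5 * (ε * U) + 1) :=
      mul_le_mul_of_nonneg_left (by linarith only [n3u, hεU]) (by linarith only [hC₀r])
    linarith only [h1, f5l]
  have sIC : C₀ * (n3 + 1) ≤ sI := by
    rw [hsI]
    exact (Nat.mul_le_mul_right _ (Nat.le_succ _)).trans (Nat.le_add_right _ _)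
  obtain ⟨y, hy⟩ : ∃ y : ℕ, y = ⌊ys * U⌋₊ := ⟨_, rfl⟩
  have hysU : 0 ≤ ys * U := mul_nonneg hys0.le hU0
  have y1 : (y : ℝ) ≤ ys * U := by rw [hy]; exact Nat.floor_le hysU
  have y2 : ys * U - 1 ≤ y := by
    rw [hy]
    linarith only [Nat.lt_floor_add_one (ys * U)]
  have cε : 64 * (CC * (ε * U)) ≤ ys * U := by
    have h1 := mul_le_mul_of_nonneg_right hεC hU0
    linarith only [h1]
  have cU : 64 * CC + 8 * C' + 8 ≤ ys * U := by linarith only [hU2]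
  have hCy : C₁ * (sI + (v3 + 1) + 1) ≤ y := by
    refine nat_le_re ?_
    push_cast
    have k1 : (sI : ℝ) + (v3 + 1) + 1 ≤ (C₀ + 2) * (6 * (ε * U) + 2) := by
      have h1 : 2 * (ε * U + 1) ≤ ((C₀ : ℝ) + 2) * (ε * U + 1) :=
        mul_le_mul_of_nonneg_right (by linarith only [hC₀r]) (by linarith only [hεU])
      linarith only [h1, sI2, v3u, hεU]
    have k2 : (C₁ : ℝ) * ((sI : ℝ) + (v3 + 1) + 1) ≤ C₁ * ((C₀ + 2) * (6 * (ε * U) + 2)) :=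
      mul_le_mul_of_nonneg_left k1 hC₁r
    have k3 : (C₁ : ℝ) * ((C₀ + 2) * (6 * (ε * U) + 2)) ≤ CC * (6 * (ε * U) + 2) := by
      rw [← mul_assoc]
      refine mul_le_mul_of_nonneg_right ?_ (by linarith only [hεU])
      rw [hCC]
      linarith only [hC₁r, hC₀r, hCr]
    linarith only [k2, k3, cε, cU, y2, hC1, hCC1, hysU]
  have hCy' : C * (n3 + v3 + 1) ≤ y := by
    refine nat_le_re ?_
    push_cast
    have k2 : (C : ℝ) * ((n3 : ℝ) + v3 + 1) ≤ CC * (5 * (ε * U) + 1) := by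
      refine mul_le_mul ?_ (by linarith only [n3u, v3u]) (by positivity)
        (by linarith only [hCC1])
      rw [hCC]
      have : 0 ≤ ((C₁ : ℝ) + 1) * (C₀ + 2) := by positivity
      linarith only [this]
    linarith only [k2, cε, cU, y2, hC1, hCC1, hysU]
  have syU : ys * U ≤ U / 8 := by
    have := mul_le_mul_of_nonneg_right hys1 hU0
    linarith only [this]
  have sIy : 4 * (sI : ℝ) ≤ ys * U := by
    have h1 : ((C₀ : ℝ) + 2) * (5 * (ε * U) + 1) ≤ CC * (5 * (ε * U) + 1) := by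
      refine mul_le_mul_of_nonneg_right ?_ (by linarith only [hεU])
      rw [hCC]
      have : 0 ≤ (C₁ : ℝ) * (C₀ + 2) := by positivity
      linarith only [this, hCr]
    linarith only [sI2, h1, cε, cU, hC1, hCC1, hysU]
  have hbU0 : (0 : ℝ) ≤ b := by linarith only [hb2']
  have pw : ∀ {x y : ℕ}, x ≤ y → (2 : ℝ) ^ x ≤ 2 ^ y := fun h => pow_le_pow_right₀ (by norm_num) h
  obtain ⟨W, hW⟩ : ∃ W : ℕ, W = ⌊aa 0 * J⌋₊ := ⟨_, rfl⟩
  obtain ⟨A', hA'⟩ : ∃ A' : ℕ → ℕ, A' = fun k => ⌊aa k * J⌋₊ := ⟨_, rfl⟩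
  obtain ⟨g', hg'⟩ : ∃ g' : ℕ → ℕ → ℕ, g' = fun k l => ⌊(β l (aa k) (ww k) - d k l) * J⌋₊ :=
    ⟨_, rfl⟩
  obtain ⟨g₃, hg₃⟩ : ∃ g₃ : ℕ, g₃ = ⌊(β 3 (aa 0) (ww 0) - d 0 3) * J⌋₊ := ⟨_, rfl⟩
  obtain ⟨Ee, hEe⟩ : ∃ Ee : ℕ, Ee = ⌊(E + s) * J⌋₊ := ⟨_, rfl⟩
  obtain ⟨ef, hef⟩ : ∃ ef : ℕ, ef = ⌊e * J⌋₊ := ⟨_, rfl⟩
  obtain ⟨X, hX⟩ : ∃ X : ℕ, X = C * (n3 + v3 + 1) + max ef Ee + ⌊x * J⌋₊ := ⟨_, rfl⟩
  obtain ⟨e1, he1⟩ : ∃ e1 : ℕ, e1 = ⌊e₂ * J⌋₊ := ⟨_, rfl⟩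
  obtain ⟨p, hp⟩ : ∃ p : ℕ, p = ⌊(β 3 (t + q) (t + q) + γ * q) * J⌋₊ := ⟨_, rfl⟩
  obtain ⟨τg, hτg⟩ : ∃ τg : ℕ, τg = ⌊(2 * (σ - b) - 4 * ε) * U⌋₊ := ⟨_, rfl⟩
  rw [← hW, ← hA', ← hg', ← hg₃, ← hEe, ← hef, ← hX] at O₀
  have O := n1o_s (O₀.up hCy' le_rfl) sIC
  have I := O.inc
  have fA0 := Nat.floor_le (show 0 ≤ aa 0 * J by rw [aa0]; positivity)
  have fA0' := Nat.lt_floor_add_one (aa 0 * J)
  rw [← hW, aa0, ← htJ] at fA0 fA0'
  have tqJ : (t + q) * J = tJ + U := by rw [htJ, hU]; ring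
  have tqJ2 : (t + 2 * q) * J = tJ + 2 * U := by rw [htJ, hU]; ring
  have fAk : ((A' k₁ : ℕ) : ℝ) ≤ tJ + U ∧ tJ + U - 1 ≤ A' k₁ := by
    rw [hA', ← tqJ, ← aak]
    exact ⟨Nat.floor_le (by rw [aak]; positivity), by linarith only [Nat.lt_floor_add_one (aa k₁ * J)]⟩
  have fAN : ((A' N : ℕ) : ℝ) ≤ tJ + 2 * U ∧ tJ + 2 * U - 1 ≤ A' N := by
    rw [hA', ← tqJ2, ← aaN]
    exact ⟨Nat.floor_le (by rw [aaN]; positivity), by linarith only [Nat.lt_floor_add_one (aa N * J)]⟩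
  have g0f : ∀ l ≤ 3, 0 ≤ β l t t → ((⌊(β l (aa 0) (ww 0) - d 0 l) * J⌋₊ : ℕ) : ℝ) ≤ β l t t * J ∧
      β l t t * J - ε * U - 1 ≤ ⌊(β l (aa 0) (ww 0) - d 0 l) * J⌋₊ := fun l hl h0 => by
    rw [aa0, ww0]
    have h1 := fl_lvl (J := J) h0 (hd 0 (Nat.zero_le _) l hl).1.le (hd 0 (Nat.zero_le _) l hl).2
    exact ⟨h1.1, by linarith only [h1.2, sJ]⟩
  have gkf : ∀ l ≤ 3, ((⌊(β l (aa k₁) (ww k₁) - d k₁ l) * J⌋₊ : ℕ) : ℝ) ≤
      β l (t + q) (t + q) * J ∧ β l (t + q) (t + q) * J - ε * U - 1 ≤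
      ⌊(β l (aa k₁) (ww k₁) - d k₁ l) * J⌋₊ := fun l hl => by
    rw [aak, wwk]
    have h1 := fl_lvl (J := J) (bl l hl).1 (hd k₁ hk₁ l hl).1.le (hd k₁ hk₁ l hl).2
    exact ⟨h1.1, by linarith only [h1.2, sJ]⟩
  have mJ : ∀ {a b : ℝ}, a ≤ b → a * J ≤ b * J := fun h => mul_le_mul_of_nonneg_right h hJ0
  have m0 : β 0 t t * J ≤ tJ + ε * U := by
    have := mJ b0
    rw [add_mul, ← htJ] at this
    linarith only [this, s₀J]
  have m0' : tJ + U - ε * U ≤ β 0 (t + q) (t + q) * J := by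
    have := mJ b0'
    rw [tqJ, add_mul] at this
    linarith only [this, s₀J]
  have m1' : β 1 t t * J + U - ε * U ≤ β 1 (t + q) (t + q) * J := by
    have := mJ b1'
    rw [add_mul, add_mul, ← hU] at this
    linarith only [this, s₀J]
  have m2 : β 2 t t * J - ε * U ≤ β 2 (t + q) (t + q) * J := by
    have := mJ b2
    rw [add_mul] at this
    linarith only [this, s₀J]
  have m3 : β 3 (t + q) (t + q) * J ≤ β 3 t t * J + σ * U + ε * U := by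
    have := mJ b3
    have h2 : (β 3 t t + σ * q + s₀) * J = β 3 t t * J + σ * U + s₀ * J := by rw [hU]; ring
    linarith only [this, h2, s₀J]
  have mg : β 3 t t * J + 2 * (σ * U) - 3 * (ε * U) - 1 ≤ gS J := by
    have h1 := mJ hgam
    have h2 : (β 3 t t + 2 * σ * q) * J = β 3 t t * J + 2 * (σ * U) := by rw [hU]; ring
    have h3 : (gam + s₀) * J = gam * J + s₀ * J := by ring
    have h4 := Nat.lt_floor_add_one (gam * J)
    have h5 : ((⌊gam * J⌋₊ : ℕ) : ℝ) ≤ gS J := by exact_mod_cast hgS J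
    linarith only [h1, h2, h3, h4, h5, s₀J, hεU]
  obtain ⟨eM, heM⟩ : ∃ eM : ℝ, eM = max e E := ⟨_, rfl⟩
  have eM1 : e ≤ eM := by rw [heM]; exact le_max_left _ _
  have eM2 : E ≤ eM := by rw [heM]; exact le_max_right _ _
  rw [← heM] at he₂ hroom
  have efJ : (ef : ℝ) ≤ eM * J := by
    have h1 := Nat.floor_le (mul_nonneg he hJ0)
    rw [← hef] at h1
    exact h1.trans (mJ eM1)
  have EeJ : (Ee : ℝ) ≤ eM * J + ε * U := by
    have h1 := Nat.floor_le (show 0 ≤ (E + s) * J by positivity)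
    rw [← hEe] at h1
    have h2 := mJ eM2
    linarith only [h1, h2, sJ]
  have xJ0 : 0 ≤ x * J := mul_nonneg hx hJ0
  have XJ : (X : ℝ) ≤ (eM + x) * J + U + ε * U := by
    have h1 := Nat.floor_le xJ0
    have h2 : (C * (n3 + v3 + 1) : ℝ) ≤ y := by exact_mod_cast hCy'
    have h3 : ((max ef Ee : ℕ) : ℝ) ≤ eM * J + ε * U := by
      rw [Nat.cast_max]
      exact max_le (by linarith only [efJ, hεU]) EeJ
    have h4 : (X : ℝ) = C * (n3 + v3 + 1) + (max ef Ee : ℕ) + ⌊x * J⌋₊ := by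
      rw [hX]
      push_cast
      ring
    rw [h4]
    linarith only [h1, h2, h3, y1, syU, hU0]
  have hxq : ∀ z : ℝ, z * q * J = z * U := fun z => by rw [hU]; ring
  have g00 := g0f 0 (by norm_num) b00
  have g01 := g0f 1 (by norm_num) (ht0.trans b1)
  have g02 := g0f 2 (by norm_num) b20
  have g03 := g0f 3 le_rfl b30
  have gk0 := gkf 0 (by norm_num)
  have gk1 := gkf 1 (by norm_num)
  have gk2 := gkf 2 (by norm_num)
  have hpe : (p : ℝ) ≤ β 3 t t * J + (σ + ε + γ) * U + 1 := by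
    have h1 := Nat.floor_le (show 0 ≤ (β 3 (t + q) (t + q) + γ * q) * J from
      mul_nonneg (by linarith only [(bl 3 le_rfl).1, hγq]) hJ0)
    rw [← hp] at h1
    have h2 : (β 3 (t + q) (t + q) + γ * q) * J = β 3 (t + q) (t + q) * J + γ * U := by
      rw [hU]
      ring
    have h3 : (σ + ε + γ) * U = σ * U + ε * U + γ * U := by ring
    linarith only [h1, h2, h3, m3]
  have he1b : (eM + x) * J + U + 3 * ((σ + 5) * U) + 4 * U - 1 ≤ e1 := by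
    have h1 := Nat.lt_floor_add_one (e₂ * J)
    rw [← he1] at h1
    have h2 := mJ he₂
    have h3 : (eM + x + (3 * σ + 20) * q) * J = (eM + x) * J + U + 3 * ((σ + 5) * U) + 4 * U := by
      rw [hU]
      ring
    linarith only [h1, h2, h3]
  have N' := nni_num (b := b) (E := E') (N := 0) (U := U) (tJ := tJ) (σ := σ) (γ := γ) (ε := ε)
    (ys := ys) (K' := σ + 5) (eB := (eM + x) * J + U) (L1 := β 1 t t * J) (L2 := β 3 t t * J)
    (W := W) (Ak := A' k₁) (AN := A' N) (y := y) (s := sI) (p := p) (τg := τg) (e0 := X)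
    (ek := Ee) (e1 := e1) (e1' := sI + ef) (gS := gS J) (g00 := g' 0 0) (g01 := g' 0 1)
    (g02 := g₃) (gk0 := g' k₁ 0) (gk1 := g' k₁ 1) (A := fun _ => W) (g2 := fun _ => g₃)
    (x := fun _ => 0) hb2' hγ0 hγ1 hγ2 hε0 hεγ hys0 hysγ le_rfl
    (by linarith only [hρJ, hU1, hN0]) hU0 y1 sI1 (by linarith only [sIy, syU, hU0]) fA0
    (by linarith only [fA0']) fAk.2 fAk.1 fAN.2 fAN.1 (fun k _ => le_rfl) (fun k _ => by
      rw [zero_mul, add_zero]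
      exact fA0) (fun k _ => le_rfl) (fun k _ => by
      rw [hg₃, zero_mul, mul_zero]
      linarith only [g03.2, hεU]) (by
      rw [hg']
      beta_reduce
      linarith only [g00.1, m0]) (by
      rw [hg']
      beta_reduce
      linarith only [gk0.2, m0']) (by
      rw [hg']
      exact g01.1) (by
      rw [hg']
      exact g01.2) (by
      rw [htJ]
      exact mJ b1) (by
      rw [hg']
      beta_reduce
      linarith only [gk1.2, m1']) (by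
      rw [hg₃]
      exact g03.1) (by
      rw [hg₃]
      exact g03.2) mg hpe XJ (by
      have : 0 ≤ x * J := xJ0
      have h2 : (eM + x) * J = eM * J + x * J := by ring
      linarith only [EeJ, this, h2, hU0]) (by
      push_cast
      have h2 : (eM + x) * J = eM * J + x * J := by ring
      linarith only [efJ, h2, xJ0, hU0]) (Nat.le_add_right _ _) (by
      linarith only [he1b, hU0]) hτg (by
      rw [hA']
      refine Nat.floor_le_floor (mul_le_mul_of_nonneg_right ?_ hJ0)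
      rw [aak, aaN]
      linarith only [hq])
  obtain ⟨n1, n2, -, n4, n5, n6, n7, n8, n9, n10, n11, n12, n13, n14, n15, n16, n17⟩ := N'
  have n13' : X + 1 + g' 0 2 + p ≤ e1 + g' k₁ 2 + g₃ := by
    refine nat_le_re ?_
    have h1 : (g' 0 2 : ℝ) ≤ β 2 t t * J := by
      rw [hg']
      exact g02.1
    have h2 : β 2 t t * J - 2 * (ε * U) - 1 ≤ g' k₁ 2 := by
      rw [hg']
      beta_reduce
      linarith only [gk2.2, m2]
    have h3 : β 3 t t * J - ε * U - 1 ≤ g₃ := by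
      rw [hg₃]
      exact g03.2
    have h4 : (σ + ε + γ) * U = σ * U + ε * U + γ * U := by ring
    have h5 : γ * U ≤ U / 8 := by
      have h6 : γ ≤ 1 / 8 := by linarith only [hγ1, hγ2]
      have h7 := mul_le_mul_of_nonneg_right h6 hU0
      linarith only [h7]
    have h6 : 6 * (ε * U) ≤ γ * U := by
      have := mul_le_mul_of_nonneg_right hεγ hU0
      linarith only [this]
    have h7 : (σ + 5) * U = σ * U + 5 * U := by ring
    have h8 : 0 ≤ σ * U := mul_nonneg (by linarith only [hσ1, hb2']) hU0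
    push_cast
    linarith only [h1, h2, h3, hpe, h4, h5, h6, h7, h8, XJ, he1b, hρJ, hU1, hN0, hb2', hU0]
  have hWt : (W : ℝ) ≤ t * J := by
    rw [← htJ]
    exact fA0
  obtain ⟨Z, hZ⟩ : ∃ Z : ℝ, Z = ys * U := ⟨_, rfl⟩
  have hZ8 : 8 * (C' + 1) ≤ Z := by
    rw [hZ]
    linarith only [hU2, hCC1]
  have hZl : Z / 2 ≤ Z * Real.log 2 := by
    have h1 : Z * (1 / 2) ≤ Z * Real.log 2 :=
      mul_le_mul_of_nonneg_left hl2''.le (by linarith only [hZ8, hC1])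
    linarith only [h1]
  have hyl : (Z - 1) * Real.log 2 ≤ y * Real.log 2 :=
    mul_le_mul_of_nonneg_right (by rw [hZ]; exact y2) hl2.le
  have key : C' * (τ * J + 1) ≤ y * Real.log 2 := by
    have h1 : C' * (τ * J) = Z * Real.log 2 / 4 := by
      rw [hτ, hZ, hU]
      field_simp
    linarith only [h1, hZl, hyl, hZ8, hC1, hl2', hl2]
  have hY : ((sI : ℝ) + 1) * Real.log 2 + ys * q / 16 * J ≤ y * Real.log 2 := by
    have h1 : ys * q / 16 * J = Z / 16 := by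
      rw [hZ, hU]
      ring
    have h2 : ((sI : ℝ) + 1) * Real.log 2 ≤ (Z / 4 + 1) * Real.log 2 :=
      mul_le_mul_of_nonneg_right (by rw [hZ]; linarith only [sIy]) hl2.le
    linarith only [h1, h2, hZl, hyl, hZ8, hC1, hl2', hl2]
  obtain ⟨dd, hdd⟩ : ∃ dd : ℕ, dd = y + (A' N - W) + τg + 1 := ⟨_, rfl⟩
  rw [← hdd] at n16 n17
  have r1 := mJ hroom
  have r2 : (β 1 t t + eM + x + (3 * σ + 20) * q) * J =
      β 1 t t * J + ((eM + x) * J + U) + 3 * ((σ + 5) * U) + 4 * U := by rw [hU]; ring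
  have r3 := mJ ht1.le
  have r4 : (t + (σ + 5) * q) * J = tJ + (σ + 5) * U := by rw [hU, htJ]; ring
  obtain ⟨B₂, hB₂, hP₂, hPB, hI⟩ := hpos B c N W sI (v3 + 1) dd y (sI + ef) A' (fun _ => Ee) g' Gn
    Hn pP pH hBA hBP I hWt O.pg hY (nat_le_re (by
      push_cast at n16 ⊢
      linarith only [n16, r1, r2, hU0])) (nat_le_re (by
      push_cast
      linarith only [n17, r3, r4]))
  have hPB₂ : 0 < Pe F.p B₂ := by linarith only [hPB, hP₂]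
  have hAB₂ : Pe F.p A₀ ≤ 4 * K₁ * Pe F.p B₂ := by
    have h1 : K₁ * Pe F.p B ≤ K₁ * (4 * Pe F.p B₂) :=
      mul_le_mul_of_nonneg_left (by linarith only [hP₂]) hK₁.le
    linarith only [hBP, h1]
  have hB₂A : Sub B₂ A₀ := fun ω hω => hBA ω (hB₂ ω hω)
  have hexp : Real.exp (C' * (τ * J + 1)) ≤ 2 ^ y := by
    have h1 : (2 : ℝ) ^ y = Real.exp (y * Real.log 2) := by
      rw [mul_comm, Real.exp_mul, Real.exp_log (by norm_num), Real.rpow_natCast]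
    rw [h1]
    exact Real.exp_le_exp.2 key
  have hCy'' : C' ≤ 2 ^ y := by
    refine le_trans ?_ hexp
    have h1 := Real.add_one_le_exp (C' * (τ * J + 1))
    have h2 : 0 ≤ C' * (τ * J) := by positivity
    linarith only [h1, h2]
  have hyJ : C' * (τ * J + 1) ≤ ((J : ℝ) - W) * Real.log 2 := by
    refine key.trans (mul_le_mul_of_nonneg_right ?_ hl2.le)
    have h8 : 0 ≤ σ * U := mul_nonneg (by linarith only [hσ1, hb2']) hU0
    have h7 : (σ + 5) * U = σ * U + 5 * U := by ring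
    linarith only [r3, r4, hWt, htJ, y1, syU, hU0, h7, h8]
  obtain ⟨B₃, G₃, H₃, hB₃, hP₃, hch⟩ := hev F B₂ hPB₂ (c := c) (W := W) (s := sI) (v := v3 + 1)
    (e := ef) (X := X) (g₃ := g₃) (gS := gS J) (w := ⌊w * J⌋₊) (k₁ := k₁) (y := y) (t := τg)
    (p := p) (d := dd) (e₁ := e1) (θ := τ * J) (A := A') (ee := fun _ => Ee) (g := g') (G := Gn)
    (H := Hn) (pP := pP) (pH := pH) (xP := xP) (xH := xH) (Gx := Gx) (zP := zP) (Gl := Gl)
    (zH := zH) (f := f) (f' := f') (kf := kf) (yt := yp F c W (g' 0 1) (fun y => pP y 1))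
    (O.sub hB₂) (by
      rw [hW, aa0]
      exact Nat.floor_le_floor (mJ hwt)) (fun ω hω => hGc ω (hB₂ ω hω))
    (fun ω hω => hGd ω (hB₂ ω hω)) hk₁ hI hCy'' (by positivity) (hTm B₂ hB₂A hAB₂ hPB₂) hyJ hexp
    hCy n1 n2 (by
      rw [hA']
      refine Nat.floor_le_floor (mul_le_mul_of_nonneg_right ?_ hJ0)
      rw [aak, aaN]
      linarith only [hq]) (by omega) n5 (le_of_eq hdd.symm) n6 n7 n8 n9 n10 (by omega) n12
    (fun j hj => by
      have : j = 0 ∨ j = 1 ∨ j = 2 := by omega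
      rcases this with rfl | rfl | rfl
      · omega
      · omega
      · exact n13') n15
  have hAB₃ : Pe F.p A₀ ≤ 8 * K₁ * Pe F.p B₃ := by
    have h1 : K₁ * Pe F.p B₂ ≤ K₁ * (2 * Pe F.p B₃) :=
      mul_le_mul_of_nonneg_left (by linarith only [hP₃]) hK₁.le
    linarith only [hAB₂, h1]
  have hAkw : A' k₁ ≤ ⌊(w' : ℝ) * J⌋₊ := by
    rw [hA']
    refine Nat.floor_le_floor (mul_le_mul_of_nonneg_right ?_ hJ0)
    rw [aak]
    exact hw1.le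
  refine hno B₃ (fun ω hω => hB₂A ω (hB₃ ω hω)) hAB₃ (A' k₁) (A' k₁) e1
    (fun j => if j < 3 then g' k₁ j else p) le_rfl hAkw hAkw (le_of_eq he1) (fun l hl => ?_) ?_
    ⟨G₃, H₃, hch⟩
  · rcases Nat.lt_or_ge l 3 with h5 | h5
    · simp only [if_pos h5]
      refine nat_le_re ?_
      have h2 := (gkf l hl).1
      have h3 := mJ (bl l hl).2
      rw [hg']
      beta_reduce
      linarith only [h2, h3]
    · have h6 : l = 3 := by omega
      subst h6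
      simp only [lt_irrefl, if_false]
      refine nat_le_re ?_
      rw [hp]
      have h8 := Nat.floor_le (show 0 ≤ (β 3 (t + q) (t + q) + γ * q) * J from
        mul_nonneg (by linarith only [(bl 3 le_rfl).1, hγq]) hJ0)
      have h9 := mJ (show β 3 (t + q) (t + q) + γ * q ≤ 1 by linarith only [b3', hγq1])
      linarith only [h8, h9]
  · simp only [lt_irrefl, if_false]
    refine add_le_add ?_ hAkw
    rw [hp]
    refine Nat.floor_le_floor (mul_le_mul_of_nonneg_right ?_ hJ0)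
    linarith only [hbet, hγq]

end Pool.STB77
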